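import Pool.Agent.W671.WI2

/-! Flat polynomials. -/

set_option autoImplicit false

open Finset Filter Topology
open scoped ENNReal

namespace Pool.Agent.W671.WI

/-- the polynomial `(1 + X + X² - X³) / 4` -/
noncomputable def g4 : Polynomial ℂ :=
  Polynomial.C (1 / 4) * (1 + Polynomial.X + Polynomial.X ^ 2 - Polynomial.X ^ 3)

theorem g4_natDegree : g4.natDegree < 4 := by
  unfold g4
  refine lt_of_le_of_lt (Polynomial.natDegree_C_mul_le _ _) ?_
  have : (1 + Polynomial.X + Polynomial.X ^ 2 - Polynomial.X ^ 3 : Polynomial ℂ).natDegree ≤ 3 := by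
    compute_degree
  omega

theorem g4_norm : N1 (pc g4) = 1 := by
  unfold N1 pc
  rw [tsum_eq_sum (s := range 4)]
  · have h0 : g4.coeff 0 = 1 / 4 := by
      unfold g4
      rw [Polynomial.coeff_C_mul]
      simp [Polynomial.coeff_one, Polynomial.coeff_X]
    have h1 : g4.coeff 1 = 1 / 4 := by
      unfold g4
      rw [Polynomial.coeff_C_mul]
      simp [Polynomial.coeff_one, Polynomial.coeff_X, Polynomial.coeff_X_pow]
    have h2 : g4.coeff 2 = 1 / 4 := by
      unfold g4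
      rw [Polynomial.coeff_C_mul]
      simp [Polynomial.coeff_one, Polynomial.coeff_X, Polynomial.coeff_X_pow]
    have h3 : g4.coeff 3 = -(1 / 4) := by
      unfold g4
      rw [Polynomial.coeff_C_mul]
      simp [Polynomial.coeff_one, Polynomial.coeff_X, Polynomial.coeff_X_pow]
    rw [Finset.sum_range_succ, Finset.sum_range_succ, Finset.sum_range_succ, Finset.sum_range_one,
      h0, h1, h2, h3, enorm_neg]
    have h4 : ‖(1 / 4 : ℂ)‖ₑ = ENNReal.ofReal (1 / 4) := by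
      rw [← ofReal_norm]
      norm_num
    rw [h4, ← ENNReal.ofReal_add (by norm_num) (by norm_num),
      ← ENNReal.ofReal_add (by norm_num) (by norm_num),
      ← ENNReal.ofReal_add (by norm_num) (by norm_num)]
    norm_num
  · intro n hn
    rw [Finset.mem_range, not_lt] at hn
    rw [Polynomial.coeff_eq_zero_of_natDegree_lt (by have := g4_natDegree; omega), enorm_zero]

theorem g4_eval {z : ℂ} (hz : ‖z‖ ≤ 1) : ‖g4.eval z‖ ≤ 3 / 4 := by
  have h1 : g4.eval z = (1 / 4) * ((1 + z) + z ^ 2 * (1 - z)) := by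
    unfold g4
    simp
    ring
  have hp : ‖(1 + z) + z ^ 2 * (1 - z)‖ ≤ ‖1 + z‖ + ‖1 - z‖ := by
    refine (norm_add_le _ _).trans ?_
    rw [norm_mul, norm_pow]
    have : ‖z‖ ^ 2 * ‖1 - z‖ ≤ 1 * ‖1 - z‖ :=
      mul_le_mul_of_nonneg_right (pow_le_one₀ (norm_nonneg _) hz) (norm_nonneg _)
    linarith
  have hq : ‖1 + z‖ ^ 2 + ‖1 - z‖ ^ 2 ≤ 4 := by
    have e1 : ‖1 + z‖ ^ 2 + ‖1 - z‖ ^ 2 = 2 + 2 * ‖z‖ ^ 2 := by
      have := parallelogram_law_with_norm ℝ (1 : ℂ) z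
      rw [norm_one] at this
      nlinarith
    nlinarith [norm_nonneg z]
  rw [h1, norm_mul]
  have h4 : ‖(1 / 4 : ℂ)‖ = 1 / 4 := by norm_num
  rw [h4]
  nlinarith [sq_nonneg (‖1 + z‖ - ‖1 - z‖), norm_nonneg (1 + z), norm_nonneg (1 - z)]

/-- products of dilates -/
noncomputable def QQ (s : ℕ) : Polynomial ℂ := ∏ i ∈ range s, Polynomial.expand ℂ (4 ^ i) g4

theorem QQ_succ (s : ℕ) : QQ (s + 1) = QQ s * Polynomial.expand ℂ (4 ^ s) g4 :=
  Finset.prod_range_succ _ _

theorem QQ_natDegree (s : ℕ) : (QQ s).natDegree < 4 ^ s := by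
  induction s with
  | zero => simp [QQ]
  | succ s ih =>
    rw [QQ_succ]
    refine lt_of_le_of_lt Polynomial.natDegree_mul_le ?_
    rw [Polynomial.natDegree_expand]
    have h1 := g4_natDegree
    have h2 : g4.natDegree * 4 ^ s ≤ 3 * 4 ^ s := Nat.mul_le_mul_right _ (by omega)
    have h3 : 4 ^ (s + 1) = 4 * 4 ^ s := by ring
    omega

theorem QQ_norm (s : ℕ) : N1 (pc (QQ s)) = 1 := by
  induction s with
  | zero =>
    have : QQ 0 = Polynomial.C 1 := by simp [QQ]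
    rw [this, N1_C]
    simp
  | succ s ih => rw [QQ_succ, N1_mul_expand _ _ _ (QQ_natDegree s), ih, g4_norm, one_mul]

theorem QQ_eval (s : ℕ) {z : ℂ} (hz : ‖z‖ ≤ 1) : ‖(QQ s).eval z‖ ≤ (3 / 4) ^ s := by
  induction s with
  | zero => simp [QQ]
  | succ s ih =>
    rw [QQ_succ, Polynomial.eval_mul, norm_mul, pow_succ, Polynomial.expand_eval]
    refine mul_le_mul ih (g4_eval ?_) (norm_nonneg _) (by positivity)
    rw [norm_pow]
    exact pow_le_one₀ (norm_nonneg _) hz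

/-- the block -/
noncomputable def qq (s : ℕ) : Polynomial ℂ := Polynomial.X ^ (4 ^ s) * QQ s

theorem qq_blk (s : ℕ) : Blk (4 ^ s) (qq s) := by
  refine ⟨by positivity, ⟨QQ s, rfl⟩, ?_, ?_⟩
  · refine lt_of_le_of_lt Polynomial.natDegree_mul_le ?_
    rw [Polynomial.natDegree_X_pow]
    have := QQ_natDegree s
    omega
  · have e : qq s = QQ s * Polynomial.expand ℂ (4 ^ s) Polynomial.X := by
      rw [Polynomial.expand_X, qq, mul_comm]
    rw [e, N1_mul_expand _ _ _ (QQ_natDegree s), QQ_norm, one_mul]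
    unfold N1 pc
    rw [tsum_eq_single 1]
    · rw [Polynomial.coeff_X_one]
      simp
    · intro n hn
      rw [Polynomial.coeff_X_of_ne_one hn, enorm_zero]

theorem qq_eval (s : ℕ) {z : ℂ} (hz : ‖z‖ ≤ 1) : ‖(qq s).eval z‖ ≤ (3 / 4) ^ s := by
  unfold qq
  rw [Polynomial.eval_mul, norm_mul, Polynomial.eval_pow, Polynomial.eval_X, norm_pow]
  calc ‖z‖ ^ 4 ^ s * ‖(QQ s).eval z‖ ≤ 1 * (3 / 4) ^ s :=
        mul_le_mul (pow_le_one₀ (norm_nonneg _) hz) (QQ_eval s hz) (norm_nonneg _) zero_le_one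
    _ = _ := one_mul _

theorem wn_eval (D s n : ℕ) {z : ℂ} (hz : ‖z‖ ≤ 1) :
    ‖(wn D (qq s) n).eval z‖ ≤ n * (3 / 4) ^ s := by
  unfold wn
  rw [Polynomial.eval_finsetSum]
  refine (norm_sum_le _ _).trans ?_
  refine (Finset.sum_le_card_nsmul _ _ ((3 / 4 : ℝ) ^ s) fun i _ => ?_).trans ?_
  · rw [Polynomial.expand_eval]
    refine qq_eval s ?_
    rw [norm_pow]
    exact pow_le_one₀ (norm_nonneg _) hz
  · rw [Finset.card_range, nsmul_eq_mul]

theorem wn_norm_le (D s n : ℕ) (hD : 0 < D) : N1 (pc (wn D (qq s) n)) ≤ n := by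
  unfold wn
  refine (N1_sum_le _ _).trans ?_
  refine (Finset.sum_le_card_nsmul _ _ (1 : ℝ≥0∞) fun i _ => ?_).trans ?_
  · have e : Polynomial.expand ℂ (D ^ i) (qq s) = 1 * Polynomial.expand ℂ (D ^ i) (qq s) := by
      rw [one_mul]
    have hDi : 0 < D ^ i := Nat.pow_pos hD
    rw [e, N1_mul_expand _ _ _ (by rw [Polynomial.natDegree_one]; exact hDi), (qq_blk s).norm,
      mul_one, ← Polynomial.C_1, N1_C]
    simp
  · rw [Finset.card_range, nsmul_eq_mul, mul_one]

end Pool.Agent.W671.WI
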