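import Mathlib
import Pool.Agent.H826R2.Wein.HFlow

/-! Representation of a one-form on a compact manifold as a finite sum of products `f dg`, and the
generating function `S`. -/

open scoped Topology ContDiff Manifold
open Set Metric Bundle Filter Pool.Agent.Helper186 Pool.Agent.H826R2.Wein

noncomputable section

namespace Pool.Agent.W671.WU

set_option linter.unusedSectionVars false

universe u

variable {E : Type u} [NormedAddCommGroup E] [NormedSpace ℝ E] [FiniteDimensional ℝ E]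
  {P : Type*} [TopologicalSpace P] [ChartedSpace E P] [IsManifold 𝓘(ℝ, E) ∞ P]

lemma smooth_coord {n : ℕ} (ι : Imm (E := E) P n) (i : Fin n) :
    ContMDiff 𝓘(ℝ, E) 𝓘(ℝ, ℝ) ∞ (fun y => ι.F y i) := by
  have h : ContMDiff 𝓘(ℝ, EuclideanSpace ℝ (Fin n)) 𝓘(ℝ, ℝ) ∞
      (EuclideanSpace.proj i : EuclideanSpace ℝ (Fin n) →L[ℝ] ℝ) :=
    (EuclideanSpace.proj i : EuclideanSpace ℝ (Fin n) →L[ℝ] ℝ).contMDiff
  exact h.comp ι.smooth

lemma D_coord {n : ℕ} (ι : Imm (E := E) P n) (i : Fin n) (x : P) (v : TangentSpace 𝓘(ℝ, E) x) :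
    (ι.D x v) i = dForm 𝓘(ℝ, E) (fun y => ι.F y i) x v := by
  have h1 := HasMFDerivAt.comp x (g := (EuclideanSpace.proj i : EuclideanSpace ℝ (Fin n) →L[ℝ] ℝ))
    (f := ι.F) (EuclideanSpace.proj i : EuclideanSpace ℝ (Fin n) →L[ℝ] ℝ).hasMFDerivAt
    (ι.smooth.mdifferentiableAt (x := x) (by simp)).hasMFDerivAt
  have h2 := h1.mfderiv
  exact (DFunLike.congr_fun h2 v).symm

/-- a smooth one-form is a finite sum of products `f dg` -/
theorem exists_rep {n : ℕ} (ι : Imm (E := E) P n)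
    {β : (x : P) → TangentSpace 𝓘(ℝ, E) x →L[ℝ] ℝ} (hβ : SmoothForm β) :
    ∃ f : Fin n → P → ℝ, (∀ i, ContMDiff 𝓘(ℝ, E) 𝓘(ℝ, ℝ) ∞ (f i)) ∧
      ∀ (x : P) (v : TangentSpace 𝓘(ℝ, E) x),
        β x v = ∑ i, f i x * dForm 𝓘(ℝ, E) (fun y => ι.F y i) x v := by
  choose Z hZ using fun x => ι.exists_sh x (β x)
  have hZs : ContMDiff 𝓘(ℝ, E) 𝓘(ℝ, E).tangent ∞
      (fun x => (⟨x, Z x⟩ : TangentBundle 𝓘(ℝ, E) P)) := by
    intro x
    refine contMDiffAt_of_pairing (J := 𝓘(ℝ, E)) (f := fun x : P => x) contMDiffAt_id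
      (ι.smoothBilin x) (ι.nondeg x) ?_
    intro v hv
    have h1 : ContMDiffAt 𝓘(ℝ, E) 𝓘(ℝ, ℝ) ∞ (fun x => β x (v x)) x := hβ.comp hv le_rfl
    refine h1.congr_of_eventuallyEq (Filter.Eventually.of_forall fun p => ?_)
    exact hZ p (v p)
  refine ⟨fun i x => dForm 𝓘(ℝ, E) (fun y => ι.F y i) x (Z x), fun i => ?_, fun x v => ?_⟩
  · intro x
    exact (smoothForm_dForm (smooth_coord ι i)).comp (hZs x) le_rfl
  · rw [← hZ x v, ι.B_apply, PiLp.inner_apply]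
    refine Finset.sum_congr rfl fun i _ => ?_
    rw [D_coord, D_coord]
    show dForm 𝓘(ℝ, E) (fun y => ι.F y i) x v * dForm 𝓘(ℝ, E) (fun y => ι.F y i) x (Z x) = _
    rw [mul_comm]

/-- the generating function -/
def S {n : ℕ} (f g : Fin n → P → ℝ) (x y : P) : ℝ :=
  (∑ i, (f i x + f i y) * (g i y - g i x)) / 2

lemma S_self {n : ℕ} (f g : Fin n → P → ℝ) (x : P) : S f g x x = 0 := by
  simp [S]

lemma continuous_S {n : ℕ} {f g : Fin n → P → ℝ} (hf : ∀ i, Continuous (f i))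
    (hg : ∀ i, Continuous (g i)) : Continuous (fun p : P × P => S f g p.1 p.2) := by
  unfold S
  refine Continuous.div_const ?_ _
  refine continuous_finsetSum _ fun i _ => ?_
  have h1 := hf i
  have h2 := hg i
  fun_prop

/-- the derivative of `S` in the direction of `R` at the second point -/
def A {n : ℕ} (f g : Fin n → P → ℝ) (R : (x : P) → TangentSpace 𝓘(ℝ, E) x) (x y : P) : ℝ :=
  (∑ i, (dForm 𝓘(ℝ, E) (f i) y (R y) * (g i y - g i x) +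
    (f i x + f i y) * dForm 𝓘(ℝ, E) (g i) y (R y))) / 2

lemma A_self {n : ℕ} {f g : Fin n → P → ℝ} {R : (x : P) → TangentSpace 𝓘(ℝ, E) x}
    {β : (x : P) → TangentSpace 𝓘(ℝ, E) x →L[ℝ] ℝ}
    (hrep : ∀ (x : P) (v : TangentSpace 𝓘(ℝ, E) x),
        β x v = ∑ i, f i x * dForm 𝓘(ℝ, E) (g i) x v)
    (hR : ∀ x, β x (R x) = 1) (x : P) : A f g R x x = 1 := by
  have h1 := hrep x (R x)
  rw [hR] at h1
  unfold A
  have h2 : (∑ i, (dForm 𝓘(ℝ, E) (f i) x (R x) * (g i x - g i x) +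
      (f i x + f i x) * dForm 𝓘(ℝ, E) (g i) x (R x))) =
      2 * ∑ i, f i x * dForm 𝓘(ℝ, E) (g i) x (R x) := by
    rw [Finset.mul_sum]
    refine Finset.sum_congr rfl fun i _ => ?_
    ring
  rw [h2, ← h1]
  norm_num

lemma continuous_dR {R : (x : P) → TangentSpace 𝓘(ℝ, E) x}
    (hR : ContMDiff 𝓘(ℝ, E) 𝓘(ℝ, E).tangent ∞ (fun x => (⟨x, R x⟩ : TangentBundle 𝓘(ℝ, E) P)))
    {f : P → ℝ} (hf : ContMDiff 𝓘(ℝ, E) 𝓘(ℝ, ℝ) ∞ f) :
    Continuous (fun y => dForm 𝓘(ℝ, E) f y (R y)) := by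
  have h : ContMDiff 𝓘(ℝ, E) 𝓘(ℝ, ℝ) ∞ (fun y => dForm 𝓘(ℝ, E) f y (R y)) :=
    fun x => (smoothForm_dForm hf).comp (hR x) le_rfl
  exact h.continuous

lemma continuous_A {n : ℕ} {f g : Fin n → P → ℝ} {R : (x : P) → TangentSpace 𝓘(ℝ, E) x}
    (hR : ContMDiff 𝓘(ℝ, E) 𝓘(ℝ, E).tangent ∞ (fun x => (⟨x, R x⟩ : TangentBundle 𝓘(ℝ, E) P)))
    (hf : ∀ i, ContMDiff 𝓘(ℝ, E) 𝓘(ℝ, ℝ) ∞ (f i))
    (hg : ∀ i, ContMDiff 𝓘(ℝ, E) 𝓘(ℝ, ℝ) ∞ (g i)) :
    Continuous (fun p : P × P => A f g R p.1 p.2) := by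
  unfold A
  refine Continuous.div_const ?_ _
  refine continuous_finsetSum _ fun i _ => ?_
  have h1 := (hf i).continuous
  have h2 := (hg i).continuous
  have h3 := (continuous_dR hR (hf i)).comp (continuous_snd (X := P) (Y := P))
  have h4 := (continuous_dR hR (hg i)).comp (continuous_snd (X := P) (Y := P))
  refine Continuous.add (Continuous.mul h3 (by fun_prop)) (Continuous.mul (by fun_prop) h4)

/-- the derivative of `S` along an integral curve of `R` at the second point -/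
lemma hasDerivAt_S {n : ℕ} {f g : Fin n → P → ℝ} {R : (x : P) → TangentSpace 𝓘(ℝ, E) x}
    (hf : ∀ i, ContMDiff 𝓘(ℝ, E) 𝓘(ℝ, ℝ) ∞ (f i))
    (hg : ∀ i, ContMDiff 𝓘(ℝ, E) 𝓘(ℝ, ℝ) ∞ (g i)) (x : P) {c : ℝ → P} {t : ℝ}
    (hc : HasMFDerivAt 𝓘(ℝ, ℝ) 𝓘(ℝ, E) c t ((1 : ℝ →L[ℝ] ℝ).smulRight (R (c t)))) :
    HasDerivAt (fun s => S f g x (c s)) (A f g R x (c t)) t := by
  unfold S A
  refine HasDerivAt.div_const ?_ _
  refine HasDerivAt.fun_sum fun i _ => ?_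
  have h1 := hasDerivAt_along hc (hf i)
  have h2 := hasDerivAt_along hc (hg i)
  have h3 := (h1.const_add (f i x)).mul (h2.sub_const (g i x))
  exact h3

end Pool.Agent.W671.WU
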