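import Mathlib
import Pool.Agent.W671.WU1

/-! The variational argument: a point at which the return time, defined by the equation
`S (x, φ_t x) = 0`, is maximal. -/

open scoped Topology ContDiff Manifold
open Set Metric Bundle Filter Pool.Agent.Helper186 Pool.Agent.H826R2.Wein

noncomputable section

namespace Pool.Agent.W671.WU

set_option linter.unusedSectionVars false

universe u

variable {E : Type u} [NormedAddCommGroup E] [NormedSpace ℝ E] [FiniteDimensional ℝ E]
  {P : Type*} [TopologicalSpace P] [ChartedSpace E P] [IsManifold 𝓘(ℝ, E) ∞ P]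

/-- `Fl` is the flow of the vector field `R` -/
structure RFlow (R : (x : P) → TangentSpace 𝓘(ℝ, E) x) (Fl : P → ℝ → P) : Prop where
  zero : ∀ x, Fl x 0 = x
  int : ∀ x, IsMIntegralCurve (I := 𝓘(ℝ, E)) (Fl x) R

theorem exists_max [T2Space P] [CompactSpace P] [Nonempty P] {n : ℕ} {f g : Fin n → P → ℝ}
    {R : (x : P) → TangentSpace 𝓘(ℝ, E) x}
    (hf : ∀ i, ContMDiff 𝓘(ℝ, E) 𝓘(ℝ, ℝ) ∞ (f i))
    (hg : ∀ i, ContMDiff 𝓘(ℝ, E) 𝓘(ℝ, ℝ) ∞ (g i))
    {Fl : P → ℝ → P} (hFl : RFlow R Fl) (hFc : Continuous (fun p : P × ℝ => Fl p.1 p.2))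
    {τ : P → ℝ} (hτ : Continuous τ) {δ : ℝ} (hδ : 0 < δ)
    (hA : ∀ x, ∀ s ∈ Icc (-δ) δ, 1 / 2 < A f g R x (Fl x (τ x + s)))
    (hS : ∀ x, |S f g x (Fl x (τ x))| < δ / 4) :
    ∃ (x : P) (t : ℝ), |t - τ x| ≤ 2 * |S f g x (Fl x (τ x))| ∧ S f g x (Fl x t) = 0 ∧
      ∀ γ : ℝ → P, ContinuousAt γ 0 → γ 0 = x → ∀ d : ℝ,
        HasDerivAt (fun r => S f g (γ r) (Fl (γ r) t)) d 0 → d = 0 := by
  have hSc := continuous_S (fun i => (hf i).continuous) (fun i => (hg i).continuous)
  set G : P → ℝ → ℝ := fun x s => S f g x (Fl x (τ x + s)) with hG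
  have hGc : Continuous (fun p : P × ℝ => G p.1 p.2) := by
    have h1 : Continuous (fun p : P × ℝ => Fl p.1 (τ p.1 + p.2)) :=
      hFc.comp (continuous_fst.prodMk ((hτ.comp continuous_fst).add continuous_snd))
    exact hSc.comp (continuous_fst.prodMk h1)
  have hGd : ∀ x s, HasDerivAt (G x) (A f g R x (Fl x (τ x + s))) s := by
    intro x s
    have h1 := hasDerivAt_S hf hg x (hFl.int x (τ x + s))
    exact h1.comp_const_add (τ x) s
  have hmono : ∀ x, ∀ s₁ ∈ Icc (-δ) δ, ∀ s₂ ∈ Icc (-δ) δ, s₁ ≤ s₂ →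
      (s₂ - s₁) / 2 ≤ G x s₂ - G x s₁ := by
    intro x s₁ h1 s₂ h2 h12
    rcases h12.eq_or_lt with rfl | h12
    · simp
    · have h3 := Convex.mul_sub_lt_image_sub_of_lt_deriv (convex_Icc (-δ) δ) (f := G x)
        (fun s _ => (hGd x s).continuousAt.continuousWithinAt)
        (fun s _ => (hGd x s).differentiableAt.differentiableWithinAt) (C := 1 / 2)
        (fun s hs => by
          rw [(hGd x s).deriv]
          exact hA x s (interior_subset hs)) s₁ h1 s₂ h2 h12
      linarith
  have h0mem : (0 : ℝ) ∈ Icc (-δ) δ := ⟨by linarith, hδ.le⟩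
  have hG0 : ∀ x, |G x 0| < δ / 4 := by
    intro x
    have := hS x
    simp only [hG, add_zero]
    exact this
  -- the compact set of return times
  set K : Set (P × ℝ) := {p | p.2 ∈ Icc (-δ) δ ∧ G p.1 p.2 = 0} with hK
  have hKc : IsCompact K := by
    have h1 : K = (univ ×ˢ Icc (-δ) δ) ∩ {p | G p.1 p.2 = 0} := by
      ext p; simp [hK]
    rw [h1]
    exact (isCompact_univ.prod isCompact_Icc).inter_right (isClosed_eq hGc continuous_const)
  have hKn : K.Nonempty := by
    obtain ⟨x⟩ := (inferInstance : Nonempty P)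
    have h1 := hmono x (-δ) ⟨le_rfl, by linarith⟩ 0 h0mem (by linarith)
    have h2 := hmono x 0 h0mem δ ⟨by linarith, le_rfl⟩ hδ.le
    have h3 := abs_lt.1 (hG0 x)
    have h4 : (0 : ℝ) ∈ Icc (G x (-δ)) (G x δ) := ⟨by linarith, by linarith⟩
    have h5 := intermediate_value_Icc (show -δ ≤ δ by linarith) (f := G x)
      (fun s _ => (hGd x s).continuousAt.continuousWithinAt) h4
    obtain ⟨s, hs, hs0⟩ := h5
    exact ⟨(x, s), hs, hs0⟩
  obtain ⟨⟨x, s⟩, ⟨hs, hGs⟩, hmax⟩ := hKc.exists_isMaxOn hKn (f := fun p : P × ℝ => τ p.1 + p.2)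
    ((hτ.comp continuous_fst).add continuous_snd).continuousOn
  simp only at hs hGs
  have hsb : |s| ≤ 2 * |G x 0| := by
    rcases le_total 0 s with h | h
    · have h1 := hmono x 0 h0mem s hs h
      rw [hGs] at h1
      rw [abs_of_nonneg h]
      have := neg_abs_le (G x 0)
      linarith
    · have h1 := hmono x s hs 0 h0mem h
      rw [hGs] at h1
      rw [abs_of_nonpos h]
      have := le_abs_self (G x 0)
      linarith
  have hs2 : |s| < δ / 2 := by linarith [hG0 x]
  refine ⟨x, τ x + s, ?_, hGs, ?_⟩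
  · have h1 : |τ x + s - τ x| = |s| := by congr 1; ring
    rw [h1]
    have h2 : G x 0 = S f g x (Fl x (τ x)) := by simp only [hG, add_zero]
    rw [← h2]
    exact hsb
  · intro γ hγ hγ0 d hd
    by_contra hne
    set h : ℝ → ℝ := fun r => S f g (γ r) (Fl (γ r) (τ x + s)) with hh
    have hh0 : h 0 = 0 := by simp only [hh, hγ0]; exact hGs
    have hnot : ¬ IsLocalMin h 0 := fun hm => hne (hm.hasDerivAt_eq_zero hd)
    have hfreq : ∃ᶠ r in 𝓝 (0:ℝ), h r < 0 := by
      intro hcon
      apply hnot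
      refine hcon.mono fun r hr => ?_
      rw [hh0]
      exact not_lt.1 hr
    -- at the time `t + δ / 4`
    have hpos : 0 < S f g x (Fl x (τ x + (s + δ / 4))) := by
      have h2 := abs_lt.1 hs2
      have h1 := hmono x s hs (s + δ / 4) ⟨by linarith, by linarith⟩ (by linarith)
      rw [hGs] at h1
      have h3 : G x (s + δ / 4) = S f g x (Fl x (τ x + (s + δ / 4))) := rfl
      rw [← h3]
      linarith
    have hev1 : ∀ᶠ r in 𝓝 (0:ℝ), 0 < S f g (γ r) (Fl (γ r) (τ x + (s + δ / 4))) := by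
      have hc1 : ContinuousAt (fun r => S f g (γ r) (Fl (γ r) (τ x + (s + δ / 4)))) 0 := by
        have h1 : Continuous (fun y : P => S f g y (Fl y (τ x + (s + δ / 4)))) :=
          hSc.comp (continuous_id.prodMk (hFc.comp (continuous_id.prodMk continuous_const)))
        exact ContinuousAt.comp (g := fun y : P => S f g y (Fl y (τ x + (s + δ / 4))))
          h1.continuousAt hγ
      refine hc1.eventually (lt_mem_nhds ?_)
      simpa only [hγ0] using hpos
    have hev2 : ∀ᶠ r in 𝓝 (0:ℝ), |τ (γ r) - τ x| < δ / 4 := by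
      have h1 : ContinuousAt (fun r => |τ (γ r) - τ x|) 0 := by
        have h2 : Continuous (fun y : P => |τ y - τ x|) := by fun_prop
        exact ContinuousAt.comp (g := fun y : P => |τ y - τ x|) h2.continuousAt hγ
      refine h1.eventually (gt_mem_nhds ?_)
      simp only [hγ0, sub_self, abs_zero]
      positivity
    obtain ⟨r, hr1, hr2, hr3⟩ := (hfreq.and_eventually (hev1.and hev2)).exists
    -- a zero between the two times
    have hcr : Continuous (fun σ : ℝ => S f g (γ r) (Fl (γ r) (τ x + s + σ))) :=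
      hSc.comp (continuous_const.prodMk (hFc.comp (continuous_const.prodMk (by fun_prop))))
    have h4 : (0 : ℝ) ∈ Ioo (S f g (γ r) (Fl (γ r) (τ x + s + 0)))
        (S f g (γ r) (Fl (γ r) (τ x + s + δ / 4))) := by
      refine ⟨?_, ?_⟩
      · rw [add_zero]; exact hr1
      · rw [add_assoc]; exact hr2
    have h5 := intermediate_value_Ioo (show (0:ℝ) ≤ δ / 4 by positivity)
      (f := fun σ : ℝ => S f g (γ r) (Fl (γ r) (τ x + s + σ))) hcr.continuousOn h4
    obtain ⟨σ, hσ, hσ0⟩ := h5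
    have h6 : (γ r, τ x + s + σ - τ (γ r)) ∈ K := by
      refine ⟨?_, ?_⟩
      · simp only
        have h7 := abs_lt.1 hs2
        have h8 := abs_lt.1 hr3
        constructor <;> linarith [hσ.1, hσ.2]
      · simp only [hG]
        rw [show τ (γ r) + (τ x + s + σ - τ (γ r)) = τ x + s + σ by ring]
        exact hσ0
    have h7 := hmax h6
    simp only [mem_ofPred_eq] at h7
    linarith [hσ.1]

end Pool.Agent.W671.WU
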