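import Mathlib
import Pool.Agent.W671.WU2

/-! Computations in a chart. -/

open scoped Topology ContDiff Manifold
open Set Metric Bundle Filter Pool.Agent.Helper186 Pool.Agent.H826R2.Wein

noncomputable section

namespace Pool.Agent.W671.WU

set_option linter.unusedSectionVars false

universe u

variable {E : Type u} [NormedAddCommGroup E] [NormedSpace ℝ E]

lemma tendsto_app {l : Filter ℕ} {F : Type*} [NormedAddCommGroup F] [NormedSpace ℝ F]
    {A : ℕ → E →L[ℝ] F} {A₀ : E →L[ℝ] F} (hA : Tendsto A l (𝓝 A₀)) {v : ℕ → E} {v₀ : E}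
    (hv : Tendsto v l (𝓝 v₀)) : Tendsto (fun k => A k (v k)) l (𝓝 (A₀ v₀)) :=
  ((isBoundedBilinearMap_apply (𝕜 := ℝ) (E := E) (F := F)).continuous.tendsto (A₀, v₀)).comp
    (hA.prodMk_nhds hv)

lemma tendsto_quot {l : Filter ℕ} {F : E → ℝ} {F' : E →L[ℝ] ℝ} {p₀ : E} (hF : HasStrictFDerivAt F F' p₀)
    {p q : ℕ → E} (hp : Tendsto p l (𝓝 p₀)) (hq : Tendsto q l (𝓝 p₀)) {z : E}
    (hz : Tendsto (fun k => ‖q k - p k‖⁻¹ • (q k - p k)) l (𝓝 z)) :
    Tendsto (fun k => (F (q k) - F (p k)) * ‖q k - p k‖⁻¹) l (𝓝 (F' z)) := by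
  have h1 := hF.isLittleO
  have h2 : Tendsto (fun k => (q k, p k)) l (𝓝 (p₀, p₀)) := hq.prodMk_nhds hp
  have h3 := h1.comp_tendsto h2
  have h4 : Tendsto (fun k => (F (q k) - F (p k) - F' (q k - p k)) * ‖q k - p k‖⁻¹) l
      (𝓝 0) := by
    have h5 := h3.norm_right.tendsto_div_nhds_zero
    refine h5.congr fun k => ?_
    simp only [Function.comp]
    rw [div_eq_mul_inv]
  have h6 : Tendsto (fun k => F' (‖q k - p k‖⁻¹ • (q k - p k))) l (𝓝 (F' z)) :=
    (F'.continuous.tendsto z).comp hz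
  have h7 := h4.add h6
  rw [zero_add] at h7
  refine h7.congr fun k => ?_
  rw [map_smul, smul_eq_mul]
  ring

lemma limit_eqs {l : Filter ℕ} [NeBot l] {n : ℕ} {f g : Fin n → E → ℝ} {p₀ : E} (hf : ∀ i, ContDiffAt ℝ ∞ (f i) p₀)
    (hg : ∀ i, ContDiffAt ℝ ∞ (g i) p₀) {p q : ℕ → E} (hp : Tendsto p l (𝓝 p₀))
    (hq : Tendsto q l (𝓝 p₀)) {z : E}
    (hz : Tendsto (fun k => ‖q k - p k‖⁻¹ • (q k - p k)) l (𝓝 z))
    {L : ℕ → E →L[ℝ] E} {L₀ : E →L[ℝ] E} (hL : Tendsto L l (𝓝 L₀))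
    (hS : ∀ᶠ k in l, (∑ i, (f i (p k) + f i (q k)) * (g i (q k) - g i (p k))) = 0)
    (hE : ∀ᶠ k in l, ∀ v : E,
      (∑ i, ((fderiv ℝ (f i) (p k) v + fderiv ℝ (f i) (q k) (L k v)) * (g i (q k) - g i (p k)) -
        (f i (q k) - f i (p k)) * (fderiv ℝ (g i) (p k) v + fderiv ℝ (g i) (q k) (L k v)))) = 0) :
    (∑ i, f i p₀ * fderiv ℝ (g i) p₀ z) = 0 ∧
    ∀ v : E, (∑ i, (fderiv ℝ (f i) p₀ (v + L₀ v) * fderiv ℝ (g i) p₀ z -
      fderiv ℝ (f i) p₀ z * fderiv ℝ (g i) p₀ (v + L₀ v))) = 0 := by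
  have hfs : ∀ i, HasStrictFDerivAt (f i) (fderiv ℝ (f i) p₀) p₀ := fun i =>
    (hf i).hasStrictFDerivAt (by simp)
  have hgs : ∀ i, HasStrictFDerivAt (g i) (fderiv ℝ (g i) p₀) p₀ := fun i =>
    (hg i).hasStrictFDerivAt (by simp)
  have hfc : ∀ i, ContinuousAt (f i) p₀ := fun i => (hf i).continuousAt
  have hdf : ∀ i, ContinuousAt (fderiv ℝ (f i)) p₀ := fun i =>
    ((hf i).fderiv_right (m := 0) (by simp)).continuousAt
  have hdg : ∀ i, ContinuousAt (fderiv ℝ (g i)) p₀ := fun i =>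
    ((hg i).fderiv_right (m := 0) (by simp)).continuousAt
  have hqf := fun i => tendsto_quot (hfs i) hp hq hz
  have hqg := fun i => tendsto_quot (hgs i) hp hq hz
  constructor
  · have h1 : Tendsto (fun k => ∑ i, (f i (p k) + f i (q k)) *
        ((g i (q k) - g i (p k)) * ‖q k - p k‖⁻¹)) l
        (𝓝 (∑ i, (f i p₀ + f i p₀) * fderiv ℝ (g i) p₀ z)) := by
      refine tendsto_finsetSum _ fun i _ => ?_
      exact (((hfc i).tendsto.comp hp).add ((hfc i).tendsto.comp hq)).mul (hqg i)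
    have h2 : Tendsto (fun k => ∑ i, (f i (p k) + f i (q k)) *
        ((g i (q k) - g i (p k)) * ‖q k - p k‖⁻¹)) l (𝓝 0) := by
      refine tendsto_const_nhds.congr' ?_
      filter_upwards [hS] with k hk
      have h3 : (∑ i, (f i (p k) + f i (q k)) * ((g i (q k) - g i (p k)) * ‖q k - p k‖⁻¹)) =
          (∑ i, (f i (p k) + f i (q k)) * (g i (q k) - g i (p k))) * ‖q k - p k‖⁻¹ := by
        rw [Finset.sum_mul]
        exact Finset.sum_congr rfl fun i _ => by ring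
      rw [h3, hk, zero_mul]
    have h4 := tendsto_nhds_unique h1 h2
    have h5 : (∑ i, (f i p₀ + f i p₀) * fderiv ℝ (g i) p₀ z) =
        2 * ∑ i, f i p₀ * fderiv ℝ (g i) p₀ z := by
      rw [Finset.mul_sum]
      exact Finset.sum_congr rfl fun i _ => by ring
    rw [h5] at h4
    linarith
  · intro v
    have hLv : Tendsto (fun k => L k v) l (𝓝 (L₀ v)) :=
      ((ContinuousLinearMap.apply ℝ E v).continuous.tendsto L₀).comp hL
    have hd : ∀ {F : E → (E →L[ℝ] ℝ)}, ContinuousAt F p₀ →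
        Tendsto (fun k => F (p k) v + F (q k) (L k v)) l (𝓝 (F p₀ (v + L₀ v))) := by
      intro F hF
      rw [map_add]
      have h1 : Tendsto (fun k => F (p k)) l (𝓝 (F p₀)) := hF.tendsto.comp hp
      have h2 : Tendsto (fun k => F (q k)) l (𝓝 (F p₀)) := hF.tendsto.comp hq
      exact (tendsto_app h1 tendsto_const_nhds).add (tendsto_app h2 hLv)
    have h1 : Tendsto (fun k => ∑ i, ((fderiv ℝ (f i) (p k) v + fderiv ℝ (f i) (q k) (L k v)) *
        ((g i (q k) - g i (p k)) * ‖q k - p k‖⁻¹) -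
        ((f i (q k) - f i (p k)) * ‖q k - p k‖⁻¹) *
          (fderiv ℝ (g i) (p k) v + fderiv ℝ (g i) (q k) (L k v)))) l
        (𝓝 (∑ i, (fderiv ℝ (f i) p₀ (v + L₀ v) * fderiv ℝ (g i) p₀ z -
          fderiv ℝ (f i) p₀ z * fderiv ℝ (g i) p₀ (v + L₀ v)))) := by
      refine tendsto_finsetSum _ fun i _ => ?_
      exact ((hd (hdf i)).mul (hqg i)).sub ((hqf i).mul (hd (hdg i)))
    have h2 : Tendsto (fun k => ∑ i, ((fderiv ℝ (f i) (p k) v + fderiv ℝ (f i) (q k) (L k v)) *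
        ((g i (q k) - g i (p k)) * ‖q k - p k‖⁻¹) -
        ((f i (q k) - f i (p k)) * ‖q k - p k‖⁻¹) *
          (fderiv ℝ (g i) (p k) v + fderiv ℝ (g i) (q k) (L k v)))) l (𝓝 0) := by
      refine tendsto_const_nhds.congr' ?_
      filter_upwards [hE] with k hk
      have h3 := hk v
      have h4 : (∑ i, ((fderiv ℝ (f i) (p k) v + fderiv ℝ (f i) (q k) (L k v)) *
        ((g i (q k) - g i (p k)) * ‖q k - p k‖⁻¹) -
        ((f i (q k) - f i (p k)) * ‖q k - p k‖⁻¹) *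
          (fderiv ℝ (g i) (p k) v + fderiv ℝ (g i) (q k) (L k v)))) =
        (∑ i, ((fderiv ℝ (f i) (p k) v + fderiv ℝ (f i) (q k) (L k v)) *
        (g i (q k) - g i (p k)) - (f i (q k) - f i (p k)) *
          (fderiv ℝ (g i) (p k) v + fderiv ℝ (g i) (q k) (L k v)))) * ‖q k - p k‖⁻¹ := by
        rw [Finset.sum_mul]
        exact Finset.sum_congr rfl fun i _ => by ring
      rw [h4, h3, zero_mul]
    exact tendsto_nhds_unique h1 h2

end Pool.Agent.W671.WU
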