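import Mathlib
import Pool.Agent.W671.WU3

/-! Linear algebra and compactness for the return maps. -/

open scoped Topology ContDiff Manifold
open Set Metric Bundle Filter

noncomputable section

namespace Pool.Agent.W671.WU

set_option linter.unusedSectionVars false

universe u

variable {E : Type u} [NormedAddCommGroup E] [NormedSpace ℝ E] [FiniteDimensional ℝ E]
  {F : Type*} [NormedAddCommGroup F] [NormedSpace ℝ F]

lemma lin_alg {J : E →L[ℝ] F} (hJ : Function.Injective J) {L : E →L[ℝ] E} {ρ : E}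
    (hLρ : L ρ = ρ) (hρ : ρ ≠ 0) {lam : E →L[ℝ] ℝ} {C : ℝ}
    (h : ∀ v, ‖J v‖ ≤ C * ‖J (L v + lam v • ρ) + J v‖) :
    ∀ w, ∃ v, v + L v = w := by
  have hB : ∀ v, L v + lam v • ρ + v = 0 → v = 0 := by
    intro v hv
    have h1 := h v
    rw [← map_add, hv, map_zero, norm_zero, mul_zero] at h1
    apply hJ
    rw [map_zero]
    exact norm_le_zero_iff.1 h1
  have h2 : 2 + lam ρ ≠ 0 := by
    intro h0
    apply hρ
    apply hB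
    rw [hLρ]
    have : ρ + lam ρ • ρ + ρ = (2 + lam ρ) • ρ := by module
    rw [this, h0, zero_smul]
  have hinj : Function.Injective ((LinearMap.id : E →ₗ[ℝ] E) + (L : E →ₗ[ℝ] E)) := by
    rw [injective_iff_map_eq_zero]
    intro v hv
    have hv' : v + L v = 0 := hv
    have h3 : v - (lam v / (2 + lam ρ)) • ρ = 0 := by
      apply hB
      rw [map_sub, map_sub, map_smul, map_smul, hLρ, smul_eq_mul]
      have e1 : L v = -v := (neg_eq_of_add_eq_zero_right hv').symm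
      rw [e1]
      have e2 : -v - (lam v / (2 + lam ρ)) • ρ + (lam v - lam v / (2 + lam ρ) * lam ρ) • ρ +
          (v - (lam v / (2 + lam ρ)) • ρ) =
          (lam v - (lam v / (2 + lam ρ)) * (2 + lam ρ)) • ρ := by module
      rw [e2, div_mul_cancel₀ _ h2, sub_self, zero_smul]
    have h4 : v = (lam v / (2 + lam ρ)) • ρ := sub_eq_zero.1 h3
    have h5 : v + L v = (2:ℝ) • v := by
      nth_rewrite 2 [h4]
      rw [map_smul, hLρ, ← h4, two_smul]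
    rw [h5] at hv'
    exact (smul_eq_zero.1 hv').resolve_left two_ne_zero
  intro w
  obtain ⟨v, hv⟩ := LinearMap.injective_iff_surjective.1 hinj w
  exact ⟨v, hv⟩

/-- compactness along an ultrafilter -/
lemma exists_limit {G : Type*} [NormedAddCommGroup G] [NormedSpace ℝ G] [FiniteDimensional ℝ G]
    (l : Ultrafilter ℕ) {a : ℕ → G} {C : ℝ} (h : ∀ᶠ k in (l : Filter ℕ), ‖a k‖ ≤ C) :
    ∃ a₀, Tendsto a l (𝓝 a₀) := by
  have : ProperSpace G := FiniteDimensional.proper ℝ G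
  have hc : IsCompact (closedBall (0 : G) C) := isCompact_closedBall 0 C
  have h2 : ((l.map a : Ultrafilter G) : Filter G) ≤ 𝓟 (closedBall (0:G) C) := by
    rw [le_principal_iff, Ultrafilter.coe_map, mem_map]
    filter_upwards [h] with k hk
    simpa using hk
  obtain ⟨a₀, -, ha⟩ := hc.ultrafilter_le_nhds _ h2
  exact ⟨a₀, ha⟩

/-- a sequence in a compact space converges along an ultrafilter -/
lemma exists_limit_compact {G : Type*} [TopologicalSpace G] [CompactSpace G]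
    (l : Ultrafilter ℕ) (a : ℕ → G) : ∃ a₀, Tendsto a l (𝓝 a₀) := by
  have h2 : ((l.map a : Ultrafilter G) : Filter G) ≤ 𝓟 (univ : Set G) := by simp
  obtain ⟨a₀, -, ha⟩ := (isCompact_univ (X := G)).ultrafilter_le_nhds _ h2
  exact ⟨a₀, ha⟩

/-- the return maps are bounded and converge along an ultrafilter -/
lemma return_limit (l : Ultrafilter ℕ) {J : E →L[ℝ] F} (hJ : Function.Injective J)
    {J₁ J₂ : ℕ → E →L[ℝ] F} (hJ₁ : Tendsto J₁ l (𝓝 J)) (hJ₂ : Tendsto J₂ l (𝓝 J))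
    {b : E →L[ℝ] ℝ} {b₁ b₂ : ℕ → E →L[ℝ] ℝ} (hb₁ : Tendsto b₁ l (𝓝 b)) (hb₂ : Tendsto b₂ l (𝓝 b))
    {ρ : E} {ρ₁ ρ₂ : ℕ → E} (hρ₁ : Tendsto ρ₁ l (𝓝 ρ)) (hρ₂ : Tendsto ρ₂ l (𝓝 ρ))
    (hb : ∀ᶠ k in (l : Filter ℕ), b₂ k (ρ₂ k) = 1)
    {L : ℕ → E →L[ℝ] E} (hL : ∀ᶠ k in (l : Filter ℕ), ∀ v, b₂ k (L k v) = b₁ k v)
    (hLρ : ∀ᶠ k in (l : Filter ℕ), L k (ρ₁ k) = ρ₂ k) {C : ℝ}
    (h : ∀ᶠ k in (l : Filter ℕ), ∃ lam : E →L[ℝ] ℝ, ∀ v,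
      ‖J₂ k (L k v + lam v • ρ₂ k)‖ ≤ C * ‖J₁ k v‖ ∧
      ‖J₁ k v‖ ≤ C * ‖J₂ k (L k v + lam v • ρ₂ k) + J₁ k v‖) :
    ∃ (L₀ : E →L[ℝ] E) (lam : E →L[ℝ] ℝ), Tendsto L l (𝓝 L₀) ∧ L₀ ρ = ρ ∧
      ∀ v, ‖J v‖ ≤ C * ‖J (L₀ v + lam v • ρ) + J v‖ := by
  obtain ⟨c, hc, hcJ⟩ : ∃ c > 0, ∀ v, c * ‖v‖ ≤ ‖J v‖ := by
    obtain ⟨K, hK, hK2⟩ := LinearMap.exists_antilipschitzWith (J : E →ₗ[ℝ] F)
      (LinearMap.ker_eq_bot.2 hJ)
    refine ⟨(K : ℝ)⁻¹, by positivity, fun v => ?_⟩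
    have h1 := hK2.le_mul_dist v 0
    simp only [dist_zero_right, map_zero] at h1
    rw [inv_mul_le_iff₀ (by positivity)]
    exact h1
  -- bounds
  have hJ₁b : ∀ᶠ k in (l : Filter ℕ), ‖J₁ k‖ ≤ ‖J‖ + 1 :=
    (hJ₁.norm.eventually (gt_mem_nhds (lt_add_one ‖J‖))).mono fun k hk => le_of_lt hk
  have hb₁b : ∀ᶠ k in (l : Filter ℕ), ‖b₁ k‖ ≤ ‖b‖ + 1 :=
    (hb₁.norm.eventually (gt_mem_nhds (lt_add_one ‖b‖))).mono fun k hk => le_of_lt hk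
  have hb₂b : ∀ᶠ k in (l : Filter ℕ), ‖b₂ k‖ ≤ ‖b‖ + 1 :=
    (hb₂.norm.eventually (gt_mem_nhds (lt_add_one ‖b‖))).mono fun k hk => le_of_lt hk
  have hρ₂b : ∀ᶠ k in (l : Filter ℕ), ‖ρ₂ k‖ ≤ ‖ρ‖ + 1 :=
    (hρ₂.norm.eventually (gt_mem_nhds (lt_add_one ‖ρ‖))).mono fun k hk => le_of_lt hk
  have hJ₂b : ∀ᶠ k in (l : Filter ℕ), ∀ w, c / 2 * ‖w‖ ≤ ‖J₂ k w‖ := by
    have h1 : Tendsto (fun k => ‖J₂ k - J‖) l (𝓝 0) := tendsto_iff_norm_sub_tendsto_zero.1 hJ₂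
    filter_upwards [h1.eventually (gt_mem_nhds (show (0:ℝ) < c / 2 by positivity))] with k hk w
    have h2 : ‖J w‖ ≤ ‖J₂ k w‖ + ‖(J₂ k - J) w‖ := by
      have h3 : J w = J₂ k w - (J₂ k - J) w := by simp
      rw [h3]
      exact norm_sub_le _ _
    have h4 : ‖(J₂ k - J) w‖ ≤ c / 2 * ‖w‖ :=
      ((J₂ k - J).le_opNorm w).trans (by gcongr)
    have h5 := hcJ w
    linarith
  choose! a ha using fun (k : ℕ) (hk : ∃ lam : E →L[ℝ] ℝ, ∀ v,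
      ‖J₂ k (L k v + lam v • ρ₂ k)‖ ≤ C * ‖J₁ k v‖ ∧
      ‖J₁ k v‖ ≤ C * ‖J₂ k (L k v + lam v • ρ₂ k) + J₁ k v‖) => hk
  set C₁ : ℝ := 2 / c * (|C| * (‖J‖ + 1)) with hC₁
  set C₂ : ℝ := (‖b‖ + 1) * C₁ + (‖b‖ + 1) with hC₂
  have hC₁0 : 0 ≤ C₁ := by positivity
  have hC₂0 : 0 ≤ C₂ := by positivity
  have main : ∀ᶠ k in (l : Filter ℕ), ∀ v, ‖a k v‖ ≤ C₂ * ‖v‖ ∧
      ‖L k v‖ ≤ (C₁ + C₂ * (‖ρ‖ + 1)) * ‖v‖ := by
    filter_upwards [hJ₁b, hb₁b, hb₂b, hρ₂b, hJ₂b, hb, hL, h] with k e1 e2 e3 e4 e5 e6 e7 e8 v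
    have h1 := (ha k e8 v).1
    set w := L k v + a k v • ρ₂ k with hw
    have h2 : ‖J₂ k w‖ ≤ |C| * ‖J₁ k v‖ :=
      h1.trans (mul_le_mul_of_nonneg_right (le_abs_self C) (norm_nonneg _))
    have h3 : ‖J₁ k v‖ ≤ (‖J‖ + 1) * ‖v‖ := ((J₁ k).le_opNorm v).trans (by gcongr)
    have h4 : ‖w‖ ≤ C₁ * ‖v‖ := by
      have h5 := e5 w
      have h6 : |C| * ‖J₁ k v‖ ≤ |C| * ((‖J‖ + 1) * ‖v‖) := by gcongr
      have h7 : c / 2 * ‖w‖ ≤ |C| * ((‖J‖ + 1) * ‖v‖) := h5.trans (h2.trans h6)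
      have h8 : ‖w‖ = 2 / c * (c / 2 * ‖w‖) := by field_simp
      rw [h8, hC₁, mul_assoc (2 / c), mul_assoc |C|]
      exact mul_le_mul_of_nonneg_left h7 (by positivity)
    have h5 : a k v = b₂ k w - b₁ k v := by
      rw [hw, map_add, map_smul, e6, e7]
      simp
    have h6 : ‖a k v‖ ≤ C₂ * ‖v‖ := by
      rw [h5, hC₂]
      have h7 : ‖b₂ k w‖ ≤ (‖b‖ + 1) * (C₁ * ‖v‖) :=
        ((b₂ k).le_opNorm w).trans (by gcongr)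
      have h8 : ‖b₁ k v‖ ≤ (‖b‖ + 1) * ‖v‖ := ((b₁ k).le_opNorm v).trans (by gcongr)
      calc ‖b₂ k w - b₁ k v‖ ≤ ‖b₂ k w‖ + ‖b₁ k v‖ := norm_sub_le _ _
        _ ≤ (‖b‖ + 1) * (C₁ * ‖v‖) + (‖b‖ + 1) * ‖v‖ := by gcongr
        _ = _ := by ring
    refine ⟨h6, ?_⟩
    have h7 : L k v = w - a k v • ρ₂ k := by rw [hw]; abel
    rw [h7]
    calc ‖w - a k v • ρ₂ k‖ ≤ ‖w‖ + ‖a k v • ρ₂ k‖ := norm_sub_le _ _
      _ ≤ C₁ * ‖v‖ + (C₂ * ‖v‖) * (‖ρ‖ + 1) := by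
        rw [norm_smul]
        gcongr
      _ = _ := by ring
  have hLb : ∀ᶠ k in (l : Filter ℕ), ‖L k‖ ≤ C₁ + C₂ * (‖ρ‖ + 1) := by
    filter_upwards [main] with k hk
    exact (L k).opNorm_le_bound (by positivity) fun v => (hk v).2
  have hab : ∀ᶠ k in (l : Filter ℕ), ‖a k‖ ≤ C₂ := by
    filter_upwards [main] with k hk
    exact (a k).opNorm_le_bound hC₂0 fun v => (hk v).1
  obtain ⟨L₀, hL₀⟩ := exists_limit l hLb
  obtain ⟨a₀, ha₀⟩ := exists_limit l hab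
  refine ⟨L₀, a₀, hL₀, ?_, fun v => ?_⟩
  · have h1 : Tendsto (fun k => L k (ρ₁ k)) l (𝓝 (L₀ ρ)) := tendsto_app hL₀ hρ₁
    exact tendsto_nhds_unique (h1.congr' hLρ) hρ₂
  · have hcv : Tendsto (fun _ : ℕ => v) (l : Filter ℕ) (𝓝 v) := tendsto_const_nhds
    have h1 : Tendsto (fun k => L k v + a k v • ρ₂ k) l (𝓝 (L₀ v + a₀ v • ρ)) :=
      (tendsto_app hL₀ hcv).add ((tendsto_app ha₀ hcv).smul hρ₂)
    have h2 := ((tendsto_app hJ₂ h1).add (tendsto_app hJ₁ hcv)).norm.const_mul C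
    have h3 : Tendsto (fun k => ‖J₁ k v‖) l (𝓝 ‖J v‖) := (tendsto_app hJ₁ hcv).norm
    refine le_of_tendsto_of_tendsto h3 h2 ?_
    filter_upwards [h] with k hk
    exact (ha k hk v).2

end Pool.Agent.W671.WU
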