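import Mathlib
import Pool.Agent.W671.WU4

/-! The limiting argument in a vector space. -/

open scoped Topology ContDiff Manifold
open Set Metric Bundle Filter

noncomputable section

namespace Pool.Agent.W671.WU

set_option linter.unusedSectionVars false

universe u

variable {E : Type u} [NormedAddCommGroup E] [NormedSpace ℝ E] [FiniteDimensional ℝ E]
  {F : Type*} [NormedAddCommGroup F] [NormedSpace ℝ F]

theorem no_limit (l : Ultrafilter ℕ) {n : ℕ} {f g : Fin n → E → ℝ} {p₀ : E}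
    (hf : ∀ i, ContDiffAt ℝ ∞ (f i) p₀) (hg : ∀ i, ContDiffAt ℝ ∞ (g i) p₀)
    {b : E → E →L[ℝ] ℝ}
    (hb : ∀ᶠ p in 𝓝 p₀, ∀ v, b p v = ∑ i, f i p * fderiv ℝ (g i) p v)
    (hbc : ContinuousAt b p₀)
    (hnd : ∀ z : E, b p₀ z = 0 →
      (∀ w : E, (∑ i, (fderiv ℝ (f i) p₀ w * fderiv ℝ (g i) p₀ z -
        fderiv ℝ (f i) p₀ z * fderiv ℝ (g i) p₀ w)) = 0) → z = 0)
    {J : E → E →L[ℝ] F} (hJ : ContinuousAt J p₀) (hJi : Function.Injective (J p₀))
    {R : E → E} (hR : ContinuousAt R p₀) (hbR : ∀ᶠ p in 𝓝 p₀, b p (R p) = 1)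
    {p q q' : ℕ → E} (hp : Tendsto p l (𝓝 p₀)) (hq : Tendsto q l (𝓝 p₀))
    (hq' : Tendsto q' l (𝓝 p₀)) (hne : ∀ᶠ k in (l : Filter ℕ), q k ≠ p k)
    {L N : ℕ → E →L[ℝ] E} (hN : Tendsto N l (𝓝 (ContinuousLinearMap.id ℝ E)))
    (hL : ∀ᶠ k in (l : Filter ℕ), ∀ v, b (q' k) (L k v) = b (p k) v)
    (hLR : ∀ᶠ k in (l : Filter ℕ), L k (R (p k)) = R (q' k))
    {C : ℝ}
    (h : ∀ᶠ k in (l : Filter ℕ), ∃ lam : E →L[ℝ] ℝ, ∀ v,
      ‖J (q' k) (L k v + lam v • R (q' k))‖ ≤ C * ‖J (p k) v‖ ∧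
      ‖J (p k) v‖ ≤ C * ‖J (q' k) (L k v + lam v • R (q' k)) + J (p k) v‖)
    (hS : ∀ᶠ k in (l : Filter ℕ), (∑ i, (f i (p k) + f i (q k)) * (g i (q k) - g i (p k))) = 0)
    (hE : ∀ᶠ k in (l : Filter ℕ), ∀ v : E,
      (∑ i, ((fderiv ℝ (f i) (p k) v + fderiv ℝ (f i) (q k) (N k (L k v))) *
        (g i (q k) - g i (p k)) - (f i (q k) - f i (p k)) *
          (fderiv ℝ (g i) (p k) v + fderiv ℝ (g i) (q k) (N k (L k v))))) = 0) : False := by
  obtain ⟨L₀, lam, hL₀, hLρ, hmod⟩ := return_limit l (J := J p₀) hJi (J₁ := fun k => J (p k))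
    (J₂ := fun k => J (q' k)) (hJ.tendsto.comp hp) (hJ.tendsto.comp hq')
    (b := b p₀) (b₁ := fun k => b (p k)) (b₂ := fun k => b (q' k)) (hbc.tendsto.comp hp)
    (hbc.tendsto.comp hq') (ρ := R p₀) (ρ₁ := fun k => R (p k)) (ρ₂ := fun k => R (q' k))
    (hR.tendsto.comp hp) (hR.tendsto.comp hq') (hq'.eventually hbR) hL hLR h
  have hR0 : R p₀ ≠ 0 := by
    intro h0
    have h1 := hbR.self_of_nhds
    rw [h0, map_zero] at h1
    exact zero_ne_one h1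
  -- the direction
  obtain ⟨z, hz⟩ := exists_limit l (a := fun k => ‖q k - p k‖⁻¹ • (q k - p k)) (C := 1) (by
    filter_upwards [hne] with k hk
    have : ‖q k - p k‖ ≠ 0 := norm_ne_zero_iff.2 (sub_ne_zero.2 hk)
    rw [norm_smul, norm_inv, norm_norm, inv_mul_cancel₀ this])
  have hz1 : ‖z‖ = 1 := by
    have h1 : Tendsto (fun k => ‖‖q k - p k‖⁻¹ • (q k - p k)‖) l (𝓝 1) := by
      refine tendsto_const_nhds.congr' ?_
      filter_upwards [hne] with k hk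
      have : ‖q k - p k‖ ≠ 0 := norm_ne_zero_iff.2 (sub_ne_zero.2 hk)
      rw [norm_smul, norm_inv, norm_norm, inv_mul_cancel₀ this]
    exact tendsto_nhds_unique hz.norm h1
  have hNL : Tendsto (fun k => (N k).comp (L k)) l (𝓝 L₀) := by
    have h1 : Tendsto (fun k => (N k).comp (L k)) l
        (𝓝 ((ContinuousLinearMap.id ℝ E).comp L₀)) :=
      ((isBoundedBilinearMap_comp (𝕜 := ℝ) (E := E) (F := E) (G := E)).continuous.tendsto
        ((ContinuousLinearMap.id ℝ E), L₀)).comp (hN.prodMk_nhds hL₀)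
    rwa [ContinuousLinearMap.id_comp] at h1
  obtain ⟨e1, e2⟩ := limit_eqs hf hg hp hq hz hNL hS hE
  have hsurj := lin_alg hJi hLρ hR0 hmod
  have hz0 : z = 0 := by
    apply hnd z
    · rw [hb.self_of_nhds]
      exact e1
    · intro w
      obtain ⟨v, rfl⟩ := hsurj w
      exact e2 v
  rw [hz0, norm_zero] at hz1
  exact zero_ne_one hz1

end Pool.Agent.W671.WU
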