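import Mathlib
import Pool.Agent.W671.WU5

/-! The flow in a chart. -/

open scoped Topology ContDiff Manifold
open Set Metric Bundle Filter Pool.Agent.Helper186 Pool.Agent.H826R2.Wein

noncomputable section

namespace Pool.Agent.W671.WU

set_option linter.unusedSectionVars false

universe u

variable {E : Type u} [NormedAddCommGroup E] [NormedSpace ℝ E] [FiniteDimensional ℝ E]
  {P : Type*} [TopologicalSpace P] [ChartedSpace E P] [IsManifold 𝓘(ℝ, E) ∞ P]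
  {G : Type*} [NormedAddCommGroup G] [NormedSpace ℝ G]

/-- a map in the chart at `x₀` -/
def ch (x₀ : P) (φ : P → P) (p : E) : E :=
  extChartAt 𝓘(ℝ, E) x₀ (φ ((extChartAt 𝓘(ℝ, E) x₀).symm p))

/-- a function in the chart at `x₀` -/
def cf (x₀ : P) (g : P → G) (p : E) : G := g ((extChartAt 𝓘(ℝ, E) x₀).symm p)

lemma cf_smooth (x₀ : P) {g : P → G} (hg : ContMDiff 𝓘(ℝ, E) 𝓘(ℝ, G) ∞ g) {p : E}
    (hp : p ∈ (extChartAt 𝓘(ℝ, E) x₀).target) : ContDiffAt ℝ ∞ (cf x₀ g) p := by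
  rw [← contMDiffAt_iff_contDiffAt]
  exact (hg _).comp p ((contMDiffOn_extChartAt_symm x₀).contMDiffAt
    ((isOpen_extChartAt_target x₀).mem_nhds hp))

lemma ch_smooth (x₀ : P) {φ : P → P} (hφ : ContMDiff 𝓘(ℝ, E) 𝓘(ℝ, E) ∞ φ) {p : E}
    (hp : p ∈ (extChartAt 𝓘(ℝ, E) x₀).target)
    (hφp : φ ((extChartAt 𝓘(ℝ, E) x₀).symm p) ∈ (extChartAt 𝓘(ℝ, E) x₀).source) :
    ContDiffAt ℝ ∞ (ch x₀ φ) p := by
  rw [← contMDiffAt_iff_contDiffAt]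
  have h1 : ContMDiffAt 𝓘(ℝ, E) 𝓘(ℝ, E) ∞ (fun p => φ ((extChartAt 𝓘(ℝ, E) x₀).symm p)) p :=
    (hφ _).comp p ((contMDiffOn_extChartAt_symm x₀).contMDiffAt
      ((isOpen_extChartAt_target x₀).mem_nhds hp))
  rw [extChartAt_source] at hφp
  exact (contMDiffAt_extChartAt' hφp).comp p h1

lemma mdiff_symm (x₀ : P) {p : E} (hp : p ∈ (extChartAt 𝓘(ℝ, E) x₀).target) :
    MDifferentiableAt 𝓘(ℝ, E) 𝓘(ℝ, E) (extChartAt 𝓘(ℝ, E) x₀).symm p :=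
  ((contMDiffOn_extChartAt_symm (n := ∞) x₀).contMDiffAt
    ((isOpen_extChartAt_target x₀).mem_nhds hp)).mdifferentiableAt (by simp)

/-- derivative of the inverse chart -/
def ds (x₀ : P) (p v : E) : TangentSpace 𝓘(ℝ, E) ((extChartAt 𝓘(ℝ, E) x₀).symm p) :=
  mfderiv 𝓘(ℝ, E) 𝓘(ℝ, E) (extChartAt 𝓘(ℝ, E) x₀).symm p v

lemma fderiv_cf (x₀ : P) {g : P → G} (hg : ContMDiff 𝓘(ℝ, E) 𝓘(ℝ, G) ∞ g) {p : E}
    (hp : p ∈ (extChartAt 𝓘(ℝ, E) x₀).target) (v : E) :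
    fderiv ℝ (cf x₀ g) p v =
      mfderiv 𝓘(ℝ, E) 𝓘(ℝ, G) g ((extChartAt 𝓘(ℝ, E) x₀).symm p) (ds x₀ p v) := by
  rw [← mfderiv_eq_fderiv]
  have h1 : mfderiv 𝓘(ℝ, E) 𝓘(ℝ, G) (cf x₀ g) p =
      (mfderiv 𝓘(ℝ, E) 𝓘(ℝ, G) g ((extChartAt 𝓘(ℝ, E) x₀).symm p)).comp
        (mfderiv 𝓘(ℝ, E) 𝓘(ℝ, E) (extChartAt 𝓘(ℝ, E) x₀).symm p) :=
    mfderiv_comp p (hg.mdifferentiableAt (by simp)) (mdiff_symm x₀ hp)
  rw [h1]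
  rfl

/-- the derivative of a map in a chart -/
lemma tangent_ch (x₀ : P) {φ : P → P} (hφ : ContMDiff 𝓘(ℝ, E) 𝓘(ℝ, E) ∞ φ) {p : E}
    (hp : p ∈ (extChartAt 𝓘(ℝ, E) x₀).target)
    (hφp : φ ((extChartAt 𝓘(ℝ, E) x₀).symm p) ∈ (extChartAt 𝓘(ℝ, E) x₀).source) (v : E) :
    (⟨(extChartAt 𝓘(ℝ, E) x₀).symm (ch x₀ φ p),
        ds x₀ (ch x₀ φ p) (fderiv ℝ (ch x₀ φ) p v)⟩ : TangentBundle 𝓘(ℝ, E) P) =
      ⟨φ ((extChartAt 𝓘(ℝ, E) x₀).symm p),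
        mfderiv 𝓘(ℝ, E) 𝓘(ℝ, E) φ ((extChartAt 𝓘(ℝ, E) x₀).symm p) (ds x₀ p v)⟩ := by
  set ψ := extChartAt 𝓘(ℝ, E) x₀ with hψ
  have hψc : ContinuousAt (fun p => φ (ψ.symm p)) p := by
    exact hφ.continuous.continuousAt.comp ((continuousOn_extChartAt_symm x₀).continuousAt
      ((isOpen_extChartAt_target x₀).mem_nhds hp))
  have e1 : (ψ.symm ∘ ch x₀ φ) =ᶠ[𝓝 p] (φ ∘ ψ.symm) := by
    filter_upwards [hψc.eventually ((isOpen_extChartAt_source x₀).mem_nhds hφp)] with p' hp'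
    exact ψ.left_inv hp'
  have e2 := tangentMap_congr_of_eventuallyEq (J := 𝓘(ℝ, E)) (I := 𝓘(ℝ, E))
    (v := (⟨p, v⟩ : TangentBundle 𝓘(ℝ, E) E)) e1
  have hc : ch x₀ φ p ∈ ψ.target := ψ.map_source hφp
  have e3 : tangentMap 𝓘(ℝ, E) 𝓘(ℝ, E) (ψ.symm ∘ ch x₀ φ) (⟨p, v⟩ : TangentBundle 𝓘(ℝ, E) E) =
      tangentMap 𝓘(ℝ, E) 𝓘(ℝ, E) ψ.symm (tangentMap 𝓘(ℝ, E) 𝓘(ℝ, E) (ch x₀ φ) ⟨p, v⟩) := by
    apply tangentMap_comp_at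
    · exact mdiff_symm x₀ hc
    · exact (contMDiffAt_iff_contDiffAt.2 (ch_smooth x₀ hφ hp hφp)).mdifferentiableAt (by simp)
  have e4 : tangentMap 𝓘(ℝ, E) 𝓘(ℝ, E) (φ ∘ ψ.symm) (⟨p, v⟩ : TangentBundle 𝓘(ℝ, E) E) =
      tangentMap 𝓘(ℝ, E) 𝓘(ℝ, E) φ (tangentMap 𝓘(ℝ, E) 𝓘(ℝ, E) ψ.symm ⟨p, v⟩) := by
    apply tangentMap_comp_at
    · exact hφ.mdifferentiableAt (by simp)
    · exact mdiff_symm x₀ hp
  rw [e3, e4] at e2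
  simp only [tangentMap, mfderiv_eq_fderiv] at e2
  exact e2

lemma fderiv_cf_ch (x₀ : P) {g : P → G} (hg : ContMDiff 𝓘(ℝ, E) 𝓘(ℝ, G) ∞ g) {φ : P → P}
    (hφ : ContMDiff 𝓘(ℝ, E) 𝓘(ℝ, E) ∞ φ) {p : E}
    (hp : p ∈ (extChartAt 𝓘(ℝ, E) x₀).target)
    (hφp : φ ((extChartAt 𝓘(ℝ, E) x₀).symm p) ∈ (extChartAt 𝓘(ℝ, E) x₀).source) (v : E) :
    fderiv ℝ (cf x₀ g) (ch x₀ φ p) (fderiv ℝ (ch x₀ φ) p v) =
      mfderiv 𝓘(ℝ, E) 𝓘(ℝ, G) g (φ ((extChartAt 𝓘(ℝ, E) x₀).symm p))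
        (mfderiv 𝓘(ℝ, E) 𝓘(ℝ, E) φ ((extChartAt 𝓘(ℝ, E) x₀).symm p) (ds x₀ p v)) := by
  have hc : ch x₀ φ p ∈ (extChartAt 𝓘(ℝ, E) x₀).target := (extChartAt 𝓘(ℝ, E) x₀).map_source hφp
  rw [fderiv_cf x₀ hg hc]
  have h1 := tangent_ch x₀ hφ hp hφp v
  have h2 : ∀ {v w : TangentBundle 𝓘(ℝ, E) P} (_ : v = w),
      mfderiv 𝓘(ℝ, E) 𝓘(ℝ, G) g v.1 v.2 = mfderiv 𝓘(ℝ, E) 𝓘(ℝ, G) g w.1 w.2 := by
    rintro _ _ rfl; rfl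
  exact h2 h1

lemma chartForm_ch {β : (x : P) → TangentSpace 𝓘(ℝ, E) x →L[ℝ] ℝ} (x₀ : P) {φ : P → P}
    (hφ : ContMDiff 𝓘(ℝ, E) 𝓘(ℝ, E) ∞ φ)
    (hs : ∀ (x : P) (u : TangentSpace 𝓘(ℝ, E) x),
      β (φ x) (mfderiv 𝓘(ℝ, E) 𝓘(ℝ, E) φ x u) = β x u) {p : E}
    (hp : p ∈ (extChartAt 𝓘(ℝ, E) x₀).target)
    (hφp : φ ((extChartAt 𝓘(ℝ, E) x₀).symm p) ∈ (extChartAt 𝓘(ℝ, E) x₀).source) (v : E) :
    chartForm 𝓘(ℝ, E) β x₀ (ch x₀ φ p) (fderiv ℝ (ch x₀ φ) p v) =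
      chartForm 𝓘(ℝ, E) β x₀ p v := by
  have h1 := tangent_ch x₀ hφ hp hφp v
  have h2 := form_congr' β h1
  have h3 : chartForm 𝓘(ℝ, E) β x₀ p v =
      β ((extChartAt 𝓘(ℝ, E) x₀).symm p) (ds x₀ p v) := rfl
  rw [h3, ← hs]
  exact h2

/-- the chart form as a sum of products -/
lemma chartForm_rep {n : ℕ} {f g : Fin n → P → ℝ}
    (hg : ∀ i, ContMDiff 𝓘(ℝ, E) 𝓘(ℝ, ℝ) ∞ (g i))
    {β : (x : P) → TangentSpace 𝓘(ℝ, E) x →L[ℝ] ℝ}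
    (hrep : ∀ (x : P) (v : TangentSpace 𝓘(ℝ, E) x),
        β x v = ∑ i, f i x * dForm 𝓘(ℝ, E) (g i) x v) (x₀ : P) {p : E}
    (hp : p ∈ (extChartAt 𝓘(ℝ, E) x₀).target) (v : E) :
    chartForm 𝓘(ℝ, E) β x₀ p v = ∑ i, cf x₀ (f i) p * fderiv ℝ (cf x₀ (g i)) p v := by
  have h3 : chartForm 𝓘(ℝ, E) β x₀ p v =
      β ((extChartAt 𝓘(ℝ, E) x₀).symm p) (ds x₀ p v) := rfl
  rw [h3, hrep]
  refine Finset.sum_congr rfl fun i _ => ?_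
  rw [fderiv_cf x₀ (hg i) hp]
  rfl

/-- the exterior derivative in terms of the representation -/
lemma extDer_rep {n : ℕ} {f g : Fin n → P → ℝ}
    (hf : ∀ i, ContMDiff 𝓘(ℝ, E) 𝓘(ℝ, ℝ) ∞ (f i))
    (hg : ∀ i, ContMDiff 𝓘(ℝ, E) 𝓘(ℝ, ℝ) ∞ (g i))
    {β : (x : P) → TangentSpace 𝓘(ℝ, E) x →L[ℝ] ℝ}
    (hrep : ∀ (x : P) (v : TangentSpace 𝓘(ℝ, E) x),
        β x v = ∑ i, f i x * dForm 𝓘(ℝ, E) (g i) x v) (x₀ : P) (u v : E) :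
    extDer 𝓘(ℝ, E) β x₀ u v = ∑ i,
      (fderiv ℝ (cf x₀ (f i)) (extChartAt 𝓘(ℝ, E) x₀ x₀) u *
        fderiv ℝ (cf x₀ (g i)) (extChartAt 𝓘(ℝ, E) x₀ x₀) v -
      fderiv ℝ (cf x₀ (f i)) (extChartAt 𝓘(ℝ, E) x₀ x₀) v *
        fderiv ℝ (cf x₀ (g i)) (extChartAt 𝓘(ℝ, E) x₀ x₀) u) := by
  set p₀ := extChartAt 𝓘(ℝ, E) x₀ x₀ with hp₀
  have ht : (extChartAt 𝓘(ℝ, E) x₀).target ∈ 𝓝 p₀ := extChartAt_target_mem_nhds x₀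
  have hmem : p₀ ∈ (extChartAt 𝓘(ℝ, E) x₀).target := mem_extChartAt_target x₀
  have e1 : chartForm 𝓘(ℝ, E) β x₀ =ᶠ[𝓝 p₀]
      fun p => ∑ i, cf x₀ (f i) p • fderiv ℝ (cf x₀ (g i)) p := by
    filter_upwards [ht] with p hp
    refine ContinuousLinearMap.ext fun v => ?_
    rw [chartForm_rep hg hrep x₀ hp]
    simp
  have hF : ∀ i, HasFDerivAt (cf x₀ (f i)) (fderiv ℝ (cf x₀ (f i)) p₀) p₀ := fun i =>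
    ((cf_smooth x₀ (hf i) hmem).differentiableAt (by simp)).hasFDerivAt
  have hG : ∀ i, HasFDerivAt (fderiv ℝ (cf x₀ (g i))) (fderiv ℝ (fderiv ℝ (cf x₀ (g i))) p₀) p₀ :=
    fun i => (((cf_smooth x₀ (hg i) hmem).fderiv_right (m := ∞) (by simp)).differentiableAt
      (by simp)).hasFDerivAt
  have hsymm : ∀ i, fderiv ℝ (fderiv ℝ (cf x₀ (g i))) p₀ u v =
      fderiv ℝ (fderiv ℝ (cf x₀ (g i))) p₀ v u := by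
    intro i
    have := (cf_smooth x₀ (hg i) hmem).isSymmSndFDerivAt (by
      simp only [minSmoothness_of_isRCLikeNormedField]; exact ENat.LEInfty.out)
    exact this u v
  have h2 : HasFDerivAt (fun p => ∑ i, cf x₀ (f i) p • fderiv ℝ (cf x₀ (g i)) p)
      (∑ i, (cf x₀ (f i) p₀ • fderiv ℝ (fderiv ℝ (cf x₀ (g i))) p₀ +
        (fderiv ℝ (cf x₀ (f i)) p₀).smulRight (fderiv ℝ (cf x₀ (g i)) p₀))) p₀ :=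
    HasFDerivAt.fun_sum fun i _ => (hF i).smul (hG i)
  unfold extDer
  rw [← hp₀, e1.fderiv_eq, h2.fderiv]
  simp only [sum_apply, add_apply, smul_apply,
    ContinuousLinearMap.smulRight_apply, smul_eq_mul, hsymm]
  rw [← Finset.sum_sub_distrib]
  refine Finset.sum_congr rfl fun i _ => ?_
  ring

end Pool.Agent.W671.WU
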