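import Mathlib
import Pool.Agent.W671.WU6

/-! The Reeb flow in a chart. -/

open scoped Topology ContDiff Manifold
open Set Metric Bundle Filter Pool.Agent.Helper186 Pool.Agent.H826R2.Wein

noncomputable section

namespace Pool.Agent.W671.WU

set_option linter.unusedSectionVars false

universe u

variable {E : Type u} [NormedAddCommGroup E] [NormedSpace ℝ E] [FiniteDimensional ℝ E]
  {P : Type*} [TopologicalSpace P] [ChartedSpace E P] [IsManifold 𝓘(ℝ, E) ∞ P]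
  {G : Type*} [NormedAddCommGroup G] [NormedSpace ℝ G]

/-- the Reeb flow with its properties -/
structure RF (β : (x : P) → TangentSpace 𝓘(ℝ, E) x →L[ℝ] ℝ)
    (R : (x : P) → TangentSpace 𝓘(ℝ, E) x) (Fl : P → ℝ → P) : Prop where
  zero : ∀ x, Fl x 0 = x
  int : ∀ x, IsMIntegralCurve (I := 𝓘(ℝ, E)) (Fl x) R
  add : ∀ x s t, Fl x (s + t) = Fl (Fl x s) t
  smooth : ContMDiff (𝓘(ℝ, E).prod 𝓘(ℝ, ℝ)) 𝓘(ℝ, E) ∞ (fun p : P × ℝ => Fl p.1 p.2)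
  strict : ∀ (t : ℝ) (x : P) (u : TangentSpace 𝓘(ℝ, E) x),
    β (Fl x t) (mfderiv 𝓘(ℝ, E) 𝓘(ℝ, E) (fun x => Fl x t) x u) = β x u

lemma reeb_eq {β : (x : P) → TangentSpace 𝓘(ℝ, E) x →L[ℝ] ℝ}
    {R : (x : P) → TangentSpace 𝓘(ℝ, E) x} (c : CD β R) : c.X (fun _ => 1) = R := by
  ext1 x
  symm
  apply c.X_unique
  intro v
  rw [HB_apply, c.reeb.unit, c.reeb.kernel]
  have : dForm 𝓘(ℝ, E) (fun _ : P => (1:ℝ)) x v = 0 := by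
    show mfderiv 𝓘(ℝ, E) 𝓘(ℝ, ℝ) (fun _ : P => (1:ℝ)) x v = 0
    rw [mfderiv_const]
    rfl
  rw [this]
  ring

lemma smooth_reeb {β : (x : P) → TangentSpace 𝓘(ℝ, E) x →L[ℝ] ℝ}
    {R : (x : P) → TangentSpace 𝓘(ℝ, E) x} (c : CD β R) :
    ContMDiff 𝓘(ℝ, E) 𝓘(ℝ, E).tangent ∞ (fun x => (⟨x, R x⟩ : TangentBundle 𝓘(ℝ, E) P)) := by
  have h := c.smooth_X (f := fun _ => 1) contMDiff_const
  rw [reeb_eq c] at h
  exact h

lemma RF.of [T2Space P] {β : (x : P) → TangentSpace 𝓘(ℝ, E) x →L[ℝ] ℝ}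
    {R : (x : P) → TangentSpace 𝓘(ℝ, E) x} (c : CD β R) {Fl : P → ℝ → P}
    (h0 : ∀ x, Fl x 0 = x) (hint : ∀ x, IsMIntegralCurve (I := 𝓘(ℝ, E)) (Fl x) R) :
    RF β R Fl := by
  let F : HF c (fun _ => 1) :=
    { Fl := Fl
      zero := h0
      int := by rw [reeb_eq c]; exact hint
      smooth := contMDiff_const
      first := fun x => by
        show mfderiv 𝓘(ℝ, E) 𝓘(ℝ, ℝ) (fun _ : P => (1:ℝ)) x (R x) = 0
        rw [mfderiv_const]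
        rfl }
  exact ⟨h0, hint, F.add, F.smooth_flow, F.strict⟩

namespace RF

variable {β : (x : P) → TangentSpace 𝓘(ℝ, E) x →L[ℝ] ℝ}
    {R : (x : P) → TangentSpace 𝓘(ℝ, E) x} {Fl : P → ℝ → P}

lemma smooth_t (h : RF β R Fl) (t : ℝ) :
    ContMDiff 𝓘(ℝ, E) 𝓘(ℝ, E) ∞ (fun x => Fl x t) :=
  h.smooth.comp (contMDiff_id.prodMk contMDiff_const)

/-- the flow in the chart at `x₀` -/
def H (Fl : P → ℝ → P) (x₀ : P) (q : E × ℝ) : E := ch x₀ (fun x => Fl x q.2) q.1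

lemma smooth_H (h : RF β R Fl) (x₀ : P) {q : E × ℝ} (hq : q.1 ∈ (extChartAt 𝓘(ℝ, E) x₀).target)
    (hq2 : Fl ((extChartAt 𝓘(ℝ, E) x₀).symm q.1) q.2 ∈ (extChartAt 𝓘(ℝ, E) x₀).source) :
    ContDiffAt ℝ ∞ (H Fl x₀) q := by
  rw [← contMDiffAt_iff_contDiffAt]
  have h0 : ContMDiffAt 𝓘(ℝ, E × ℝ) (𝓘(ℝ, E).prod 𝓘(ℝ, ℝ)) ∞
      (fun q : E × ℝ => ((extChartAt 𝓘(ℝ, E) x₀).symm q.1, q.2)) q := by
    refine ContMDiffAt.prodMk ?_ ?_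
    · exact ContMDiffAt.comp q ((contMDiffOn_extChartAt_symm x₀).contMDiffAt
        ((isOpen_extChartAt_target x₀).mem_nhds hq)) contDiff_fst.contMDiff.contMDiffAt
    · exact contDiff_snd.contMDiff.contMDiffAt
  have h1 : ContMDiffAt 𝓘(ℝ, E × ℝ) 𝓘(ℝ, E) ∞
      (fun q : E × ℝ => Fl ((extChartAt 𝓘(ℝ, E) x₀).symm q.1) q.2) q :=
    ContMDiffAt.comp q (h.smooth _) h0
  rw [extChartAt_source] at hq2
  exact (contMDiffAt_extChartAt' hq2).comp q h1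

/-- the Reeb field in the chart at `x₀` -/
def Rc (Fl : P → ℝ → P) (x₀ : P) (q : E) : E := fderiv ℝ (H Fl x₀) (q, 0) (0, 1)

lemma hasDerivAt_H (h : RF β R Fl) (x₀ : P) {q : E} {s : ℝ}
    (hq : q ∈ (extChartAt 𝓘(ℝ, E) x₀).target)
    (hq2 : Fl ((extChartAt 𝓘(ℝ, E) x₀).symm q) s ∈ (extChartAt 𝓘(ℝ, E) x₀).source) :
    HasDerivAt (fun s => H Fl x₀ (q, s)) (fderiv ℝ (H Fl x₀) (q, s) (0, 1)) s := by
  have h1 : HasFDerivAt (H Fl x₀) (fderiv ℝ (H Fl x₀) (q, s)) (q, s) :=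
    ((h.smooth_H x₀ (q := (q, s)) hq hq2).differentiableAt (by simp)).hasFDerivAt
  have h2 : HasDerivAt (fun s : ℝ => ((q, s) : E × ℝ)) (0, 1) s :=
    (hasDerivAt_const s q).prodMk (hasDerivAt_id s)
  exact h1.comp_hasDerivAt s h2

lemma fderiv_ch_eq (h : RF β R Fl) (x₀ : P) {q : E} {s : ℝ}
    (hq : q ∈ (extChartAt 𝓘(ℝ, E) x₀).target)
    (hq2 : Fl ((extChartAt 𝓘(ℝ, E) x₀).symm q) s ∈ (extChartAt 𝓘(ℝ, E) x₀).source) :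
    fderiv ℝ (ch x₀ (fun x => Fl x s)) q =
      (fderiv ℝ (H Fl x₀) (q, s)).comp (ContinuousLinearMap.inl ℝ E ℝ) := by
  have h1 : HasFDerivAt (H Fl x₀) (fderiv ℝ (H Fl x₀) (q, s)) (q, s) :=
    ((h.smooth_H x₀ (q := (q, s)) hq hq2).differentiableAt (by simp)).hasFDerivAt
  have h2 : HasFDerivAt (fun q : E => ((q, s) : E × ℝ)) (ContinuousLinearMap.inl ℝ E ℝ) q := by
    have := (hasFDerivAt_id (𝕜 := ℝ) q).prodMk (hasFDerivAt_const s q)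
    exact this
  exact (h1.comp q h2).fderiv

lemma H_zero (h : RF β R Fl) (x₀ : P) {q : E} (hq : q ∈ (extChartAt 𝓘(ℝ, E) x₀).target) :
    H Fl x₀ (q, 0) = q := by
  show extChartAt 𝓘(ℝ, E) x₀ (Fl ((extChartAt 𝓘(ℝ, E) x₀).symm q) 0) = q
  rw [h.zero]
  exact (extChartAt 𝓘(ℝ, E) x₀).right_inv hq

lemma fderiv_H_zero (h : RF β R Fl) (x₀ : P) {q : E}
    (hq : q ∈ (extChartAt 𝓘(ℝ, E) x₀).target) :
    (fderiv ℝ (H Fl x₀) (q, 0)).comp (ContinuousLinearMap.inl ℝ E ℝ) =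
      ContinuousLinearMap.id ℝ E := by
  have hq2 : Fl ((extChartAt 𝓘(ℝ, E) x₀).symm q) 0 ∈ (extChartAt 𝓘(ℝ, E) x₀).source := by
    rw [h.zero]
    exact (extChartAt 𝓘(ℝ, E) x₀).map_target hq
  rw [← h.fderiv_ch_eq x₀ hq hq2]
  have e1 : (ch x₀ fun x => Fl x 0) =ᶠ[𝓝 q] id := by
    filter_upwards [(isOpen_extChartAt_target x₀).mem_nhds hq] with q' hq'
    exact h.H_zero x₀ hq'
  rw [e1.fderiv_eq, fderiv_id]

lemma continuousAt_fderiv_H (h : RF β R Fl) (x₀ : P) {q : E × ℝ}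
    (hq : q.1 ∈ (extChartAt 𝓘(ℝ, E) x₀).target)
    (hq2 : Fl ((extChartAt 𝓘(ℝ, E) x₀).symm q.1) q.2 ∈ (extChartAt 𝓘(ℝ, E) x₀).source) :
    ContinuousAt (fderiv ℝ (H Fl x₀)) q :=
  ((h.smooth_H x₀ hq hq2).fderiv_right (m := 0) (by simp)).continuousAt

lemma continuousAt_Rc (h : RF β R Fl) (x₀ : P) {q : E}
    (hq : q ∈ (extChartAt 𝓘(ℝ, E) x₀).target) : ContinuousAt (Rc Fl x₀) q := by
  have hq2 : Fl ((extChartAt 𝓘(ℝ, E) x₀).symm q) 0 ∈ (extChartAt 𝓘(ℝ, E) x₀).source := by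
    rw [h.zero]
    exact (extChartAt 𝓘(ℝ, E) x₀).map_target hq
  have h1 := h.continuousAt_fderiv_H x₀ (q := (q, 0)) hq hq2
  have h2 : ContinuousAt (fun q : E => fderiv ℝ (H Fl x₀) (q, 0)) q :=
    ContinuousAt.comp (f := fun q : E => ((q, 0) : E × ℝ)) h1 (by fun_prop)
  exact h2.clm_apply continuousAt_const

/-- the field in the chart is the Reeb field -/
lemma tangent_Rc (h : RF β R Fl) (x₀ : P) {q : E}
    (hq : q ∈ (extChartAt 𝓘(ℝ, E) x₀).target) :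
    (ds x₀ q (Rc Fl x₀ q) : E) = R ((extChartAt 𝓘(ℝ, E) x₀).symm q) := by
  have hq2 : Fl ((extChartAt 𝓘(ℝ, E) x₀).symm q) 0 ∈ (extChartAt 𝓘(ℝ, E) x₀).source := by
    rw [h.zero]
    exact (extChartAt 𝓘(ℝ, E) x₀).map_target hq
  have hd : HasDerivAt (fun s => H Fl x₀ (q, s)) (Rc Fl x₀ q) 0 := h.hasDerivAt_H x₀ hq hq2
  set ψ := extChartAt 𝓘(ℝ, E) x₀ with hψ
  have hFc : Continuous (Fl (ψ.symm q)) :=
    h.smooth.continuous.comp (continuous_const.prodMk continuous_id)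
  have e1 : (ψ.symm ∘ fun s => H Fl x₀ (q, s)) =ᶠ[𝓝 0] (Fl (ψ.symm q)) := by
    filter_upwards [hFc.continuousAt.eventually ((isOpen_extChartAt_source x₀).mem_nhds hq2)]
      with s hs
    exact ψ.left_inv hs
  have hc : H Fl x₀ (q, 0) ∈ ψ.target := by rw [h.H_zero x₀ hq]; exact hq
  have e2 := e1.mfderiv_eq (I := 𝓘(ℝ, ℝ)) (I' := 𝓘(ℝ, E))
  have e3 : mfderiv 𝓘(ℝ, ℝ) 𝓘(ℝ, E) (ψ.symm ∘ fun s => H Fl x₀ (q, s)) 0 =
      (mfderiv 𝓘(ℝ, E) 𝓘(ℝ, E) ψ.symm (H Fl x₀ (q, 0))).comp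
        (mfderiv 𝓘(ℝ, ℝ) 𝓘(ℝ, E) (fun s => H Fl x₀ (q, s)) 0) :=
    mfderiv_comp 0 (mdiff_symm x₀ hc) hd.differentiableAt.mdifferentiableAt
  have e4 : (mfderiv 𝓘(ℝ, ℝ) 𝓘(ℝ, E) (fun s => H Fl x₀ (q, s)) 0 (1 : ℝ) : E) =
      Rc Fl x₀ q := by
    rw [mfderiv_eq_fderiv]
    exact hd.deriv
  have e5 : (mfderiv 𝓘(ℝ, ℝ) 𝓘(ℝ, E) (Fl (ψ.symm q)) 0 (1 : ℝ) : E) = R (ψ.symm q) := by
    rw [(h.int (ψ.symm q) 0).mfderiv]
    have e6 : (((1 : ℝ →L[ℝ] ℝ).smulRight (R (Fl (ψ.symm q) 0))) (1 : ℝ) : E) =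
        R (Fl (ψ.symm q) 0) := by
      show (1:ℝ) • R (Fl (ψ.symm q) 0) = _
      rw [one_smul]
    refine e6.trans ?_
    rw [h.zero]
  have e7 : (mfderiv 𝓘(ℝ, ℝ) 𝓘(ℝ, E) (ψ.symm ∘ fun s => H Fl x₀ (q, s)) 0 (1 : ℝ) : E) =
      (mfderiv 𝓘(ℝ, ℝ) 𝓘(ℝ, E) (Fl (ψ.symm q)) 0 (1 : ℝ) : E) := by rw [e2]; rfl
  rw [← e5, ← e7, e3]
  show _ = (mfderiv 𝓘(ℝ, E) 𝓘(ℝ, E) ψ.symm (H Fl x₀ (q, 0)))
    (mfderiv 𝓘(ℝ, ℝ) 𝓘(ℝ, E) (fun s => H Fl x₀ (q, s)) 0 (1 : ℝ))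
  have e8 : ∀ (a b : E) (u w : E), a = b → u = w →
      (mfderiv 𝓘(ℝ, E) 𝓘(ℝ, E) ψ.symm a u : E) = (mfderiv 𝓘(ℝ, E) 𝓘(ℝ, E) ψ.symm b w : E) := by
    rintro a _ u _ rfl rfl; rfl
  exact e8 _ _ _ _ (h.H_zero x₀ hq).symm e4.symm

/-- the flow preserves the Reeb field, in the chart -/
lemma fderiv_ch_Rc (h : RF β R Fl) (x₀ : P) {p : E} {t : ℝ}
    (hp : p ∈ (extChartAt 𝓘(ℝ, E) x₀).target)
    (hp2 : Fl ((extChartAt 𝓘(ℝ, E) x₀).symm p) t ∈ (extChartAt 𝓘(ℝ, E) x₀).source) :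
    fderiv ℝ (ch x₀ (fun x => Fl x t)) p (Rc Fl x₀ p) = Rc Fl x₀ (ch x₀ (fun x => Fl x t) p) := by
  have hq2 : Fl ((extChartAt 𝓘(ℝ, E) x₀).symm p) 0 ∈ (extChartAt 𝓘(ℝ, E) x₀).source := by
    rw [h.zero]
    exact (extChartAt 𝓘(ℝ, E) x₀).map_target hp
  have hd : HasDerivAt (fun s => H Fl x₀ (p, s)) (Rc Fl x₀ p) 0 := h.hasDerivAt_H x₀ hp hq2
  set ψ := extChartAt 𝓘(ℝ, E) x₀ with hψ
  have hct : ch x₀ (fun x => Fl x t) p ∈ ψ.target := ψ.map_source hp2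
  have hcs : ψ.symm (ch x₀ (fun x => Fl x t) p) = Fl (ψ.symm p) t := ψ.left_inv hp2
  have hd2 : HasDerivAt (fun s => H Fl x₀ (ch x₀ (fun x => Fl x t) p, s))
      (Rc Fl x₀ (ch x₀ (fun x => Fl x t) p)) 0 := by
    refine h.hasDerivAt_H x₀ hct ?_
    rw [← hψ, hcs, h.zero]
    exact hp2
  have hΨ : HasFDerivAt (ch x₀ (fun x => Fl x t)) (fderiv ℝ (ch x₀ (fun x => Fl x t)) p)
      (H Fl x₀ (p, 0)) := by
    rw [h.H_zero x₀ hp]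
    exact ((ch_smooth x₀ (h.smooth_t t) hp hp2).differentiableAt (by simp)).hasFDerivAt
  have hd3 := hΨ.comp_hasDerivAt (0:ℝ) hd
  have hFc : Continuous (Fl (ψ.symm p)) :=
    h.smooth.continuous.comp (continuous_const.prodMk continuous_id)
  have e1 : ((ch x₀ (fun x => Fl x t)) ∘ fun s => H Fl x₀ (p, s)) =ᶠ[𝓝 0]
      (fun s => H Fl x₀ (ch x₀ (fun x => Fl x t) p, s)) := by
    filter_upwards [hFc.continuousAt.eventually ((isOpen_extChartAt_source x₀).mem_nhds hq2)]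
      with s hs
    show ψ (Fl (ψ.symm (ψ (Fl (ψ.symm p) s))) t) = ψ (Fl (ψ.symm (ch x₀ (fun x => Fl x t) p)) s)
    rw [ψ.left_inv hs, hcs, ← h.add, ← h.add, add_comm]
  exact hd3.unique (hd2.congr_of_eventuallyEq e1)

/-- chain rule for the flow in the chart -/
lemma fderiv_ch_add (h : RF β R Fl) (x₀ : P) {p : E} {t s : ℝ}
    (hp : p ∈ (extChartAt 𝓘(ℝ, E) x₀).target)
    (hp2 : Fl ((extChartAt 𝓘(ℝ, E) x₀).symm p) t ∈ (extChartAt 𝓘(ℝ, E) x₀).source)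
    (hp3 : Fl ((extChartAt 𝓘(ℝ, E) x₀).symm p) (t + s) ∈ (extChartAt 𝓘(ℝ, E) x₀).source) :
    fderiv ℝ (ch x₀ (fun x => Fl x (t + s))) p =
      (fderiv ℝ (ch x₀ (fun x => Fl x s)) (ch x₀ (fun x => Fl x t) p)).comp
        (fderiv ℝ (ch x₀ (fun x => Fl x t)) p) := by
  set ψ := extChartAt 𝓘(ℝ, E) x₀ with hψ
  have hct : ch x₀ (fun x => Fl x t) p ∈ ψ.target := ψ.map_source hp2
  have hcs : ψ.symm (ch x₀ (fun x => Fl x t) p) = Fl (ψ.symm p) t := ψ.left_inv hp2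
  have h1 : HasFDerivAt (ch x₀ (fun x => Fl x t)) (fderiv ℝ (ch x₀ (fun x => Fl x t)) p) p :=
    ((ch_smooth x₀ (h.smooth_t t) hp hp2).differentiableAt (by simp)).hasFDerivAt
  have h2 : HasFDerivAt (ch x₀ (fun x => Fl x s))
      (fderiv ℝ (ch x₀ (fun x => Fl x s)) (ch x₀ (fun x => Fl x t) p))
      (ch x₀ (fun x => Fl x t) p) := by
    refine ((ch_smooth x₀ (h.smooth_t s) hct ?_).differentiableAt (by simp)).hasFDerivAt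
    rw [← hψ, hcs, ← h.add]
    exact hp3
  have h3 := h2.comp p h1
  have hFc : ContinuousAt (fun p => Fl (ψ.symm p) t) p :=
    (h.smooth_t t).continuous.continuousAt.comp
      ((continuousOn_extChartAt_symm x₀).continuousAt ((isOpen_extChartAt_target x₀).mem_nhds hp))
  have e1 : (ch x₀ (fun x => Fl x (t + s))) =ᶠ[𝓝 p]
      (ch x₀ (fun x => Fl x s)) ∘ (ch x₀ (fun x => Fl x t)) := by
    filter_upwards [hFc.eventually ((isOpen_extChartAt_source x₀).mem_nhds hp2)] with p' hp'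
    show ψ (Fl (ψ.symm p') (t + s)) = ψ (Fl (ψ.symm (ψ (Fl (ψ.symm p') t))) s)
    rw [ψ.left_inv hp', ← h.add]
  rw [e1.fderiv_eq, h3.fderiv]

end RF

end Pool.Agent.W671.WU
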