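import Mathlib
import Pool.Agent.W671.WU7

/-! The closed orbit of a recurrent Reeb flow. -/

open scoped Topology ContDiff Manifold
open Set Metric Bundle Filter Pool.Agent.Helper186 Pool.Agent.H826R2.Wein

noncomputable section

namespace Pool.Agent.W671.WU

set_option linter.unusedSectionVars false

universe u

variable {E : Type u} [NormedAddCommGroup E] [NormedSpace ℝ E] [FiniteDimensional ℝ E]
  {P : Type*} [TopologicalSpace P] [ChartedSpace E P] [IsManifold 𝓘(ℝ, E) ∞ P]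
  {F : Type*} [NormedAddCommGroup F] [NormedSpace ℝ F]
  {β : (x : P) → TangentSpace 𝓘(ℝ, E) x →L[ℝ] ℝ}
  {R : (x : P) → TangentSpace 𝓘(ℝ, E) x} {Fl : P → ℝ → P}

lemma chartForm_self (x₀ : P) (z : E) :
    chartForm 𝓘(ℝ, E) β x₀ (extChartAt 𝓘(ℝ, E) x₀ x₀) z = β x₀ z := by
  have h1 : (⟨(extChartAt 𝓘(ℝ, E) x₀).symm (extChartAt 𝓘(ℝ, E) x₀ x₀),
      ds x₀ (extChartAt 𝓘(ℝ, E) x₀ x₀) z⟩ : TangentBundle 𝓘(ℝ, E) P) = ⟨x₀, z⟩ := by
    have e1 : (extChartAt 𝓘(ℝ, E) x₀).symm (extChartAt 𝓘(ℝ, E) x₀ x₀) = x₀ :=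
      extChartAt_to_inv x₀
    have e2 : (ds x₀ (extChartAt 𝓘(ℝ, E) x₀ x₀) z : E) = z := mfderiv_extChartAt_symm_self x₀ z
    have e3 : ∀ (a b : P) (u w : E), a = b → u = w →
      (⟨a, u⟩ : TangentBundle 𝓘(ℝ, E) P) = ⟨b, w⟩ := by
      rintro a _ u _ rfl rfl; rfl
    exact e3 _ _ _ _ e1 e2
  exact form_congr' β h1

lemma fderiv_cf_self (x₀ : P) {e : P → F} (he : ContMDiff 𝓘(ℝ, E) 𝓘(ℝ, F) ∞ e) (z : E) :
    fderiv ℝ (cf x₀ e) (extChartAt 𝓘(ℝ, E) x₀ x₀) z = mfderiv 𝓘(ℝ, E) 𝓘(ℝ, F) e x₀ z := by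
  rw [fderiv_cf x₀ he (mem_extChartAt_target x₀)]
  have e1 : (extChartAt 𝓘(ℝ, E) x₀).symm (extChartAt 𝓘(ℝ, E) x₀ x₀) = x₀ :=
    extChartAt_to_inv x₀
  have e2 : (ds x₀ (extChartAt 𝓘(ℝ, E) x₀ x₀) z : E) = z := mfderiv_extChartAt_symm_self x₀ z
  have e3 : ∀ (a b : P) (u w : E), a = b → u = w →
    (mfderiv 𝓘(ℝ, E) 𝓘(ℝ, F) e a u : F) = mfderiv 𝓘(ℝ, E) 𝓘(ℝ, F) e b w := by
    rintro a _ u _ rfl rfl; rfl
  exact e3 _ _ _ _ e1 e2

/-- the equation satisfied at the maximum -/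
lemma crit_eq (h : RF β R Fl) {n : ℕ} {f g : Fin n → P → ℝ}
    (hf : ∀ i, ContMDiff 𝓘(ℝ, E) 𝓘(ℝ, ℝ) ∞ (f i))
    (hg : ∀ i, ContMDiff 𝓘(ℝ, E) 𝓘(ℝ, ℝ) ∞ (g i))
    (hrep : ∀ (x : P) (v : TangentSpace 𝓘(ℝ, E) x),
        β x v = ∑ i, f i x * dForm 𝓘(ℝ, E) (g i) x v) (x₀ : P) {x : P} {t : ℝ}
    (hx : x ∈ (extChartAt 𝓘(ℝ, E) x₀).source) (hy : Fl x t ∈ (extChartAt 𝓘(ℝ, E) x₀).source)
    (hcr : ∀ γ : ℝ → P, ContinuousAt γ 0 → γ 0 = x → ∀ d : ℝ,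
        HasDerivAt (fun r => S f g (γ r) (Fl (γ r) t)) d 0 → d = 0) (v : E) :
    (∑ i, ((fderiv ℝ (cf x₀ (f i)) (extChartAt 𝓘(ℝ, E) x₀ x) v +
      fderiv ℝ (cf x₀ (f i)) (extChartAt 𝓘(ℝ, E) x₀ (Fl x t))
        (fderiv ℝ (ch x₀ (fun x => Fl x t)) (extChartAt 𝓘(ℝ, E) x₀ x) v)) *
      (cf x₀ (g i) (extChartAt 𝓘(ℝ, E) x₀ (Fl x t)) - cf x₀ (g i) (extChartAt 𝓘(ℝ, E) x₀ x)) -
      (cf x₀ (f i) (extChartAt 𝓘(ℝ, E) x₀ (Fl x t)) - cf x₀ (f i) (extChartAt 𝓘(ℝ, E) x₀ x)) *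
      (fderiv ℝ (cf x₀ (g i)) (extChartAt 𝓘(ℝ, E) x₀ x) v +
      fderiv ℝ (cf x₀ (g i)) (extChartAt 𝓘(ℝ, E) x₀ (Fl x t))
        (fderiv ℝ (ch x₀ (fun x => Fl x t)) (extChartAt 𝓘(ℝ, E) x₀ x) v)))) = 0 := by
  set ψ := extChartAt 𝓘(ℝ, E) x₀ with hψ
  set p := ψ x with hp
  have hpt : p ∈ ψ.target := ψ.map_source hx
  have hps : ψ.symm p = x := ψ.left_inv hx
  have hq : ch x₀ (fun x => Fl x t) p = ψ (Fl x t) := by
    show ψ (Fl (ψ.symm p) t) = _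
    rw [hps]
  set q := ψ (Fl x t) with hqdef
  have hqt : q ∈ ψ.target := ψ.map_source hy
  have hp2 : (fun x => Fl x t) (ψ.symm p) ∈ ψ.source := by
    show Fl (ψ.symm p) t ∈ ψ.source
    rw [hps]; exact hy
  set L := fderiv ℝ (ch x₀ (fun x => Fl x t)) p with hL
  have hΨ : HasFDerivAt (ch x₀ (fun x => Fl x t)) L p :=
    ((ch_smooth x₀ (h.smooth_t t) hpt hp2).differentiableAt (by simp)).hasFDerivAt
  -- the curve
  have hline : HasDerivAt (fun r : ℝ => p + r • v) v 0 := by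
    have := ((hasDerivAt_id (0:ℝ)).smul_const v).const_add p
    simpa using this
  have hline0 : p + (0:ℝ) • v = p := by simp
  have hlc : ContinuousAt (fun r : ℝ => p + r • v) 0 := hline.continuousAt
  have hΨl : HasDerivAt (fun r : ℝ => ch x₀ (fun x => Fl x t) (p + r • v)) (L v) 0 := by
    have h1 : HasFDerivAt (ch x₀ (fun x => Fl x t)) L (p + (0:ℝ) • v) := by rw [hline0]; exact hΨ
    exact h1.comp_hasDerivAt (0:ℝ) hline
  have hcfd : ∀ {k : P → ℝ} (_ : ContMDiff 𝓘(ℝ, E) 𝓘(ℝ, ℝ) ∞ k),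
      HasDerivAt (fun r : ℝ => cf x₀ k (p + r • v)) (fderiv ℝ (cf x₀ k) p v) 0 ∧
      HasDerivAt (fun r : ℝ => cf x₀ k (ch x₀ (fun x => Fl x t) (p + r • v)))
        (fderiv ℝ (cf x₀ k) q (L v)) 0 := by
    intro k hk
    constructor
    · have h1 : HasFDerivAt (cf x₀ k) (fderiv ℝ (cf x₀ k) p) (p + (0:ℝ) • v) := by
        rw [hline0]
        exact ((cf_smooth x₀ hk hpt).differentiableAt (by simp)).hasFDerivAt
      exact h1.comp_hasDerivAt (0:ℝ) hline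
    · have h1 : HasFDerivAt (cf x₀ k) (fderiv ℝ (cf x₀ k) q)
          (ch x₀ (fun x => Fl x t) (p + (0:ℝ) • v)) := by
        rw [hline0, hq]
        exact ((cf_smooth x₀ hk hqt).differentiableAt (by simp)).hasFDerivAt
      exact h1.comp_hasDerivAt (0:ℝ) hΨl
  set d : ℝ := (∑ i, ((fderiv ℝ (cf x₀ (f i)) p v + fderiv ℝ (cf x₀ (f i)) q (L v)) *
      (cf x₀ (g i) q - cf x₀ (g i) p) + (cf x₀ (f i) p + cf x₀ (f i) q) *
      (fderiv ℝ (cf x₀ (g i)) q (L v) - fderiv ℝ (cf x₀ (g i)) p v))) / 2 with hd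
  have hder : HasDerivAt (fun r : ℝ => (∑ i, (cf x₀ (f i) (p + r • v) +
      cf x₀ (f i) (ch x₀ (fun x => Fl x t) (p + r • v))) *
      (cf x₀ (g i) (ch x₀ (fun x => Fl x t) (p + r • v)) - cf x₀ (g i) (p + r • v))) / 2) d 0 := by
    refine HasDerivAt.div_const ?_ _
    refine HasDerivAt.fun_sum fun i _ => ?_
    obtain ⟨f1, f2⟩ := hcfd (hf i)
    obtain ⟨g1, g2⟩ := hcfd (hg i)
    have h3 := (f1.add f2).mul (g2.sub g1)
    simp only [Pi.add_apply, Pi.sub_apply, hline0, hq] at h3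
    exact h3
  have hγc : ContinuousAt (fun r : ℝ => ψ.symm (p + r • v)) 0 := by
    refine ContinuousAt.comp (g := ψ.symm) ?_ hlc
    rw [hline0]
    exact (continuousOn_extChartAt_symm x₀).continuousAt
      ((isOpen_extChartAt_target x₀).mem_nhds hpt)
  have hd0 : d = 0 := by
    refine hcr (fun r => ψ.symm (p + r • v)) hγc (by simp only [hline0, hps]) d ?_
    refine hder.congr_of_eventuallyEq ?_
    have h1 : ContinuousAt (fun r : ℝ => Fl (ψ.symm (p + r • v)) t) 0 :=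
      (h.smooth_t t).continuous.continuousAt.comp hγc
    have h2 : (fun r : ℝ => Fl (ψ.symm (p + r • v)) t) 0 ∈ ψ.source := by
      simp only [hline0, hps]
      exact hy
    filter_upwards [h1.eventually ((isOpen_extChartAt_source x₀).mem_nhds h2)] with r hr
    have h3 : ∀ k : P → ℝ, cf x₀ k (ch x₀ (fun x => Fl x t) (p + r • v)) =
        k (Fl (ψ.symm (p + r • v)) t) := by
      intro k
      show k (ψ.symm (ψ (Fl (ψ.symm (p + r • v)) t))) = _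
      rw [ψ.left_inv hr]
    unfold S
    simp only [h3]
    rfl
  have hstrict : (∑ i, cf x₀ (f i) q * fderiv ℝ (cf x₀ (g i)) q (L v)) =
      ∑ i, cf x₀ (f i) p * fderiv ℝ (cf x₀ (g i)) p v := by
    have h1 := chartForm_ch (β := β) x₀ (h.smooth_t t) (h.strict t) hpt hp2 v
    rw [chartForm_rep hg hrep x₀ hpt, hq, chartForm_rep hg hrep x₀ hqt] at h1
    exact h1
  have hfin : (∑ i, ((fderiv ℝ (cf x₀ (f i)) p v + fderiv ℝ (cf x₀ (f i)) q (L v)) *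
      (cf x₀ (g i) q - cf x₀ (g i) p) - (cf x₀ (f i) q - cf x₀ (f i) p) *
      (fderiv ℝ (cf x₀ (g i)) p v + fderiv ℝ (cf x₀ (g i)) q (L v)))) =
      2 * d - 2 * ((∑ i, cf x₀ (f i) q * fderiv ℝ (cf x₀ (g i)) q (L v)) -
      ∑ i, cf x₀ (f i) p * fderiv ℝ (cf x₀ (g i)) p v) := by
    rw [hd, mul_div_cancel₀ _ (two_ne_zero), ← Finset.sum_sub_distrib, Finset.mul_sum,
      ← Finset.sum_sub_distrib]
    refine Finset.sum_congr rfl fun i _ => ?_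
    ring
  rw [hfin, hd0, hstrict]
  ring

end Pool.Agent.W671.WU
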