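import Mathlib
import Pool.Agent.W671.WU8

/-! The closed orbit of a recurrent Reeb flow. -/

open scoped Topology ContDiff Manifold
open Set Metric Bundle Filter Pool.Agent.Helper186 Pool.Agent.H826R2.Wein

noncomputable section

namespace Pool.Agent.W671.WU

set_option linter.unusedSectionVars false

universe u

variable {E : Type u} [NormedAddCommGroup E] [NormedSpace ℝ E] [FiniteDimensional ℝ E]
  {P : Type*} [TopologicalSpace P] [ChartedSpace E P] [IsManifold 𝓘(ℝ, E) ∞ P]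
  {F : Type*} [NormedAddCommGroup F] [NormedSpace ℝ F]
  {β : (x : P) → TangentSpace 𝓘(ℝ, E) x →L[ℝ] ℝ}
  {R : (x : P) → TangentSpace 𝓘(ℝ, E) x} {Fl : P → ℝ → P}

attribute [local irreducible] S A

/-- the window -/
lemma exists_window [T2Space P] [CompactSpace P] {n : ℕ} {f g : Fin n → P → ℝ}
    (hf : ∀ i, ContMDiff 𝓘(ℝ, E) 𝓘(ℝ, ℝ) ∞ (f i))
    (hg : ∀ i, ContMDiff 𝓘(ℝ, E) 𝓘(ℝ, ℝ) ∞ (g i))
    (hR : ContMDiff 𝓘(ℝ, E) 𝓘(ℝ, E).tangent ∞ (fun x => (⟨x, R x⟩ : TangentBundle 𝓘(ℝ, E) P)))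
    (hβR : ∀ x, β x (R x) = 1)
    (hrep : ∀ (x : P) (v : TangentSpace 𝓘(ℝ, E) x),
        β x v = ∑ i, f i x * dForm 𝓘(ℝ, E) (g i) x v)
    (h0 : ∀ x, Fl x 0 = x) (hFc : Continuous (fun p : P × ℝ => Fl p.1 p.2))
    {e : P → F} (he : Continuous e) (hinj : Function.Injective e) {c : ℝ} (hc : 0 < c) :
    ∃ δ > 0, δ < c ∧ ∃ ε > 0, ∀ x y, ‖e y - e x‖ < ε →
      (∀ s ∈ Icc (-δ) δ, 1 / 2 < A f g R x (Fl y s)) ∧ |S f g x y| < δ / 4 := by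
  have hAc := continuous_A hR hf hg
  have hSc := continuous_S (fun i => (hf i).continuous) (fun i => (hg i).continuous)
  have hc1 : Continuous (fun q : (P × P) × ℝ => A f g R q.1.1 (Fl q.1.2 q.2)) := by
    have h1 : Continuous (fun q : (P × P) × ℝ => (q.1.1, Fl q.1.2 q.2)) := by
      refine (continuous_fst.comp continuous_fst).prodMk ?_
      exact hFc.comp ((continuous_snd.comp continuous_fst).prodMk continuous_snd)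
    exact hAc.comp h1
  have hopen : IsOpen {q : (P × P) × ℝ | 1 / 2 < A f g R q.1.1 (Fl q.1.2 q.2)} :=
    isOpen_lt continuous_const hc1
  have hdiag : IsCompact (range fun x : P => (x, x)) :=
    isCompact_range (continuous_id.prodMk continuous_id)
  obtain ⟨u, v, hu, hv, hdu, h0v, huv⟩ := generalized_tube_lemma hdiag
    (isCompact_singleton (x := (0:ℝ))) hopen (by
      rintro ⟨⟨x, y⟩, s⟩ ⟨⟨z, hz⟩, hs⟩
      simp only [Prod.mk.injEq] at hz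
      obtain ⟨rfl, rfl⟩ := hz
      have hs' : s = 0 := hs
      subst hs'
      show 1 / 2 < A f g R z (Fl z 0)
      rw [h0, A_self hrep hβR]
      norm_num)
  have h0v' : v ∈ 𝓝 (0:ℝ) := hv.mem_nhds (h0v rfl)
  obtain ⟨r, hr, hrv⟩ := Metric.mem_nhds_iff.1 h0v'
  set δ := min (r / 2) (c / 2) with hδ
  have hδ0 : 0 < δ := by positivity
  have hδr : δ < r := lt_of_le_of_lt (min_le_left _ _) (by linarith)
  have hδc : δ < c := lt_of_le_of_lt (min_le_right _ _) (by linarith)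
  set O : Set (P × P) := u ∩ {q | |S f g q.1 q.2| < δ / 4} with hO
  have hOo : IsOpen O := hu.inter (isOpen_lt hSc.abs continuous_const)
  have hOd : ∀ x, (x, x) ∈ O := by
    intro x
    refine ⟨hdu ⟨x, rfl⟩, ?_⟩
    show |S f g x x| < δ / 4
    rw [S_self, abs_zero]
    positivity
  obtain ⟨ε, hε, hεO⟩ : ∃ ε > 0, ∀ q : P × P, ‖e q.2 - e q.1‖ < ε → q ∈ O := by
    rcases (Oᶜ).eq_empty_or_nonempty with hemp | hne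
    · refine ⟨1, one_pos, fun q _ => ?_⟩
      by_contra hq
      have : q ∈ Oᶜ := hq
      rw [hemp] at this
      exact this
    · obtain ⟨q₀, hq₀, hmin⟩ := (hOo.isClosed_compl.isCompact).exists_isMinOn hne
        (f := fun q : P × P => ‖e q.2 - e q.1‖)
        (((he.comp continuous_snd).sub (he.comp continuous_fst)).norm).continuousOn
      refine ⟨‖e q₀.2 - e q₀.1‖, ?_, fun q hq => ?_⟩
      · rw [gt_iff_lt, norm_pos_iff, sub_ne_zero]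
        intro h
        have h2 := hinj h
        apply hq₀
        have : q₀ = (q₀.1, q₀.1) := by
          rw [← Prod.mk.eta (p := q₀), h2]
        rw [this]
        exact hOd _
      · by_contra hqO
        have h3 := hmin (a := q) hqO
        simp only [mem_ofPred_eq] at h3
        exact absurd hq (not_lt.2 h3)
  refine ⟨δ, hδ0, hδc, ε, hε, fun x y hxy => ?_⟩
  have h1 := hεO (x, y) hxy
  refine ⟨fun s hs => ?_, h1.2⟩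
  have hs2 : s ∈ v := by
    apply hrv
    rw [Metric.mem_ball, dist_zero_right, Real.norm_eq_abs, abs_lt]
    constructor <;> linarith [hs.1, hs.2]
  exact huv (show ((x, y), s) ∈ u ×ˢ v from ⟨h1.1, hs2⟩)

variable (E) in
/-- derivative of a vector valued function -/
def dv (e : P → F) (x : P) (v : E) : F := mfderiv 𝓘(ℝ, E) 𝓘(ℝ, F) e x v

variable (E) in
/-- derivative of a map -/
def dm (φ : P → P) (x : P) (v : E) : E := mfderiv 𝓘(ℝ, E) 𝓘(ℝ, E) φ x v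

/-- the limiting contradiction -/
theorem no_limit_flow (c : CD β R) (h : RF β R Fl) {n : ℕ} {f g : Fin n → P → ℝ}
    (hf : ∀ i, ContMDiff 𝓘(ℝ, E) 𝓘(ℝ, ℝ) ∞ (f i))
    (hg : ∀ i, ContMDiff 𝓘(ℝ, E) 𝓘(ℝ, ℝ) ∞ (g i))
    (hrep : ∀ (x : P) (v : TangentSpace 𝓘(ℝ, E) x),
        β x v = ∑ i, f i x * dForm 𝓘(ℝ, E) (g i) x v)
    {e : P → F} (he : ContMDiff 𝓘(ℝ, E) 𝓘(ℝ, F) ∞ e)
    (himm : ∀ x, Function.Injective (mfderiv 𝓘(ℝ, E) 𝓘(ℝ, F) e x))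
    (l : Ultrafilter ℕ) {x y y' : ℕ → P} {t τ s : ℕ → ℝ} {x₀ : P}
    (hx₀ : Tendsto x l (𝓝 x₀)) (hy₀ : Tendsto y' l (𝓝 x₀)) (hy0 : Tendsto y l (𝓝 x₀))
    (hs0 : Tendsto s l (𝓝 0)) (ht : ∀ k, τ k + s k = t k)
    (hy' : ∀ k, y' k = Fl (x k) (τ k)) (hy : ∀ k, y k = Fl (x k) (t k))
    (hyk : ∀ k, y k = Fl (y' k) (s k))
    (hne : ∀ᶠ k in (l : Filter ℕ), y k ≠ x k)
    (hS : ∀ᶠ k in (l : Filter ℕ), S f g (x k) (y k) = 0)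
    (hcr : ∀ᶠ k in (l : Filter ℕ), ∀ γ : ℝ → P, ContinuousAt γ 0 → γ 0 = x k → ∀ d : ℝ,
        HasDerivAt (fun r => S f g (γ r) (Fl (γ r) (t k))) d 0 → d = 0)
    {C : ℝ}
    (hmod : ∀ᶠ k in (l : Filter ℕ), ∃ lam : E →L[ℝ] ℝ, ∀ (v : E),
      ‖dv E e (y' k) (dm E (fun y => Fl y (τ k)) (x k) v) +
        lam v • dv E e (y' k) (R (y' k))‖ ≤ C * ‖dv E e (x k) v‖ ∧
      ‖dv E e (x k) v‖ ≤ C * ‖dv E e (y' k) (dm E (fun y => Fl y (τ k)) (x k) v) +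
        lam v • dv E e (y' k) (R (y' k)) + dv E e (x k) v‖) : False := by
  -- the chart
  have hsrc : (extChartAt 𝓘(ℝ, E) x₀).source ∈ 𝓝 x₀ := extChartAt_source_mem_nhds x₀
  have htgt : (extChartAt 𝓘(ℝ, E) x₀).target ∈ 𝓝 (extChartAt 𝓘(ℝ, E) x₀ x₀) :=
    extChartAt_target_mem_nhds x₀
  have hψc : ContinuousAt (extChartAt 𝓘(ℝ, E) x₀) x₀ := continuousAt_extChartAt x₀
  have hx₀t : extChartAt 𝓘(ℝ, E) x₀ x₀ ∈ (extChartAt 𝓘(ℝ, E) x₀).target := mem_extChartAt_target x₀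
  have hxs : ∀ᶠ k in (l : Filter ℕ), x k ∈ (extChartAt 𝓘(ℝ, E) x₀).source := hx₀.eventually hsrc
  have hys : ∀ᶠ k in (l : Filter ℕ), y k ∈ (extChartAt 𝓘(ℝ, E) x₀).source := hy0.eventually hsrc
  have hys' : ∀ᶠ k in (l : Filter ℕ), y' k ∈ (extChartAt 𝓘(ℝ, E) x₀).source :=
    hy₀.eventually hsrc
  have hp : Tendsto (fun k => extChartAt 𝓘(ℝ, E) x₀ (x k)) l (𝓝 (extChartAt 𝓘(ℝ, E) x₀ x₀)) :=
    hψc.tendsto.comp hx₀
  have hq : Tendsto (fun k => extChartAt 𝓘(ℝ, E) x₀ (y k)) l (𝓝 (extChartAt 𝓘(ℝ, E) x₀ x₀)) :=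
    hψc.tendsto.comp hy0
  have hq' : Tendsto (fun k => extChartAt 𝓘(ℝ, E) x₀ (y' k)) l (𝓝 (extChartAt 𝓘(ℝ, E) x₀ x₀)) :=
    hψc.tendsto.comp hy₀
  have hcht : ∀ k, x k ∈ (extChartAt 𝓘(ℝ, E) x₀).source → ∀ t,
      ch x₀ (fun z => Fl z t) (extChartAt 𝓘(ℝ, E) x₀ (x k)) =
        extChartAt 𝓘(ℝ, E) x₀ (Fl (x k) t) := by
    intro k hk t
    show extChartAt 𝓘(ℝ, E) x₀ (Fl ((extChartAt 𝓘(ℝ, E) x₀).symm
      (extChartAt 𝓘(ℝ, E) x₀ (x k))) t) = _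
    rw [(extChartAt 𝓘(ℝ, E) x₀).left_inv hk]
  have hb : ∀ᶠ p in 𝓝 (extChartAt 𝓘(ℝ, E) x₀ x₀), ∀ v, chartForm 𝓘(ℝ, E) β x₀ p v =
      ∑ i, cf x₀ (f i) p * fderiv ℝ (cf x₀ (g i)) p v := by
    filter_upwards [htgt] with p hp v
    exact chartForm_rep hg hrep x₀ hp v
  have hbc : ContinuousAt (chartForm 𝓘(ℝ, E) β x₀) (extChartAt 𝓘(ℝ, E) x₀ x₀) :=
    ((contDiffOn_chartForm c.contact.smooth x₀).contDiffAt htgt).continuousAt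
  have hnd : ∀ z : E, chartForm 𝓘(ℝ, E) β x₀ (extChartAt 𝓘(ℝ, E) x₀ x₀) z = 0 →
      (∀ w : E, (∑ i, (fderiv ℝ (cf x₀ (f i)) (extChartAt 𝓘(ℝ, E) x₀ x₀) w *
        fderiv ℝ (cf x₀ (g i)) (extChartAt 𝓘(ℝ, E) x₀ x₀) z -
        fderiv ℝ (cf x₀ (f i)) (extChartAt 𝓘(ℝ, E) x₀ x₀) z *
        fderiv ℝ (cf x₀ (g i)) (extChartAt 𝓘(ℝ, E) x₀ x₀) w)) = 0) → z = 0 := by
    intro z hz1 hz2
    rw [chartForm_self] at hz1
    refine c.contact.nondeg x₀ z hz1 fun w _ => ?_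
    rw [extDer_rep hf hg hrep x₀ z w]
    have h1 := hz2 w
    rw [← neg_eq_zero, ← Finset.sum_neg_distrib] at h1
    refine Eq.trans (Finset.sum_congr rfl fun i _ => ?_) h1
    ring
  have hJ : ContinuousAt (fun p => fderiv ℝ (cf x₀ e) p) (extChartAt 𝓘(ℝ, E) x₀ x₀) :=
    ((cf_smooth x₀ he hx₀t).fderiv_right (m := 0) (by simp)).continuousAt
  have hJi : Function.Injective (fderiv ℝ (cf x₀ e) (extChartAt 𝓘(ℝ, E) x₀ x₀)) := by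
    intro u w huw
    apply himm x₀
    have h1 := fderiv_cf_self x₀ he u
    have h2 := fderiv_cf_self x₀ he w
    exact h1.symm.trans (huw.trans h2)
  have hbR : ∀ᶠ p in 𝓝 (extChartAt 𝓘(ℝ, E) x₀ x₀),
      chartForm 𝓘(ℝ, E) β x₀ p (RF.Rc Fl x₀ p) = 1 := by
    filter_upwards [htgt] with p hp
    have h1 : chartForm 𝓘(ℝ, E) β x₀ p (RF.Rc Fl x₀ p) =
      β ((extChartAt 𝓘(ℝ, E) x₀).symm p) (ds x₀ p (RF.Rc Fl x₀ p)) := rfl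
    have h2 : β ((extChartAt 𝓘(ℝ, E) x₀).symm p) (ds x₀ p (RF.Rc Fl x₀ p)) =
        β ((extChartAt 𝓘(ℝ, E) x₀).symm p) (R ((extChartAt 𝓘(ℝ, E) x₀).symm p)) :=
      congrArg (fun w : E => β ((extChartAt 𝓘(ℝ, E) x₀).symm p) w) (h.tangent_Rc x₀ hp)
    rw [h1, h2, c.reeb.unit]
  have hneq : ∀ᶠ k in (l : Filter ℕ), extChartAt 𝓘(ℝ, E) x₀ (y k) ≠
      extChartAt 𝓘(ℝ, E) x₀ (x k) := by
    filter_upwards [hne, hxs, hys] with k hk h1 h2 h3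
    exact hk ((extChartAt 𝓘(ℝ, E) x₀).injOn h2 h1 h3)
  have hmem' : ∀ k, x k ∈ (extChartAt 𝓘(ℝ, E) x₀).source →
      y' k ∈ (extChartAt 𝓘(ℝ, E) x₀).source →
      Fl ((extChartAt 𝓘(ℝ, E) x₀).symm (extChartAt 𝓘(ℝ, E) x₀ (x k))) (τ k) ∈
        (extChartAt 𝓘(ℝ, E) x₀).source := by
    intro k h1 h2
    rw [(extChartAt 𝓘(ℝ, E) x₀).left_inv h1, ← hy']
    exact h2
  have hN : Tendsto (fun k => fderiv ℝ (ch x₀ (fun z => Fl z (s k)))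
      (extChartAt 𝓘(ℝ, E) x₀ (y' k))) l (𝓝 (ContinuousLinearMap.id ℝ E)) := by
    have h1 := h.continuousAt_fderiv_H x₀ (q := (extChartAt 𝓘(ℝ, E) x₀ x₀, 0)) hx₀t (by
      rw [h.zero]
      exact (extChartAt 𝓘(ℝ, E) x₀).map_target hx₀t)
    have h2 : Tendsto (fun k => fderiv ℝ (RF.H Fl x₀) (extChartAt 𝓘(ℝ, E) x₀ (y' k), s k)) l
        (𝓝 (fderiv ℝ (RF.H Fl x₀) (extChartAt 𝓘(ℝ, E) x₀ x₀, 0))) :=
      h1.tendsto.comp (hq'.prodMk_nhds hs0)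
    have h3 : Tendsto (fun k => (fderiv ℝ (RF.H Fl x₀)
        (extChartAt 𝓘(ℝ, E) x₀ (y' k), s k)).comp
        (ContinuousLinearMap.inl ℝ E ℝ)) l
        (𝓝 ((fderiv ℝ (RF.H Fl x₀) (extChartAt 𝓘(ℝ, E) x₀ x₀, 0)).comp
        (ContinuousLinearMap.inl ℝ E ℝ))) := by
      have h4 : Continuous (fun B : (E × ℝ) →L[ℝ] E => B.comp (ContinuousLinearMap.inl ℝ E ℝ)) :=
        continuous_id.clm_comp continuous_const
      exact (h4.tendsto _).comp h2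
    rw [h.fderiv_H_zero x₀ hx₀t] at h3
    refine h3.congr' ?_
    filter_upwards [hys', hys] with k hk hk2
    refine (h.fderiv_ch_eq x₀ ((extChartAt 𝓘(ℝ, E) x₀).map_source hk) ?_).symm
    rw [(extChartAt 𝓘(ℝ, E) x₀).left_inv hk, ← hyk]
    exact hk2
  have hL : ∀ᶠ k in (l : Filter ℕ), ∀ v, chartForm 𝓘(ℝ, E) β x₀
      (extChartAt 𝓘(ℝ, E) x₀ (y' k)) (fderiv ℝ (ch x₀ (fun z => Fl z (τ k)))
        (extChartAt 𝓘(ℝ, E) x₀ (x k)) v) =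
      chartForm 𝓘(ℝ, E) β x₀ (extChartAt 𝓘(ℝ, E) x₀ (x k)) v := by
    filter_upwards [hxs, hys'] with k h1 h2 v
    have h3 := chartForm_ch (β := β) x₀ (h.smooth_t (τ k)) (h.strict (τ k))
      ((extChartAt 𝓘(ℝ, E) x₀).map_source h1) (hmem' k h1 h2) v
    rw [hcht k h1, ← hy'] at h3
    exact h3
  have hLR : ∀ᶠ k in (l : Filter ℕ), fderiv ℝ (ch x₀ (fun z => Fl z (τ k)))
        (extChartAt 𝓘(ℝ, E) x₀ (x k)) (RF.Rc Fl x₀ (extChartAt 𝓘(ℝ, E) x₀ (x k))) =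
      RF.Rc Fl x₀ (extChartAt 𝓘(ℝ, E) x₀ (y' k)) := by
    filter_upwards [hxs, hys'] with k h1 h2
    have h3 := h.fderiv_ch_Rc x₀ (p := extChartAt 𝓘(ℝ, E) x₀ (x k)) (t := τ k)
      ((extChartAt 𝓘(ℝ, E) x₀).map_source h1) (hmem' k h1 h2)
    rw [hcht k h1, ← hy'] at h3
    exact h3
  have hm : ∀ᶠ k in (l : Filter ℕ), ∃ lam : E →L[ℝ] ℝ, ∀ v,
      ‖fderiv ℝ (cf x₀ e) (extChartAt 𝓘(ℝ, E) x₀ (y' k))
        (fderiv ℝ (ch x₀ (fun z => Fl z (τ k))) (extChartAt 𝓘(ℝ, E) x₀ (x k)) v +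
        lam v • RF.Rc Fl x₀ (extChartAt 𝓘(ℝ, E) x₀ (y' k)))‖ ≤
      C * ‖fderiv ℝ (cf x₀ e) (extChartAt 𝓘(ℝ, E) x₀ (x k)) v‖ ∧
      ‖fderiv ℝ (cf x₀ e) (extChartAt 𝓘(ℝ, E) x₀ (x k)) v‖ ≤
      C * ‖fderiv ℝ (cf x₀ e) (extChartAt 𝓘(ℝ, E) x₀ (y' k))
        (fderiv ℝ (ch x₀ (fun z => Fl z (τ k))) (extChartAt 𝓘(ℝ, E) x₀ (x k)) v +
        lam v • RF.Rc Fl x₀ (extChartAt 𝓘(ℝ, E) x₀ (y' k))) +
        fderiv ℝ (cf x₀ e) (extChartAt 𝓘(ℝ, E) x₀ (x k)) v‖ := by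
    filter_upwards [hmod, hxs, hys'] with k h0 h1 h2
    obtain ⟨lam, h0⟩ := h0
    obtain ⟨mu, hmu⟩ : ∃ mu : E →L[ℝ] ℝ, ∀ v, mu v =
        lam (ds x₀ (extChartAt 𝓘(ℝ, E) x₀ (x k)) v) :=
      ⟨lam.comp (show E →L[ℝ] E from mfderiv 𝓘(ℝ, E) 𝓘(ℝ, E) (extChartAt 𝓘(ℝ, E) x₀).symm
        (extChartAt 𝓘(ℝ, E) x₀ (x k))), fun v => rfl⟩
    refine ⟨mu, fun v => ?_⟩
    have hxt : extChartAt 𝓘(ℝ, E) x₀ (x k) ∈ (extChartAt 𝓘(ℝ, E) x₀).target :=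
      (extChartAt 𝓘(ℝ, E) x₀).map_source h1
    have hyt : extChartAt 𝓘(ℝ, E) x₀ (y' k) ∈ (extChartAt 𝓘(ℝ, E) x₀).target :=
      (extChartAt 𝓘(ℝ, E) x₀).map_source h2
    have e1 : fderiv ℝ (cf x₀ e) (ch x₀ (fun z => Fl z (τ k)) (extChartAt 𝓘(ℝ, E) x₀ (x k)))
        (fderiv ℝ (ch x₀ (fun z => Fl z (τ k))) (extChartAt 𝓘(ℝ, E) x₀ (x k)) v) =
        dv E e (Fl ((extChartAt 𝓘(ℝ, E) x₀).symm (extChartAt 𝓘(ℝ, E) x₀ (x k))) (τ k))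
        (dm E (fun y => Fl y (τ k)) ((extChartAt 𝓘(ℝ, E) x₀).symm (extChartAt 𝓘(ℝ, E) x₀ (x k)))
          (ds x₀ (extChartAt 𝓘(ℝ, E) x₀ (x k)) v)) :=
      fderiv_cf_ch x₀ he (h.smooth_t (τ k)) hxt (hmem' k h1 h2) v
    have e2 : fderiv ℝ (cf x₀ e) (extChartAt 𝓘(ℝ, E) x₀ (x k)) v =
        dv E e ((extChartAt 𝓘(ℝ, E) x₀).symm (extChartAt 𝓘(ℝ, E) x₀ (x k)))
          (ds x₀ (extChartAt 𝓘(ℝ, E) x₀ (x k)) v) := fderiv_cf x₀ he hxt v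
    have e3 : fderiv ℝ (cf x₀ e) (extChartAt 𝓘(ℝ, E) x₀ (y' k))
        (RF.Rc Fl x₀ (extChartAt 𝓘(ℝ, E) x₀ (y' k))) =
        dv E e ((extChartAt 𝓘(ℝ, E) x₀).symm (extChartAt 𝓘(ℝ, E) x₀ (y' k)))
          (ds x₀ (extChartAt 𝓘(ℝ, E) x₀ (y' k)) (RF.Rc Fl x₀ (extChartAt 𝓘(ℝ, E) x₀ (y' k)))) :=
      fderiv_cf x₀ he hyt (RF.Rc Fl x₀ (extChartAt 𝓘(ℝ, E) x₀ (y' k)))
    have e4 : (ds x₀ (extChartAt 𝓘(ℝ, E) x₀ (y' k))
        (RF.Rc Fl x₀ (extChartAt 𝓘(ℝ, E) x₀ (y' k))) : E) = R (y' k) := by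
      refine (h.tangent_Rc x₀ hyt).trans ?_
      rw [(extChartAt 𝓘(ℝ, E) x₀).left_inv h2]
    have ha := h0 (ds x₀ (extChartAt 𝓘(ℝ, E) x₀ (x k)) v)
    rw [hcht k h1, (extChartAt 𝓘(ℝ, E) x₀).left_inv h1, ← hy'] at e1
    rw [(extChartAt 𝓘(ℝ, E) x₀).left_inv h1] at e2
    rw [(extChartAt 𝓘(ℝ, E) x₀).left_inv h2, e4] at e3
    rw [map_add, map_smul, e1, e2, e3, hmu]
    exact ha
  have hSe : ∀ᶠ k in (l : Filter ℕ), (∑ i, (cf x₀ (f i) (extChartAt 𝓘(ℝ, E) x₀ (x k)) +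
      cf x₀ (f i) (extChartAt 𝓘(ℝ, E) x₀ (y k))) *
      (cf x₀ (g i) (extChartAt 𝓘(ℝ, E) x₀ (y k)) -
        cf x₀ (g i) (extChartAt 𝓘(ℝ, E) x₀ (x k)))) = 0 := by
    filter_upwards [hS, hxs, hys] with k h3 h1 h2
    have h4 : ∀ z ∈ (extChartAt 𝓘(ℝ, E) x₀).source, ∀ r : P → ℝ,
        cf x₀ r (extChartAt 𝓘(ℝ, E) x₀ z) = r z := by
      intro z hz r
      show r ((extChartAt 𝓘(ℝ, E) x₀).symm (extChartAt 𝓘(ℝ, E) x₀ z)) = r z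
      rw [(extChartAt 𝓘(ℝ, E) x₀).left_inv hz]
    simp only [h4 _ h1, h4 _ h2]
    unfold S at h3
    exact (div_eq_zero_iff.1 h3).resolve_right two_ne_zero
  have hEe : ∀ᶠ k in (l : Filter ℕ), ∀ v : E,
      (∑ i, ((fderiv ℝ (cf x₀ (f i)) (extChartAt 𝓘(ℝ, E) x₀ (x k)) v +
      fderiv ℝ (cf x₀ (f i)) (extChartAt 𝓘(ℝ, E) x₀ (y k))
        (fderiv ℝ (ch x₀ (fun z => Fl z (s k))) (extChartAt 𝓘(ℝ, E) x₀ (y' k))
        (fderiv ℝ (ch x₀ (fun z => Fl z (τ k))) (extChartAt 𝓘(ℝ, E) x₀ (x k)) v))) *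
      (cf x₀ (g i) (extChartAt 𝓘(ℝ, E) x₀ (y k)) -
        cf x₀ (g i) (extChartAt 𝓘(ℝ, E) x₀ (x k))) -
      (cf x₀ (f i) (extChartAt 𝓘(ℝ, E) x₀ (y k)) -
        cf x₀ (f i) (extChartAt 𝓘(ℝ, E) x₀ (x k))) *
      (fderiv ℝ (cf x₀ (g i)) (extChartAt 𝓘(ℝ, E) x₀ (x k)) v +
      fderiv ℝ (cf x₀ (g i)) (extChartAt 𝓘(ℝ, E) x₀ (y k))
        (fderiv ℝ (ch x₀ (fun z => Fl z (s k))) (extChartAt 𝓘(ℝ, E) x₀ (y' k))
        (fderiv ℝ (ch x₀ (fun z => Fl z (τ k))) (extChartAt 𝓘(ℝ, E) x₀ (x k)) v))))) = 0 := by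
    filter_upwards [hcr, hxs, hys, hys'] with k hk h1 h2 h2' v
    have h2'' : Fl (x k) (t k) ∈ (extChartAt 𝓘(ℝ, E) x₀).source := by rw [← hy]; exact h2
    have h3 := crit_eq h hf hg hrep x₀ h1 h2'' hk v
    have h4 := h.fderiv_ch_add x₀ (p := extChartAt 𝓘(ℝ, E) x₀ (x k)) (t := τ k) (s := s k)
      ((extChartAt 𝓘(ℝ, E) x₀).map_source h1) (hmem' k h1 h2')
      (by
        rw [(extChartAt 𝓘(ℝ, E) x₀).left_inv h1, ht]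
        exact h2'')
    rw [ht, hcht k h1, ← hy'] at h4
    have h5 : fderiv ℝ (ch x₀ (fun z => Fl z (t k))) (extChartAt 𝓘(ℝ, E) x₀ (x k)) v =
        fderiv ℝ (ch x₀ (fun z => Fl z (s k))) (extChartAt 𝓘(ℝ, E) x₀ (y' k))
          (fderiv ℝ (ch x₀ (fun z => Fl z (τ k))) (extChartAt 𝓘(ℝ, E) x₀ (x k)) v) := by
      rw [h4]; rfl
    rw [← hy] at h3
    rw [← h5]
    exact h3
  exact no_limit l (f := fun i => cf x₀ (f i)) (g := fun i => cf x₀ (g i))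
    (fun i => cf_smooth x₀ (hf i) hx₀t) (fun i => cf_smooth x₀ (hg i) hx₀t) hb hbc hnd hJ hJi
    (h.continuousAt_Rc x₀ hx₀t) hbR hp hq hq' hneq hN hL hLR hm hSe hEe

end Pool.Agent.W671.WU
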