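import Mathlib
import Pool.Agent.W671.WU9

/-! Return times defined by the generating function: extrema, and constancy along closed orbits. -/

open scoped Topology ContDiff Manifold
open Set Metric Bundle Filter Pool.Agent.Helper186 Pool.Agent.H826R2.Wein

noncomputable section

namespace Pool.Agent.W671.WU

set_option linter.unusedSectionVars false

universe u

variable {E : Type u} [NormedAddCommGroup E] [NormedSpace ℝ E] [FiniteDimensional ℝ E]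
  {P : Type*} [TopologicalSpace P] [ChartedSpace E P] [IsManifold 𝓘(ℝ, E) ∞ P]

/-- a critical pair: `S (x, φ_t x) = 0` and the derivative of `S (z, φ_t z)` vanishes at `x` -/
def Crit {n : ℕ} (f g : Fin n → P → ℝ) (Fl : P → ℝ → P) (x : P) (t : ℝ) : Prop :=
  S f g x (Fl x t) = 0 ∧ ∀ γ : ℝ → P, ContinuousAt γ 0 → γ 0 = x → ∀ d : ℝ,
    HasDerivAt (fun r => S f g (γ r) (Fl (γ r) t)) d 0 → d = 0

/-- the window in which the return time is unique -/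
structure Win {n : ℕ} (f g : Fin n → P → ℝ) (R : (x : P) → TangentSpace 𝓘(ℝ, E) x)
    (Fl : P → ℝ → P) (τ : P → ℝ) (δ : ℝ) : Prop where
  hf : ∀ i, ContMDiff 𝓘(ℝ, E) 𝓘(ℝ, ℝ) ∞ (f i)
  hg : ∀ i, ContMDiff 𝓘(ℝ, E) 𝓘(ℝ, ℝ) ∞ (g i)
  hFl : RFlow R Fl
  hFc : Continuous (fun p : P × ℝ => Fl p.1 p.2)
  hτ : Continuous τ
  hδ : 0 < δ
  hA : ∀ x, ∀ s ∈ Icc (-δ) δ, 1 / 2 < A f g R x (Fl x (τ x + s))
  hS : ∀ x, |S f g x (Fl x (τ x))| < δ / 4

namespace Win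

variable {n : ℕ} {f g : Fin n → P → ℝ} {R : (x : P) → TangentSpace 𝓘(ℝ, E) x}
    {Fl : P → ℝ → P} {τ : P → ℝ} {δ : ℝ}

lemma Sc (w : Win f g R Fl τ δ) : Continuous (fun p : P × P => S f g p.1 p.2) :=
  continuous_S (fun i => (w.hf i).continuous) (fun i => (w.hg i).continuous)

lemma hd (w : Win f g R Fl τ δ) (x : P) (s : ℝ) :
    HasDerivAt (fun s => S f g x (Fl x (τ x + s))) (A f g R x (Fl x (τ x + s))) s := by
  have h1 := hasDerivAt_S w.hf w.hg x (w.hFl.int x (τ x + s))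
  exact h1.comp_const_add (τ x) s

lemma mono (w : Win f g R Fl τ δ) (x : P) {s₁ s₂ : ℝ} (h1 : s₁ ∈ Icc (-δ) δ)
    (h2 : s₂ ∈ Icc (-δ) δ) (h12 : s₁ ≤ s₂) :
    (s₂ - s₁) / 2 ≤ S f g x (Fl x (τ x + s₂)) - S f g x (Fl x (τ x + s₁)) := by
  rcases h12.eq_or_lt with rfl | h12
  · simp
  · have h3 := Convex.mul_sub_lt_image_sub_of_lt_deriv (convex_Icc (-δ) δ)
      (f := fun s => S f g x (Fl x (τ x + s)))
      (fun s _ => (w.hd x s).continuousAt.continuousWithinAt)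
      (fun s _ => (w.hd x s).differentiableAt.differentiableWithinAt) (C := 1 / 2)
      (fun s hs => by
        rw [(w.hd x s).deriv]
        exact w.hA x s (interior_subset hs)) s₁ h1 s₂ h2 h12
    linarith

lemma zero_mem (w : Win f g R Fl τ δ) : (0 : ℝ) ∈ Icc (-δ) δ :=
  ⟨by linarith [w.hδ], w.hδ.le⟩

lemma bound (w : Win f g R Fl τ δ) {x : P} {s : ℝ} (hs : s ∈ Icc (-δ) δ)
    (h0 : S f g x (Fl x (τ x + s)) = 0) : |s| ≤ 2 * |S f g x (Fl x (τ x))| := by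
  have e0 : S f g x (Fl x (τ x + 0)) = S f g x (Fl x (τ x)) := by rw [add_zero]
  rcases le_total 0 s with h | h
  · have h1 := w.mono x w.zero_mem hs h
    rw [h0, e0] at h1
    rw [abs_of_nonneg h]
    have := neg_abs_le (S f g x (Fl x (τ x)))
    linarith
  · have h1 := w.mono x hs w.zero_mem h
    rw [h0, e0] at h1
    rw [abs_of_nonpos h]
    have := le_abs_self (S f g x (Fl x (τ x)))
    linarith

lemma bound' (w : Win f g R Fl τ δ) {x : P} {s : ℝ} (hs : s ∈ Icc (-δ) δ)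
    (h0 : S f g x (Fl x (τ x + s)) = 0) : |s| < δ / 2 := by
  have h1 := w.bound hs h0
  have h2 := w.hS x
  linarith

lemma uniq (w : Win f g R Fl τ δ) {x : P} {s₁ s₂ : ℝ} (h1 : s₁ ∈ Icc (-δ) δ)
    (h2 : s₂ ∈ Icc (-δ) δ) (e1 : S f g x (Fl x (τ x + s₁)) = 0)
    (e2 : S f g x (Fl x (τ x + s₂)) = 0) : s₁ = s₂ := by
  rcases le_total s₁ s₂ with h | h
  · have h3 := w.mono x h1 h2 h
    rw [e1, e2] at h3
    linarith
  · have h3 := w.mono x h2 h1 h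
    rw [e1, e2] at h3
    linarith

lemma exists_zero (w : Win f g R Fl τ δ) (x : P) :
    ∃ s ∈ Icc (-δ) δ, S f g x (Fl x (τ x + s)) = 0 := by
  have e0 : S f g x (Fl x (τ x + 0)) = S f g x (Fl x (τ x)) := by rw [add_zero]
  have hδ := w.hδ
  have h1 := w.mono x (s₁ := -δ) ⟨le_rfl, by linarith⟩ w.zero_mem (by linarith)
  have h2 := w.mono x (s₂ := δ) w.zero_mem ⟨by linarith, le_rfl⟩ hδ.le
  have h3 := abs_lt.1 (w.hS x)
  rw [e0] at h1 h2
  have h4 : (0 : ℝ) ∈ Icc (S f g x (Fl x (τ x + (-δ)))) (S f g x (Fl x (τ x + δ))) :=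
    ⟨by linarith, by linarith⟩
  have h5 := intermediate_value_Icc (show -δ ≤ δ by linarith)
    (f := fun s => S f g x (Fl x (τ x + s)))
    (fun s _ => (w.hd x s).continuousAt.continuousWithinAt) h4
  obtain ⟨s, hs, hs0⟩ := h5
  exact ⟨s, hs, hs0⟩

/-- the return pairs -/
def K (f g : Fin n → P → ℝ) (Fl : P → ℝ → P) (τ : P → ℝ) (δ : ℝ) : Set (P × ℝ) :=
  {p | p.2 ∈ Icc (-δ) δ ∧ S f g p.1 (Fl p.1 (τ p.1 + p.2)) = 0}

lemma isCompact_K [T2Space P] [CompactSpace P] (w : Win f g R Fl τ δ) :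
    IsCompact (K f g Fl τ δ) := by
  have hGc : Continuous (fun p : P × ℝ => S f g p.1 (Fl p.1 (τ p.1 + p.2))) := by
    have h1 : Continuous (fun p : P × ℝ => Fl p.1 (τ p.1 + p.2)) :=
      w.hFc.comp (continuous_fst.prodMk ((w.hτ.comp continuous_fst).add continuous_snd))
    exact w.Sc.comp (continuous_fst.prodMk h1)
  have h1 : K f g Fl τ δ = (univ ×ˢ Icc (-δ) δ) ∩
      {p | S f g p.1 (Fl p.1 (τ p.1 + p.2)) = 0} := by
    ext p; simp [K]
  rw [h1]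
  exact (isCompact_univ.prod isCompact_Icc).inter_right (isClosed_eq hGc continuous_const)

lemma nonempty_K [Nonempty P] (w : Win f g R Fl τ δ) : (K f g Fl τ δ).Nonempty := by
  obtain ⟨x⟩ := (inferInstance : Nonempty P)
  obtain ⟨s, hs, h0⟩ := w.exists_zero x
  exact ⟨(x, s), hs, h0⟩

lemma cont_curve (w : Win f g R Fl τ δ) {x : P} {γ : ℝ → P} (hγ : ContinuousAt γ 0)
    (hγ0 : γ 0 = x) (t : ℝ) : ContinuousAt (fun r => S f g (γ r) (Fl (γ r) t)) 0 := by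
  have h1 : Continuous (fun y : P => S f g y (Fl y t)) :=
    w.Sc.comp (continuous_id.prodMk (w.hFc.comp (continuous_id.prodMk continuous_const)))
  exact ContinuousAt.comp (g := fun y : P => S f g y (Fl y t)) h1.continuousAt hγ

lemma tau_curve (w : Win f g R Fl τ δ) {x : P} {γ : ℝ → P} (hγ : ContinuousAt γ 0)
    (hγ0 : γ 0 = x) : ∀ᶠ r in 𝓝 (0:ℝ), |τ (γ r) - τ x| < δ / 4 := by
  have hδ := w.hδ
  have h1 : ContinuousAt (fun r => |τ (γ r) - τ x|) 0 := by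
    have h2 : Continuous (fun y : P => |τ y - τ x|) := (w.hτ.sub continuous_const).abs
    exact ContinuousAt.comp (g := fun y : P => |τ y - τ x|) h2.continuousAt hγ
  refine h1.eventually (gt_mem_nhds ?_)
  simp only [hγ0, sub_self, abs_zero]
  positivity

/-- maximal return time -/
lemma crit_max (w : Win f g R Fl τ δ) {x : P} {s : ℝ} (hK : (x, s) ∈ K f g Fl τ δ)
    (hmax : ∀ p ∈ K f g Fl τ δ, τ p.1 + p.2 ≤ τ x + s) : Crit f g Fl x (τ x + s) := by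
  obtain ⟨hs, hGs⟩ := hK
  simp only at hs hGs
  have hδ := w.hδ
  have hs2 := w.bound' hs hGs
  refine ⟨hGs, fun γ hγ hγ0 d hd => ?_⟩
  by_contra hne
  have hh0 : S f g (γ 0) (Fl (γ 0) (τ x + s)) = 0 := by rw [hγ0]; exact hGs
  have hnot : ¬ IsLocalMin (fun r => S f g (γ r) (Fl (γ r) (τ x + s))) 0 :=
    fun hm => hne (hm.hasDerivAt_eq_zero hd)
  have hfreq : ∃ᶠ r in 𝓝 (0:ℝ), S f g (γ r) (Fl (γ r) (τ x + s)) < 0 := by
    intro hcon
    apply hnot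
    refine hcon.mono fun r hr => ?_
    show S f g (γ 0) (Fl (γ 0) (τ x + s)) ≤ _
    rw [hh0]
    exact not_lt.1 hr
  have hpos : 0 < S f g x (Fl x (τ x + (s + δ / 4))) := by
    have h2 := abs_lt.1 hs2
    have h1 := w.mono x (s₂ := s + δ / 4) hs ⟨by linarith, by linarith⟩ (by linarith)
    rw [hGs] at h1
    linarith
  have hev1 : ∀ᶠ r in 𝓝 (0:ℝ), 0 < S f g (γ r) (Fl (γ r) (τ x + (s + δ / 4))) := by
    refine (w.cont_curve hγ hγ0 _).eventually (lt_mem_nhds ?_)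
    simpa only [hγ0] using hpos
  obtain ⟨r, hr1, hr2, hr3⟩ := (hfreq.and_eventually (hev1.and (w.tau_curve hγ hγ0))).exists
  have hcr : Continuous (fun σ : ℝ => S f g (γ r) (Fl (γ r) (τ x + s + σ))) :=
    w.Sc.comp (continuous_const.prodMk (w.hFc.comp (continuous_const.prodMk
      (continuous_const.add continuous_id))))
  have h4 : (0 : ℝ) ∈ Ioo (S f g (γ r) (Fl (γ r) (τ x + s + 0)))
      (S f g (γ r) (Fl (γ r) (τ x + s + δ / 4))) := by
    refine ⟨?_, ?_⟩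
    · rw [add_zero]; exact hr1
    · rw [add_assoc]; exact hr2
  have h5 := intermediate_value_Ioo (show (0:ℝ) ≤ δ / 4 by positivity)
    (f := fun σ : ℝ => S f g (γ r) (Fl (γ r) (τ x + s + σ))) hcr.continuousOn h4
  obtain ⟨σ, hσ, hσ0⟩ := h5
  have h7 := hmax (γ r, τ x + s + σ - τ (γ r)) (by
    refine ⟨?_, ?_⟩
    · simp only
      have h7 := abs_lt.1 hs2
      have h8 := abs_lt.1 hr3
      constructor <;> linarith [hσ.1, hσ.2]
    · simp only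
      rw [show τ (γ r) + (τ x + s + σ - τ (γ r)) = τ x + s + σ by ring]
      exact hσ0)
  simp only at h7
  linarith [hσ.1]

/-- minimal return time -/
lemma crit_min (w : Win f g R Fl τ δ) {x : P} {s : ℝ} (hK : (x, s) ∈ K f g Fl τ δ)
    (hmin : ∀ p ∈ K f g Fl τ δ, τ x + s ≤ τ p.1 + p.2) : Crit f g Fl x (τ x + s) := by
  obtain ⟨hs, hGs⟩ := hK
  simp only at hs hGs
  have hδ := w.hδ
  have hs2 := w.bound' hs hGs
  refine ⟨hGs, fun γ hγ hγ0 d hd => ?_⟩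
  by_contra hne
  have hh0 : S f g (γ 0) (Fl (γ 0) (τ x + s)) = 0 := by rw [hγ0]; exact hGs
  have hnot : ¬ IsLocalMax (fun r => S f g (γ r) (Fl (γ r) (τ x + s))) 0 :=
    fun hm => hne (hm.hasDerivAt_eq_zero hd)
  have hfreq : ∃ᶠ r in 𝓝 (0:ℝ), 0 < S f g (γ r) (Fl (γ r) (τ x + s)) := by
    intro hcon
    apply hnot
    refine hcon.mono fun r hr => ?_
    show _ ≤ S f g (γ 0) (Fl (γ 0) (τ x + s))
    rw [hh0]
    exact not_lt.1 hr
  have hneg : S f g x (Fl x (τ x + (s + -(δ / 4)))) < 0 := by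
    have h2 := abs_lt.1 hs2
    have h1 := w.mono x (s₁ := s + -(δ / 4)) ⟨by linarith, by linarith⟩ hs (by linarith)
    rw [hGs] at h1
    linarith
  have hev1 : ∀ᶠ r in 𝓝 (0:ℝ), S f g (γ r) (Fl (γ r) (τ x + (s + -(δ / 4)))) < 0 := by
    refine (w.cont_curve hγ hγ0 _).eventually (gt_mem_nhds ?_)
    simpa only [hγ0] using hneg
  obtain ⟨r, hr1, hr2, hr3⟩ := (hfreq.and_eventually (hev1.and (w.tau_curve hγ hγ0))).exists
  have hcr : Continuous (fun σ : ℝ => S f g (γ r) (Fl (γ r) (τ x + s + σ))) :=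
    w.Sc.comp (continuous_const.prodMk (w.hFc.comp (continuous_const.prodMk
      (continuous_const.add continuous_id))))
  have h4 : (0 : ℝ) ∈ Ioo (S f g (γ r) (Fl (γ r) (τ x + s + -(δ / 4))))
      (S f g (γ r) (Fl (γ r) (τ x + s + 0))) := by
    refine ⟨?_, ?_⟩
    · rw [add_assoc]; exact hr2
    · rw [add_zero]; exact hr1
  have h5 := intermediate_value_Ioo (show -(δ / 4) ≤ (0:ℝ) by linarith)
    (f := fun σ : ℝ => S f g (γ r) (Fl (γ r) (τ x + s + σ))) hcr.continuousOn h4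
  obtain ⟨σ, hσ, hσ0⟩ := h5
  have h7 := hmin (γ r, τ x + s + σ - τ (γ r)) (by
    refine ⟨?_, ?_⟩
    · simp only
      have h7 := abs_lt.1 hs2
      have h8 := abs_lt.1 hr3
      constructor <;> linarith [hσ.1, hσ.2]
    · simp only
      rw [show τ (γ r) + (τ x + s + σ - τ (γ r)) = τ x + s + σ by ring]
      exact hσ0)
  simp only at h7
  linarith [hσ.2]

/-- The extremal return times. -/
lemma exists_extrema [T2Space P] [CompactSpace P] [Nonempty P] (w : Win f g R Fl τ δ) :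
    ∃ (x₁ : P) (s₁ : ℝ) (x₂ : P) (s₂ : ℝ), s₁ ∈ Icc (-δ) δ ∧ s₂ ∈ Icc (-δ) δ ∧
      Crit f g Fl x₁ (τ x₁ + s₁) ∧ Crit f g Fl x₂ (τ x₂ + s₂) ∧
      (τ x₁ + s₁ = τ x₂ + s₂ → ∀ x, τ x₁ + s₁ - τ x ∈ Icc (-δ) δ ∧ Crit f g Fl x (τ x₁ + s₁)) := by
  have hc : ContinuousOn (fun p : P × ℝ => τ p.1 + p.2) (K f g Fl τ δ) :=
    ((w.hτ.comp continuous_fst).add continuous_snd).continuousOn
  obtain ⟨⟨x₁, s₁⟩, hK₁, hmax⟩ := w.isCompact_K.exists_isMaxOn w.nonempty_K hc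
  obtain ⟨⟨x₂, s₂⟩, hK₂, hmin⟩ := w.isCompact_K.exists_isMinOn w.nonempty_K hc
  have hmax' : ∀ p ∈ K f g Fl τ δ, τ p.1 + p.2 ≤ τ x₁ + s₁ := fun p hp => hmax hp
  have hmin' : ∀ p ∈ K f g Fl τ δ, τ x₂ + s₂ ≤ τ p.1 + p.2 := fun p hp => hmin hp
  refine ⟨x₁, s₁, x₂, s₂, hK₁.1, hK₂.1, w.crit_max hK₁ hmax', w.crit_min hK₂ hmin',
    fun heq x => ?_⟩
  have hall : ∀ z, τ x₁ + s₁ - τ z ∈ Icc (-δ) δ ∧ S f g z (Fl z (τ x₁ + s₁)) = 0 := by
    intro z
    obtain ⟨s, hs, h0⟩ := w.exists_zero z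
    have h1 := hmax' (z, s) ⟨hs, h0⟩
    have h2 := hmin' (z, s) ⟨hs, h0⟩
    simp only at h1 h2
    have h3 : τ z + s = τ x₁ + s₁ := le_antisymm h1 (by linarith)
    refine ⟨?_, ?_⟩
    · rw [← h3, add_sub_cancel_left]; exact hs
    · rw [← h3]; exact h0
  refine ⟨(hall x).1, (hall x).2, fun γ _ _ d hd => ?_⟩
  have h3 : (fun r => S f g (γ r) (Fl (γ r) (τ x₁ + s₁))) = fun _ => (0:ℝ) := by
    ext1 r; exact (hall (γ r)).2
  rw [h3] at hd
  exact hd.unique (hasDerivAt_const _ _)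

/-- The return time is constant along closed orbits. -/
lemma same_orbit (w : Win f g R Fl τ δ) (hadd : ∀ x s t, Fl x (s + t) = Fl (Fl x s) t)
    {x₁ x₂ : P} {t₁ t₂ : ℝ} (h1 : t₁ - τ x₁ ∈ Icc (-δ) δ) (h2 : t₂ - τ x₂ ∈ Icc (-δ) δ)
    (e1 : Fl x₁ t₁ = x₁) (e2 : Fl x₂ t₂ = x₂) {r : ℝ} (hr : Fl x₁ r = x₂) : t₁ = t₂ := by
  have hδ := w.hδ
  have hper : ∀ u, Fl (Fl x₁ u) t₁ = Fl x₁ u := by
    intro u
    rw [← hadd, add_comm, hadd, e1]
  have hS0 : ∀ u, S f g (Fl x₁ u) (Fl (Fl x₁ u) t₁) = 0 := by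
    intro u
    rw [hper, S_self]
  have hcu : Continuous (fun u => t₁ - τ (Fl x₁ u)) := by
    have h3 : Continuous (fun u => Fl x₁ u) := w.hFc.comp (continuous_const.prodMk continuous_id)
    exact continuous_const.sub (w.hτ.comp h3)
  have key : ∀ u, t₁ - τ (Fl x₁ u) ∈ Icc (-δ) δ → t₁ - τ (Fl x₁ u) ∈ Ioo (-δ) δ := by
    intro u hu
    have h3 := w.bound' (x := Fl x₁ u) hu (by
      rw [show τ (Fl x₁ u) + (t₁ - τ (Fl x₁ u)) = t₁ by ring]
      exact hS0 u)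
    have h4 := abs_lt.1 h3
    constructor <;> linarith
  have hU : {u | t₁ - τ (Fl x₁ u) ∈ Icc (-δ) δ} = univ := by
    apply IsClopen.eq_univ
    · refine ⟨isClosed_Icc.preimage hcu, ?_⟩
      have h3 : {u | t₁ - τ (Fl x₁ u) ∈ Icc (-δ) δ} = (fun u => t₁ - τ (Fl x₁ u)) ⁻¹' Ioo (-δ) δ := by
        ext u
        exact ⟨fun hu => key u hu, fun hu => Ioo_subset_Icc_self hu⟩
      rw [h3]
      exact isOpen_Ioo.preimage hcu
    · refine ⟨0, ?_⟩
      show t₁ - τ (Fl x₁ 0) ∈ Icc (-δ) δ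
      rw [w.hFl.zero]
      exact h1
  have hr1 : t₁ - τ x₂ ∈ Icc (-δ) δ := by
    have h3 : r ∈ {u | t₁ - τ (Fl x₁ u) ∈ Icc (-δ) δ} := by rw [hU]; exact mem_univ r
    rw [← hr]
    exact h3
  have h5 := w.uniq (x := x₂) hr1 h2 (by
      rw [show τ x₂ + (t₁ - τ x₂) = t₁ by ring, ← hr]
      exact hS0 r) (by
      rw [show τ x₂ + (t₂ - τ x₂) = t₂ by ring, e2, S_self])
  linarith

end Win

end Pool.Agent.W671.WU
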