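import Mathlib
import Pool.Agent.W671.WV1

/-! Two closed orbits of a recurrent Reeb flow. -/

open scoped Topology ContDiff Manifold
open Set Metric Bundle Filter Pool.Agent.Helper186 Pool.Agent.H826R2.Wein

noncomputable section

namespace Pool.Agent.W671.WU

set_option linter.unusedSectionVars false

universe u

variable {E : Type u} [NormedAddCommGroup E] [NormedSpace ℝ E] [FiniteDimensional ℝ E]
  {P : Type*} [TopologicalSpace P] [ChartedSpace E P] [IsManifold 𝓘(ℝ, E) ∞ P]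
  {F : Type*} [NormedAddCommGroup F] [NormedSpace ℝ F]
  {β : (x : P) → TangentSpace 𝓘(ℝ, E) x →L[ℝ] ℝ}
  {R : (x : P) → TangentSpace 𝓘(ℝ, E) x} {Fl : P → ℝ → P}

attribute [local irreducible] S A

/-- For large `k` every critical pair is a closed orbit. -/
theorem closed_of_crit [T2Space P] [CompactSpace P] [Nonempty P] (c : CD β R) (h : RF β R Fl)
    {n : ℕ} {f g : Fin n → P → ℝ}
    (hf : ∀ i, ContMDiff 𝓘(ℝ, E) 𝓘(ℝ, ℝ) ∞ (f i))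
    (hg : ∀ i, ContMDiff 𝓘(ℝ, E) 𝓘(ℝ, ℝ) ∞ (g i))
    (hrep : ∀ (x : P) (v : TangentSpace 𝓘(ℝ, E) x),
        β x v = ∑ i, f i x * dForm 𝓘(ℝ, E) (g i) x v)
    {e : P → F} (he : ContMDiff 𝓘(ℝ, E) 𝓘(ℝ, F) ∞ e) (hinj : Function.Injective e)
    (himm : ∀ x, Function.Injective (mfderiv 𝓘(ℝ, E) 𝓘(ℝ, F) e x))
    {τ : ℕ → P → ℝ} {δ : ℝ} (hw : ∀ᶠ k in atTop, Win f g R Fl (τ k) δ)
    (hconv : ∀ ε > 0, ∀ᶠ k in atTop, ∀ x, ‖e (Fl x (τ k x)) - e x‖ < ε)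
    {C : ℝ}
    (hmod : ∀ᶠ k in atTop, ∀ (x : P), ∃ lam : E →L[ℝ] ℝ, ∀ (v : E),
      ‖dv E e (Fl x (τ k x)) (dm E (fun y => Fl y (τ k x)) x v) +
        lam v • dv E e (Fl x (τ k x)) (R (Fl x (τ k x)))‖ ≤ C * ‖dv E e x v‖ ∧
      ‖dv E e x v‖ ≤ C * ‖dv E e (Fl x (τ k x)) (dm E (fun y => Fl y (τ k x)) x v) +
        lam v • dv E e (Fl x (τ k x)) (R (Fl x (τ k x))) + dv E e x v‖) :
    ∀ᶠ k in atTop, ∀ (x : P) (t : ℝ), t - τ k x ∈ Icc (-δ) δ → Crit f g Fl x t → Fl x t = x := by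
  by_contra hcon
  have hfreq : ∃ᶠ k in atTop, ∃ (q : P × ℝ), q.2 - τ k q.1 ∈ Icc (-δ) δ ∧
      Crit f g Fl q.1 q.2 ∧ Fl q.1 q.2 ≠ q.1 := by
    rw [Filter.not_eventually] at hcon
    refine hcon.mono fun k hk => ?_
    push Not at hk
    obtain ⟨x, t, h1, h2, h3⟩ := hk
    exact ⟨(x, t), h1, h2, h3⟩
  have hne : NeBot (atTop ⊓ 𝓟 {k | ∃ (q : P × ℝ), q.2 - τ k q.1 ∈ Icc (-δ) δ ∧
      Crit f g Fl q.1 q.2 ∧ Fl q.1 q.2 ≠ q.1}) := Filter.frequently_iff_neBot.1 hfreq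
  obtain ⟨l, hl⟩ : ∃ l : Ultrafilter ℕ, (l : Filter ℕ) ≤ atTop ⊓ 𝓟 {k | ∃ (q : P × ℝ),
      q.2 - τ k q.1 ∈ Icc (-δ) δ ∧ Crit f g Fl q.1 q.2 ∧ Fl q.1 q.2 ≠ q.1} :=
    ⟨_, Ultrafilter.of_le _⟩
  have hlt : (l : Filter ℕ) ≤ atTop := hl.trans inf_le_left
  have hlb : ∀ᶠ k in (l : Filter ℕ), ∃ (q : P × ℝ), q.2 - τ k q.1 ∈ Icc (-δ) δ ∧
      Crit f g Fl q.1 q.2 ∧ Fl q.1 q.2 ≠ q.1 := le_principal_iff.1 (hl.trans inf_le_right)
  have hmax : ∀ k, ∃ (q : P × ℝ), (∃ (q : P × ℝ), q.2 - τ k q.1 ∈ Icc (-δ) δ ∧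
      Crit f g Fl q.1 q.2 ∧ Fl q.1 q.2 ≠ q.1) →
      (q.2 - τ k q.1 ∈ Icc (-δ) δ ∧ Crit f g Fl q.1 q.2 ∧ Fl q.1 q.2 ≠ q.1) := by
    intro k
    by_cases hk : ∃ (q : P × ℝ), q.2 - τ k q.1 ∈ Icc (-δ) δ ∧
      Crit f g Fl q.1 q.2 ∧ Fl q.1 q.2 ≠ q.1
    · obtain ⟨q, hq⟩ := hk
      exact ⟨q, fun _ => hq⟩
    · obtain ⟨z₀⟩ := (inferInstance : Nonempty P)
      exact ⟨(z₀, 0), fun h' => absurd h' hk⟩
  choose q hq using hmax
  obtain ⟨x, t, hqx, hqt⟩ : ∃ (x : ℕ → P) (t : ℕ → ℝ), (∀ k, (q k).1 = x k) ∧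
      (∀ k, (q k).2 = t k) := ⟨_, _, fun _ => rfl, fun _ => rfl⟩
  simp only [hqx, hqt] at hq
  have hqe := hlb.mono fun k hk => hq k hk
  have hFc : Continuous (fun p : P × ℝ => Fl p.1 p.2) := h.smooth.continuous
  have hSc := continuous_S (fun i => (hf i).continuous) (fun i => (hg i).continuous)
  obtain ⟨y', hy'⟩ : ∃ y' : ℕ → P, ∀ k, y' k = Fl (x k) (τ k (x k)) := ⟨_, fun _ => rfl⟩
  obtain ⟨s, hs⟩ : ∃ s : ℕ → ℝ, ∀ k, s k = t k - τ k (x k) := ⟨_, fun _ => rfl⟩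
  obtain ⟨y, hy⟩ : ∃ y : ℕ → P, ∀ k, y k = Fl (x k) (t k) := ⟨_, fun _ => rfl⟩
  obtain ⟨x₀, hx₀⟩ := exists_limit_compact l x
  obtain ⟨y₀, hy₀⟩ := exists_limit_compact l y'
  have hxy₀ : y₀ = x₀ := by
    apply hinj
    have h1 : Tendsto (fun k => e (y' k) - e (x k)) l (𝓝 0) := by
      rw [tendsto_zero_iff_norm_tendsto_zero]
      refine Metric.tendsto_nhds.2 fun η hη => ?_
      filter_upwards [(hconv η hη).filter_mono hlt] with k hk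
      rw [dist_zero_right, norm_norm, hy']
      exact hk _
    have h2 : Tendsto (fun k => e (y' k) - e (x k)) l (𝓝 (e y₀ - e x₀)) :=
      ((he.continuous.tendsto y₀).comp hy₀).sub ((he.continuous.tendsto x₀).comp hx₀)
    exact sub_eq_zero.1 (tendsto_nhds_unique h2 h1)
  rw [hxy₀] at hy₀
  have hs0 : Tendsto s l (𝓝 0) := by
    have h1 : Tendsto (fun k => S f g (x k) (y' k)) l (𝓝 (S f g x₀ x₀)) :=
      (hSc.tendsto (x₀, x₀)).comp (hx₀.prodMk_nhds hy₀)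
    rw [S_self] at h1
    have h2 : Tendsto (fun k => 2 * |S f g (x k) (y' k)|) l (𝓝 0) := by
      have := h1.abs.const_mul 2
      simpa using this
    refine squeeze_zero_norm' ?_ h2
    filter_upwards [hqe, hw.filter_mono hlt] with k hk hwk
    rw [hs, hy', Real.norm_eq_abs]
    refine hwk.bound hk.1 ?_
    rw [show τ k (x k) + (t k - τ k (x k)) = t k by ring]
    exact hk.2.1.1
  have hyk : ∀ k, y k = Fl (y' k) (s k) := by
    intro k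
    rw [hy, hy', hs, ← h.add]
    congr 1
    ring
  have hy0 : Tendsto y l (𝓝 x₀) := by
    have h1 : Tendsto (fun k => Fl (y' k) (s k)) l (𝓝 (Fl x₀ 0)) :=
      (hFc.tendsto (x₀, 0)).comp (hy₀.prodMk_nhds hs0)
    rw [h.zero] at h1
    exact h1.congr fun k => (hyk k).symm
  refine no_limit_flow c h hf hg hrep he himm l (τ := fun k => τ k (x k)) (t := t) hx₀ hy₀ hy0 hs0
    (fun k => by simp only [hs]; ring) hy' hy hyk ?_ ?_ ?_ (C := C) ?_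
  · filter_upwards [hqe] with k hk
    rw [hy]
    exact hk.2.2
  · filter_upwards [hqe] with k hk
    rw [hy]
    exact hk.2.1.1
  · filter_upwards [hqe] with k hk
    exact hk.2.1.2
  · filter_upwards [hmod.filter_mono hlt] with k hk
    have := hk (x k)
    rw [← hy'] at this
    exact this

/-- One orbit is not everything in dimension at least two. -/
lemma exists_other (hdim : 1 < Module.finrank ℝ E)
    (hF : ContMDiff (𝓘(ℝ, E).prod 𝓘(ℝ, ℝ)) 𝓘(ℝ, E) ∞ (fun p : P × ℝ => Fl p.1 p.2)) (x : P) :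
    ∃ y, ∀ u, Fl x u ≠ y := by
  by_contra hcon
  push Not at hcon
  let : MeasurableSpace E := borel E
  have : BorelSpace E := ⟨rfl⟩
  have hθ : ContMDiff 𝓘(ℝ, ℝ) 𝓘(ℝ, E) ∞ (fun u => Fl x u) :=
    hF.comp (contMDiff_const.prodMk contMDiff_id)
  have hnt : Nontrivial E := Module.nontrivial_of_finrank_pos (R := ℝ) (by omega)
  obtain ⟨v, hv⟩ := exists_ne (0 : E)
  obtain ⟨ℓ, hℓ⟩ := SeparatingDual.exists_ne_zero (R := ℝ) hv
  -- the kernel of `ℓ`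
  obtain ⟨w, hw, hw0⟩ : ∃ w : E, ℓ w = 0 ∧ w ≠ 0 := by
    by_contra hno
    push Not at hno
    have hinj : Function.Injective (ℓ : E →ₗ[ℝ] ℝ) := by
      rw [injective_iff_map_eq_zero]
      exact fun a ha => hno a ha
    have h1 := LinearMap.finrank_le_finrank_of_injective hinj
    rw [Module.finrank_self] at h1
    omega
  set U : Set ℝ := (fun u => Fl x u) ⁻¹' (extChartAt 𝓘(ℝ, E) x).source with hU
  set G : E → E := fun p => extChartAt 𝓘(ℝ, E) x (Fl x (ℓ p)) with hG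
  have hγ : ∀ u ∈ U, DifferentiableAt ℝ (fun u => extChartAt 𝓘(ℝ, E) x (Fl x u)) u := by
    intro u hu
    have h1 : Fl x u ∈ (chartAt E x).source := by
      have : Fl x u ∈ (extChartAt 𝓘(ℝ, E) x).source := hu
      rwa [extChartAt_source] at this
    have h2 : ContMDiffAt 𝓘(ℝ, ℝ) 𝓘(ℝ, E) ∞ (fun u => extChartAt 𝓘(ℝ, E) x (Fl x u)) u :=
      (contMDiffAt_extChartAt' h1).comp u (hθ u)
    exact (contMDiffAt_iff_contDiffAt.1 h2).differentiableAt (by simp)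
  have h0 : (MeasureTheory.Measure.addHaar : MeasureTheory.Measure E) (G '' (ℓ ⁻¹' U)) = 0 := by
    refine MeasureTheory.addHaar_image_eq_zero_of_det_fderivWithin_eq_zero MeasureTheory.Measure.addHaar
      (f' := fun p => (fderiv ℝ (fun u => extChartAt 𝓘(ℝ, E) x (Fl x u)) (ℓ p)).comp ℓ) ?_ ?_
    · intro p hp
      exact ((hγ (ℓ p) hp).hasFDerivAt.comp p ℓ.hasFDerivAt).hasFDerivWithinAt
    · intro p _
      by_contra hdet
      have h1 : IsUnit (LinearMap.det (((fderiv ℝ (fun u => extChartAt 𝓘(ℝ, E) x (Fl x u))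
          (ℓ p)).comp ℓ : E →L[ℝ] E) : E →ₗ[ℝ] E)) := isUnit_iff_ne_zero.2 hdet
      have h2 := (LinearEquiv.ofIsUnitDet (f := (((fderiv ℝ
          (fun u => extChartAt 𝓘(ℝ, E) x (Fl x u))
          (ℓ p)).comp ℓ : E →L[ℝ] E) : E →ₗ[ℝ] E)) (v := Module.finBasis ℝ E)
          (v' := Module.finBasis ℝ E) (by rw [LinearMap.det_toMatrix]; exact h1)).injective
      apply hw0
      apply h2
      rw [map_zero]
      show (fderiv ℝ (fun u => extChartAt 𝓘(ℝ, E) x (Fl x u)) (ℓ p)) (ℓ w) = 0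
      rw [hw, map_zero]
  have h1 : (extChartAt 𝓘(ℝ, E) x).target ⊆ G '' (ℓ ⁻¹' U) := by
    intro p hp
    obtain ⟨u, hu⟩ := hcon ((extChartAt 𝓘(ℝ, E) x).symm p)
    refine ⟨(u / ℓ v) • v, ?_, ?_⟩
    · show Fl x (ℓ ((u / ℓ v) • v)) ∈ (extChartAt 𝓘(ℝ, E) x).source
      rw [map_smul, smul_eq_mul, div_mul_cancel₀ _ hℓ, hu]
      exact (extChartAt 𝓘(ℝ, E) x).map_target hp
    · show extChartAt 𝓘(ℝ, E) x (Fl x (ℓ ((u / ℓ v) • v))) = p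
      rw [map_smul, smul_eq_mul, div_mul_cancel₀ _ hℓ, hu]
      exact (extChartAt 𝓘(ℝ, E) x).right_inv hp
  have h2 : 0 < (MeasureTheory.Measure.addHaar : MeasureTheory.Measure E)
      (extChartAt 𝓘(ℝ, E) x).target :=
    (isOpen_extChartAt_target x).measure_pos _ ⟨_, mem_extChartAt_target x⟩
  exact absurd (MeasureTheory.measure_mono_null h1 h0) h2.ne'

/-- **Core theorem**: a transversely recurrent Reeb flow has two closed orbits. -/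
theorem reeb_core [T2Space P] [CompactSpace P] [Nonempty P] (hdim : 1 < Module.finrank ℝ E)
    (c : CD β R) (h : RF β R Fl)
    {e : P → F} (he : ContMDiff 𝓘(ℝ, E) 𝓘(ℝ, F) ∞ e) (hinj : Function.Injective e)
    (himm : ∀ x, Function.Injective (mfderiv 𝓘(ℝ, E) 𝓘(ℝ, F) e x))
    {τ : ℕ → P → ℝ} (hτ : ∀ k, Continuous (τ k)) {c₀ : ℝ} (hc₀ : 0 < c₀)
    (hτc : ∀ k x, c₀ ≤ τ k x)
    (hconv : ∀ ε > 0, ∀ᶠ k in atTop, ∀ x, ‖e (Fl x (τ k x)) - e x‖ < ε) {C : ℝ}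
    (hmod : ∀ᶠ k in atTop, ∀ (x : P), ∃ lam : E →L[ℝ] ℝ, ∀ (v : E),
      ‖dv E e (Fl x (τ k x)) (dm E (fun y => Fl y (τ k x)) x v) +
        lam v • dv E e (Fl x (τ k x)) (R (Fl x (τ k x)))‖ ≤ C * ‖dv E e x v‖ ∧
      ‖dv E e x v‖ ≤ C * ‖dv E e (Fl x (τ k x)) (dm E (fun y => Fl y (τ k x)) x v) +
        lam v • dv E e (Fl x (τ k x)) (R (Fl x (τ k x))) + dv E e x v‖) :
    ∃ (x₁ : P) (T₁ : ℝ) (x₂ : P) (T₂ : ℝ), 0 < T₁ ∧ 0 < T₂ ∧ Fl x₁ T₁ = x₁ ∧ Fl x₂ T₂ = x₂ ∧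
      ∀ u v, Fl x₁ u ≠ Fl x₂ v := by
  obtain ⟨m, e₀, he₀, -, hinj₀⟩ := exists_embedding_euclidean_of_compact (I := 𝓘(ℝ, E)) (M := P)
  obtain ⟨f, hf, hrep⟩ := exists_rep (⟨e₀, he₀, hinj₀⟩ : Imm (E := E) P m) c.contact.smooth
  obtain ⟨g, hg, hrep⟩ : ∃ g : Fin m → P → ℝ, (∀ i, ContMDiff 𝓘(ℝ, E) 𝓘(ℝ, ℝ) ∞ (g i)) ∧
      ∀ (x : P) (v : TangentSpace 𝓘(ℝ, E) x),
        β x v = ∑ i, f i x * dForm 𝓘(ℝ, E) (g i) x v :=
    ⟨_, fun i => smooth_coord _ i, hrep⟩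
  have hFc : Continuous (fun p : P × ℝ => Fl p.1 p.2) := h.smooth.continuous
  obtain ⟨δ, hδ, hδc, ε, hε, hwin⟩ := exists_window (c := c₀) hf hg (smooth_reeb c) c.reeb.unit hrep
    h.zero hFc he.continuous hinj hc₀
  have hw : ∀ᶠ k in atTop, Win f g R Fl (τ k) δ := by
    filter_upwards [hconv ε hε] with k hk
    exact ⟨hf, hg, ⟨h.zero, h.int⟩, hFc, hτ k, hδ,
      fun x s hs => by
        have := (hwin x _ (hk x)).1 s hs
        rwa [← h.add] at this,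
      fun x => (hwin x _ (hk x)).2⟩
  obtain ⟨k, hwk, hclosed⟩ := (hw.and (closed_of_crit c h hf hg hrep he hinj himm hw hconv hmod)).exists
  obtain ⟨x₁, s₁, x₂, s₂, hs₁, hs₂, hc₁, hc₂, heq⟩ := hwk.exists_extrema
  have hm₁ : τ k x₁ + s₁ - τ k x₁ ∈ Icc (-δ) δ := by rw [add_sub_cancel_left]; exact hs₁
  have hm₂ : τ k x₂ + s₂ - τ k x₂ ∈ Icc (-δ) δ := by rw [add_sub_cancel_left]; exact hs₂
  have e₁ := hclosed x₁ _ hm₁ hc₁
  have e₂ := hclosed x₂ _ hm₂ hc₂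
  have p₁ : 0 < τ k x₁ + s₁ := by
    have := hτc k x₁
    linarith [hs₁.1]
  have p₂ : 0 < τ k x₂ + s₂ := by
    have := hτc k x₂
    linarith [hs₂.1]
  by_cases hdis : ∀ u v, Fl x₁ u ≠ Fl x₂ v
  · exact ⟨x₁, _, x₂, _, p₁, p₂, e₁, e₂, hdis⟩
  · push Not at hdis
    obtain ⟨u, v, huv⟩ := hdis
    have hr : Fl x₁ (u + -v) = x₂ := by
      rw [h.add, huv, ← h.add, add_neg_cancel, h.zero]
    have hT := hwk.same_orbit h.add hm₁ hm₂ e₁ e₂ hr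
    have hall : ∀ x, Fl x (τ k x₁ + s₁) = x := fun x =>
      hclosed x _ (heq hT x).1 (heq hT x).2
    obtain ⟨y, hy⟩ := exists_other hdim h.smooth x₁
    refine ⟨x₁, _, y, _, p₁, p₁, e₁, hall y, fun a b hab => ?_⟩
    apply hy (a + -b)
    rw [h.add, hab, ← h.add, add_neg_cancel, h.zero]

end Pool.Agent.W671.WU
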