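import Mathlib
import Pool.Agent.W671.WV2

/-! Time changes of the Reeb flow. -/

open scoped Topology ContDiff Manifold
open Set Metric Bundle Filter MeasureTheory Pool.Agent.Helper186 Pool.Agent.H826R2.Wein

noncomputable section

namespace Pool.Agent.W671.WU

set_option linter.unusedSectionVars false

universe u

/-- the inverse of an integral with a positive integrand -/
lemma exists_inverse {g : ℝ → ℝ} (hg : Continuous g) {m : ℝ} (hm : 0 < m) (hgm : ∀ s, m ≤ g s) :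
    ∃ σ : ℝ → ℝ, (∀ s, σ (∫ r in (0:ℝ)..s, g r) = s) ∧ (∀ u, (∫ r in (0:ℝ)..(σ u), g r) = u) ∧
      ∀ u, HasDerivAt σ (g (σ u))⁻¹ u := by
  set T : ℝ → ℝ := fun s => ∫ r in (0:ℝ)..s, g r with hT
  have hTd : ∀ s, HasDerivAt T (g s) s := fun s =>
    intervalIntegral.integral_hasDerivAt_right (hg.intervalIntegrable _ _)
      (hg.stronglyMeasurableAtFilter _ _) hg.continuousAt
  have hTc : Continuous T := continuous_iff_continuousAt.2 fun s => (hTd s).continuousAt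
  have hTm : StrictMono T := strictMono_of_deriv_pos fun s => by
    rw [(hTd s).deriv]; exact hm.trans_le (hgm s)
  have hT0 : T 0 = 0 := by simp [hT]
  have hmono : Monotone (fun s => T s - m * s) := by
    apply monotone_of_deriv_nonneg
    · exact fun s => ((hTd s).sub ((hasDerivAt_id s).const_mul m)).differentiableAt
    · intro s
      have : HasDerivAt (fun s => T s - m * s) (g s - m * 1) s :=
        (hTd s).sub ((hasDerivAt_id s).const_mul m)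
      rw [this.deriv]
      linarith [hgm s]
  have htop : Tendsto T atTop atTop := by
    have h1 : Tendsto (fun s : ℝ => m * s) atTop atTop := tendsto_id.const_mul_atTop hm
    refine tendsto_atTop_mono' _ ?_ h1
    filter_upwards [eventually_ge_atTop 0] with s hs
    have := hmono hs
    simp only [hT0, mul_zero, sub_zero] at this
    linarith
  have hbot : Tendsto T atBot atBot := by
    have h1 : Tendsto (fun s : ℝ => m * s) atBot atBot := tendsto_id.const_mul_atBot hm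
    refine tendsto_atBot_mono' _ ?_ h1
    filter_upwards [eventually_le_atBot 0] with s hs
    have := hmono hs
    simp only [hT0, mul_zero, sub_zero] at this
    linarith
  have hsurj : Function.Surjective T := hTc.surjective htop hbot
  set o := StrictMono.orderIsoOfSurjective T hTm hsurj with ho
  have e1 : ∀ s, o s = T s := fun s => rfl
  have e2 : ∀ u, T (o.symm u) = u := fun u => by rw [← e1]; exact o.apply_symm_apply u
  refine ⟨o.symm, fun s => ?_, e2, fun u => ?_⟩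
  · show o.symm (T s) = s
    rw [← e1]
    exact o.symm_apply_apply s
  · exact HasDerivAt.of_local_left_inverse o.symm.continuous.continuousAt (hTd _)
      (hm.trans_le (hgm _)).ne' (Eventually.of_forall e2)

variable {E : Type u} [NormedAddCommGroup E] [NormedSpace ℝ E] [FiniteDimensional ℝ E]
  {P : Type*} [TopologicalSpace P] [ChartedSpace E P] [IsManifold 𝓘(ℝ, E) ∞ P]
  {F : Type*} [NormedAddCommGroup F] [NormedSpace ℝ F]
  {β : (x : P) → TangentSpace 𝓘(ℝ, E) x →L[ℝ] ℝ}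
  {R : (x : P) → TangentSpace 𝓘(ℝ, E) x}

lemma smooth_smul {h : P → ℝ} (hh : ContMDiff 𝓘(ℝ, E) 𝓘(ℝ, ℝ) ∞ h)
    (hR : ContMDiff 𝓘(ℝ, E) 𝓘(ℝ, E).tangent ∞ (fun x => (⟨x, R x⟩ : TangentBundle 𝓘(ℝ, E) P))) :
    ContMDiff 𝓘(ℝ, E) 𝓘(ℝ, E).tangent ∞
      (fun x => (⟨x, h x • R x⟩ : TangentBundle 𝓘(ℝ, E) P)) :=
  hh.smul_section hR

/-- a reparametrised flow is a time change of the Reeb flow -/
lemma time_change [T2Space P] [CompactSpace P]
    (hR : ContMDiff 𝓘(ℝ, E) 𝓘(ℝ, E).tangent ∞ (fun x => (⟨x, R x⟩ : TangentBundle 𝓘(ℝ, E) P)))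
    {h : P → ℝ} (hh : ContMDiff 𝓘(ℝ, E) 𝓘(ℝ, ℝ) ∞ h) {m : ℝ} (hm : 0 < m) (hhm : ∀ x, m ≤ h x)
    {Φ Fl : P → ℝ → P} (hΦ0 : ∀ x, Φ x 0 = x)
    (hΦ : ∀ x, IsMIntegralCurve (I := 𝓘(ℝ, E)) (Φ x) (fun y => h y • R y))
    (hF0 : ∀ x, Fl x 0 = x) (hF : ∀ x, IsMIntegralCurve (I := 𝓘(ℝ, E)) (Fl x) R) (x : P) :
    (∀ s, Φ x s = Fl x (∫ r in (0:ℝ)..s, h (Φ x r))) ∧
    (∀ u, 0 < u → ∃ s, 0 < s ∧ (∫ r in (0:ℝ)..s, h (Φ x r)) = u) := by
  have : IsManifold 𝓘(ℝ, E) 1 P := IsManifold.of_le (n := ∞) (by simp)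
  have hgc : Continuous (fun r => h (Φ x r)) := hh.continuous.comp (hΦ x).continuous
  obtain ⟨σ, h1, h2, h3⟩ := exists_inverse hgc hm (fun r => hhm (Φ x r))
  have hσ0 : σ 0 = 0 := by
    have := h1 0
    rwa [intervalIntegral.integral_same] at this
  have hint : IsMIntegralCurve (I := 𝓘(ℝ, E)) (fun u => Φ x (σ u)) R := by
    intro u
    have h4 : HasMFDerivAt 𝓘(ℝ, ℝ) 𝓘(ℝ, ℝ) σ u
        (ContinuousLinearMap.toSpanSingleton ℝ ((h (Φ x (σ u)))⁻¹ : ℝ)) :=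
      (h3 u).hasFDerivAt.hasMFDerivAt
    have h5 := HasMFDerivAt.comp u (g := Φ x) (f := σ) (hΦ x (σ u)) h4
    refine h5.congr_mfderiv ?_
    refine ContinuousLinearMap.ext fun (r : ℝ) => ?_
    show (r • (h (Φ x (σ u)))⁻¹) • (h (Φ x (σ u)) • R (Φ x (σ u))) = r • R (Φ x (σ u))
    rw [smul_smul, smul_eq_mul, mul_assoc, inv_mul_cancel₀ (hm.trans_le (hhm _)).ne', mul_one]
  have heq : (fun u => Φ x (σ u)) = Fl x := by
    refine isMIntegralCurve_Ioo_eq_of_contMDiff_boundaryless (t₀ := 0)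
      (hR.of_le (by simp)) hint (hF x) ?_
    simp only [hσ0, hΦ0, hF0]
  refine ⟨fun s => ?_, fun u hu => ⟨σ u, ?_, h2 u⟩⟩
  · rw [← heq]
    simp only
    rw [h1]
  · by_contra hneg
    have h4 : (∫ r in (0:ℝ)..(σ u), h (Φ x r)) ≤ 0 := by
      rw [intervalIntegral.integral_symm]
      have h5 : 0 ≤ ∫ r in (σ u)..(0:ℝ), h (Φ x r) :=
        intervalIntegral.integral_nonneg (not_lt.1 hneg) fun r _ => hm.le.trans (hhm _)
      linarith
    rw [h2] at h4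
    linarith

/-- the derivative of a time change -/
lemma deriv_time_change {Φ : P → ℝ → P} {Fl : P → ℝ → P}
    (hF : ContMDiff (𝓘(ℝ, E).prod 𝓘(ℝ, ℝ)) 𝓘(ℝ, E) ∞ (fun p : P × ℝ => Fl p.1 p.2))
    (hFi : ∀ x, IsMIntegralCurve (I := 𝓘(ℝ, E)) (Fl x) R) {T : P → ℝ}
    (hT : ContMDiff 𝓘(ℝ, E) 𝓘(ℝ, ℝ) ∞ T) {s : ℝ} (hΦ : ∀ x, Φ x s = Fl x (T x)) (x : P) :
    ∃ b : E →L[ℝ] ℝ, ∀ v, dm E (fun y => Φ y s) x v =
      dm E (fun y => Fl y (T x)) x v + b v • (show E from R (Fl x (T x))) := by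
  have e1 : (fun y => Φ y s) = (fun p : P × ℝ => Fl p.1 p.2) ∘ (fun y => (y, T y)) := by
    ext1 y; exact hΦ y
  have h1 : MDifferentiableAt (𝓘(ℝ, E).prod 𝓘(ℝ, ℝ)) 𝓘(ℝ, E) (fun p : P × ℝ => Fl p.1 p.2)
      (x, T x) := hF.mdifferentiableAt (by simp)
  have h2 : MDifferentiableAt 𝓘(ℝ, E) 𝓘(ℝ, ℝ) T x := hT.mdifferentiableAt (by simp)
  have h3 : HasMFDerivAt 𝓘(ℝ, E) (𝓘(ℝ, E).prod 𝓘(ℝ, ℝ)) (fun y => (y, T y)) x
      ((ContinuousLinearMap.id ℝ (TangentSpace 𝓘(ℝ, E) x)).prod (mfderiv 𝓘(ℝ, E) 𝓘(ℝ, ℝ) T x)) :=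
    (hasMFDerivAt_id x).prodMk h2.hasMFDerivAt
  have h4 : mfderiv 𝓘(ℝ, E) 𝓘(ℝ, E) (fun y => Φ y s) x =
      (mfderiv (𝓘(ℝ, E).prod 𝓘(ℝ, ℝ)) 𝓘(ℝ, E) (fun p : P × ℝ => Fl p.1 p.2) (x, T x)).comp
        ((ContinuousLinearMap.id ℝ (TangentSpace 𝓘(ℝ, E) x)).prod
          (mfderiv 𝓘(ℝ, E) 𝓘(ℝ, ℝ) T x)) := by
    rw [e1]
    exact (HasMFDerivAt.comp x h1.hasMFDerivAt h3).mfderiv
  refine ⟨mfderiv 𝓘(ℝ, E) 𝓘(ℝ, ℝ) T x, fun v => ?_⟩
  have h5 : dm E (fun y => Φ y s) x v =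
      (mfderiv (𝓘(ℝ, E).prod 𝓘(ℝ, ℝ)) 𝓘(ℝ, E) (fun p : P × ℝ => Fl p.1 p.2) (x, T x))
        ((v, (mfderiv 𝓘(ℝ, E) 𝓘(ℝ, ℝ) T x v : ℝ)) : E × ℝ) :=
    DFunLike.congr_fun h4 v
  have h6 := mfderiv_prod_eq_add_apply (v := ((v, (mfderiv 𝓘(ℝ, E) 𝓘(ℝ, ℝ) T x v : ℝ)) : E × ℝ)) h1
  have h7 : ∀ w : ℝ, (mfderiv 𝓘(ℝ, ℝ) 𝓘(ℝ, E) (fun z : ℝ => Fl x z) (T x) w : E) =
      w • (show E from R (Fl x (T x))) := by
    intro w
    have h8 := (hFi x (T x)).mfderiv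
    exact DFunLike.congr_fun h8 w
  rw [h5]
  refine h6.trans ?_
  exact congrArg₂ (· + ·) rfl (h7 _)

end Pool.Agent.W671.WU
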