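import Mathlib
import Pool.Agent.H826R2.Wein.Bridge
import Pool.Agent.W671.WU10

/-! Closed orbits of transversely recurrent flows of contact type: the statement in terms of the
elementary definitions. -/

open scoped Topology ContDiff Manifold
open Set Filter MeasureTheory Pool.Agent.Helper186 Pool.Agent.H826R2 Pool.Agent.H826R2.WStmt

noncomputable section

set_option linter.unusedSectionVars false

namespace Pool.Agent.W671.RStmt

universe u

section

variable {E : Type*} [NormedAddCommGroup E] [NormedSpace ℝ E]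
  {M : Type*} [TopologicalSpace M] [ChartedSpace E M]
  {F : Type*} [NormedAddCommGroup F] [NormedSpace ℝ F]

/-- `Φ x t` is the flow of the vector field `X`: the curve `t ↦ Φ x t` is the integral curve of `X`
starting at `x`. -/
structure IsFlow (X : M → E) (Φ : M → ℝ → M) : Prop where
  zero : ∀ x, Φ x 0 = x
  integral : ∀ x, IsMIntegralCurve (I := 𝓘(ℝ, E)) (Φ x)
    (fun y => (X y : TangentSpace 𝓘(ℝ, E) y))

/-- `e : M → F` is an injective immersion (for instance a Whitney embedding in a Euclidean space);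
it is used to compare points and tangent vectors at different points of `M`. -/
structure IsInjImmersion (e : M → F) : Prop where
  smooth : ContMDiff 𝓘(ℝ, E) 𝓘(ℝ, F) ∞ e
  injective : Function.Injective e
  immersion : ∀ x, Function.Injective (D (E := E) (E' := F) e x)

/-- The flow `Φ` of `X` is transversely recurrent: there are return times, which are continuous
functions `τ k` on `M` bounded from below by a positive constant, such that the return maps
`x ↦ Φ_{τ k x} x` converge uniformly to the identity and such that, for large `k` and every `x`, with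
`t = τ k x` and `y = Φ_t x`, the derivative `DΦ_t` of the time `t` map at `x` is, after the addition of
a multiple `v ↦ lam v • X y` of `X` (with a linear form `lam`), bounded by a constant `C` and bounded
away from `-1` by `1 / C`; here lengths are measured by means of `e`. -/
structure Recurrent (e : M → F) (X : M → E) (Φ : M → ℝ → M) (τ : ℕ → M → ℝ) : Prop where
  cont : ∀ k, Continuous (τ k)
  lower : ∃ c > 0, ∀ k x, c ≤ τ k x
  uniform : ∀ ε > 0, ∀ᶠ k in atTop, ∀ x, ‖e (Φ x (τ k x)) - e x‖ < ε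
  deriv : ∃ C : ℝ, ∀ᶠ k in atTop, ∀ x : M, ∃ lam : E →L[ℝ] ℝ, ∀ v : E,
    ‖D (E := E) (E' := F) e (Φ x (τ k x))
        (D (E := E) (E' := E) (fun y => Φ y (τ k x)) x v + lam v • X (Φ x (τ k x)))‖ ≤
      C * ‖D (E := E) (E' := F) e x v‖ ∧
    ‖D (E := E) (E' := F) e x v‖ ≤ C * ‖D (E := E) (E' := F) e (Φ x (τ k x))
        (D (E := E) (E' := E) (fun y => Φ y (τ k x)) x v + lam v • X (Φ x (τ k x))) +
      D (E := E) (E' := F) e x v‖

end

variable {E : Type u} [NormedAddCommGroup E] [NormedSpace ℝ E] [FiniteDimensional ℝ E]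
  {M : Type*} [TopologicalSpace M] [ChartedSpace E M] [IsManifold 𝓘(ℝ, E) ∞ M]
  {F : Type*} [NormedAddCommGroup F] [NormedSpace ℝ F]

theorem exists_periodic_of_recurrent [T2Space M] [CompactSpace M] [Nonempty M]
    (hdim : 1 < Module.finrank ℝ E)
    (α : M → Cov E) (hα : IsContact α) (R : M → E) (hR : IsReeb α R)
    (h : M → ℝ) (hh : ContMDiff 𝓘(ℝ, E) 𝓘(ℝ, ℝ) ∞ h) (hpos : ∀ x, 0 < h x)
    (Φ : M → ℝ → M) (hΦ : IsFlow (fun x => h x • R x) Φ)
    (e : M → F) (he : IsInjImmersion (E := E) e) (τ : ℕ → M → ℝ)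
    (hτ : Recurrent e (fun x => h x • R x) Φ τ) :
    ∃ (c₁ c₂ : ℝ → M) (T₁ T₂ : ℝ), IsPeriodicOrbit (fun x => h x • R x) c₁ T₁ ∧
      IsPeriodicOrbit (fun x => h x • R x) c₂ T₂ ∧ Disjoint (range c₁) (range c₂) := by
  have : IsManifold 𝓘(ℝ, E) 1 M := IsManifold.of_le (n := ∞) (by simp)
  have c : Wein.CD (toForm α) (fun x => (R x : TangentSpace 𝓘(ℝ, E) x)) := ⟨hα.toWein, hR.toWein⟩
  have hRs := WU.smooth_reeb c
  have hXs := WU.smooth_smul hh hRs
  have hΦs := contMDiff_flow hXs hΦ.zero hΦ.integral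
  -- the minimum of `h`
  obtain ⟨x₁, -, hx₁⟩ := (isCompact_univ (X := M)).exists_isMinOn univ_nonempty
    hh.continuous.continuousOn
  have hhm : ∀ x, h x₁ ≤ h x := fun x => hx₁ (mem_univ x)
  -- the Reeb flow
  choose Fl hF0 hF using fun x : M => Wein.complete_of_compact hRs isCompact_univ
    (fun y hy => absurd (mem_univ y) hy) x
  have hRF := WU.RF.of c hF0 hF
  have htc := fun x => WU.time_change hRs hh (hpos x₁) hhm hΦ.zero hΦ.integral hF0 hF x
  have hk : ContMDiff (𝓘(ℝ, ℝ).prod 𝓘(ℝ, E)) 𝓘(ℝ, ℝ) ∞ (fun p : ℝ × M => h (Φ p.2 p.1)) :=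
    hh.comp (hΦs.comp (contMDiff_snd.prodMk contMDiff_fst))
  have hTs : ∀ s, ContMDiff 𝓘(ℝ, E) 𝓘(ℝ, ℝ) ∞ (fun x => ∫ r in (0:ℝ)..s, h (Φ x r)) := fun s =>
    contMDiff_paramInt hk s
  obtain ⟨c₀, hc₀, hc₀'⟩ := hτ.lower
  obtain ⟨C, hC⟩ := hτ.deriv
  obtain ⟨y₁, T₁, y₂, T₂, hT₁, hT₂, e₁, e₂, hdis⟩ := WU.reeb_core (F := F) hdim c hRF he.smooth
    he.injective he.immersion
    (τ := fun k x => ∫ r in (0:ℝ)..(τ k x), h (Φ x r)) (c₀ := c₀ * h x₁) (C := C)
    (fun k => by
      refine intervalIntegral.continuous_parametric_intervalIntegral_of_continuous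
        (f := fun x r => h (Φ x r)) ?_ (hτ.cont k)
      exact hh.continuous.comp hΦs.continuous)
    (mul_pos hc₀ (hpos x₁))
    (fun k x => by
      have h1 : ∀ r ∈ Icc 0 (τ k x), h x₁ ≤ h (Φ x r) := fun r _ => hhm _
      have h0 : 0 ≤ τ k x := hc₀.le.trans (hc₀' k x)
      have h2 := intervalIntegral.integral_mono_on (μ := volume) h0
        (f := fun _ => h x₁) (g := fun r => h (Φ x r))
        intervalIntegrable_const
        ((hh.continuous.comp (hΦ.integral x).continuous).intervalIntegrable _ _) h1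
      rw [intervalIntegral.integral_const, smul_eq_mul, sub_zero] at h2
      refine le_trans ?_ h2
      exact mul_le_mul_of_nonneg_right (hc₀' k x) (hpos x₁).le)
    (fun ε hε => by
      filter_upwards [hτ.uniform ε hε] with k hk x
      have := hk x
      rw [(htc x).1] at this
      exact this)
    (by
      filter_upwards [hC] with k hk x
      obtain ⟨lam, hlam⟩ := hk x
      obtain ⟨b, hb⟩ := WU.deriv_time_change (R := fun x => (R x : TangentSpace 𝓘(ℝ, E) x))
        hRF.smooth hF (hTs (τ k x)) (s := τ k x) (Φ := Φ) (fun y => (htc y).1 _) x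
      refine ⟨b + h (Φ x (τ k x)) • lam, fun v => ?_⟩
      have ha := hlam v
      have e1 : D (E := E) (E' := E) (fun y => Φ y (τ k x)) x v =
          WU.dm E (fun y => Φ y (τ k x)) x v := rfl
      rw [e1, hb v] at ha
      have e2 : Fl x (∫ r in (0:ℝ)..(τ k x), h (Φ x r)) = Φ x (τ k x) := ((htc x).1 _).symm
      rw [e2] at ha ⊢
      have e3 : D (E := E) (E' := F) e (Φ x (τ k x))
          (WU.dm E (fun y => Fl y (∫ r in (0:ℝ)..(τ k x), h (Φ x r))) x v +
            b v • R (Φ x (τ k x)) + lam v • h (Φ x (τ k x)) • R (Φ x (τ k x))) =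
          WU.dv E e (Φ x (τ k x))
            (WU.dm E (fun y => Fl y (∫ r in (0:ℝ)..(τ k x), h (Φ x r))) x v) +
            (b + h (Φ x (τ k x)) • lam) v • WU.dv E e (Φ x (τ k x)) (R (Φ x (τ k x))) := by
        have e4 : (b + h (Φ x (τ k x)) • lam) v = b v + lam v * h (Φ x (τ k x)) := by
          rw [add_apply, smul_apply, smul_eq_mul]
          ring
        rw [smul_smul, add_assoc, ← add_smul, map_add, map_smul, e4]
        rfl
      exact ⟨by rw [← e3]; exact ha.1, by rw [← e3]; exact ha.2⟩)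
  -- the periodic orbits of `X`
  have hmk : ∀ y T, 0 < T → Fl y T = y → ∃ s, IsPeriodicOrbit (fun x => h x • R x) (Φ y) s := by
    intro y T hT hy
    obtain ⟨s, hs, hs'⟩ := (htc y).2 T hT
    have hxs : Φ y s = y := by rw [(htc y).1, hs', hy]
    refine ⟨s, hs, hΦ.integral y, fun t => ?_⟩
    rw [add_comm, flow_add hXs hΦ.zero hΦ.integral, hxs]
  obtain ⟨s₁, h₁⟩ := hmk y₁ T₁ hT₁ e₁
  obtain ⟨s₂, h₂⟩ := hmk y₂ T₂ hT₂ e₂
  refine ⟨Φ y₁, Φ y₂, s₁, s₂, h₁, h₂, ?_⟩
  rw [Set.disjoint_left]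
  rintro _ ⟨u, rfl⟩ ⟨v, hv⟩
  rw [(htc y₁).1, (htc y₂).1] at hv
  exact hdis _ _ hv.symm

end Pool.Agent.W671.RStmt
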