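import Pool.Agent.W671.ZA5

/-!
Existence of the classes.
-/

set_option autoImplicit false

namespace Pool.Agent.W671.ZA

open Pool.Agent.H159R3.NV Pool.Agent.W671.ZD
open Filter Metric Real Set Topology

/-- characteristic of a finite family -/
noncomputable def TW (W : Finset Ent) (r : ℝ) : ℝ := 1 + ∑ w ∈ W, mm (w : ℂ → ℂ) r

theorem TW_one (W : Finset Ent) (r : ℝ) : 1 ≤ TW W r := by
  unfold TW
  have := Finset.sum_nonneg fun (w : Ent) (_ : w ∈ W) => mm_nonneg (w : ℂ → ℂ) r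
  linarith

theorem TW_mono (W : Finset Ent) {r R : ℝ} (hr : 0 < r) (h : r ≤ R) : TW W r ≤ TW W R := by
  unfold TW
  have := Finset.sum_le_sum fun (w : Ent) (_ : w ∈ W) => mm_mono w.2 hr h
  linarith

theorem mm_le_TW (W : Finset Ent) {w : Ent} (hw : w ∈ W) (r : ℝ) :
    mm (w : ℂ → ℂ) r ≤ TW W r := by
  unfold TW
  have := Finset.single_le_sum (f := fun w : Ent => mm (w : ℂ → ℂ) r)
    (fun w _ => mm_nonneg _ _) hw
  linarith

theorem growthT (W : Finset Ent) {X Xi β : Ent} (hXW : X ∈ W) (hXiW : Xi ∈ W) (hX : X * Xi = 1)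
    (hD : Dv X = β * X) (hβ : β ≠ 0) : ∃ C, ∀ r, 1 ≤ r → r ≤ C * TW W r := by
  have hval : ∀ z, (X : ℂ → ℂ) z * (Xi : ℂ → ℂ) z = 1 := fun z =>
    congrFun (congrArg Subtype.val hX) z
  have hXz : ∀ z, (X : ℂ → ℂ) z ≠ 0 := fun z => left_ne_zero_of_mul_eq_one (hval z)
  obtain ⟨w, z, hwz⟩ : ∃ w z, Real.log ‖(X : ℂ → ℂ) w‖ ≠ Real.log ‖(X : ℂ → ℂ) z‖ := by
    by_contra hcon
    push Not at hcon
    apply hβ
    have hnorm : ∀ w, ‖(X : ℂ → ℂ) w‖ = ‖(X : ℂ → ℂ) 0‖ := fun w =>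
      Real.log_injOn_pos (mem_Ioi.mpr (norm_pos_iff.mpr (hXz w)))
        (mem_Ioi.mpr (norm_pos_iff.mpr (hXz 0))) (hcon w 0)
    have hconst : ∀ w, (X : ℂ → ℂ) w = (X : ℂ → ℂ) 0 := fun w =>
      X.2.apply_eq_apply_of_bounded (isBounded_iff_forall_norm_le.mpr
        ⟨‖(X : ℂ → ℂ) 0‖, by rintro _ ⟨w, rfl⟩; exact (hnorm w).le⟩) w 0
    have hXc : X = cst ((X : ℂ → ℂ) 0) := by
      apply Subtype.ext
      funext w
      exact hconst w
    have h1 : Dv X = 0 := by rw [hXc, Dcst]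
    rw [h1] at hD
    exact (mul_eq_zero.mp hD.symm).resolve_right (left_ne_zero_of_mul_eq_one hX)
  set D : ℝ := |Real.log ‖(X : ℂ → ℂ) w‖ - Real.log ‖(X : ℂ → ℂ) z‖| with hDdef
  have hDpos : 0 < D := abs_pos.mpr (sub_ne_zero.mpr hwz)
  set r1 : ℝ := 2 * (‖w‖ + ‖z‖) + 1 with hr1
  have hr1pos : 0 < r1 := by positivity
  refine ⟨16 * ‖w - z‖ / D + r1, fun r hr => ?_⟩
  have hT1 := TW_one W r
  have hT0 : 0 < TW W r := by linarith
  have hq : 0 ≤ 16 * ‖w - z‖ / D := by positivity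
  rcases le_total r r1 with h | h
  · nlinarith [mul_nonneg hq hT0.le]
  · have hr0 : 0 < r := by linarith
    have h1 := poisson_diff (k := (X : ℂ → ℂ)) (R := r) (δ := r / 2) hr0 (by positivity)
      (fun z _ => X.2.analyticAt z) (fun z _ => hXz z) (w := w) (z := z)
      (by have := norm_nonneg z; linarith) (by have := norm_nonneg w; linarith)
    have h2 : Real.circleAverage (fun ζ => |Real.log ‖(X : ℂ → ℂ) ζ‖|) 0 r ≤ 2 * TW W r := by
      have i1 := ci_posLog (mero_of_diff X.2) r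
      have i2 := ci_posLog (mero_of_diff Xi.2) r
      have h3 : Real.circleAverage (fun ζ => |Real.log ‖(X : ℂ → ℂ) ζ‖|) 0 r
          ≤ Real.circleAverage (fun ζ => Real.posLog ‖(X : ℂ → ℂ) ζ‖
            + Real.posLog ‖(Xi : ℂ → ℂ) ζ‖) 0 r := by
        apply Real.circleAverage_mono (ci_abs (ci_log (mero_of_diff X.2) r)) (i1.add i2)
        intro ζ _
        change |Real.log ‖(X : ℂ → ℂ) ζ‖| ≤ Real.posLog ‖(X : ℂ → ℂ) ζ‖
            + Real.posLog ‖(Xi : ℂ → ℂ) ζ‖
        have e : (Xi : ℂ → ℂ) ζ = ((X : ℂ → ℂ) ζ)⁻¹ :=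
          (inv_eq_of_mul_eq_one_right (hval ζ)).symm
        rw [e, norm_inv, Real.posLog_apply, Real.posLog_apply, Real.log_inv]
        rcases le_total 0 (Real.log ‖(X : ℂ → ℂ) ζ‖) with h4 | h4
        · rw [abs_of_nonneg h4, max_eq_right h4, max_eq_left (by linarith)]; linarith
        · rw [abs_of_nonpos h4, max_eq_left h4, max_eq_right (by linarith)]; linarith
      rw [Real.circleAverage_fun_add i1 i2] at h3
      have h5 := mm_le_TW W hXW r
      have h6 := mm_le_TW W hXiW r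
      unfold mm at h5 h6
      linarith
    have h3 : D ≤ 2 * r * ‖w - z‖ / (r / 2) ^ 2 * (2 * TW W r) :=
      h1.trans (mul_le_mul_of_nonneg_left h2 (by positivity))
    have h4 : 2 * r * ‖w - z‖ / (r / 2) ^ 2 * (2 * TW W r) = 16 * ‖w - z‖ * TW W r / r := by
      field_simp
      ring
    rw [h4, le_div_iff₀ hr0] at h3
    have h5 : r ≤ 16 * ‖w - z‖ / D * TW W r := by
      rw [div_mul_eq_mul_div, le_div_iff₀ hDpos]
      linarith
    nlinarith [mul_nonneg hr1pos.le hT0.le]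

theorem good_radii (W : Finset Ent) (n : ℕ) :
    ∃ r : ℝ, (n : ℝ) + 1 ≤ r ∧ TW W (r + 1 / TW W r) ≤ 2 * TW W r := by
  by_contra hcon
  push Not at hcon
  let ρ : ℕ → ℝ := fun k => Nat.rec ((n : ℝ) + 1) (fun _ x => x + 1 / TW W x) k
  have hρ0 : ρ 0 = (n : ℝ) + 1 := rfl
  have hρs : ∀ k, ρ (k + 1) = ρ k + 1 / TW W (ρ k) := fun k => rfl
  have hTpos : ∀ r, 0 < TW W r := fun r => lt_of_lt_of_le one_pos (TW_one W r)
  have h1 : ∀ k, (n : ℝ) + 1 ≤ ρ k := by
    intro k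
    induction k with
    | zero => exact le_of_eq hρ0.symm
    | succ k ih =>
      rw [hρs]
      have := hTpos (ρ k)
      have : 0 ≤ 1 / TW W (ρ k) := by positivity
      linarith
  have h2 : ∀ k, (2 : ℝ) ^ k ≤ TW W (ρ k) := by
    intro k
    induction k with
    | zero => rw [pow_zero]; exact TW_one W _
    | succ k ih =>
      rw [hρs, pow_succ]
      have := hcon (ρ k) (h1 k)
      linarith
  have h3 : ∀ k, ρ k ≤ (n : ℝ) + 3 - 2 * (1 / 2) ^ k := by
    intro k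
    induction k with
    | zero => rw [hρ0, pow_zero]; linarith
    | succ k ih =>
      rw [hρs]
      have h4 : 1 / TW W (ρ k) ≤ (1 / 2) ^ k := by
        rw [one_div_pow]
        exact one_div_le_one_div_of_le (by positivity) (h2 k)
      have h5 : (1 / 2 : ℝ) ^ (k + 1) = (1 / 2) ^ k / 2 := by rw [pow_succ]; ring
      rw [h5]
      linarith
  have hn0 : (0 : ℝ) ≤ n := Nat.cast_nonneg n
  obtain ⟨k, hk⟩ := pow_unbounded_of_one_lt (TW W ((n : ℝ) + 3)) (one_lt_two)
  have h4 : TW W (ρ k) ≤ TW W ((n : ℝ) + 3) := by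
    apply TW_mono W (by linarith [h1 k])
    have := h3 k
    have : (0 : ℝ) ≤ 2 * (1 / 2) ^ k := by positivity
    linarith
  linarith [h2 k]

theorem exCls : ExCls := by
  intro W X Xi β hXW hXiW hX hD hβ
  obtain ⟨C, hC⟩ := growthT W hXW hXiW hX hD hβ
  choose r hr1 hr2 using good_radii W
  have hr1' : ∀ n, 1 ≤ r n := fun n => by
    have := hr1 n
    have : (0 : ℝ) ≤ n := Nat.cast_nonneg n
    linarith
  have hCpos : 0 < C := by
    have h1 := hC 1 le_rfl
    have h2 := TW_one W 1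
    by_contra hneg
    push Not at hneg
    nlinarith
  let s : Scale :=
    { T := fun n => TW W (r n)
      r := r
      C0 := C
      hr := hr1'
      hT1 := fun n => TW_one W _
      hT := by
        apply tendsto_atTop_mono (f := fun n : ℕ => (n : ℝ) / C)
        · intro n
          rw [div_le_iff₀ hCpos]
          have h1 := hC (r n) (hr1' n)
          have h2 := hr1 n
          linarith
        · exact tendsto_natCast_atTop_atTop.atTop_div_const hCpos
      hrT := fun n => hC (r n) (hr1' n) }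
  refine ⟨s.GG, s.SS, s.cls, ?_, ?_⟩
  · intro w hw δ h0 h1
    refine ⟨2, Eventually.of_forall fun n => ?_⟩
    have hT := s.Tpos n
    have e1 : s.r n + δ / s.T n ≤ r n + 1 / TW W (r n) := by
      change r n + δ / TW W (r n) ≤ r n + 1 / TW W (r n)
      have : 0 < TW W (r n) := hT
      gcongr
    calc mm (w : ℂ → ℂ) (s.r n + δ / s.T n) ≤ mm (w : ℂ → ℂ) (r n + 1 / TW W (r n)) :=
          mm_mono w.2 (s.rpos h0 n) e1
      _ ≤ TW W (r n + 1 / TW W (r n)) := mm_le_TW W hw _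
      _ ≤ 2 * s.T n := hr2 n
  · by_contra hcon
    push Not at hcon
    have hN : (0 : ℝ) ≤ (W.card : ℝ) := Nat.cast_nonneg _
    have h1 : ∀ᶠ n in (UU : Filter ℕ), ∀ w ∈ W,
        mm (w : ℂ → ℂ) (s.r n + 0 / s.T n) ≤ 1 / (2 * ((W.card : ℝ) + 1)) * s.T n := by
      rw [Filter.eventually_all_finset]
      intro w hw
      exact hcon w hw 0 le_rfl one_pos _ (by positivity)
    obtain ⟨n, h2, h3⟩ := (h1.and (s.evT 3)).exists
    have h4 : s.T n = 1 + ∑ w ∈ W, mm (w : ℂ → ℂ) (s.r n) := rfl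
    have h5 : ∑ w ∈ W, mm (w : ℂ → ℂ) (s.r n)
        ≤ ∑ _w ∈ W, 1 / (2 * ((W.card : ℝ) + 1)) * s.T n := by
      apply Finset.sum_le_sum
      intro w hw
      have := h2 w hw
      rw [zero_div, add_zero] at this
      exact this
    rw [Finset.sum_const, nsmul_eq_mul] at h5
    have h6 : (W.card : ℝ) * (1 / (2 * ((W.card : ℝ) + 1)) * s.T n) ≤ s.T n / 2 := by
      have e : (W.card : ℝ) * (1 / (2 * ((W.card : ℝ) + 1)) * s.T n)
        = ((W.card : ℝ) / ((W.card : ℝ) + 1)) * (s.T n / 2) := by field_simp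
      rw [e]
      have h7 : (W.card : ℝ) / ((W.card : ℝ) + 1) ≤ 1 := by
        rw [div_le_one (by positivity)]; linarith
      have h8 := s.Tpos n
      nlinarith
    linarith

end Pool.Agent.W671.ZA
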