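import Pool.Agent.W671.ZD8

/-!
From pairs of functions to the system, and the classification.
-/

set_option autoImplicit false

namespace Pool.Agent.W671.ZD

open Pool.Agent.H159R3.NV

/-- exponentials -/
noncomputable def Ex (c : ℂ) : Ent := ⟨fun z => Complex.exp (c * z),
  (differentiable_id.const_mul c).cexp⟩

theorem Ex_apply (c z : ℂ) : (Ex c : ℂ → ℂ) z = Complex.exp (c * z) := rfl

theorem Ex_ne (c : ℂ) : Ex c ≠ 0 := by
  intro h
  have := congrFun (congrArg Subtype.val h) 0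
  exact Complex.exp_ne_zero _ this

theorem D_Ex (c : ℂ) : Dv (Ex c) = cst c * Ex c := by
  apply Subtype.ext
  funext z
  rw [Dv_coe]
  have h : HasDerivAt (fun z : ℂ => Complex.exp (c * z)) (Complex.exp (c * z) * (c * 1)) z :=
    ((hasDerivAt_id z).const_mul c).cexp
  change deriv (fun z : ℂ => Complex.exp (c * z)) z = c * Complex.exp (c * z)
  rw [h.deriv]
  ring

theorem exp_ode {y : Ent} {c : ℂ} (h : Dv y = cst c * y) :
    ∃ K : ℂ, ∀ z, (y : ℂ → ℂ) z = K * Complex.exp (c * z) := by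
  obtain ⟨x, hx⟩ := prop_of_D (a := y) (b := Ex c) (Ex_ne c) (by
    rw [D_Ex, h]; ring)
  refine ⟨x, fun z => ?_⟩
  rw [hx]
  rfl

theorem unit_of {h : ℂ → ℂ} (hd : Differentiable ℂ h) (h0 : ∀ z, h z ≠ 0) :
    (⟨h, hd⟩ : Ent) * ⟨fun z => (h z)⁻¹, hd.inv h0⟩ = 1 := by
  apply Subtype.ext
  funext z
  exact mul_inv_cancel₀ (h0 z)

/-- data of a pair -/
structure Pr (f g : Ent) (F Gd u ui a : ℕ → Ent) : Prop where
  F0 : F 0 = f
  G0 : Gd 0 = g
  FD : ∀ n, F (n + 1) = Dv (F n)
  GD : ∀ n, Gd (n + 1) = Dv (Gd n)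
  Gne : ∀ n, n ≤ 12 → Gd n ≠ 0
  inv : ∀ n, n ≤ 12 → u n * ui n = 1
  fac : ∀ n, n ≤ 12 → F n = u n * Gd n
  Da : ∀ n, n ≤ 12 → Dv (u n) = a n * u n

theorem Pr.rel1 {f g : Ent} {F Gd u ui a : ℕ → Ent} (h : Pr f g F Gd u ui a) {n : ℕ}
    (hn : n ≤ 11) : a n * Gd n = (u (n + 1) * ui n - 1) * Gd (n + 1) := by
  have h1 := h.FD n
  rw [h.fac n (by omega), h.fac (n + 1) (by omega), Dmul, h.Da n (by omega), ← h.GD n] at h1
  have h2 := h.inv n (by omega)
  linear_combination (-ui n) * h1 - (Gd (n + 1) + a n * Gd n) * h2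

theorem two_const (hex : ExCls) {U Ui φ w wi ψ : Ent} {c : ℂ} (hU : U * Ui = 1)
    (hDU : Dv U = φ * U) (hw : w * wi = 1) (hDw : Dv w = ψ * w) (hc : c ≠ 0)
    (hUw : w = U - cst c) : φ = 0 := by
  have hD : φ * U = ψ * w := by
    rw [← hDU, ← hDw, hUw, Dsub, Dcst, sub_zero]
  have hU0 : U ≠ 0 := left_ne_zero_of_mul_eq_one hU
  have e1 : (φ - ψ) * U = - (cst c * ψ) := by
    rw [hUw] at hD
    linear_combination hD
  have e2 : (φ - ψ) * w = - (cst c * φ) := by
    rw [hUw] at hD ⊢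
    linear_combination hD
  by_cases h : φ - ψ = 0
  · rw [h, zero_mul] at e2
    have h3 : cst c * φ = 0 := by linear_combination e2
    exact (mul_eq_zero.mp h3).resolve_left (cst_ne hc)
  · exact (growth2 hex hU hDU hw hDw (fun S hS h1 h2 =>
      ⟨⟨φ - ψ, S.sub_mem h1 h2, h, by rw [e1]; (repeat' first | assumption | exact Subalgebra.zero_mem _ | exact Subalgebra.one_mem _ | exact num_mem _ _ | exact cst_mem _ _ | apply Subalgebra.add_mem | apply Subalgebra.sub_mem | apply Subalgebra.mul_mem | apply Subalgebra.pow_mem | apply Subalgebra.neg_mem | apply hS)⟩,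
        ⟨φ - ψ, S.sub_mem h1 h2, h, by rw [e2]; (repeat' first | assumption | exact Subalgebra.zero_mem _ | exact Subalgebra.one_mem _ | exact num_mem _ _ | exact cst_mem _ _ | apply Subalgebra.add_mem | apply Subalgebra.sub_mem | apply Subalgebra.mul_mem | apply Subalgebra.pow_mem | apply Subalgebra.neg_mem | apply hS)⟩⟩)).1

theorem Pr.degen (hex : ExCls) {f g : Ent} {F Gd u ui a : ℕ → Ent} (h : Pr f g F Gd u ui a)
    {n : ℕ} (hn : n ≤ 12) (ha : a n = 0) : ∃ c : ℂ, f = cst c * g := by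
  classical
  have hDu := h.Da n hn
  rw [ha, zero_mul] at hDu
  obtain ⟨c, hc⟩ := const_of_D hDu
  refine ⟨c, ?_⟩
  have hc0 : c ≠ 0 := by
    intro h0
    have := h.inv n hn
    rw [hc, h0, map_zero, zero_mul] at this
    exact zero_ne_one this
  have hP : ∃ m, F m - cst c * Gd m = 0 := ⟨n, by rw [h.fac n hn, hc, sub_self]⟩
  have hspec := Nat.find_spec hP
  set e := Nat.find hP with he
  have hen : e ≤ n := Nat.find_min' hP (by rw [h.fac n hn, hc, sub_self])
  rcases Nat.eq_zero_or_pos e with he0 | he0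
  · rw [he0, h.F0, h.G0] at hspec
    exact sub_eq_zero.mp hspec
  · exfalso
    obtain ⟨d, hd⟩ : ∃ d, e = d + 1 := ⟨e - 1, by omega⟩
    have hne : F d - cst c * Gd d ≠ 0 := Nat.find_min hP (by rw [← he, hd]; exact Nat.lt_succ_self d)
    rw [hd] at hspec
    have hD : Dv (F d - cst c * Gd d) = 0 := by
      rw [Dsub, Dmul, Dcst, zero_mul, add_zero, ← h.FD, ← h.GD]
      exact hspec
    obtain ⟨q, hq⟩ := const_of_D hD
    have hq0 : q ≠ 0 := by
      intro h0
      rw [h0, map_zero] at hq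
      exact hne hq
    have hw : (u d - cst c) * Gd d = cst q := by
      rw [← hq, h.fac d (by omega)]; ring
    have hwi : (u d - cst c) * (cst q⁻¹ * Gd d) = 1 := by
      have : cst q⁻¹ * cst q = 1 := by rw [← map_mul, inv_mul_cancel₀ hq0, map_one]
      linear_combination (cst q⁻¹) * hw + this
    have hφ := two_const hex (h.inv d (by omega)) (h.Da d (by omega)) hwi
      (ψ := Dv (u d - cst c) * (cst q⁻¹ * Gd d))
      (by linear_combination (- Dv (u d - cst c)) * hwi) hc0 rfl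
    have hDu' := h.Da d (by omega)
    rw [hφ, zero_mul] at hDu'
    have h1 := congrArg Dv hw
    rw [Dmul, Dsub, hDu', Dcst, Dcst, sub_zero, zero_mul, add_zero, ← h.GD] at h1
    rcases mul_eq_zero.mp h1 with h2 | h2
    · rw [h2, zero_mul] at hw
      exact cst_ne hq0 hw.symm
    · exact h.Gne (d + 1) (by omega) h2

theorem Pr.sys {f g : Ent} {F Gd u ui a : ℕ → Ent} (h : Pr f g F Gd u ui a)
    (ha : ∀ n, n ≤ 12 → a n ≠ 0) :
    Sy 10 a (fun n => u (n + 1) * ui n) (fun n => u n * ui (n + 1)) (fun n => a (n + 1) - a n) := by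
  have hr := fun n (hn : n ≤ 11) => h.rel1 hn
  refine ⟨fun n hn => (unit_ratio (h.inv n (by omega)) (h.inv (n + 1) (by omega))
      (h.Da n (by omega)) (h.Da (n + 1) (by omega))).1,
    fun n hn => (unit_ratio (h.inv n (by omega)) (h.inv (n + 1) (by omega))
      (h.Da n (by omega)) (h.Da (n + 1) (by omega))).2.1,
    fun n hn => rfl, fun n hn => ?_, fun n hn => ha n (by omega), fun n hn h1 => ?_⟩
  · have r1 := hr n (by omega)
    have r2 := hr (n + 1) (by omega)
    have hD := (unit_ratio (h.inv n (by omega)) (h.inv (n + 1) (by omega))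
      (h.Da n (by omega)) (h.Da (n + 1) (by omega))).2.1
    obtain ⟨X, hX⟩ : ∃ X, X = u (n + 1) * ui n := ⟨_, rfl⟩
    obtain ⟨Y, hY⟩ : ∃ X, X = u (n + 1 + 1) * ui (n + 1) := ⟨_, rfl⟩
    rw [← hX] at r1 hD
    rw [← hY] at r2
    change Dv (a n) * (u (n + 1) * ui n - 1) * (u (n + 1 + 1) * ui (n + 1) - 1)
      + a n ^ 2 * (u (n + 1 + 1) * ui (n + 1) - u (n + 1) * ui n)
      - a n * (a (n + 1) - a n) * ((u (n + 1) * ui n) * (u (n + 1 + 1) * ui (n + 1)) - 1) = 0
    rw [← hX, ← hY]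
    have r3 := congrArg Dv r1
    rw [Dmul, Dmul, Dsub, Done, hD, ← h.GD, ← h.GD] at r3
    have hG := h.Gne (n + 1) (by omega)
    apply (mul_eq_zero.mp (?_ : Gd (n + 1) * (Dv (a n) * (X - 1) * (Y - 1)
      + a n ^ 2 * (Y - X) - a n * (a (n + 1) - a n) * (X * Y - 1)) = 0)).resolve_left hG
    linear_combination (a n * (Y - 1)) * r3 - (Dv (a n) * (Y - 1)) * r1 - (a n * (X - 1)) * r2
  · have r1 := hr n (by omega)
    have h1' : u (n + 1) * ui n = 1 := h1
    rw [h1', sub_self, zero_mul] at r1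
    rcases mul_eq_zero.mp r1 with h2 | h2
    · exact ha n (by omega) h2
    · exact h.Gne n (by omega) h2

theorem classify (hex : ExCls) {f g : Ent} {F Gd u ui a : ℕ → Ent} (h : Pr f g F Gd u ui a) :
    (∃ c : ℂ, ∀ z : ℂ, (f : ℂ → ℂ) z = c * (g : ℂ → ℂ) z) ∨
        (∃ a b c d : ℂ, ∀ z : ℂ,
            (f : ℂ → ℂ) z = Complex.exp (a * z + b) ∧ (g : ℂ → ℂ) z = Complex.exp (c * z + d)) ∨
        (∃ a b A B : ℂ, b ≠ 0 ∧ ∀ z : ℂ,
            (f : ℂ → ℂ) z = A * (Complex.exp (a * z) - b) ∧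
            (g : ℂ → ℂ) z = B * (Complex.exp (-(a * z)) - b⁻¹)) := by
  by_cases hdeg : ∃ n, n ≤ 12 ∧ a n = 0
  · obtain ⟨n, hn, ha⟩ := hdeg
    obtain ⟨c, hc⟩ := h.degen hex hn ha
    left
    refine ⟨c, fun z => ?_⟩
    rw [hc]; rfl
  · right
    push Not at hdeg
    have sy := h.sys hdeg
    have hg0 : g ≠ 0 := by rw [← h.G0]; exact h.Gne 0 (by norm_num)
    have r0 := h.rel1 (n := 0) (by norm_num)
    have hf := h.fac 0 (by norm_num)
    rw [h.F0, h.G0] at hf
    have hu0 := left_ne_zero_of_mul_eq_one (h.inv 0 (by norm_num))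
    have hG1 : Gd (0 + 1) = Dv g := by rw [h.GD, h.G0]
    rw [hG1, h.G0] at r0
    rcases core hex sy with ⟨hβ, hDa⟩ | ⟨hβ0, hDa, hβ⟩
    · left
      obtain ⟨α, hα⟩ := const_of_D hDa
      have hX0 : Dv (u (0 + 1) * ui 0) = 0 := by
        have h1 := sy.der 0 (by norm_num)
        have h2 := hβ 0 (by norm_num)
        rw [h1, h2, zero_mul]
      obtain ⟨x, hx⟩ := const_of_D hX0
      rw [hx, hα] at r0
      have hx1 : x - 1 ≠ 0 := by
        intro h1
        have h2 := sy.xne 0 (by norm_num)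
        apply h2
        change u (0 + 1) * ui 0 = 1
        rw [hx, sub_eq_zero.mp h1, map_one]
      have hDg : Dv g = cst (α / (x - 1)) * g := by
        apply mul_left_cancel₀ (cst_ne hx1)
        rw [← mul_assoc, ← map_mul, mul_div_cancel₀ _ hx1, r0, map_sub, map_one]
      obtain ⟨K, hK⟩ := exp_ode hDg
      have hDu := h.Da 0 (by norm_num)
      rw [hα] at hDu
      obtain ⟨M, hM⟩ := exp_ode hDu
      have hK0 : K ≠ 0 := by
        intro h0
        apply hg0
        apply Subtype.ext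
        funext z
        rw [hK, h0, zero_mul]; rfl
      have hM0 : M ≠ 0 := by
        intro h0
        apply hu0
        apply Subtype.ext
        funext z
        rw [hM, h0, zero_mul]; rfl
      refine ⟨α + α / (x - 1), Complex.log (M * K), α / (x - 1), Complex.log K, fun z => ?_⟩
      constructor
      · have h1 : (f : ℂ → ℂ) z = (u 0 : ℂ → ℂ) z * (g : ℂ → ℂ) z := by rw [hf]; rfl
        rw [h1, hK, hM, Complex.exp_add, Complex.exp_log (mul_ne_zero hM0 hK0), add_mul,
          Complex.exp_add]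
        ring
      · rw [hK, Complex.exp_add, Complex.exp_log hK0]
        ring
    · right
      have hβ0' : a (0 + 1) - a 0 = a 0 := hβ0
      obtain ⟨α, hα⟩ := const_of_D hDa
      have hα0 : α ≠ 0 := by
        intro h0
        apply hdeg 0 (by norm_num)
        rw [hα, h0, map_zero]
      have hD0 := sy.der 0 (by norm_num)
      have hrel := sy.rel 0 (by norm_num)
      have hX0ne := sy.xne 0 (by norm_num)
      rw [hβ0', hα] at hD0
      rw [hβ0', hDa] at hrel
      have ha1 : a (0 + 1) = 2 * cst α := by rw [← hα]; linear_combination hβ0'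
      obtain ⟨K, hK⟩ := exp_ode hD0
      obtain ⟨X0, hX0⟩ : ∃ X, X = u (0 + 1) * ui 0 := ⟨_, rfl⟩
      obtain ⟨X1, hX1⟩ : ∃ X, X = u (0 + 1 + 1) * ui (0 + 1) := ⟨_, rfl⟩
      rw [← hX0, ← hX1] at hrel
      rw [← hX0] at hX0ne hK r0
      have h1 : a 0 ^ 2 * ((X1 + 1) * (1 - X0)) = 0 := by linear_combination hrel
      have h2 := (mul_eq_zero.mp h1).resolve_left (pow_ne_zero 2 (hdeg 0 (by norm_num)))
      have h3 : X1 + 1 = 0 := (mul_eq_zero.mp h2).resolve_right (fun h => hX0ne (by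
        linear_combination -h))
      have r1 := h.rel1 (n := 0 + 1) (by norm_num)
      rw [← hX1, ha1, hG1] at r1
      have hG2 : Gd (0 + 1 + 1) = Dv (Dv g) := by rw [h.GD, hG1]
      rw [hG2] at r1
      have hDg : Dv (Dv g) = cst (-α) * Dv g := by
        apply mul_left_cancel₀ two_ne'
        rw [map_neg]
        linear_combination r1 + (Dv (Dv g)) * h3
      obtain ⟨M, hM⟩ := exp_ode hDg
      have hDu := h.Da 0 (by norm_num)
      rw [hα] at hDu
      obtain ⟨L, hL⟩ := exp_ode hDu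
      have hK0 : K ≠ 0 := by
        intro h0
        have h4 : X0 ≠ 0 := by rw [hX0]; exact left_ne_zero_of_mul_eq_one (sy.inv 0 (by norm_num))
        apply h4
        apply Subtype.ext
        funext z
        rw [hK, h0, zero_mul]; rfl
      have hgz : ∀ z, (g : ℂ → ℂ) z = M / α * (K - Complex.exp (-(α * z))) := by
        intro z
        have h4 := congrFun (congrArg Subtype.val r0) z
        have h5 : (a 0 : ℂ → ℂ) z * (g : ℂ → ℂ) z
          = ((X0 : ℂ → ℂ) z - 1) * (Dv g : ℂ → ℂ) z := h4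
        rw [hα, hK, hM] at h5
        have h6 : α * (g : ℂ → ℂ) z
          = (K * Complex.exp (α * z) - 1) * (M * Complex.exp (-α * z)) := h5
        have h7 : Complex.exp (-α * z) = Complex.exp (-(α * z)) := by rw [neg_mul]
        have h8 : Complex.exp (α * z) * Complex.exp (-(α * z)) = 1 := by
          rw [← Complex.exp_add, add_neg_cancel, Complex.exp_zero]
        rw [h7] at h6
        apply mul_left_cancel₀ hα0
        rw [h6]
        field_simp
        linear_combination (K * M) * h8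
      refine ⟨α, K⁻¹, L * M * K / α, -(M / α), inv_ne_zero hK0, fun z => ⟨?_, ?_⟩⟩
      · have h4 : (f : ℂ → ℂ) z = (u 0 : ℂ → ℂ) z * (g : ℂ → ℂ) z := by rw [hf]; rfl
        have h8 : Complex.exp (α * z) * Complex.exp (-(α * z)) = 1 := by
          rw [← Complex.exp_add, add_neg_cancel, Complex.exp_zero]
        rw [h4, hgz, hL]
        field_simp
        linear_combination (-(L * M)) * h8
      · rw [hgz, inv_inv]
        ring

theorem final (hex : ExCls) (f g : ℂ → ℂ) (hf : Differentiable ℂ f) (hg : Differentiable ℂ g)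
    (h : ∀ n : ℕ, n ≤ 12 →
          (∃ z : ℂ, iteratedDeriv n g z ≠ 0) ∧
          ∃ h : ℂ → ℂ, Differentiable ℂ h ∧ (∀ z : ℂ, h z ≠ 0) ∧
            ∀ z : ℂ, iteratedDeriv n f z = h z * iteratedDeriv n g z) :
    (∃ c : ℂ, ∀ z : ℂ, f z = c * g z) ∨
        (∃ a b c d : ℂ, ∀ z : ℂ,
            f z = Complex.exp (a * z + b) ∧ g z = Complex.exp (c * z + d)) ∨
        (∃ a b A B : ℂ, b ≠ 0 ∧ ∀ z : ℂ,
            f z = A * (Complex.exp (a * z) - b) ∧
            g z = B * (Complex.exp (-(a * z)) - b⁻¹)) := by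
  classical
  have h' : ∀ n : ℕ, ∃ u ui : Ent, n ≤ 12 → (u * ui = 1 ∧
      ∀ z, iteratedDeriv n f z = (u : ℂ → ℂ) z * iteratedDeriv n g z) := by
    intro n
    by_cases hn : n ≤ 12
    · obtain ⟨_, w, hw, hw0, hfac⟩ := h n hn
      exact ⟨⟨w, hw⟩, ⟨fun z => (w z)⁻¹, hw.inv hw0⟩, fun _ => ⟨unit_of hw hw0, hfac⟩⟩
    · exact ⟨0, 0, fun h => absurd h hn⟩
  choose u ui hu using h'
  have key := classify hex (f := ⟨f, hf⟩) (g := ⟨g, hg⟩)
    (F := fun n => (Dv : Ent → Ent)^[n] ⟨f, hf⟩) (Gd := fun n => (Dv : Ent → Ent)^[n] ⟨g, hg⟩)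
    (u := u) (ui := ui) (a := fun n => Dv (u n) * ui n)
    ⟨rfl, rfl, fun n => Function.iterate_succ_apply' _ _ _,
      fun n => Function.iterate_succ_apply' _ _ _, fun n hn h0 => by
        obtain ⟨⟨z, hz⟩, _⟩ := h n hn
        apply hz
        have := congrFun (congrArg Subtype.val h0) z
        rw [Dv_iter] at this
        exact this,
      fun n hn => (hu n hn).1, fun n hn => by
        apply Subtype.ext
        funext z
        have h1 := (hu n hn).2 z
        rw [Dv_iter]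
        have h2 : ((u n * (Dv : Ent → Ent)^[n] ⟨g, hg⟩ : Ent) : ℂ → ℂ) z
          = (u n : ℂ → ℂ) z * (((Dv : Ent → Ent)^[n] ⟨g, hg⟩ : Ent) : ℂ → ℂ) z := rfl
        rw [h2, Dv_iter]
        exact h1,
      fun n hn => by
        have h1 := (hu n hn).1
        linear_combination (- Dv (u n)) * h1⟩
  exact key

end Pool.Agent.W671.ZD
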