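import Mathlib

/-! The `ℓ¹` norm of power series and polynomials, digits, and the averaging construction. -/

set_option autoImplicit false

open Finset Filter Topology
open scoped ENNReal

namespace Pool.Agent.W671.WI

/-- the `ℓ¹` norm of a sequence, in `[0, ∞]` -/
noncomputable def N1 (G : ℕ → ℂ) : ℝ≥0∞ := ∑' n, ‖G n‖ₑ

/-- Cauchy product -/
def cau (G H : ℕ → ℂ) (n : ℕ) : ℂ := ∑ p ∈ antidiagonal n, G p.1 * H p.2

theorem N1_cau_le (G H : ℕ → ℂ) : N1 (cau G H) ≤ N1 G * N1 H := by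
  have h1 : N1 G * N1 H = ∑' p : ℕ × ℕ, ‖G p.1‖ₑ * ‖H p.2‖ₑ := by
    rw [ENNReal.tsum_prod (f := fun i j => ‖G i‖ₑ * ‖H j‖ₑ)]
    simp_rw [ENNReal.tsum_mul_left]
    rw [ENNReal.tsum_mul_right]
    rfl
  rw [h1, ← (Finset.HasAntidiagonal.sigmaAntidiagonalEquivProd (A := ℕ)).tsum_eq, ENNReal.tsum_sigma']
  refine ENNReal.tsum_le_tsum fun n => ?_
  rw [tsum_fintype]
  have h2 : ∑ b : antidiagonal n, ‖G (Finset.HasAntidiagonal.sigmaAntidiagonalEquivProd ⟨n, b⟩).1‖ₑ *
      ‖H (Finset.HasAntidiagonal.sigmaAntidiagonalEquivProd ⟨n, b⟩).2‖ₑ =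
      ∑ p ∈ antidiagonal n, ‖G p.1‖ₑ * ‖H p.2‖ₑ :=
    Finset.sum_coe_sort (antidiagonal n) (fun p => ‖G p.1‖ₑ * ‖H p.2‖ₑ)
  rw [h2]
  unfold cau
  refine (enorm_sum_le _ _).trans (le_of_eq ?_)
  exact Finset.sum_congr rfl fun p _ => enorm_mul _ _

/-- the coefficient sequence of a polynomial -/
def pc (p : Polynomial ℂ) : ℕ → ℂ := fun n => p.coeff n

theorem pc_mul (p q : Polynomial ℂ) : pc (p * q) = cau (pc p) (pc q) := by
  funext n
  exact Polynomial.coeff_mul p q n

theorem N1_add_le (p q : Polynomial ℂ) : N1 (pc (p + q)) ≤ N1 (pc p) + N1 (pc q) := by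
  unfold N1 pc
  rw [← ENNReal.tsum_add]
  refine ENNReal.tsum_le_tsum fun n => ?_
  rw [Polynomial.coeff_add]
  exact enorm_add_le _ _

theorem N1_C (a : ℂ) : N1 (pc (Polynomial.C a)) = ‖a‖ₑ := by
  unfold N1 pc
  rw [tsum_eq_single 0]
  · rw [Polynomial.coeff_C_zero]
  · intro n hn
    rw [Polynomial.coeff_C_of_ne_zero hn, enorm_zero]

theorem N1_C_mul (a : ℂ) (p : Polynomial ℂ) : N1 (pc (Polynomial.C a * p)) = ‖a‖ₑ * N1 (pc p) := by
  unfold N1 pc
  rw [← ENNReal.tsum_mul_left]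
  refine tsum_congr fun n => ?_
  rw [Polynomial.coeff_C_mul, enorm_mul]

theorem N1_mul_le (p q : Polynomial ℂ) : N1 (pc (p * q)) ≤ N1 (pc p) * N1 (pc q) := by
  rw [pc_mul]
  exact N1_cau_le _ _

theorem N1_pow_le (p : Polynomial ℂ) (k : ℕ) : N1 (pc (p ^ k)) ≤ N1 (pc p) ^ k := by
  induction k with
  | zero =>
    rw [pow_zero, pow_zero, ← Polynomial.C_1, N1_C]
    simp
  | succ k ih =>
    rw [pow_succ, pow_succ]
    exact (N1_mul_le _ _).trans (by gcongr)

theorem N1_sum_le {ι : Type*} (s : Finset ι) (p : ι → Polynomial ℂ) :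
    N1 (pc (∑ i ∈ s, p i)) ≤ ∑ i ∈ s, N1 (pc (p i)) := by
  classical
  induction s using Finset.induction_on with
  | empty =>
    rw [Finset.sum_empty, Finset.sum_empty, ← Polynomial.C_0, N1_C]
    simp
  | insert a s ha ih =>
    rw [Finset.sum_insert ha, Finset.sum_insert ha]
    exact (N1_add_le _ _).trans (by gcongr)

/-- splitting the coefficients according to the last digit in base `N` -/
theorem N1_digits (p : Polynomial ℂ) (N : ℕ) [NeZero N] :
    N1 (pc p) = ∑' e : ℕ, ∑' i : Fin N, ‖p.coeff (e * N + i)‖ₑ := by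
  unfold N1 pc
  rw [← (Nat.divModEquiv N).symm.tsum_eq, ENNReal.tsum_prod']
  rfl

theorem N1_small (p : Polynomial ℂ) (N : ℕ) [NeZero N] (hp : p.natDegree < N) :
    N1 (pc p) = ∑' i : Fin N, ‖p.coeff i‖ₑ := by
  rw [N1_digits p N, tsum_eq_single 0]
  · refine tsum_congr fun i => ?_
    rw [Nat.zero_mul, Nat.zero_add]
  · intro e he
    rw [ENNReal.tsum_eq_zero]
    intro i
    rw [Polynomial.coeff_eq_zero_of_natDegree_lt, enorm_zero]
    have : 1 * N ≤ e * N := Nat.mul_le_mul_right _ (Nat.one_le_iff_ne_zero.2 he)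
    omega

theorem coeff_mul_expand (G H : Polynomial ℂ) (N : ℕ) (hG : G.natDegree < N) (i e : ℕ)
    (hi : i < N) : (G * Polynomial.expand ℂ N H).coeff (e * N + i) = G.coeff i * H.coeff e := by
  induction H using Polynomial.induction_on' with
  | add p q hp hq => rw [map_add, mul_add, Polynomial.coeff_add, hp, hq, Polynomial.coeff_add,
      mul_add]
  | monomial e' h =>
    rw [Polynomial.expand_monomial, ← Polynomial.C_mul_X_pow_eq_monomial, ← mul_assoc,
      Polynomial.coeff_mul_X_pow', Polynomial.coeff_monomial, Polynomial.coeff_mul_C]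
    by_cases h1 : e' = e
    · subst h1
      rw [if_pos (Nat.le_add_right _ _), if_pos rfl, Nat.add_sub_cancel_left]
    · rw [if_neg h1, mul_zero]
      split_ifs with h2
      · have h3 : e' < e := by
          by_contra hcon
          have h4 : e + 1 ≤ e' := by omega
          have h5 : (e + 1) * N ≤ e' * N := Nat.mul_le_mul_right _ h4
          have h6 : (e + 1) * N = e * N + N := by ring
          omega
        rw [Polynomial.coeff_eq_zero_of_natDegree_lt, zero_mul]
        have h5 : (e' + 1) * N ≤ e * N := Nat.mul_le_mul_right _ h3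
        have h7 : (e' + 1) * N = e' * N + N := by ring
        omega
      · rfl

theorem N1_mul_expand (G H : Polynomial ℂ) (N : ℕ) (hG : G.natDegree < N) :
    N1 (pc (G * Polynomial.expand ℂ N H)) = N1 (pc G) * N1 (pc H) := by
  have : NeZero N := ⟨by omega⟩
  rw [N1_digits _ N, N1_small G N hG]
  have h1 : ∀ e : ℕ, ∑' i : Fin N, ‖(G * Polynomial.expand ℂ N H).coeff (e * N + i)‖ₑ =
      (∑' i : Fin N, ‖G.coeff i‖ₑ) * ‖H.coeff e‖ₑ := by
    intro e
    rw [← ENNReal.tsum_mul_right]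
    refine tsum_congr fun i => ?_
    rw [coeff_mul_expand G H N hG i e i.2, enorm_mul]
  simp_rw [h1]
  rw [ENNReal.tsum_mul_left]
  rfl

end Pool.Agent.W671.WI
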