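import Pool.Agent.W671.WI1

/-! The averaging construction. -/

set_option autoImplicit false

open Finset Filter Topology
open scoped ENNReal

namespace Pool.Agent.W671.WI

/-- the polynomial `∑_{k < K} c_k w^k` -/
noncomputable def PP (K : ℕ) (w : Polynomial ℂ) (c : ℕ → ℂ) : Polynomial ℂ :=
  ∑ k ∈ range K, Polynomial.C (c k) * w ^ k

/-- the properties of the building block -/
structure Blk (L : ℕ) (q : Polynomial ℂ) : Prop where
  pos : 0 < L
  fac : ∃ q0 : Polynomial ℂ, q = Polynomial.X ^ L * q0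
  deg : q.natDegree < 2 * L
  norm : N1 (pc q) = 1

theorem Blk.coeff_pow {L : ℕ} {q : Polynomial ℂ} (h : Blk L q) {j e : ℕ} (he : e < j * L) :
    (q ^ j).coeff e = 0 := by
  obtain ⟨q0, hq⟩ := h.fac
  rw [hq, mul_pow, ← pow_mul, Polynomial.coeff_X_pow_mul', if_neg]
  rw [mul_comm L j]
  omega

theorem coeff_big {N : ℕ} {w q : Polynomial ℂ} {k : ℕ} (hw : ∀ m ≤ k, (w ^ m).natDegree < N)
    {i : ℕ} (hi : i < N) (e : ℕ) :
    ((w + Polynomial.expand ℂ N q) ^ k).coeff (e * N + i) =
      ∑ m ∈ range (k + 1), (w ^ m).coeff i * (q ^ (k - m)).coeff e * (k.choose m : ℂ) := by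
  rw [add_pow, Polynomial.finsetSum_coeff]
  refine Finset.sum_congr rfl fun m hm => ?_
  have hm' : m ≤ k := Nat.lt_succ_iff.1 (Finset.mem_range.1 hm)
  rw [← map_pow, ← Polynomial.C_eq_natCast, Polynomial.coeff_mul_C,
    coeff_mul_expand _ _ _ (hw m hm') i e hi]

theorem coeff_zero {L : ℕ} {q : Polynomial ℂ} (h : Blk L q) {N : ℕ} {w : Polynomial ℂ} {k : ℕ}
    (hw : ∀ m ≤ k, (w ^ m).natDegree < N) {i : ℕ} (hi : i < N) :
    ((w + Polynomial.expand ℂ N q) ^ k).coeff (0 * N + i) = (w ^ k).coeff i := by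
  rw [coeff_big hw hi, Finset.sum_range_succ, Finset.sum_eq_zero, zero_add]
  · simp
  · intro m hm
    have hm' : m < k := Finset.mem_range.1 hm
    rw [h.coeff_pow (j := k - m), mul_zero, zero_mul]
    exact Nat.mul_pos (by omega) h.pos

theorem coeff_one {L : ℕ} {q : Polynomial ℂ} (h : Blk L q) {N : ℕ} {w : Polynomial ℂ} {k : ℕ}
    (hw : ∀ m ≤ k + 1, (w ^ m).natDegree < N) {i : ℕ} (hi : i < N) {e : ℕ} (he0 : 0 < e)
    (he : e < 2 * L) :
    ((w + Polynomial.expand ℂ N q) ^ (k + 1)).coeff (e * N + i) =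
      ((k : ℂ) + 1) * (w ^ k).coeff i * q.coeff e := by
  rw [coeff_big hw hi, Finset.sum_range_succ, Finset.sum_range_succ, Finset.sum_eq_zero, zero_add]
  · rw [Nat.sub_self, pow_zero, Nat.add_sub_cancel_left, pow_one, Polynomial.coeff_one,
      if_neg (by omega), Nat.choose_succ_self_right]
    push_cast
    ring
  · intro m hm
    have hm' : m < k := Finset.mem_range.1 hm
    rw [h.coeff_pow (j := k + 1 - m), mul_zero, zero_mul]
    have : 2 * L ≤ (k + 1 - m) * L := Nat.mul_le_mul_right _ (by omega)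
    omega

theorem PP_natDegree {N K : ℕ} {w : Polynomial ℂ} {c : ℕ → ℂ} (hN : 0 < N)
    (hw : ∀ m < K, (w ^ m).natDegree < N) : (PP K w c).natDegree < N := by
  unfold PP
  refine lt_of_le_of_lt (Polynomial.natDegree_sum_le _ _) ?_
  rw [Finset.fold_max_lt]
  refine ⟨hN, fun k hk => ?_⟩
  exact lt_of_le_of_lt (Polynomial.natDegree_C_mul_le _ _) (hw k (Finset.mem_range.1 hk))

/-- one step of the averaging construction -/
theorem step {L : ℕ} {q : Polynomial ℂ} (h : Blk L q) {N : ℕ} (hN : 0 < N) {w : Polynomial ℂ}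
    {K : ℕ} (hw : ∀ m ≤ K, (w ^ m).natDegree < N) (c : ℕ → ℂ) :
    N1 (pc (PP (K + 1) w c)) + N1 (pc (PP K w fun k => ((k : ℂ) + 1) * c (k + 1))) ≤
      N1 (pc (PP (K + 1) (w + Polynomial.expand ℂ N q) c)) := by
  have : NeZero N := ⟨by omega⟩
  rw [N1_digits (PP (K + 1) (w + Polynomial.expand ℂ N q) c) N]
  set A := N1 (pc (PP (K + 1) w c)) with hA
  set B := N1 (pc (PP K w fun k => ((k : ℂ) + 1) * c (k + 1))) with hB
  have hA' : A = ∑' i : Fin N, ‖(PP (K + 1) w c).coeff i‖ₑ :=
    N1_small _ N (PP_natDegree hN fun m hm => hw m (by omega))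
  have hB' : B = ∑' i : Fin N, ‖(PP K w fun k => ((k : ℂ) + 1) * c (k + 1)).coeff i‖ₑ :=
    N1_small _ N (PP_natDegree hN fun m hm => hw m (by omega))
  have key : ∀ e : ℕ, (if e = 0 then A else 0) + ‖q.coeff e‖ₑ * B ≤
      ∑' i : Fin N, ‖(PP (K + 1) (w + Polynomial.expand ℂ N q) c).coeff (e * N + i)‖ₑ := by
    intro e
    by_cases he0 : e = 0
    · subst he0
      have hq0 : q.coeff 0 = 0 := by
        have := h.coeff_pow (j := 1) (e := 0) (by have := h.pos; omega)
        rwa [pow_one] at this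
      rw [if_pos rfl, hq0, enorm_zero, zero_mul, add_zero, hA']
      refine le_of_eq (tsum_congr fun i => ?_)
      congr 1
      unfold PP
      rw [Polynomial.finsetSum_coeff, Polynomial.finsetSum_coeff]
      refine Finset.sum_congr rfl fun k hk => ?_
      have hk' := Finset.mem_range.1 hk
      rw [Polynomial.coeff_C_mul, Polynomial.coeff_C_mul,
        coeff_zero h (fun m hm => hw m (by omega)) i.2]
    · rw [if_neg he0, zero_add]
      by_cases he : e < 2 * L
      · rw [hB', ← ENNReal.tsum_mul_left]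
        refine le_of_eq (tsum_congr fun i => ?_)
        rw [← enorm_mul]
        congr 1
        unfold PP
        rw [Polynomial.finsetSum_coeff, Polynomial.finsetSum_coeff, Finset.sum_range_succ',
          Finset.mul_sum]
        have h0 : (Polynomial.C (c 0) * (w + Polynomial.expand ℂ N q) ^ 0).coeff (e * N + i) = 0 := by
          rw [pow_zero, mul_one, Polynomial.coeff_C_of_ne_zero]
          have : 0 < e * N := Nat.mul_pos (Nat.pos_of_ne_zero he0) hN
          omega
        rw [h0, add_zero]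
        refine Finset.sum_congr rfl fun k hk => ?_
        have hk' := Finset.mem_range.1 hk
        rw [Polynomial.coeff_C_mul, Polynomial.coeff_C_mul,
          coeff_one h (fun m hm => hw m (by omega)) i.2 (Nat.pos_of_ne_zero he0) he]
        ring
      · rw [Polynomial.coeff_eq_zero_of_natDegree_lt (by have := h.deg; omega), enorm_zero, zero_mul]
        exact zero_le
  refine le_trans (le_of_eq ?_) (ENNReal.tsum_le_tsum key)
  rw [ENNReal.tsum_add, tsum_ite_eq, ENNReal.tsum_mul_right]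
  have h1 : ∑' e : ℕ, ‖q.coeff e‖ₑ = 1 := h.norm
  rw [h1, one_mul]

/-- sum of dilated blocks -/
noncomputable def wn (D : ℕ) (q : Polynomial ℂ) (j : ℕ) : Polynomial ℂ :=
  ∑ i ∈ range j, Polynomial.expand ℂ (D ^ i) q

theorem wn_succ (D : ℕ) (q : Polynomial ℂ) (j : ℕ) :
    wn D q (j + 1) = wn D q j + Polynomial.expand ℂ (D ^ j) q := Finset.sum_range_succ _ _

theorem wn_natDegree {L : ℕ} {q : Polynomial ℂ} (h : Blk L q) {D K : ℕ} (hK : 0 < K)
    (hD : K * (2 * L) ≤ D) (j : ℕ) : K * (wn D q j).natDegree < D ^ j := by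
  have hD0 : 0 < D := lt_of_lt_of_le (Nat.mul_pos hK (by have := h.pos; omega)) hD
  induction j with
  | zero => simp [wn]
  | succ j ih =>
    rw [wn_succ]
    have h1 : (wn D q j).natDegree < D ^ j :=
      lt_of_le_of_lt (Nat.le_mul_of_pos_left _ hK) ih
    have h2 : (Polynomial.expand ℂ (D ^ j) q).natDegree = q.natDegree * D ^ j :=
      Polynomial.natDegree_expand _ _
    have h3 : q.natDegree ≤ 2 * L - 1 := by have := h.deg; omega
    have h4 : (wn D q j + Polynomial.expand ℂ (D ^ j) q).natDegree ≤ (2 * L - 1) * D ^ j := by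
      refine (Polynomial.natDegree_add_le _ _).trans (max_le ?_ ?_)
      · refine h1.le.trans (Nat.le_mul_of_pos_left _ ?_)
        have := h.pos
        omega
      · rw [h2]
        exact Nat.mul_le_mul_right _ h3
    have h5 : 0 < D ^ j := Nat.pow_pos hD0
    calc K * (wn D q j + Polynomial.expand ℂ (D ^ j) q).natDegree
        ≤ K * ((2 * L - 1) * D ^ j) := Nat.mul_le_mul_left _ h4
      _ = (K * (2 * L - 1)) * D ^ j := by ring
      _ < D * D ^ j := by
          refine Nat.mul_lt_mul_of_pos_right ?_ h5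
          refine lt_of_lt_of_le ?_ hD
          refine Nat.mul_lt_mul_of_pos_left ?_ hK
          have := h.pos
          omega
      _ = D ^ (j + 1) := by ring

theorem descFact (j k : ℕ) :
    (j + 1).descFactorial (k + 1) = j.descFactorial (k + 1) + (k + 1) * j.descFactorial k := by
  rw [Nat.succ_descFactorial_succ, Nat.descFactorial_succ]
  rcases Nat.lt_or_ge j k with h | h
  · rw [Nat.descFactorial_eq_zero_iff_lt.2 h]
    simp
  · obtain ⟨d, rfl⟩ := Nat.exists_eq_add_of_le h
    rw [Nat.add_sub_cancel_left]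
    ring

/-- **Lower bound for the norm of polynomials in the averaged block.** -/
theorem lower {L : ℕ} {q : Polynomial ℂ} (h : Blk L q) {D K₀ : ℕ} (hK₀ : 0 < K₀)
    (hD : K₀ * (2 * L) ≤ D) (j : ℕ) : ∀ (K : ℕ), K ≤ K₀ → ∀ c : ℕ → ℂ,
      ∑ k ∈ range (K + 1), (j.descFactorial k : ℝ≥0∞) * ‖c k‖ₑ ≤
        N1 (pc (PP (K + 1) (wn D q j) c)) := by
  induction j with
  | zero =>
    intro K hK c
    have e1 : PP (K + 1) (wn D q 0) c = Polynomial.C (c 0) := by
      unfold PP wn
      rw [Finset.range_zero, Finset.sum_empty, Finset.sum_range_succ', pow_zero, mul_one,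
        Finset.sum_eq_zero, zero_add]
      intro k _
      rw [zero_pow (Nat.succ_ne_zero k), mul_zero]
    rw [e1, N1_C, Finset.sum_range_succ', Finset.sum_eq_zero]
    · simp
    · intro k _
      rw [Nat.descFactorial_eq_zero_iff_lt.2 (Nat.succ_pos k)]
      simp
  | succ j ih =>
    intro K hK c
    rcases Nat.eq_zero_or_pos K with rfl | hKp
    · have e1 : PP (0 + 1) (wn D q (j + 1)) c = Polynomial.C (c 0) := by
        unfold PP
        rw [Nat.zero_add, Finset.sum_range_one, pow_zero, mul_one]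
      rw [e1, N1_C, Nat.zero_add, Finset.sum_range_one]
      simp
    · obtain ⟨K', rfl⟩ : ∃ K', K = K' + 1 := ⟨K - 1, by omega⟩
      have hD0 : 0 < D := lt_of_lt_of_le (Nat.mul_pos hK₀ (by have := h.pos; omega)) hD
      rw [wn_succ]
      have hdeg : ∀ m ≤ K' + 1, ((wn D q j) ^ m).natDegree < D ^ j := by
        intro m hm
        refine lt_of_le_of_lt Polynomial.natDegree_pow_le ?_
        refine lt_of_le_of_lt (Nat.mul_le_mul_right _ (hm.trans hK)) (wn_natDegree h hK₀ hD j)
      refine le_trans ?_ (step h (Nat.pow_pos hD0) hdeg c)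
      refine le_trans ?_ (add_le_add (ih (K' + 1) hK c) (ih K' (by omega) _))
      rw [Finset.sum_range_succ' _ (K' + 1), Finset.sum_range_succ' _ (K' + 1)]
      have e2 : ∀ k : ℕ, (((j + 1).descFactorial (k + 1) : ℕ) : ℝ≥0∞) * ‖c (k + 1)‖ₑ =
          ((j.descFactorial (k + 1) : ℕ) : ℝ≥0∞) * ‖c (k + 1)‖ₑ +
          ((j.descFactorial k : ℕ) : ℝ≥0∞) * ‖((k : ℂ) + 1) * c (k + 1)‖ₑ := by
        intro k
        rw [descFact, enorm_mul]
        have e3 : ‖((k : ℂ) + 1)‖ₑ = ((k + 1 : ℕ) : ℝ≥0∞) := by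
          have : ((k : ℂ) + 1) = ((k + 1 : ℕ) : ℂ) := by push_cast; ring
          rw [this, ← ofReal_norm, Complex.norm_natCast, ENNReal.ofReal_natCast]
        rw [e3]
        push_cast
        ring
      simp_rw [e2]
      rw [Finset.sum_add_distrib]
      simp only [Nat.descFactorial_zero]
      refine le_of_eq ?_
      ring

end Pool.Agent.W671.WI
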