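import Pool.Agent.H159R3.NV.StepC

/-!
Logarithmic derivatives of finitely many entire functions on a good circle.
-/

set_option autoImplicit false

namespace Pool.Agent.W671.ZA

open Pool.Agent.H159R3.NV
open Filter Metric Real Set Topology

/-- proximity function -/
noncomputable def mm (F : ℂ → ℂ) (r : ℝ) : ℝ :=
  Real.circleAverage (fun z => Real.posLog ‖F z‖) 0 r

theorem mm_nonneg (F : ℂ → ℂ) (r : ℝ) : 0 ≤ mm F r :=
  Real.circleAverage_nonneg_of_nonneg (fun _ _ => Real.posLog_nonneg)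

theorem mm_mono {F : ℂ → ℂ} (hF : Differentiable ℂ F) {r R : ℝ} (hr : 0 < r) (h : r ≤ R) :
    mm F r ≤ mm F R := by
  have h1 := T2_mono (f := fun _ => (1 : ℂ)) (differentiable_const _) (x := 0) one_ne_zero hF hr h
  have e : ∀ s, T2 (fun _ => (1 : ℂ)) F s = mm F s := by
    intro s
    unfold T2 L mm
    simp [Real.circleAverage_const]
  rwa [e, e] at h1

theorem L_le_mm {F : ℂ → ℂ} (hF : Differentiable ℂ F) (r : ℝ) : L F r ≤ mm F r :=
  Real.circleAverage_mono (ci_log (mero_of_diff hF) r) (ci_posLog (mero_of_diff hF) r)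
      (fun _ _ => log_le_posLog _)

theorem mm_mul_le {F G : ℂ → ℂ} (hF : Differentiable ℂ F) (hG : Differentiable ℂ G) (r : ℝ) :
    mm (fun z => F z * G z) r ≤ mm F r + mm G r := by
  unfold mm
  rw [← Real.circleAverage_fun_add (ci_posLog (mero_of_diff hF) r) (ci_posLog (mero_of_diff hG) r)]
  apply Real.circleAverage_mono (ci_posLog (mero_of_diff (hF.mul hG)) r)
    ((ci_posLog (mero_of_diff hF) r).add (ci_posLog (mero_of_diff hG) r))
  intro z _
  change Real.posLog ‖F z * G z‖ ≤ Real.posLog ‖F z‖ + Real.posLog ‖G z‖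
  rw [norm_mul]
  exact Real.posLog_mul

theorem mm_add_le {F G : ℂ → ℂ} (hF : Differentiable ℂ F) (hG : Differentiable ℂ G) (r : ℝ) :
    mm (fun z => F z + G z) r ≤ mm F r + mm G r + Real.log 2 := by
  have i12 : CircleIntegrable (fun z => Real.posLog ‖F z‖ + Real.posLog ‖G z‖) 0 r :=
    (ci_posLog (mero_of_diff hF) r).add (ci_posLog (mero_of_diff hG) r)
  have e : mm F r + mm G r + Real.log 2 = Real.circleAverage
      (fun z => (Real.posLog ‖F z‖ + Real.posLog ‖G z‖) + Real.log 2) 0 r := by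
    rw [Real.circleAverage_fun_add i12 (circleIntegrable_const _ _ _), Real.circleAverage_const,
      Real.circleAverage_fun_add (ci_posLog (mero_of_diff hF) r) (ci_posLog (mero_of_diff hG) r)]
    rfl
  rw [e]
  apply Real.circleAverage_mono (ci_posLog (mero_of_diff (hF.add hG)) r)
    (i12.add (circleIntegrable_const _ _ _))
  intro z _
  change Real.posLog ‖F z + G z‖ ≤ (Real.posLog ‖F z‖ + Real.posLog ‖G z‖) + Real.log 2
  have := Real.posLog_norm_add_le (F z) (G z)
  linarith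

theorem mm_const (c : ℂ) (r : ℝ) : mm (fun _ => c) r = Real.posLog ‖c‖ := by
  unfold mm
  rw [Real.circleAverage_const]

theorem avg_abs_mm {F : ℂ → ℂ} (hF : Differentiable ℂ F) (r : ℝ) :
    Real.circleAverage (fun z => |Real.log ‖F z‖|) 0 r = 2 * mm F r - L F r :=
  avg_abs_log (mero_of_diff hF) r

/-- one function: control of the logarithmic derivative away from the zeros -/
theorem osc1 {F : ℂ → ℂ} (hF : Differentiable ℂ F) (h0 : F 0 ≠ 0) {r δ : ℝ} (hr : 1 ≤ r)
    (hδ : 0 < δ) (hδ1 : δ ≤ 1) :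
    ∃ Z : List ℂ, (Z.length : ℝ) ≤ (r + 4 * δ) * (mm F (r + 4 * δ) + |Real.log ‖F 0‖|) / δ ∧
      ∀ s η n : ℝ, r ≤ s → s ≤ r + δ → 0 < η → η ≤ δ → (Z.length : ℝ) ≤ n →
        (∀ a ∈ Z, η ≤ |s - ‖a‖|) → ∀ z : ℂ, ‖z‖ = s → F z ≠ 0 ∧
        ‖deriv F z‖ ≤ Real.exp 1 * (2 / η + 1 / δ + 8 * n / η + 4 * (r + 3 * δ)
          * (2 * (mm F (r + 4 * δ) + |Real.log ‖F 0‖|) + 4 * n * Real.log (2 * (r + 3 * δ)))
            / δ ^ 2) * ‖F z‖ := by
  set R1 : ℝ := r + 3 * δ with hR1
  set R2 : ℝ := r + 4 * δ with hR2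
  have hR1pos : 0 < R1 := by linarith
  have hR2pos : 0 < R2 := by linarith
  have hR12 : R1 < R2 := by linarith
  set Λ : ℝ := |Real.log ‖F 0‖| with hΛ
  have hΛ0 : 0 ≤ Λ := abs_nonneg _
  obtain ⟨Z, k, hk, hFk, hZ, hkne⟩ := factor_ball F hF h0 hR1pos
  have hm0 := mm_nonneg F R2
  refine ⟨Z, ?_, ?_⟩
  · have hne : P Z 0 * k 0 ≠ 0 := by rw [← hFk]; exact h0
    have h1 := count_le Z k hk hR1pos hR12 hZ hne
    rw [← hFk] at h1
    have e : (fun z => P Z z * k z) = F := funext fun z => (hFk z).symm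
    rw [e] at h1
    have h2 := L_le_mm hF R2
    have h3 := neg_abs_le (Real.log ‖F 0‖)
    have hlog : δ / R2 ≤ Real.log (R2 / R1) := by
      have h1 := Real.one_sub_inv_le_log_of_pos (div_pos hR2pos hR1pos)
      rw [inv_div] at h1
      have h2 : δ / R2 = 1 - R1 / R2 := by
        rw [hR1, eq_sub_iff_add_eq, ← add_div, div_eq_one_iff_eq hR2pos.ne', hR2]
        ring
      linarith
    have h4 : (Z.length : ℝ) * (δ / R2) ≤ mm F R2 + Λ :=
      (mul_le_mul_of_nonneg_left hlog (Nat.cast_nonneg _)).trans (by linarith)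
    rw [le_div_iff₀ hδ]
    have h5 : (Z.length : ℝ) * δ = (Z.length : ℝ) * (δ / R2) * R2 := by field_simp
    rw [h5]
    nlinarith
  · intro s η n hrs hsδ hη hηδ hn hsZ z hz
    set A : ℝ := 2 * (mm F R2 + Λ) + 4 * n * Real.log (2 * R1) with hA
    have hn0 : 0 ≤ n := (Nat.cast_nonneg _).trans hn
    have hlogR1 : 0 ≤ Real.log (2 * R1) := Real.log_nonneg (by linarith)
    have hA0 : 0 ≤ A := by positivity
    have hk0 : k 0 ≠ 0 := hkne 0 (by simpa using hR1pos.le)
    -- mean of the zero free part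
    have hmean : Real.circleAverage (fun z => |Real.log ‖k z‖|) 0 R1 ≤ A := by
      have i0 := ci_abs (ci_log (mero_of_diff hk) R1)
      have i1 := ci_abs (ci_log (mero_of_diff hF) R1)
      have i2 := ci_abs (ci_log (mero_of_diff (P_diff Z)) R1)
      have h1 : Real.circleAverage (fun z => |Real.log ‖k z‖|) 0 R1
          ≤ Real.circleAverage (fun z => |Real.log ‖F z‖| + |Real.log ‖P Z z‖|) 0 R1 := by
        apply avg_le_cod i0 (i1.add i2) hR1pos.ne'
        filter_upwards [ne_cod hF h0 R1] with z hz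
        change _ ≤ |Real.log ‖F z‖| + |Real.log ‖P Z z‖|
        rw [hFk z] at hz ⊢
        have a1 := norm_ne_zero_iff.mpr (left_ne_zero_of_mul hz)
        have a2 := norm_ne_zero_iff.mpr (right_ne_zero_of_mul hz)
        rw [norm_mul, Real.log_mul a1 a2]
        have e : Real.log ‖k z‖ = (Real.log ‖P Z z‖ + Real.log ‖k z‖) - Real.log ‖P Z z‖ := by
          ring
        calc |Real.log ‖k z‖| = _ := congrArg abs e
          _ ≤ _ := abs_sub _ _
      rw [Real.circleAverage_fun_add i1 i2, avg_abs_mm hF] at h1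
      have h2 := avg_abs_P Z (R := R1) (by linarith) hZ
      have h4 := mm_mono hF hR1pos hR12.le
      have h5 := jensen_entire hR1pos hF h0
      have h6 := neg_abs_le (Real.log ‖F 0‖)
      have h8 : (Z.length : ℝ) * (2 * Real.log (2 * R1)) ≤ n * (2 * Real.log (2 * R1)) :=
        mul_le_mul_of_nonneg_right hn (by linarith)
      have h9 : 0 ≤ n * (2 * Real.log (2 * R1)) := by positivity
      rw [hA]
      linarith
    set Y : ℝ := 2 / η + 1 / δ + 8 * n / η + 4 * R1 * A / δ ^ 2 with hY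
    have t1 : 0 < 2 / η := by positivity
    have t2 : 0 < 1 / δ := by positivity
    have t3 : 0 ≤ 8 * n / η := by positivity
    have t4 : 0 ≤ 4 * R1 * A / δ ^ 2 := by positivity
    have hYpos : 0 < Y := by linarith
    set ε : ℝ := 1 / Y with hε
    have hεpos : 0 < ε := by positivity
    have hεY : ε * Y = 1 := by rw [hε]; field_simp
    have hεη : ε ≤ η / 2 := by
      rw [hε, div_le_iff₀ hYpos]
      have : η / 2 * (2 / η) = 1 := by field_simp
      nlinarith
    have hεδ : ε ≤ δ := by linarith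
    have hosc1 : n * (2 * ε / η) ≤ 1 / 2 := by
      have h1 : ε * (8 * n / η) ≤ 1 := by
        rw [← hεY]
        exact mul_le_mul_of_nonneg_left (by linarith) hεpos.le
      have h2 : (n : ℝ) * (2 * ε / η) = ε * (8 * n / η) / 4 := by ring
      rw [h2]
      linarith
    have hosc2 : 2 * R1 * ε / δ ^ 2 * A ≤ 1 / 2 := by
      have h1 : ε * (4 * R1 * A / δ ^ 2) ≤ 1 := by
        rw [← hεY]
        exact mul_le_mul_of_nonneg_left (by linarith) hεpos.le
      have h2 : 2 * R1 * ε / δ ^ 2 * A = ε * (4 * R1 * A / δ ^ 2) / 2 := by ring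
      rw [h2]
      linarith
    have hdist : ∀ a ∈ Z, η ≤ ‖z - a‖ := by
      intro a ha
      have h2 := hsZ a ha
      rw [← hz] at h2
      exact h2.trans (abs_norm_sub_norm_le z a)
    have hnorm : ∀ w, ‖w - z‖ ≤ ε → ‖w‖ ≤ R1 - δ := by
      intro w hw
      calc ‖w‖ = ‖z + (w - z)‖ := by congr 1; ring
        _ ≤ ‖z‖ + ‖w - z‖ := norm_add_le _ _
        _ ≤ _ := by rw [hz, hR1]; linarith
    have hne : ∀ w, ‖w - z‖ ≤ ε → F w ≠ 0 := by
      intro w hw
      have h1 := (log_osc_P hη hεη hw Z hdist).1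
      rw [hFk]
      apply mul_ne_zero h1
      apply hkne
      linarith [hnorm w hw]
    have hz0 : ‖z - z‖ ≤ ε := by rw [sub_self, norm_zero]; exact hεpos.le
    have hFz := hne z hz0
    refine ⟨hFz, ?_⟩
    have hb : ∀ w, ‖w - z‖ ≤ ε → ‖F w‖ ≤ Real.exp 1 * ‖F z‖ := by
      intro w hw
      have b1 := hne w hw
      have h1 := (log_osc_P hη hεη hw Z hdist).2
      have h3 := poisson_diff (k := k) hR1pos hδ (fun z _ => hk.analyticAt z)
        (fun z hz => hkne z (by simpa using hz)) (hnorm w hw) (hnorm z hz0)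
      have h4 : 2 * R1 * ‖w - z‖ / δ ^ 2 *
          Real.circleAverage (fun ζ => |Real.log ‖k ζ‖|) 0 R1 ≤ 2 * R1 * ε / δ ^ 2 * A := by
        apply mul_le_mul _ hmean (Real.circleAverage_nonneg_of_nonneg (fun z _ => abs_nonneg _))
          (by positivity)
        gcongr
      have h8 : (Z.length : ℝ) * (2 * ε / η) ≤ n * (2 * ε / η) :=
        mul_le_mul_of_nonneg_right hn (by positivity)
      have b2 := hFz
      rw [hFk w] at b1
      rw [hFk z] at b2
      have c1 := norm_ne_zero_iff.mpr (left_ne_zero_of_mul b1)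
      have c2 := norm_ne_zero_iff.mpr (right_ne_zero_of_mul b1)
      have d1 := norm_ne_zero_iff.mpr (left_ne_zero_of_mul b2)
      have d2 := norm_ne_zero_iff.mpr (right_ne_zero_of_mul b2)
      have f1 := abs_le.mp h1
      have f3 := abs_le.mp h3
      have h6 : Real.log ‖F w‖ ≤ Real.log (Real.exp 1 * ‖F z‖) := by
        rw [Real.log_mul (Real.exp_ne_zero _) (norm_ne_zero_iff.mpr hFz), Real.log_exp, hFk w,
          hFk z, norm_mul, norm_mul, Real.log_mul c1 c2, Real.log_mul d1 d2]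
        linarith [f1.2, f3.2]
      exact (Real.log_le_log_iff (norm_pos_iff.mpr (hne w hw))
        (mul_pos (Real.exp_pos _) (norm_pos_iff.mpr hFz))).mp h6
    have hcauchy := Complex.norm_deriv_le_of_forall_mem_sphere_norm_le (f := F) (c := z)
      (C := Real.exp 1 * ‖F z‖) hεpos (hF.diffContOnCl) (by
        intro w hw
        apply hb
        rw [mem_sphere, dist_eq_norm] at hw
        exact hw.le)
    have e : Real.exp 1 * ‖F z‖ / ε = Real.exp 1 * Y * ‖F z‖ := by
      rw [hε]; field_simp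
    rw [e] at hcauchy
    exact hcauchy

/-- finitely many functions not vanishing at the origin -/
theorem LDL0 {ι : Type} [Fintype ι] (F : ι → ℂ → ℂ) (hF : ∀ i, Differentiable ℂ (F i))
    (h0 : ∀ i, F i 0 ≠ 0) {r δ S : ℝ} (hr : 1 ≤ r) (hδ : 0 < δ) (hδ1 : δ ≤ 1)
    (hS : ∑ i, (mm (F i) (r + 4 * δ) + |Real.log ‖F i 0‖|) ≤ S) :
    ∃ s, r ≤ s ∧ s ≤ r + δ ∧ ∀ i, ∀ z : ℂ, ‖z‖ = s → F i z ≠ 0 ∧
      ‖deriv (F i) z‖ ≤ Real.exp 1 * (1000 * (r + 4 * δ) ^ 3 * (S + 1) ^ 2 / δ ^ 4) * ‖F i z‖ := by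
  have h1 := fun i => osc1 (hF i) (h0 i) hr hδ hδ1
  choose Z hZlen hZ using h1
  set R2 : ℝ := r + 4 * δ with hR2
  have hR2pos : 0 < R2 := by linarith
  set n : ℕ := ∑ i, (Z i).length with hn
  have hterm : ∀ i, 0 ≤ mm (F i) R2 + |Real.log ‖F i 0‖| := fun i =>
    add_nonneg (mm_nonneg _ _) (abs_nonneg _)
  have hS0 : 0 ≤ S := (Finset.sum_nonneg fun i _ => hterm i).trans hS
  have hni : ∀ i, ((Z i).length : ℝ) ≤ n := by
    intro i
    have := Finset.single_le_sum (f := fun j => (Z j).length) (fun i _ => Nat.zero_le _)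
      (Finset.mem_univ i)
    exact_mod_cast this
  have hSi : ∀ i, mm (F i) R2 + |Real.log ‖F i 0‖| ≤ S := fun i =>
    (Finset.single_le_sum (f := fun j => mm (F j) R2 + |Real.log ‖F j 0‖|)
      (fun i _ => hterm i) (Finset.mem_univ i)).trans hS
  have hnle : (n : ℝ) ≤ R2 * S / δ := by
    calc (n : ℝ) = ∑ i, ((Z i).length : ℝ) := by rw [hn]; push_cast; rfl
      _ ≤ ∑ i, R2 * (mm (F i) R2 + |Real.log ‖F i 0‖|) / δ :=
          Finset.sum_le_sum fun i _ => hZlen i
      _ = R2 * (∑ i, (mm (F i) R2 + |Real.log ‖F i 0‖|)) / δ := by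
          rw [Finset.mul_sum, Finset.sum_div]
      _ ≤ R2 * S / δ := by gcongr
  set Al : List ℝ := (Finset.univ.toList.flatMap Z).map (fun a => ‖a‖) with hAl
  have hAlen : Al.length = n := by
    rw [hAl, List.length_map, List.length_flatMap, hn, Finset.sum_map_toList]
  obtain ⟨s, hrs, hsδ, hsA⟩ := good_radius Al r hδ
  rw [hAlen] at hsA
  have hn0 : (0 : ℝ) ≤ n := Nat.cast_nonneg n
  set η : ℝ := δ / (2 * (n + 1)) with hη
  have hηpos : 0 < η := by positivity
  have hηδ : η ≤ δ := by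
    rw [hη]
    apply div_le_self hδ.le
    linarith
  refine ⟨s, hrs, hsδ, fun i z hz => ?_⟩
  obtain ⟨h2, h3⟩ := hZ i s η n hrs hsδ hηpos hηδ (hni i) (by
    intro a ha
    apply hsA
    rw [hAl]
    apply List.mem_map_of_mem
    rw [List.mem_flatMap]
    exact ⟨i, Finset.mem_toList.mpr (Finset.mem_univ i), ha⟩) z hz
  refine ⟨h2, h3.trans ?_⟩
  apply mul_le_mul_of_nonneg_right _ (norm_nonneg _)
  apply mul_le_mul_of_nonneg_left _ (Real.exp_pos _).le
  refine le_trans ?_ (Y_bound hδ hδ1 (R1 := r + 3 * δ) (R2 := R2) (S := S) (n := n) (by linarith)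
    (by rw [hR2]; linarith) (by linarith) hS0 hn0 hnle)
  have hlogR1 : 0 ≤ Real.log (2 * (r + 3 * δ)) := Real.log_nonneg (by linarith)
  have h4 : 4 * (r + 3 * δ) * (2 * (mm (F i) R2 + |Real.log ‖F i 0‖|)
      + 4 * n * Real.log (2 * (r + 3 * δ))) / δ ^ 2
      ≤ 4 * (r + 3 * δ) * (2 * S + 4 * n * Real.log (2 * (r + 3 * δ))) / δ ^ 2 := by
    have := hSi i
    gcongr
  rw [← hη]
  linarith

end Pool.Agent.W671.ZA
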