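import Pool.Agent.W671.ZA1
import Pool.Agent.H159R3.NV.Wron

/-!
Good circles for arbitrary nonzero entire functions.
-/

set_option autoImplicit false

namespace Pool.Agent.W671.ZA

open Pool.Agent.H159R3.NV
open Filter Metric Real Set Topology

theorem fac0 {F : ℂ → ℂ} (hF : Differentiable ℂ F) {x : ℂ} (hx : F x ≠ 0) :
    ∃ (k : ℕ) (G : ℂ → ℂ), Differentiable ℂ G ∧ G 0 ≠ 0 ∧ ∀ z, F z = z ^ k * G z := by
  by_contra hcon
  have step : ∀ k : ℕ, ∃ G : ℂ → ℂ, Differentiable ℂ G ∧ ∀ z, F z = z ^ k * G z := by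
    intro k
    induction k with
    | zero => exact ⟨F, hF, fun z => by rw [pow_zero, one_mul]⟩
    | succ k ih =>
      obtain ⟨G, hG, hFG⟩ := ih
      have h0 : G 0 = 0 := by
        by_contra hne
        exact hcon ⟨k, G, hG, hne, hFG⟩
      refine ⟨dslope G 0, dslope_diff hG 0, fun z => ?_⟩
      rw [hFG z, dslope_fac h0 z, pow_succ, sub_zero]
      ring
  have hord : analyticOrderAt F 0 = ⊤ := by
    rw [ENat.eq_top_iff_forall_ge]
    intro k
    rw [natCast_le_analyticOrderAt (hF.analyticAt 0)]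
    obtain ⟨G, hG, hFG⟩ := step k
    exact ⟨G, hG.analyticAt 0, Eventually.of_forall fun z => by rw [sub_zero, hFG z, smul_eq_mul]⟩
  rw [analyticOrderAt_eq_top] at hord
  have hfa : AnalyticOnNhd ℂ F Set.univ := fun z _ => hF.analyticAt z
  have := hfa.eqOn_zero_of_preconnected_of_eventuallyEq_zero isPreconnected_univ
    (Set.mem_univ 0) hord
  exact hx (this (Set.mem_univ x))

/-- comparing proximity functions on a circle -/
theorem mm_circle_le {F G : ℂ → ℂ} (hF : Differentiable ℂ F) (hG : Differentiable ℂ G) {s c : ℝ}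
    (hs : 0 < s) (hc : 0 ≤ c) (h : ∀ z, ‖z‖ = s → ‖G z‖ ≤ Real.exp c * ‖F z‖) :
    mm G s ≤ c + mm F s := by
  have e : c + mm F s = Real.circleAverage (fun z => c + Real.posLog ‖F z‖) 0 s := by
    rw [Real.circleAverage_fun_add (circleIntegrable_const _ _ _) (ci_posLog (mero_of_diff hF) s),
      Real.circleAverage_const]
    rfl
  rw [e]
  apply Real.circleAverage_mono (ci_posLog (mero_of_diff hG) s)
    ((circleIntegrable_const _ _ _).add (ci_posLog (mero_of_diff hF) s))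
  intro z hz
  rw [mem_sphere, dist_zero_right, abs_of_pos hs] at hz
  change Real.posLog ‖G z‖ ≤ c + Real.posLog ‖F z‖
  calc Real.posLog ‖G z‖ ≤ Real.posLog (Real.exp c * ‖F z‖) :=
        Real.posLog_le_posLog (norm_nonneg _) (h z hz)
    _ ≤ Real.posLog (Real.exp c) + Real.posLog ‖F z‖ := Real.posLog_mul
    _ = c + Real.posLog ‖F z‖ := by
        rw [Real.posLog_apply, Real.log_exp, max_eq_right hc]

theorem LDL1 {ι : Type} [Fintype ι] (F : ι → ℂ → ℂ) (hF : ∀ i, Differentiable ℂ (F i))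
    (h0 : ∀ i, ∃ x, F i x ≠ 0) : ∃ C : ℝ, 0 ≤ C ∧ ∀ r δ S : ℝ, 1 ≤ r → 0 < δ → δ ≤ 1 →
    ∑ i, mm (F i) (r + 4 * δ) ≤ S →
    ∃ s, r ≤ s ∧ s ≤ r + δ ∧ ∀ i, ∀ z : ℂ, ‖z‖ = s → F i z ≠ 0 ∧
      ‖deriv (F i) z‖ ≤ (C + Real.exp 1 * (1000 * (r + 4 * δ) ^ 3 * (S + C + 1) ^ 2 / δ ^ 4))
        * ‖F i z‖ := by
  have h1 := fun i => fac0 (hF i) (h0 i).choose_spec
  choose k G hG hG0 hFG using h1
  set C : ℝ := ∑ i, ((k i : ℝ) + |Real.log ‖G i 0‖|) with hC
  have hterm : ∀ i, 0 ≤ (k i : ℝ) + |Real.log ‖G i 0‖| := fun i => by positivity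
  have hC0 : 0 ≤ C := Finset.sum_nonneg fun i _ => hterm i
  refine ⟨C, hC0, fun r δ S hr hδ hδ1 hS => ?_⟩
  set R2 := r + 4 * δ with hR2
  have hR2pos : 0 < R2 := by linarith
  have hmG : ∀ i, mm (G i) R2 ≤ mm (F i) R2 := by
    intro i
    have := mm_circle_le (hF i) (hG i) hR2pos le_rfl (by
      intro z hz
      rw [Real.exp_zero, one_mul, hFG i z, norm_mul, norm_pow, hz]
      have : 1 ≤ R2 ^ k i := one_le_pow₀ (by linarith)
      nlinarith [norm_nonneg (G i z)])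
    linarith
  obtain ⟨s, hrs, hsδ, hs⟩ := LDL0 G hG hG0 (S := S + C) hr hδ hδ1 (by
    calc ∑ i, (mm (G i) R2 + |Real.log ‖G i 0‖|)
        ≤ ∑ i, (mm (F i) R2 + ((k i : ℝ) + |Real.log ‖G i 0‖|)) := by
          apply Finset.sum_le_sum
          intro i _
          have := hmG i
          have : (0 : ℝ) ≤ k i := Nat.cast_nonneg _
          linarith
      _ = ∑ i, mm (F i) R2 + C := by rw [Finset.sum_add_distrib]
      _ ≤ S + C := by linarith)
  refine ⟨s, hrs, hsδ, fun i z hz => ?_⟩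
  have hs0 : 0 < s := by linarith
  have hz0 : z ≠ 0 := by
    intro h
    rw [h, norm_zero] at hz
    linarith
  obtain ⟨h2, h3⟩ := hs i z hz
  have hne : F i z ≠ 0 := by
    rw [hFG i z]
    exact mul_ne_zero (pow_ne_zero _ hz0) h2
  refine ⟨hne, ?_⟩
  have hder : deriv (F i) z = (k i : ℂ) * z ^ (k i - 1) * G i z + z ^ (k i) * deriv (G i) z := by
    have e : F i = fun z => z ^ (k i) * G i z := funext (hFG i)
    rw [e]
    have := ((hasDerivAt_pow (k i) z).mul ((hG i z).hasDerivAt)).deriv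
    exact this
  set B := Real.exp 1 * (1000 * R2 ^ 3 * (S + C + 1) ^ 2 / δ ^ 4) with hB
  have hki : (k i : ℝ) ≤ C := by
    have := Finset.single_le_sum (f := fun i => (k i : ℝ) + |Real.log ‖G i 0‖|)
      (fun i _ => hterm i) (Finset.mem_univ i)
    have h4 : 0 ≤ |Real.log ‖G i 0‖| := abs_nonneg _
    linarith
  have hFn : ‖F i z‖ = s ^ (k i) * ‖G i z‖ := by rw [hFG i z, norm_mul, norm_pow, hz]
  rw [hder]
  refine (norm_add_le _ _).trans ?_
  rw [norm_mul, norm_mul, norm_mul, norm_pow, norm_pow, hz, Complex.norm_natCast, add_mul]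
  apply add_le_add
  · rw [hFn]
    have h5 : s ^ (k i - 1) ≤ s ^ (k i) := pow_le_pow_right₀ (by linarith) (Nat.sub_le _ _)
    have h6 : 0 ≤ s ^ (k i - 1) := by positivity
    calc (k i : ℝ) * s ^ (k i - 1) * ‖G i z‖ ≤ C * s ^ (k i) * ‖G i z‖ := by gcongr
      _ = _ := by ring
  · rw [hFn]
    calc s ^ (k i) * ‖deriv (G i) z‖ ≤ s ^ (k i) * (B * ‖G i z‖) := by gcongr
      _ = _ := by ring

end Pool.Agent.W671.ZA
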