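import Pool.Agent.W671.ZD1

/-!
Classes of entire functions with places, and the growth lemma.
-/

set_option autoImplicit false

namespace Pool.Agent.W671.ZD

open Pool.Agent.H159R3.NV

/-- a place: a residue-type valuation on a field containing the entire functions -/
structure Place (G S : Subalgebra ℂ Ent) where
  K : Type
  [fld : Field K]
  ev : Ent →+* K
  Bd : K → Prop
  Ng : K → Prop
  bd_add : ∀ {x y : K}, Bd x → Bd y → Bd (x + y)
  bd_mul : ∀ {x y : K}, Bd x → Bd y → Bd (x * y)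
  ng_add : ∀ {x y : K}, Ng x → Ng y → Ng (x + y)
  ng_mul : ∀ {x y : K}, Bd x → Ng y → Ng (x * y)
  ng_bd : ∀ {x : K}, Ng x → Bd x
  ng_zero : Ng 0
  ng_one : ¬ Ng 1
  s_bd : ∀ φ ∈ S, Bd (ev φ)
  s_ne : ∀ φ ∈ S, φ ≠ 0 → ev φ ≠ 0
  s_inv : ∀ φ ∈ S, φ ≠ 0 → Bd (ev φ)⁻¹
  g_ne : ∀ F ∈ G, F ≠ 0 → ev F ≠ 0
  g_ld : ∀ F ∈ G, F ≠ 0 → Bd (ev (Dv F) / ev F)
  dich : ∀ x : K, Bd x ∨ Ng x⁻¹

attribute [instance] Place.fld

/-- the classes: `G` of moderate functions and `S` of small functions -/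
structure Cls (G S : Subalgebra ℂ Ent) : Prop where
  SG : S ≤ G
  DG : ∀ x ∈ G, Dv x ∈ G
  DS : ∀ x ∈ S, Dv x ∈ S
  LD : ∀ F ∈ G, F ≠ 0 → ∀ φ : Ent, φ * F = Dv F → φ ∈ S
  pl : ∀ A ∈ G, A ∉ S → ∃ p : Place G S, p.Ng (p.ev A)⁻¹

theorem cst_mem (S : Subalgebra ℂ Ent) (c : ℂ) : cst c ∈ S := S.algebraMap_mem c

theorem num_mem (S : Subalgebra ℂ Ent) (n : ℕ) [n.AtLeastTwo] : (OfNat.ofNat n : Ent) ∈ S := by
  have : (OfNat.ofNat n : Ent) = cst (OfNat.ofNat n) := (map_ofNat cst n).symm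
  rw [this]
  exact cst_mem S _

namespace Place

variable {G S : Subalgebra ℂ Ent} (p : Place G S)

theorem bd_cst (c : ℂ) : p.Bd (p.ev (cst c)) := p.s_bd _ (cst_mem S c)

theorem bd_one : p.Bd 1 := by
  have := p.s_bd 1 S.one_mem
  rwa [map_one] at this

theorem bd_zero : p.Bd 0 := by
  have := p.s_bd 0 S.zero_mem
  rwa [map_zero] at this

theorem bd_num (n : ℕ) [n.AtLeastTwo] : p.Bd (OfNat.ofNat n : p.K) := by
  have := p.s_bd (OfNat.ofNat n) (num_mem S n)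
  rwa [map_ofNat] at this

theorem bd_neg_one : p.Bd (-1) := by
  have := p.s_bd (-1) (S.neg_mem S.one_mem)
  rwa [map_neg, map_one] at this

theorem bd_neg {x : p.K} (h : p.Bd x) : p.Bd (-x) := by
  have := p.bd_mul p.bd_neg_one h
  rwa [neg_one_mul] at this

theorem bd_sub {x y : p.K} (hx : p.Bd x) (hy : p.Bd y) : p.Bd (x - y) := by
  rw [sub_eq_add_neg]
  exact p.bd_add hx (p.bd_neg hy)

theorem bd_pow {x : p.K} (hx : p.Bd x) (n : ℕ) : p.Bd (x ^ n) := by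
  induction n with
  | zero => rw [pow_zero]; exact p.bd_one
  | succ n ih => rw [pow_succ]; exact p.bd_mul ih hx

theorem ng_neg {x : p.K} (h : p.Ng x) : p.Ng (-x) := by
  have := p.ng_mul p.bd_neg_one h
  rwa [neg_one_mul] at this

theorem ng_sub {x y : p.K} (hx : p.Ng x) (hy : p.Ng y) : p.Ng (x - y) := by
  rw [sub_eq_add_neg]
  exact p.ng_add hx (p.ng_neg hy)

theorem ng_mul' {x y : p.K} (hx : p.Ng x) (hy : p.Bd y) : p.Ng (x * y) := by
  rw [mul_comm]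
  exact p.ng_mul hy hx

/-- a small function which is negligible vanishes -/
theorem s_ng {φ : Ent} (hφ : φ ∈ S) (h : p.Ng (p.ev φ)) : φ = 0 := by
  by_contra hne
  have h1 := p.ng_mul (p.s_inv φ hφ hne) h
  rw [inv_mul_cancel₀ (p.s_ne φ hφ hne)] at h1
  exact p.ng_one h1

/-- dividing by a small function -/
theorem ng_of_s_mul {φ : Ent} (hφ : φ ∈ S) (hne : φ ≠ 0) {x : p.K}
    (h : p.Ng (p.ev φ * x)) : p.Ng x := by
  have h1 := p.ng_mul (p.s_inv φ hφ hne) h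
  rwa [inv_mul_cancel_left₀ (p.s_ne φ hφ hne)] at h1

/-- derivatives of negligible functions are negligible -/
theorem ng_D {F : Ent} (hF : F ∈ G) (h : p.Ng (p.ev F)) : p.Ng (p.ev (Dv F)) := by
  by_cases h0 : F = 0
  · rw [h0, Dzero, map_zero]; exact p.ng_zero
  · have h1 := p.ng_mul (p.g_ld F hF h0) h
    rwa [div_mul_cancel₀ _ (p.g_ne F hF h0)] at h1

end Place

/-- a function which is not small satisfies no quadratic equation over the small functions -/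
theorem Cls.rb {G S : Subalgebra ℂ Ent} (hc : Cls G S) {W : Ent} (hW : W ∈ G) (hWS : W ∉ S)
    {p2 p1 p0 : Ent} (h2 : p2 ∈ S) (h1 : p1 ∈ S) (h0 : p0 ∈ S)
    (h : p2 * W ^ 2 + p1 * W + p0 = 0) : p2 = 0 ∧ p1 = 0 ∧ p0 = 0 := by
  obtain ⟨p, hp⟩ := hc.pl W hW hWS
  have hW0 : W ≠ 0 := fun h => hWS (h ▸ S.zero_mem)
  have hw := p.g_ne W hW hW0
  set w := p.ev W with hwdef
  have key : p.ev p2 * w ^ 2 + p.ev p1 * w + p.ev p0 = 0 := by
    have := congrArg p.ev h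
    simpa [map_add, map_mul, map_pow] using this
  have b1 := p.s_bd p1 h1
  have b0 := p.s_bd p0 h0
  have e2 : p.ev p2 = - (p.ev p1 * w⁻¹ + (p.ev p0 * w⁻¹) * w⁻¹) := by
    field_simp
    linear_combination key
  have n2 : p.Ng (p.ev p2) := by
    rw [e2]
    exact p.ng_neg (p.ng_add (p.ng_mul b1 hp) (p.ng_mul' (p.ng_mul b0 hp) (p.ng_bd hp)))
  have z2 := p.s_ng h2 n2
  rw [z2, map_zero, zero_mul, zero_add] at key
  have e1 : p.ev p1 = - (p.ev p0 * w⁻¹) := by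
    field_simp
    linear_combination key
  have n1 : p.Ng (p.ev p1) := by
    rw [e1]
    exact p.ng_neg (p.ng_mul b0 hp)
  have z1 := p.s_ng h1 n1
  rw [z1, map_zero, zero_mul, zero_add] at key
  refine ⟨z2, z1, p.s_ng h0 ?_⟩
  rw [key]
  exact p.ng_zero

theorem Cls.rb1 {G S : Subalgebra ℂ Ent} (hc : Cls G S) {W : Ent} (hW : W ∈ G) (hWS : W ∉ S)
    {p1 p0 : Ent} (h1 : p1 ∈ S) (h0 : p0 ∈ S)
    (h : p1 * W + p0 = 0) : p1 = 0 ∧ p0 = 0 :=
  (hc.rb hW hWS S.zero_mem h1 h0 (by linear_combination h)).2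

/-- the analytic input: existence of classes -/
def ExCls : Prop := ∀ (W : Finset Ent) (X Xi β : Ent), X ∈ W → Xi ∈ W → X * Xi = 1 →
  Dv X = β * X → β ≠ 0 → ∃ G S : Subalgebra ℂ Ent, Cls G S ∧ (∀ w ∈ W, w ∈ G) ∧ ∃ w ∈ W, w ∉ S

/-- growth lemma -/
theorem growthL (hex : ExCls) {ι : Type} [Fintype ι] (X Xi β : ι → Ent) (hX : ∀ i, X i * Xi i = 1)
    (hD : ∀ i, Dv (X i) = β i * X i)
    (H : ∀ S : Subalgebra ℂ Ent, (∀ x ∈ S, Dv x ∈ S) → (∀ i, β i ∈ S) →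
      ∀ i, ∃ A ∈ S, A ≠ 0 ∧ A * X i ∈ S) : ∀ i, β i = 0 := by
  classical
  by_contra hcon
  push Not at hcon
  obtain ⟨i0, hi0⟩ := hcon
  obtain ⟨G, S, hc, hG, w, hw, hwS⟩ := hex (Finset.univ.image X ∪ Finset.univ.image Xi)
    (X i0) (Xi i0) (β i0) (by simp) (by simp) (hX i0) (hD i0) hi0
  have hXG : ∀ i, X i ∈ G := fun i => hG _ (by simp)
  have hβS : ∀ i, β i ∈ S := by
    intro i
    exact hc.LD (X i) (hXG i) (left_ne_zero_of_mul_eq_one (hX i)) (β i) (hD i).symm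
  have H' := H S hc.DS hβS
  rw [Finset.mem_union] at hw
  rcases hw with hw | hw
  · obtain ⟨i, _, rfl⟩ := Finset.mem_image.mp hw
    obtain ⟨A, hA, hA0, hAX⟩ := H' i
    have := hc.rb1 (hXG i) hwS hA (S.neg_mem hAX) (by ring)
    exact hA0 this.1
  · obtain ⟨i, _, rfl⟩ := Finset.mem_image.mp hw
    obtain ⟨A, hA, hA0, hAX⟩ := H' i
    have := hc.rb1 (hG _ (by simp)) hwS hAX (S.neg_mem hA) (by
      linear_combination A * hX i)
    have h2 := this.2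
    exact hA0 (neg_eq_zero.mp h2)

/-- growth lemma for one exponential -/
theorem growth1 (hex : ExCls) {X Xi β : Ent} (hX : X * Xi = 1) (hD : Dv X = β * X)
    (H : ∀ S : Subalgebra ℂ Ent, (∀ x ∈ S, Dv x ∈ S) → β ∈ S →
      ∃ A ∈ S, A ≠ 0 ∧ A * X ∈ S) : β = 0 :=
  growthL hex (ι := Unit) (fun _ => X) (fun _ => Xi) (fun _ => β) (fun _ => hX) (fun _ => hD)
    (fun S h1 h2 _ => H S h1 (h2 ())) ()

/-- growth lemma for two exponentials -/
theorem growth2 (hex : ExCls) {X Xi β Y Yi γ : Ent} (hX : X * Xi = 1) (hD : Dv X = β * X)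
    (hY : Y * Yi = 1) (hE : Dv Y = γ * Y)
    (H : ∀ S : Subalgebra ℂ Ent, (∀ x ∈ S, Dv x ∈ S) → β ∈ S → γ ∈ S →
      (∃ A ∈ S, A ≠ 0 ∧ A * X ∈ S) ∧ (∃ A ∈ S, A ≠ 0 ∧ A * Y ∈ S)) : β = 0 ∧ γ = 0 := by
  have := growthL hex (ι := Bool) (fun b => if b then X else Y) (fun b => if b then Xi else Yi)
    (fun b => if b then β else γ) (by
      intro b; cases b <;> simp [hX, hY])
    (by intro b; cases b <;> simp [hD, hE])
    (by
      intro S h1 h2 b
      have h3 := h2 true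
      have h4 := h2 false
      simp only [if_true, Bool.false_eq_true, if_false] at h3 h4
      obtain ⟨h5, h6⟩ := H S h1 h3 h4
      cases b
      · simpa using h6
      · simpa using h5)
  have h3 := this true
  have h4 := this false
  simp only [if_true, Bool.false_eq_true, if_false] at h3 h4
  exact ⟨h3, h4⟩

end Pool.Agent.W671.ZD
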