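import Pool.Agent.W671.ZA2
import Pool.Agent.W671.ZD2

/-!
Classes of moderate and of small entire functions along a sequence of radii.
-/

set_option autoImplicit false

namespace Pool.Agent.W671.ZA

open Pool.Agent.H159R3.NV Pool.Agent.W671.ZD
open Filter Metric Real Set Topology

/-- a scale along a sequence of radii -/
structure Scale where
  T : ℕ → ℝ
  r : ℕ → ℝ
  C0 : ℝ
  hr : ∀ n, 1 ≤ r n
  hT1 : ∀ n, 1 ≤ T n
  hT : Tendsto T atTop atTop
  hrT : ∀ n, r n ≤ C0 * T n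

/-- the ultrafilter -/
noncomputable def UU : Ultrafilter ℕ := hyperfilter ℕ

theorem UU_le : (UU : Filter ℕ) ≤ atTop := by
  unfold UU
  rw [← Nat.cofinite_eq_atTop]
  exact hyperfilter_le_cofinite

namespace Scale

variable (s : Scale)

theorem Tpos (n : ℕ) : 0 < s.T n := lt_of_lt_of_le one_pos (s.hT1 n)

theorem evT (K : ℝ) : ∀ᶠ n in (UU : Filter ℕ), K ≤ s.T n :=
  UU_le (s.hT.eventually_ge_atTop K)

/-- moderate -/
def mG (F : ℂ → ℂ) : Prop :=
  ∀ δ, 0 ≤ δ → δ < 1 → ∃ C, ∀ᶠ n in (UU : Filter ℕ), mm F (s.r n + δ / s.T n) ≤ C * s.T n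

/-- small -/
def mS (F : ℂ → ℂ) : Prop :=
  ∀ δ, 0 ≤ δ → δ < 1 → ∀ ε, 0 < ε →
    ∀ᶠ n in (UU : Filter ℕ), mm F (s.r n + δ / s.T n) ≤ ε * s.T n

theorem rpos {δ : ℝ} (hδ : 0 ≤ δ) (n : ℕ) : 0 < s.r n + δ / s.T n := by
  have := s.hr n
  have := s.Tpos n
  positivity

theorem rge {δ : ℝ} (hδ : 0 ≤ δ) (n : ℕ) : 1 ≤ s.r n + δ / s.T n := by
  have h1 := s.hr n
  have := s.Tpos n
  have : 0 ≤ δ / s.T n := by positivity
  linarith

theorem mS_mG {F : ℂ → ℂ} (h : s.mS F) : s.mG F :=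
  fun δ h0 h1 => ⟨1, h δ h0 h1 1 one_pos⟩

theorem mS_const (c : ℂ) : s.mS (fun _ => c) := by
  intro δ _ _ ε hε
  filter_upwards [s.evT (Real.posLog ‖c‖ / ε)] with n hn
  rw [mm_const]
  rwa [div_le_iff₀ hε, mul_comm] at hn

theorem mS_add {F G : ℂ → ℂ} (dF : Differentiable ℂ F) (dG : Differentiable ℂ G)
    (hF : s.mS F) (hG : s.mS G) : s.mS (fun z => F z + G z) := by
  intro δ h0 h1 ε hε
  filter_upwards [hF δ h0 h1 (ε / 3) (by positivity), hG δ h0 h1 (ε / 3) (by positivity),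
    s.evT (Real.log 2 / (ε / 3))] with n h2 h3 h4
  have := mm_add_le dF dG (s.r n + δ / s.T n)
  rw [div_le_iff₀ (by positivity)] at h4
  linarith

theorem mS_mul {F G : ℂ → ℂ} (dF : Differentiable ℂ F) (dG : Differentiable ℂ G)
    (hF : s.mS F) (hG : s.mS G) : s.mS (fun z => F z * G z) := by
  intro δ h0 h1 ε hε
  filter_upwards [hF δ h0 h1 (ε / 2) (by positivity), hG δ h0 h1 (ε / 2) (by positivity)]
    with n h2 h3
  have := mm_mul_le dF dG (s.r n + δ / s.T n)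
  linarith

theorem mG_add {F G : ℂ → ℂ} (dF : Differentiable ℂ F) (dG : Differentiable ℂ G)
    (hF : s.mG F) (hG : s.mG G) : s.mG (fun z => F z + G z) := by
  intro δ h0 h1
  obtain ⟨C1, hC1⟩ := hF δ h0 h1
  obtain ⟨C2, hC2⟩ := hG δ h0 h1
  refine ⟨C1 + C2 + Real.log 2, ?_⟩
  filter_upwards [hC1, hC2] with n h2 h3
  have := mm_add_le dF dG (s.r n + δ / s.T n)
  have h4 := s.hT1 n
  have h5 : 0 ≤ Real.log 2 := Real.log_nonneg (by norm_num)
  nlinarith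

theorem mG_mul {F G : ℂ → ℂ} (dF : Differentiable ℂ F) (dG : Differentiable ℂ G)
    (hF : s.mG F) (hG : s.mG G) : s.mG (fun z => F z * G z) := by
  intro δ h0 h1
  obtain ⟨C1, hC1⟩ := hF δ h0 h1
  obtain ⟨C2, hC2⟩ := hG δ h0 h1
  refine ⟨C1 + C2, ?_⟩
  filter_upwards [hC1, hC2] with n h2 h3
  have := mm_mul_le dF dG (s.r n + δ / s.T n)
  linarith

/-- the class of moderate functions -/
def GG : Subalgebra ℂ Ent where
  carrier := {F | s.mG (F : ℂ → ℂ)}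
  mul_mem' := fun {a b} ha hb => s.mG_mul a.2 b.2 ha hb
  add_mem' := fun {a b} ha hb => s.mG_add a.2 b.2 ha hb
  algebraMap_mem' := fun c => s.mS_mG (s.mS_const c)

/-- the class of small functions -/
def SS : Subalgebra ℂ Ent where
  carrier := {F | s.mS (F : ℂ → ℂ)}
  mul_mem' := fun {a b} ha hb => s.mS_mul a.2 b.2 ha hb
  add_mem' := fun {a b} ha hb => s.mS_add a.2 b.2 ha hb
  algebraMap_mem' := fun c => s.mS_const c

theorem mem_GG {F : Ent} : F ∈ s.GG ↔ s.mG (F : ℂ → ℂ) := Iff.rfl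
theorem mem_SS {F : Ent} : F ∈ s.SS ↔ s.mS (F : ℂ → ℂ) := Iff.rfl

theorem ent_ne {F : Ent} (h : F ≠ 0) : ∃ x, (F : ℂ → ℂ) x ≠ 0 := by
  by_contra hcon
  push Not at hcon
  apply h
  apply Subtype.ext
  funext x
  exact hcon x

theorem growth_ev {K ε : ℝ} (hε : 0 < ε) : ∀ᶠ n in (UU : Filter ℕ),
    K * s.T n ^ 9 ≤ Real.exp (ε * s.T n) := by
  have h1 := (isLittleO_pow_exp_pos_mul_atTop 9 hε).def (c := 1 / (|K| + 1)) (by positivity)
  have h2 := UU_le (s.hT.eventually h1)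
  filter_upwards [h2] with n hn
  have hT := s.Tpos n
  rw [Real.norm_eq_abs, Real.norm_eq_abs, abs_of_pos (by positivity),
    abs_of_pos (Real.exp_pos _)] at hn
  have h3 : (|K| + 1) * s.T n ^ 9 ≤ Real.exp (ε * s.T n) := by
    calc (|K| + 1) * s.T n ^ 9 ≤ (|K| + 1) * (1 / (|K| + 1) * Real.exp (ε * s.T n)) := by gcongr
      _ = _ := by field_simp
  have h4 : K * s.T n ^ 9 ≤ (|K| + 1) * s.T n ^ 9 := by
    have := le_abs_self K
    gcongr
    linarith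
  linarith

/-- logarithmic derivatives on a good circle -/
theorem LDL2 {ι : Type} [Fintype ι] (F : ι → Ent) (hF : ∀ i, F i ∈ s.GG) (h0 : ∀ i, F i ≠ 0)
    {δ δ' ε : ℝ} (hδ : 0 ≤ δ) (hδδ : δ < δ') (hδ' : δ' < 1) (hε : 0 < ε) :
    ∀ᶠ n in (UU : Filter ℕ), ∃ t, s.r n + δ / s.T n ≤ t ∧ t ≤ s.r n + δ' / s.T n ∧
      ∀ i, ∀ z : ℂ, ‖z‖ = t → (F i : ℂ → ℂ) z ≠ 0 ∧
        ‖deriv (F i : ℂ → ℂ) z‖ ≤ Real.exp (ε * s.T n) * ‖(F i : ℂ → ℂ) z‖ := by
  obtain ⟨C, hC0, hC⟩ := LDL1 (fun i => (F i : ℂ → ℂ)) (fun i => (F i).2)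
    (fun i => ent_ne (h0 i))
  have h1 : ∀ i, ∃ Ci, 0 ≤ Ci ∧ ∀ᶠ n in (UU : Filter ℕ),
      mm (F i : ℂ → ℂ) (s.r n + δ' / s.T n) ≤ Ci * s.T n := by
    intro i
    obtain ⟨Ci, hCi⟩ := hF i δ' (by linarith) hδ'
    refine ⟨|Ci|, abs_nonneg _, ?_⟩
    filter_upwards [hCi] with n hn
    have := le_abs_self Ci
    have := s.Tpos n
    nlinarith
  choose Ci hCi0 hCi using h1
  set CS := ∑ i, Ci i with hCS
  have hCS0 : 0 ≤ CS := Finset.sum_nonneg fun i _ => hCi0 i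
  set d := δ' - δ with hd
  have hdpos : 0 < d := by linarith
  have hC00 : 0 ≤ s.C0 := by
    have h1 := s.hrT 0
    have h2 := s.hr 0
    have h3 := s.Tpos 0
    by_contra hneg
    push Not at hneg
    nlinarith
  have hall : ∀ᶠ n in (UU : Filter ℕ), ∀ i,
      mm (F i : ℂ → ℂ) (s.r n + δ' / s.T n) ≤ Ci i * s.T n := by
    rw [eventually_all]
    exact hCi
  filter_upwards [hall, s.growth_ev (K := C + Real.exp 1 * (1000 * (s.C0 + 1) ^ 3
    * (CS + C + 1) ^ 2 * 256 / d ^ 4)) hε] with n hn hK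
  have hT := s.Tpos n
  have hT1 := s.hT1 n
  obtain ⟨t, ht1, ht2, ht⟩ := hC (s.r n + δ / s.T n) (d / (4 * s.T n)) (CS * s.T n)
    (s.rge hδ n) (by positivity) (by
      rw [div_le_one (by positivity)]
      linarith) (by
      have e : s.r n + δ / s.T n + 4 * (d / (4 * s.T n)) = s.r n + δ' / s.T n := by
        rw [hd]; field_simp; ring
      rw [e, hCS, Finset.sum_mul]
      exact Finset.sum_le_sum fun i _ => hn i)
  refine ⟨t, ht1, ?_, fun i z hz => ?_⟩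
  · have e : s.r n + δ / s.T n + d / (4 * s.T n) ≤ s.r n + δ' / s.T n := by
      have e2 : s.r n + δ' / s.T n = s.r n + δ / s.T n + d / s.T n := by
        rw [hd]; field_simp; ring
      rw [e2]
      have : d / (4 * s.T n) ≤ d / s.T n := by
        apply div_le_div_of_nonneg_left hdpos.le hT
        linarith
      linarith
    exact ht2.trans e
  · obtain ⟨h2, h3⟩ := ht i z hz
    refine ⟨h2, h3.trans ?_⟩
    apply mul_le_mul_of_nonneg_right _ (norm_nonneg _)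
    refine le_trans ?_ hK
    have e : s.r n + δ / s.T n + 4 * (d / (4 * s.T n)) = s.r n + δ' / s.T n := by
      rw [hd]; field_simp; ring
    rw [e]
    have b1 : s.r n + δ' / s.T n ≤ (s.C0 + 1) * s.T n := by
      have h4 := s.hrT n
      have h5 : δ' / s.T n ≤ 1 := by
        rw [div_le_one hT]; linarith
      linarith
    have b2 : CS * s.T n + C + 1 ≤ (CS + C + 1) * s.T n := by nlinarith
    have b0 : 0 ≤ s.r n + δ' / s.T n := (s.rpos (by linarith) n).le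
    have b3 : 0 ≤ CS * s.T n + C + 1 := by positivity
    have b4 : 1 / (d / (4 * s.T n)) ^ 4 = 256 * s.T n ^ 4 / d ^ 4 := by
      rw [div_pow, mul_pow]
      field_simp
      norm_num
    have b5 : 1000 * (s.r n + δ' / s.T n) ^ 3 * (CS * s.T n + C + 1) ^ 2
        / (d / (4 * s.T n)) ^ 4
        ≤ 1000 * ((s.C0 + 1) * s.T n) ^ 3 * ((CS + C + 1) * s.T n) ^ 2
          * (256 * s.T n ^ 4 / d ^ 4) := by
      rw [← b4, mul_one_div]
      gcongr
    have b6 : 1000 * ((s.C0 + 1) * s.T n) ^ 3 * ((CS + C + 1) * s.T n) ^ 2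
          * (256 * s.T n ^ 4 / d ^ 4) = 1000 * (s.C0 + 1) ^ 3
    * (CS + C + 1) ^ 2 * 256 / d ^ 4 * s.T n ^ 9 := by
      field_simp
    rw [add_mul]
    apply add_le_add
    · have : 1 ≤ s.T n ^ 9 := one_le_pow₀ hT1
      nlinarith
    · have b7 := mul_le_mul_of_nonneg_left b5 (Real.exp_pos 1).le
      refine b7.trans (le_of_eq ?_)
      rw [b6]
      ring

theorem mm_D {F : Ent} (hF : F ∈ s.GG) (h0 : F ≠ 0) {δ δ' ε : ℝ} (hδ : 0 ≤ δ) (hδδ : δ < δ')
    (hδ' : δ' < 1) (hε : 0 < ε) : ∀ᶠ n in (UU : Filter ℕ),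
      mm (Dv F : ℂ → ℂ) (s.r n + δ / s.T n)
        ≤ ε * s.T n + mm (F : ℂ → ℂ) (s.r n + δ' / s.T n) := by
  filter_upwards [s.LDL2 (fun _ : Unit => F) (fun _ => hF) (fun _ => h0) hδ hδδ hδ' hε] with n hn
  obtain ⟨t, ht1, ht2, ht⟩ := hn
  have hpos := s.rpos hδ n
  have htpos : 0 < t := hpos.trans_le ht1
  have hT := s.Tpos n
  calc mm (Dv F : ℂ → ℂ) (s.r n + δ / s.T n) ≤ mm (Dv F : ℂ → ℂ) t :=
        mm_mono (Dv F).2 hpos ht1
    _ ≤ ε * s.T n + mm (F : ℂ → ℂ) t :=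
        mm_circle_le F.2 (Dv F).2 htpos (by positivity) (fun z hz => (ht () z hz).2)
    _ ≤ _ := by
        have := mm_mono F.2 htpos ht2
        linarith

theorem GG_D (F : Ent) (hF : F ∈ s.GG) : Dv F ∈ s.GG := by
  by_cases h0 : F = 0
  · rw [h0, Dzero]; exact s.GG.zero_mem
  intro δ hδ hδ1
  obtain ⟨C, hC⟩ := hF ((δ + 1) / 2) (by linarith) (by linarith)
  refine ⟨1 + C, ?_⟩
  filter_upwards [hC, s.mm_D hF h0 hδ (δ' := (δ + 1) / 2) (ε := 1) (by linarith) (by linarith)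
    one_pos] with n h1 h2
  linarith

theorem SS_GG : s.SS ≤ s.GG := fun _ h => s.mS_mG h

theorem SS_D (F : Ent) (hF : F ∈ s.SS) : Dv F ∈ s.SS := by
  by_cases h0 : F = 0
  · rw [h0, Dzero]; exact s.SS.zero_mem
  intro δ hδ hδ1 ε hε
  filter_upwards [hF ((δ + 1) / 2) (by linarith) (by linarith) (ε / 2) (by positivity),
    s.mm_D (s.SS_GG hF) h0 hδ (δ' := (δ + 1) / 2) (ε := ε / 2) (by linarith) (by linarith)
    (by positivity)] with n h1 h2
  linarith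

theorem LD (F : Ent) (hF : F ∈ s.GG) (h0 : F ≠ 0) (φ : Ent) (h : φ * F = Dv F) : φ ∈ s.SS := by
  intro δ hδ hδ1 ε hε
  filter_upwards [s.LDL2 (fun _ : Unit => F) (fun _ => hF) (fun _ => h0) hδ
    (δ' := (δ + 1) / 2) (ε := ε) (by linarith) (by linarith) hε] with n hn
  obtain ⟨t, ht1, ht2, ht⟩ := hn
  have hpos := s.rpos hδ n
  have htpos : 0 < t := hpos.trans_le ht1
  have hT := s.Tpos n
  have h1 := mm_circle_le (F := fun _ => (1 : ℂ)) (G := (φ : ℂ → ℂ)) (differentiable_const _) φ.2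
    htpos (c := ε * s.T n) (by positivity) (by
      intro z hz
      obtain ⟨h2, h3⟩ := ht () z hz
      have h4 : (φ : ℂ → ℂ) z * (F : ℂ → ℂ) z = deriv (F : ℂ → ℂ) z :=
        congrFun (congrArg Subtype.val h) z
      rw [← h4, norm_mul] at h3
      rw [norm_one, mul_one]
      exact le_of_mul_le_mul_right h3 (norm_pos_iff.mpr h2))
  rw [mm_const, norm_one, Real.posLog_one, add_zero] at h1
  exact (mm_mono φ.2 hpos ht1).trans h1

end Scale

end Pool.Agent.W671.ZA
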