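import Pool.Agent.W671.ZA3

/-!
Points where a given function is large and finitely many functions are tame.
-/

set_option autoImplicit false

namespace Pool.Agent.W671.ZA

open Pool.Agent.H159R3.NV Pool.Agent.W671.ZD
open Filter Metric Real Set Topology

namespace Scale

variable (s : Scale)

theorem point (A : Ent) (hAS : A ∉ s.SS) (l : Finset Ent) {η : ℝ} (hη : 0 < η) (K : ℝ) :
    ∃ z : ℂ, K ≤ Real.log ‖(A : ℂ → ℂ) z‖ ∧ 0 < Real.log ‖(A : ℂ → ℂ) z‖ ∧ ∀ F ∈ l, F ≠ 0 →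
      (F ∈ s.GG → (F : ℂ → ℂ) z ≠ 0 ∧ ‖(Dv F : ℂ → ℂ) z‖
        ≤ Real.exp (η * Real.log ‖(A : ℂ → ℂ) z‖) * ‖(F : ℂ → ℂ) z‖) ∧
      (F ∈ s.SS → |Real.log ‖(F : ℂ → ℂ) z‖| ≤ η * Real.log ‖(A : ℂ → ℂ) z‖) := by
  classical
  have h1 : ¬ s.mS (A : ℂ → ℂ) := hAS
  unfold mS at h1
  push Not at h1
  obtain ⟨δ0, hδ0, hδ01, c, hc, hcA⟩ := h1
  have hcA' : ∀ᶠ n in (UU : Filter ℕ), c * s.T n < mm (A : ℂ → ℂ) (s.r n + δ0 / s.T n) := hcA
  set δ1 : ℝ := (δ0 + 1) / 2 with hδ1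
  set l1 : Finset Ent := l.filter (fun F => F ∈ s.GG ∧ F ≠ 0) with hl1
  set l2 : Finset Ent := l.filter (fun F => F ∈ s.SS ∧ F ≠ 0) with hl2
  have hl1m : ∀ F ∈ l1, F ∈ s.GG ∧ F ≠ 0 := fun F hF => (Finset.mem_filter.mp hF).2
  have hl2m : ∀ F ∈ l2, F ∈ s.SS ∧ F ≠ 0 := fun F hF => (Finset.mem_filter.mp hF).2
  have hLDL := s.LDL2 (fun i : {x // x ∈ l1} => (i : Ent)) (fun i => (hl1m i i.2).1)
    (fun i => (hl1m i i.2).2) hδ0 (δ' := δ1) (ε := η * (c / 2)) (by rw [hδ1]; linarith)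
    (by rw [hδ1]; linarith) (by positivity)
  set N : ℝ := (l2.card : ℝ) with hN
  have hN0 : 0 ≤ N := Nat.cast_nonneg _
  set ε' : ℝ := η * c / (8 * (N + 1)) with hε'
  have hε'pos : 0 < ε' := by positivity
  have hsm : ∀ᶠ n in (UU : Filter ℕ), ∀ F ∈ l2,
      mm (F : ℂ → ℂ) (s.r n + δ1 / s.T n) ≤ ε' * s.T n := by
    rw [Filter.eventually_all_finset]
    intro F hF
    exact (hl2m F hF).1 δ1 (by rw [hδ1]; linarith) (by rw [hδ1]; linarith) ε' hε'pos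
  set CL : ℝ := ∑ F ∈ l2, |L (F : ℂ → ℂ) 1| with hCL
  have hCL0 : 0 ≤ CL := Finset.sum_nonneg fun _ _ => abs_nonneg _
  obtain ⟨n, h2, h3, h4, h5, h6⟩ := (hcA'.and (hLDL.and (hsm.and
    ((s.evT (8 * CL / (η * c) + 1)).and (s.evT (2 * |K| / c)))))).exists
  obtain ⟨t, ht1, ht2, ht⟩ := h3
  have hTpos := s.Tpos n
  have htge : 1 ≤ t := (s.rge hδ0 n).trans ht1
  have htpos : 0 < t := by linarith
  -- the averaged function
  have iA := ci_posLog (mero_of_diff A.2) t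
  have iF : ∀ F : Ent, CircleIntegrable (fun z => |Real.log ‖(F : ℂ → ℂ) z‖|) 0 t :=
    fun F => ci_abs (ci_log (mero_of_diff F.2) t)
  have iS : CircleIntegrable (fun z => ∑ F ∈ l2, |Real.log ‖(F : ℂ → ℂ) z‖|) 0 t :=
    CircleIntegrable.fun_sum _ (fun F _ => iF F)
  have iS' : CircleIntegrable (fun z => η⁻¹ • ∑ F ∈ l2, |Real.log ‖(F : ℂ → ℂ) z‖|) 0 t :=
    iS.const_smul
  have havg : Real.circleAverage (fun z => Real.posLog ‖(A : ℂ → ℂ) z‖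
      - η⁻¹ • ∑ F ∈ l2, |Real.log ‖(F : ℂ → ℂ) z‖|) 0 t
      = mm (A : ℂ → ℂ) t - η⁻¹ * ∑ F ∈ l2, (2 * mm (F : ℂ → ℂ) t - L (F : ℂ → ℂ) t) := by
    rw [Real.circleAverage_fun_sub iA iS', Real.circleAverage_fun_smul,
      Real.circleAverage_fun_sum (fun F _ => iF F), smul_eq_mul]
    congr 2
    apply Finset.sum_congr rfl
    intro F _
    exact avg_abs_mm F.2 t
  have hmA : c * s.T n < mm (A : ℂ → ℂ) t := h2.trans_le (mm_mono A.2 (s.rpos hδ0 n) ht1)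
  have hsum : ∑ F ∈ l2, (2 * mm (F : ℂ → ℂ) t - L (F : ℂ → ℂ) t)
      ≤ N * (2 * (ε' * s.T n)) + CL := by
    calc ∑ F ∈ l2, (2 * mm (F : ℂ → ℂ) t - L (F : ℂ → ℂ) t)
        ≤ ∑ F ∈ l2, (2 * (ε' * s.T n) + |L (F : ℂ → ℂ) 1|) := by
          apply Finset.sum_le_sum
          intro F hF
          have h7 := (mm_mono F.2 htpos ht2).trans (h4 F hF)
          have h8 := L_mono F.2 one_pos htge
          have h9 := neg_abs_le (L (F : ℂ → ℂ) 1)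
          linarith
      _ = N * (2 * (ε' * s.T n)) + CL := by
          rw [Finset.sum_add_distrib, Finset.sum_const, nsmul_eq_mul]
  have hbig : c / 2 * s.T n < Real.circleAverage (fun z => Real.posLog ‖(A : ℂ → ℂ) z‖
      - η⁻¹ • ∑ F ∈ l2, |Real.log ‖(F : ℂ → ℂ) z‖|) 0 t := by
    rw [havg]
    have e1 : η⁻¹ * (N * (2 * (ε' * s.T n)) + CL)
        = (N / (N + 1)) * (c / 4) * s.T n + CL / η := by
      rw [hε']; field_simp; ring
    have e2 : N / (N + 1) ≤ 1 := by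
      rw [div_le_one (by positivity)]; linarith
    have e3 : (N / (N + 1)) * (c / 4) * s.T n ≤ 1 * (c / 4) * s.T n := by gcongr
    have e4 : CL / η ≤ c / 8 * s.T n := by
      have : 8 * CL / (η * c) ≤ s.T n := by linarith
      rw [div_le_iff₀ (by positivity)] at this
      rw [div_le_iff₀ hη]
      linarith
    have e5 : η⁻¹ * ∑ F ∈ l2, (2 * mm (F : ℂ → ℂ) t - L (F : ℂ → ℂ) t)
        ≤ η⁻¹ * (N * (2 * (ε' * s.T n)) + CL) :=
      mul_le_mul_of_nonneg_left hsum (by positivity)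
    have e6 : 0 < c / 8 * s.T n := by positivity
    linarith
  obtain ⟨z, hz, hzb⟩ : ∃ z : ℂ, ‖z‖ = t ∧ c / 2 * s.T n < Real.posLog ‖(A : ℂ → ℂ) z‖
      - η⁻¹ • ∑ F ∈ l2, |Real.log ‖(F : ℂ → ℂ) z‖| := by
    by_contra hcon
    push Not at hcon
    have := Real.circleAverage_mono_on_of_le_circle (f := fun z => Real.posLog ‖(A : ℂ → ℂ) z‖
      - η⁻¹ • ∑ F ∈ l2, |Real.log ‖(F : ℂ → ℂ) z‖|) (c := 0) (R := t) (a := c / 2 * s.T n)
      (iA.sub iS') (by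
        intro z hz
        apply hcon
        rw [mem_sphere, dist_zero_right, abs_of_pos htpos] at hz
        exact hz)
    linarith
  have hsn : 0 ≤ ∑ F ∈ l2, |Real.log ‖(F : ℂ → ℂ) z‖| := Finset.sum_nonneg fun _ _ => abs_nonneg _
  rw [smul_eq_mul] at hzb
  have hsn' : 0 ≤ η⁻¹ * ∑ F ∈ l2, |Real.log ‖(F : ℂ → ℂ) z‖| := by positivity
  have hc2 : 0 < c / 2 * s.T n := by positivity
  have hpl : Real.posLog ‖(A : ℂ → ℂ) z‖ = Real.log ‖(A : ℂ → ℂ) z‖ := by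
    rw [Real.posLog_apply]
    apply max_eq_right
    by_contra hneg
    push Not at hneg
    have : Real.posLog ‖(A : ℂ → ℂ) z‖ = 0 := by
      rw [Real.posLog_apply]; exact max_eq_left hneg.le
    linarith
  rw [hpl] at hzb
  have hLge : c / 2 * s.T n ≤ Real.log ‖(A : ℂ → ℂ) z‖ := by linarith
  refine ⟨z, ?_, by linarith, fun F hF hF0 => ⟨fun hG => ?_, fun hS => ?_⟩⟩
  · rw [div_le_iff₀ hc] at h6
    have := le_abs_self K
    linarith
  · obtain ⟨h7, h8⟩ := ht ⟨F, Finset.mem_filter.mpr ⟨hF, hG, hF0⟩⟩ z hz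
    refine ⟨h7, h8.trans ?_⟩
    apply mul_le_mul_of_nonneg_right _ (norm_nonneg _)
    apply Real.exp_le_exp.mpr
    rw [mul_assoc]
    exact mul_le_mul_of_nonneg_left hLge hη.le
  · have h7 : |Real.log ‖(F : ℂ → ℂ) z‖| ≤ ∑ F ∈ l2, |Real.log ‖(F : ℂ → ℂ) z‖| :=
      Finset.single_le_sum (f := fun F : Ent => |Real.log ‖(F : ℂ → ℂ) z‖|)
        (fun _ _ => abs_nonneg _) (Finset.mem_filter.mpr ⟨hF, hS, hF0⟩)
    have h8 : η⁻¹ * |Real.log ‖(F : ℂ → ℂ) z‖| ≤ Real.log ‖(A : ℂ → ℂ) z‖ := by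
      have := mul_le_mul_of_nonneg_left h7 (inv_nonneg.mpr hη.le)
      linarith
    rw [inv_mul_le_iff₀ hη] at h8
    exact h8

end Scale

end Pool.Agent.W671.ZA
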