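import Pool.Agent.W671.ZA4

/-!
The place attached to a function that is not small.
-/

set_option autoImplicit false

namespace Pool.Agent.W671.ZA

open Pool.Agent.H159R3.NV Pool.Agent.W671.ZD
open Filter Real Set Topology

/-- index set -/
abbrev Ix : Type := Finset Ent × ℕ

instance instNB : (atTop : Filter Ix).NeBot := by
  classical
  rw [← prod_atTop_atTop_eq]
  infer_instance

/-- the ultrafilter on the index set -/
noncomputable def VV : Ultrafilter Ix := Ultrafilter.of atTop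

theorem VV_le : (VV : Filter Ix) ≤ atTop := Ultrafilter.of_le _

/-- entire functions along a family of points -/
noncomputable def evg (z : Ix → ℂ) : Ent →+* Germ (VV : Filter Ix) ℂ :=
  (Germ.coeRingHom (VV : Filter Ix)).comp
    ⟨⟨⟨fun F i => (F : ℂ → ℂ) (z i), rfl⟩, fun _ _ => rfl⟩, rfl, fun _ _ => rfl⟩

theorem evg_apply (z : Ix → ℂ) (F : Ent) :
    evg z F = ((fun i => (F : ℂ → ℂ) (z i) : Ix → ℂ) : Germ (VV : Filter Ix) ℂ) := rfl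

/-- bounded germs -/
def BdG (Λ : Ix → ℝ) (x : Germ (VV : Filter Ix) ℂ) : Prop :=
  ∃ φ : Ix → ℂ, (φ : Germ (VV : Filter Ix) ℂ) = x ∧ ∀ ε : ℝ, 0 < ε →
    ∀ᶠ i in (VV : Filter Ix), ‖φ i‖ ≤ Real.exp (ε * Λ i)

/-- negligible germs -/
def NgG (Λ : Ix → ℝ) (x : Germ (VV : Filter Ix) ℂ) : Prop :=
  ∃ φ : Ix → ℂ, (φ : Germ (VV : Filter Ix) ℂ) = x ∧ ∃ δ : ℝ, 0 < δ ∧
    ∀ᶠ i in (VV : Filter Ix), ‖φ i‖ ≤ Real.exp (-δ * Λ i)

section

variable {Λ : Ix → ℝ} (hΛ : ∀ K : ℝ, ∀ᶠ i in (VV : Filter Ix), K ≤ Λ i)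

include hΛ

theorem ev_two {ε : ℝ} (hε : 0 < ε) : ∀ᶠ i in (VV : Filter Ix), 2 ≤ Real.exp (ε * Λ i) := by
  filter_upwards [hΛ (Real.log 2 / ε)] with i hi
  rw [div_le_iff₀ hε, mul_comm] at hi
  calc (2 : ℝ) = Real.exp (Real.log 2) := (Real.exp_log (by norm_num)).symm
    _ ≤ _ := Real.exp_le_exp.mpr hi

theorem BdG_add {x y : Germ (VV : Filter Ix) ℂ} (hx : BdG Λ x) (hy : BdG Λ y) :
    BdG Λ (x + y) := by
  obtain ⟨φ, rfl, hφ⟩ := hx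
  obtain ⟨ψ, rfl, hψ⟩ := hy
  refine ⟨φ + ψ, rfl, fun ε hε => ?_⟩
  filter_upwards [hφ (ε / 2) (by positivity), hψ (ε / 2) (by positivity),
    ev_two hΛ (ε := ε / 2) (by positivity)] with i h1 h2 h3
  calc ‖φ i + ψ i‖ ≤ ‖φ i‖ + ‖ψ i‖ := norm_add_le _ _
    _ ≤ 2 * Real.exp (ε / 2 * Λ i) := by linarith
    _ ≤ Real.exp (ε / 2 * Λ i) * Real.exp (ε / 2 * Λ i) :=
        mul_le_mul_of_nonneg_right h3 (Real.exp_pos _).le
    _ = Real.exp (ε * Λ i) := by rw [← Real.exp_add]; congr 1; ring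

omit hΛ in
theorem BdG_mul {x y : Germ (VV : Filter Ix) ℂ} (hx : BdG Λ x) (hy : BdG Λ y) :
    BdG Λ (x * y) := by
  obtain ⟨φ, rfl, hφ⟩ := hx
  obtain ⟨ψ, rfl, hψ⟩ := hy
  refine ⟨φ * ψ, rfl, fun ε hε => ?_⟩
  filter_upwards [hφ (ε / 2) (by positivity), hψ (ε / 2) (by positivity)] with i h1 h2
  calc ‖φ i * ψ i‖ = ‖φ i‖ * ‖ψ i‖ := norm_mul _ _
    _ ≤ Real.exp (ε / 2 * Λ i) * Real.exp (ε / 2 * Λ i) := by gcongr
    _ = Real.exp (ε * Λ i) := by rw [← Real.exp_add]; congr 1; ring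

theorem NgG_add {x y : Germ (VV : Filter Ix) ℂ} (hx : NgG Λ x) (hy : NgG Λ y) :
    NgG Λ (x + y) := by
  obtain ⟨φ, rfl, δ, hδ, hφ⟩ := hx
  obtain ⟨ψ, rfl, δ', hδ', hψ⟩ := hy
  refine ⟨φ + ψ, rfl, min δ δ' / 2, by positivity, ?_⟩
  filter_upwards [hφ, hψ, ev_two hΛ (ε := min δ δ' / 2) (by positivity), hΛ 0] with i h1 h2 h3 h4
  have e1 : Real.exp (-δ * Λ i) ≤ Real.exp (- min δ δ' * Λ i) := by
    apply Real.exp_le_exp.mpr
    have := min_le_left δ δ'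
    nlinarith
  have e2 : Real.exp (-δ' * Λ i) ≤ Real.exp (- min δ δ' * Λ i) := by
    apply Real.exp_le_exp.mpr
    have := min_le_right δ δ'
    nlinarith
  calc ‖φ i + ψ i‖ ≤ ‖φ i‖ + ‖ψ i‖ := norm_add_le _ _
    _ ≤ 2 * Real.exp (- min δ δ' * Λ i) := by linarith
    _ ≤ Real.exp (min δ δ' / 2 * Λ i) * Real.exp (- min δ δ' * Λ i) :=
        mul_le_mul_of_nonneg_right h3 (Real.exp_pos _).le
    _ = Real.exp (-(min δ δ' / 2) * Λ i) := by rw [← Real.exp_add]; congr 1; ring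

omit hΛ in
theorem NgG_mul {x y : Germ (VV : Filter Ix) ℂ} (hx : BdG Λ x) (hy : NgG Λ y) :
    NgG Λ (x * y) := by
  obtain ⟨φ, rfl, hφ⟩ := hx
  obtain ⟨ψ, rfl, δ, hδ, hψ⟩ := hy
  refine ⟨φ * ψ, rfl, δ / 2, by positivity, ?_⟩
  filter_upwards [hφ (δ / 2) (by positivity), hψ] with i h1 h2
  calc ‖φ i * ψ i‖ = ‖φ i‖ * ‖ψ i‖ := norm_mul _ _
    _ ≤ Real.exp (δ / 2 * Λ i) * Real.exp (-δ * Λ i) := by gcongr
    _ = Real.exp (-(δ / 2) * Λ i) := by rw [← Real.exp_add]; congr 1; ring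

theorem NgG_Bd {x : Germ (VV : Filter Ix) ℂ} (hx : NgG Λ x) : BdG Λ x := by
  obtain ⟨φ, rfl, δ, hδ, hφ⟩ := hx
  refine ⟨φ, rfl, fun ε hε => ?_⟩
  filter_upwards [hφ, hΛ 0] with i h1 h2
  refine h1.trans (Real.exp_le_exp.mpr ?_)
  nlinarith

omit hΛ in
theorem NgG_zero : NgG Λ 0 :=
  ⟨0, rfl, 1, one_pos, Eventually.of_forall fun i => by
    rw [Pi.zero_apply, norm_zero]; exact (Real.exp_pos _).le⟩

theorem NgG_one : ¬ NgG Λ 1 := by
  rintro ⟨φ, h1, δ, hδ, hφ⟩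
  have h2 : (φ : Germ (VV : Filter Ix) ℂ) = ((fun _ => 1 : Ix → ℂ) : Germ (VV : Filter Ix) ℂ) := h1
  rw [Germ.coe_eq] at h2
  obtain ⟨i, h3, h4, h5⟩ := (h2.and (hφ.and (hΛ 1))).exists
  rw [h3, norm_one] at h4
  have : Real.exp (-δ * Λ i) < 1 := by
    rw [Real.exp_lt_one_iff]
    nlinarith
  linarith

omit hΛ in
theorem dichG (x : Germ (VV : Filter Ix) ℂ) : BdG Λ x ∨ NgG Λ x⁻¹ := by
  refine Germ.inductionOn x fun φ => ?_
  by_cases h : ∀ ε : ℝ, 0 < ε → ∀ᶠ i in (VV : Filter Ix), ‖φ i‖ ≤ Real.exp (ε * Λ i)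
  · exact Or.inl ⟨φ, rfl, h⟩
  · right
    push Not at h
    obtain ⟨ε, hε, h⟩ := h
    refine ⟨φ⁻¹, rfl, ε, hε, ?_⟩
    filter_upwards [h] with i hi
    rw [Pi.inv_apply, norm_inv, neg_mul, Real.exp_neg]
    exact inv_anti₀ (Real.exp_pos _) hi.le

end

namespace Scale

variable (s : Scale)

/-- the place -/
theorem exPlace (A : Ent) (hAS : A ∉ s.SS) :
    ∃ p : Place s.GG s.SS, p.Ng (p.ev A)⁻¹ := by
  have hpt := fun i : Ix => s.point A hAS i.1 (η := 1 / ((i.2 : ℝ) + 1)) (by positivity) i.2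
  choose z hz1 hz2 hz3 using hpt
  set Λ : Ix → ℝ := fun i => Real.log ‖(A : ℂ → ℂ) (z i)‖ with hΛdef
  have hidx : ∀ (l : Finset Ent) (m : ℕ), ∀ᶠ i : Ix in (VV : Filter Ix), l ≤ i.1 ∧ m ≤ i.2 := by
    intro l m
    have h1 : ∀ᶠ i : Ix in atTop, (l, m) ≤ i := eventually_ge_atTop (l, m)
    filter_upwards [VV_le h1] with i hi
    exact ⟨hi.1, hi.2⟩
  have hΛ : ∀ K : ℝ, ∀ᶠ i in (VV : Filter Ix), K ≤ Λ i := by
    intro K
    obtain ⟨m, hm⟩ := exists_nat_ge K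
    filter_upwards [hidx ∅ m] with i hi
    have h1 : (m : ℝ) ≤ i.2 := by exact_mod_cast hi.2
    exact hm.trans (h1.trans (hz1 i))
  have hG : ∀ F ∈ s.GG, F ≠ 0 → ∀ ε : ℝ, 0 < ε → ∀ᶠ i in (VV : Filter Ix),
      (F : ℂ → ℂ) (z i) ≠ 0 ∧ ‖(Dv F : ℂ → ℂ) (z i)‖
        ≤ Real.exp (ε * Λ i) * ‖(F : ℂ → ℂ) (z i)‖ := by
    intro F hF hF0 ε hε
    obtain ⟨m, hm⟩ := exists_nat_ge (1 / ε)
    filter_upwards [hidx {F} m] with i hi
    obtain ⟨h1, h2⟩ := (hz3 i F (hi.1 (Finset.mem_singleton_self F)) hF0).1 hF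
    refine ⟨h1, h2.trans ?_⟩
    apply mul_le_mul_of_nonneg_right _ (norm_nonneg _)
    apply Real.exp_le_exp.mpr
    apply mul_le_mul_of_nonneg_right _ (hz2 i).le
    have h3 : (m : ℝ) ≤ i.2 := by exact_mod_cast hi.2
    rw [div_le_iff₀ (by positivity)]
    rw [div_le_iff₀ hε] at hm
    nlinarith
  have hS : ∀ F ∈ s.SS, F ≠ 0 → ∀ ε : ℝ, 0 < ε → ∀ᶠ i in (VV : Filter Ix),
      (F : ℂ → ℂ) (z i) ≠ 0 ∧ |Real.log ‖(F : ℂ → ℂ) (z i)‖| ≤ ε * Λ i := by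
    intro F hF hF0 ε hε
    obtain ⟨m, hm⟩ := exists_nat_ge (1 / ε)
    filter_upwards [hidx {F} m] with i hi
    have h1 := hz3 i F (hi.1 (Finset.mem_singleton_self F)) hF0
    refine ⟨(h1.1 (s.SS_GG hF)).1, (h1.2 hF).trans ?_⟩
    apply mul_le_mul_of_nonneg_right _ (hz2 i).le
    have h3 : (m : ℝ) ≤ i.2 := by exact_mod_cast hi.2
    rw [div_le_iff₀ (by positivity)]
    rw [div_le_iff₀ hε] at hm
    nlinarith
  have hSb : ∀ F ∈ s.SS, F ≠ 0 → ∀ ε : ℝ, 0 < ε → ∀ᶠ i in (VV : Filter Ix),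
      ‖(F : ℂ → ℂ) (z i)‖ ≤ Real.exp (ε * Λ i) ∧ ‖(F : ℂ → ℂ) (z i)‖⁻¹ ≤ Real.exp (ε * Λ i) := by
    intro F hF hF0 ε hε
    filter_upwards [hS F hF hF0 ε hε] with i hi
    have hpos := norm_pos_iff.mpr hi.1
    have h1 := abs_le.mp hi.2
    constructor
    · rw [← Real.log_le_iff_le_exp hpos]
      exact h1.2
    · rw [← Real.log_le_iff_le_exp (inv_pos.mpr hpos), Real.log_inv]
      linarith [h1.1]
  have hne : ∀ F ∈ s.GG, F ≠ 0 → evg z F ≠ 0 := by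
    intro F hF hF0 h
    have h2 : ((fun i => (F : ℂ → ℂ) (z i) : Ix → ℂ) : Germ (VV : Filter Ix) ℂ)
      = ((fun _ => 0 : Ix → ℂ) : Germ (VV : Filter Ix) ℂ) := h
    rw [Germ.coe_eq] at h2
    obtain ⟨i, h3, h4⟩ := (h2.and (hG F hF hF0 1 one_pos)).exists
    exact h4.1 h3
  refine ⟨{ K := Germ (VV : Filter Ix) ℂ
            ev := evg z
            Bd := BdG Λ
            Ng := NgG Λ
            bd_add := BdG_add hΛ
            bd_mul := BdG_mul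
            ng_add := NgG_add hΛ
            ng_mul := NgG_mul
            ng_bd := NgG_Bd hΛ
            ng_zero := NgG_zero
            ng_one := NgG_one hΛ
            s_bd := ?_
            s_ne := fun φ hφ h => hne φ (s.SS_GG hφ) h
            s_inv := ?_
            g_ne := hne
            g_ld := ?_
            dich := dichG }, ?_⟩
  · intro φ hφ
    by_cases h0 : φ = 0
    · rw [h0, map_zero]
      exact NgG_Bd hΛ NgG_zero
    · exact ⟨_, rfl, fun ε hε => (hSb φ hφ h0 ε hε).mono fun i hi => hi.1⟩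
  · intro φ hφ h0
    refine ⟨fun i => ((φ : ℂ → ℂ) (z i))⁻¹, rfl, fun ε hε => ?_⟩
    filter_upwards [hSb φ hφ h0 ε hε] with i hi
    rw [norm_inv]
    exact hi.2
  · intro F hF h0
    refine ⟨fun i => (Dv F : ℂ → ℂ) (z i) / (F : ℂ → ℂ) (z i), rfl, fun ε hε => ?_⟩
    filter_upwards [hG F hF h0 ε hε] with i hi
    rw [norm_div, div_le_iff₀ (norm_pos_iff.mpr hi.1)]
    exact hi.2
  · refine ⟨fun i => ((A : ℂ → ℂ) (z i))⁻¹, rfl, 1, one_pos, Eventually.of_forall fun i => ?_⟩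
    have h1 := hz2 i
    have hpos : 0 < ‖(A : ℂ → ℂ) (z i)‖ := by
      rcases (norm_nonneg ((A : ℂ → ℂ) (z i))).eq_or_lt with h | h
      · rw [← h, Real.log_zero] at h1
        exact absurd h1 (lt_irrefl _)
      · exact h
    rw [norm_inv, neg_one_mul, Real.exp_neg]
    apply le_of_eq
    congr 1
    exact (Real.exp_log hpos).symm

theorem cls : Cls s.GG s.SS :=
  ⟨s.SS_GG, s.GG_D, s.SS_D, s.LD, fun A _ hAS => s.exPlace A hAS⟩

end Scale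

end Pool.Agent.W671.ZA
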