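import Pool.Agent.H159R3.NV.Wron

/-!
Elementary facts about the differential ring of entire functions.
-/

set_option autoImplicit false

namespace Pool.Agent.W671.ZD

open Pool.Agent.H159R3.NV

/-- constants -/
noncomputable def cst : ℂ →+* Ent := algebraMap ℂ Ent

theorem cst_apply (c z : ℂ) : ((cst c : Ent) : ℂ → ℂ) z = c := rfl

theorem cst_inj {c d : ℂ} (h : cst c = cst d) : c = d := by
  have := congrFun (congrArg Subtype.val h) 0
  exact this

theorem cst_ne {c : ℂ} (h : c ≠ 0) : cst c ≠ 0 := by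
  intro h0
  apply h
  apply cst_inj
  rw [h0, map_zero]

theorem Dmul (a b : Ent) : Dv (a * b) = a * Dv b + Dv a * b := by
  rw [Derivation.leibniz, smul_eq_mul, smul_eq_mul, mul_comm b]

theorem Dcst (c : ℂ) : Dv (cst c) = 0 := Derivation.map_algebraMap _ _

theorem Done : Dv (1 : Ent) = 0 := Derivation.map_one_eq_zero _

theorem Dadd (a b : Ent) : Dv (a + b) = Dv a + Dv b := map_add _ _ _
theorem Dsub (a b : Ent) : Dv (a - b) = Dv a - Dv b := map_sub _ _ _
theorem Dneg (a : Ent) : Dv (-a) = - Dv a := map_neg _ _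
theorem Dzero : Dv (0 : Ent) = 0 := map_zero _
theorem Dpow2 (a : Ent) : Dv (a ^ 2) = 2 * a * Dv a := by
  rw [pow_two, Dmul]; ring
theorem Dpow3 (a : Ent) : Dv (a ^ 3) = 3 * a ^ 2 * Dv a := by
  rw [show a ^ 3 = a * a ^ 2 by ring, Dmul, Dpow2]; ring
theorem Dnum (n : ℕ) : Dv (n : Ent) = 0 := by
  have : (n : Ent) = cst n := by simp
  rw [this, Dcst]
theorem Dofnat (n : ℕ) [n.AtLeastTwo] : Dv (ofNat(n) : Ent) = 0 := Dnum n

theorem prop_of_D {a b : Ent} (hb : b ≠ 0) (h : a * Dv b = b * Dv a) : ∃ x : ℂ, a = cst x * b := by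
  obtain ⟨x, hx⟩ := prop_of_Dv b hb a h
  exact ⟨x, by rw [hx, Algebra.smul_def]; rfl⟩

theorem const_of_D {a : Ent} (h : Dv a = 0) : ∃ x : ℂ, a = cst x := by
  obtain ⟨x, hx⟩ := prop_of_D (a := a) (b := 1) one_ne_zero (by rw [Done, h]; ring)
  exact ⟨x, by rw [hx, mul_one]⟩

/-- the identity function -/
noncomputable def Zf : Ent := ⟨fun z => z, differentiable_id⟩

theorem DZf : Dv Zf = 1 := by
  apply Subtype.ext
  funext z
  rw [Dv_coe]
  exact deriv_id z

theorem ev_mul (a b : Ent) (z : ℂ) : ((a * b : Ent) : ℂ → ℂ) z = (a : ℂ → ℂ) z * (b : ℂ → ℂ) z := rfl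
theorem ev_add (a b : Ent) (z : ℂ) : ((a + b : Ent) : ℂ → ℂ) z = (a : ℂ → ℂ) z + (b : ℂ → ℂ) z := rfl
theorem ev_sub (a b : Ent) (z : ℂ) : ((a - b : Ent) : ℂ → ℂ) z = (a : ℂ → ℂ) z - (b : ℂ → ℂ) z := rfl
theorem ev_one (z : ℂ) : ((1 : Ent) : ℂ → ℂ) z = 1 := rfl
theorem ev_zero (z : ℂ) : ((0 : Ent) : ℂ → ℂ) z = 0 := rfl
theorem ev_Zf (z : ℂ) : (Zf : ℂ → ℂ) z = z := rfl

/-- `y' = γ y²` has only the trivial entire solution. -/
theorem riccati {y : Ent} {γ : ℂ} (hγ : γ ≠ 0) (h : Dv y = cst γ * y ^ 2) : y = 0 := by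
  by_contra hy
  obtain ⟨x, hx⟩ := prop_of_D (a := 1 + cst γ * Zf * y) hy (by
    rw [Dadd, Done, Dmul, Dmul, Dcst, DZf, h]; ring)
  have h1 := congrFun (congrArg Subtype.val hx) (x / γ)
  have h2 : (1 : ℂ) + γ * (x / γ) * (y : ℂ → ℂ) (x / γ) = x * (y : ℂ → ℂ) (x / γ) := h1
  have h3 : γ * (x / γ) = x := by field_simp
  rw [h3] at h2
  have : (1 : ℂ) = 0 := by linear_combination h2
  exact one_ne_zero this

/-- `r y' = s y²` with constants, not both zero: `y` is constant -/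
theorem riccati2 {y : Ent} {r s : ℂ} (hr : r ≠ 0 ∨ s ≠ 0) (h : cst r * Dv y = cst s * y ^ 2) :
    Dv y = 0 := by
  by_cases hs : s = 0
  · have hr' : r ≠ 0 := by
      rcases hr with hr | hr
      · exact hr
      · exact absurd hs hr
    rw [hs, map_zero, zero_mul] at h
    exact (mul_eq_zero.mp h).resolve_left (cst_ne hr')
  · by_cases hr0 : r = 0
    · rw [hr0, map_zero, zero_mul] at h
      have : y = 0 := by
        have := (mul_eq_zero.mp h.symm).resolve_left (cst_ne hs)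
        exact pow_eq_zero_iff (two_ne_zero) |>.mp this
      rw [this, Dzero]
    · have : Dv y = cst (s / r) * y ^ 2 := by
        apply mul_left_cancel₀ (cst_ne hr0)
        rw [h, ← mul_assoc, ← map_mul]
        congr 2
        field_simp
      rw [riccati (div_ne_zero hs hr0) this, Dzero]

/-- zero-free polynomials of degree at most two -/
theorem unit_cubic {X Xi β : Ent} (hX : X * Xi = 1) (hD : Dv X = β * X)
    (h : Dv (Dv β) + 3 * β * Dv β + β ^ 3 = 0) : β = 0 := by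
  have hXne : X ≠ 0 := left_ne_zero_of_mul_eq_one hX
  have h2 : Dv (Dv X) = (Dv β + β ^ 2) * X := by
    rw [hD, Dmul, hD]; ring
  have h3 : Dv (Dv (Dv X)) = 0 := by
    rw [h2, Dmul, Dadd, Dpow2, hD]
    linear_combination X * h
  obtain ⟨c2, hc2⟩ := const_of_D h3
  have h4 : Dv (Dv X - cst c2 * Zf) = 0 := by
    rw [Dsub, Dmul, Dcst, DZf, hc2]; ring
  obtain ⟨c1, hc1⟩ := const_of_D h4
  have h5 : Dv (2 * X - cst c2 * Zf ^ 2 - 2 * cst c1 * Zf) = 0 := by
    rw [Dsub, Dsub, Dmul, Dmul, Dmul, Dpow2, DZf, Dcst, Dmul, Dcst, Dofnat 2]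
    linear_combination 2 * hc1
  obtain ⟨c0, hc0⟩ := const_of_D h5
  have hev : ∀ z : ℂ, 2 * (X : ℂ → ℂ) z = c2 * (z * z) + 2 * c1 * z + c0 := by
    intro z
    have := congrFun (congrArg Subtype.val hc0) z
    have h6 : 2 * (X : ℂ → ℂ) z - c2 * z ^ 2 - 2 * c1 * z = c0 := this
    linear_combination h6
  have hXz : ∀ z, (X : ℂ → ℂ) z ≠ 0 := by
    intro z hz
    have := congrFun (congrArg Subtype.val hX) z
    have h6 : (X : ℂ → ℂ) z * (Xi : ℂ → ℂ) z = 1 := this
    rw [hz, zero_mul] at h6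
    exact zero_ne_one h6
  have hc20 : c2 = 0 := by
    by_contra hne
    obtain ⟨s, hs⟩ := IsAlgClosed.exists_pow_nat_eq (discrim c2 (2 * c1) c0) (n := 2) (by norm_num)
    obtain ⟨x, hx⟩ := exists_quadratic_eq_zero (a := c2) (b := 2 * c1) (c := c0) hne
      ⟨s, by rw [← hs]; ring⟩
    have := hev x
    apply hXz x
    have h7 : 2 * (X : ℂ → ℂ) x = 0 := by rw [this]; linear_combination hx
    exact (mul_eq_zero.mp h7).resolve_left two_ne_zero
  have hc10 : c1 = 0 := by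
    by_contra hne
    have := hev (-c0 / (2 * c1))
    apply hXz (-c0 / (2 * c1))
    have h7 : 2 * (X : ℂ → ℂ) (-c0 / (2 * c1)) = 0 := by
      rw [this, hc20]; field_simp; ring
    exact (mul_eq_zero.mp h7).resolve_left two_ne_zero
  have h8 : Dv X = 0 := by
    have : Dv X = cst c1 + cst c2 * Zf := by linear_combination hc1
    rw [this, hc10, hc20, map_zero]; ring
  rw [hD] at h8
  exact (mul_eq_zero.mp h8).resolve_right hXne

/-- `X' = β X`, `X` a unit, `β' = β²` forces `β = 0` -/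
theorem ric_pos {β : Ent} (h : Dv β = β ^ 2) : β = 0 :=
  riccati (γ := 1) one_ne_zero (by rw [h, map_one, one_mul])

theorem ric_neg {β : Ent} (h : Dv β = - β ^ 2) : β = 0 :=
  riccati (γ := -1) (by norm_num) (by rw [h, map_neg, map_one]; ring)

theorem ric_half {β : Ent} (h : 2 * Dv β = β ^ 2) : β = 0 := by
  apply riccati (γ := 1 / 2) (by norm_num)
  have h2 : (2 : Ent) * cst (1 / 2) = 1 := by
    have : (2 : Ent) = cst 2 := (map_ofNat cst 2).symm
    rw [this, ← map_mul]; norm_num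
  linear_combination (cst (1 / 2)) * h - (Dv β) * h2

end Pool.Agent.W671.ZD
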