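import Pool.Agent.W671.ZD2

/-!
The case of a small first logarithmic derivative.
-/

set_option autoImplicit false

namespace Pool.Agent.W671.ZD

open Pool.Agent.H159R3.NV

/-- the system satisfied by the logarithmic derivatives -/
structure Sy (N : ℕ) (a X Xi β : ℕ → Ent) : Prop where
  inv : ∀ n, n ≤ N → X n * Xi n = 1
  der : ∀ n, n ≤ N → Dv (X n) = β n * X n
  bet : ∀ n, n ≤ N → β n = a (n + 1) - a n
  rel : ∀ n, n < N → Dv (a n) * (X n - 1) * (X (n + 1) - 1) + a n ^ 2 * (X (n + 1) - X n)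
    - a n * β n * (X n * X (n + 1) - 1) = 0
  ane : ∀ n, n ≤ N + 1 → a n ≠ 0
  xne : ∀ n, n ≤ N → X n ≠ 1

theorem Sy.restr {N M : ℕ} {a X Xi β : ℕ → Ent} (h : Sy N a X Xi β) (hM : M ≤ N) :
    Sy M a X Xi β :=
  ⟨fun n hn => h.inv n (hn.trans hM), fun n hn => h.der n (hn.trans hM),
    fun n hn => h.bet n (hn.trans hM), fun n hn => h.rel n (hn.trans_le hM),
    fun n hn => h.ane n (by omega), fun n hn => h.xne n (hn.trans hM)⟩

theorem Sy.shift {N : ℕ} {a X Xi β : ℕ → Ent} (h : Sy (N + 1) a X Xi β) :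
    Sy N (fun n => a (n + 1)) (fun n => X (n + 1)) (fun n => Xi (n + 1)) (fun n => β (n + 1)) :=
  ⟨fun n hn => h.inv (n + 1) (by omega), fun n hn => h.der (n + 1) (by omega),
    fun n hn => h.bet (n + 1) (by omega), fun n hn => h.rel (n + 1) (by omega),
    fun n hn => h.ane (n + 1) (by omega), fun n hn => h.xne (n + 1) (by omega)⟩

/-- the symmetric system -/
theorem Sy.symm {N : ℕ} {a X Xi β : ℕ → Ent} (h : Sy N a X Xi β) :
    Sy N (fun n => - a n) Xi X (fun n => - β n) := by
  refine ⟨fun n hn => by rw [mul_comm]; exact h.inv n hn, fun n hn => ?_,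
    fun n hn => by rw [h.bet n hn]; ring, fun n hn => ?_,
    fun n hn => neg_ne_zero.mpr (h.ane n hn), fun n hn => ?_⟩
  · have h1 := h.inv n hn
    have h2 := h.der n hn
    have h3 : Dv (X n * Xi n) = 0 := by rw [h1, Done]
    rw [Dmul, h2] at h3
    have h4 : X n * (Dv (Xi n) + β n * Xi n) = 0 := by linear_combination h3
    have h5 := (mul_eq_zero.mp h4).resolve_left (left_ne_zero_of_mul_eq_one h1)
    linear_combination h5
  · have h1 := h.inv n hn.le
    have h2 := h.inv (n + 1) hn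
    have h3 := h.rel n hn
    rw [Dneg]
    have h4 : X n * X (n + 1) * (-Dv (a n) * (Xi n - 1) * (Xi (n + 1) - 1)
        + (-a n) ^ 2 * (Xi (n + 1) - Xi n) - (-a n) * (-β n) * (Xi n * Xi (n + 1) - 1)) = 0 := by
      have e : X n * X (n + 1) * (-Dv (a n) * (Xi n - 1) * (Xi (n + 1) - 1)
        + (-a n) ^ 2 * (Xi (n + 1) - Xi n) - (-a n) * (-β n) * (Xi n * Xi (n + 1) - 1))
        = -Dv (a n) * (X n * Xi n - X n) * (X (n + 1) * Xi (n + 1) - X (n + 1))
        + (a n) ^ 2 * (X n * (X (n + 1) * Xi (n + 1)) - X (n + 1) * (X n * Xi n))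
        - a n * β n * ((X n * Xi n) * (X (n + 1) * Xi (n + 1)) - X n * X (n + 1)) := by ring
      rw [e, h1, h2]
      linear_combination - h3
    have hne : X n * X (n + 1) ≠ 0 :=
      mul_ne_zero (left_ne_zero_of_mul_eq_one h1) (left_ne_zero_of_mul_eq_one h2)
    exact (mul_eq_zero.mp h4).resolve_left hne
  · intro h1
    have h2 := h.inv n hn
    rw [h1, mul_one] at h2
    exact h.xne n hn h2

/-- a non-small unit satisfies no quadratic equation -/
theorem Cls.uq {G S : Subalgebra ℂ Ent} (hc : Cls G S) {X Xi : Ent} (hX : X * Xi = 1)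
    (hG : X ∈ G) (hGi : Xi ∈ G) (hn : X ∉ S ∨ Xi ∉ S)
    {p2 p1 p0 : Ent} (h2 : p2 ∈ S) (h1 : p1 ∈ S) (h0 : p0 ∈ S)
    (h : p2 * X ^ 2 + p1 * X + p0 = 0) : p2 = 0 ∧ p1 = 0 ∧ p0 = 0 := by
  rcases hn with hn | hn
  · exact hc.rb hG hn h2 h1 h0 h
  · obtain ⟨a1, a2, a3⟩ := hc.rb hGi hn h0 h1 h2 (by
      have e : p0 * Xi ^ 2 + p1 * Xi + p2 = Xi ^ 2 * (p2 * X ^ 2 + p1 * X + p0)
          - p2 * (X * Xi + 1) * (X * Xi - 1) - p1 * Xi * (X * Xi - 1) := by ring
      rw [e, h, hX]; ring)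
    exact ⟨a3, a2, a1⟩

theorem Cls.ul {G S : Subalgebra ℂ Ent} (hc : Cls G S) {X Xi : Ent} (hX : X * Xi = 1)
    (hG : X ∈ G) (hGi : Xi ∈ G) (hn : X ∉ S ∨ Xi ∉ S)
    {p1 p0 : Ent} (h1 : p1 ∈ S) (h0 : p0 ∈ S)
    (h : p1 * X + p0 = 0) : p1 = 0 ∧ p0 = 0 :=
  (hc.uq hX hG hGi hn S.zero_mem h1 h0 (by linear_combination h)).2

theorem sq_eq_or {a b : Ent} (h : a ^ 2 = b ^ 2) (hab : a + b ≠ 0) : b = a := by
  have h1 : (a + b) * (a - b) = 0 := by linear_combination h
  have h2 := (mul_eq_zero.mp h1).resolve_left hab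
  linear_combination -h2

/-- one step -/
theorem caseB_step {G S : Subalgebra ℂ Ent} (hc : Cls G S) {a β γ X Xi Y Yi : Ent}
    (ha : a ∈ S) (hβ : β ∈ S) (hγ : γ ∈ S) (hX : X * Xi = 1) (hY : Y * Yi = 1)
    (hXG : X ∈ G) (hXiG : Xi ∈ G) (hYG : Y ∈ G) (hYiG : Yi ∈ G)
    (hDX : Dv X = β * X) (hDY : Dv Y = γ * Y)
    (hR : Dv a * (X - 1) * (Y - 1) + a ^ 2 * (Y - X) - a * β * (X * Y - 1) = 0)
    (ha0 : a ≠ 0) (hab : a + β ≠ 0) (hX1 : X ≠ 1) : Y ∈ S ∧ Yi ∈ S := by
  by_contra hcon
  have hYn : Y ∉ S ∨ Yi ∉ S := by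
    by_cases h : Y ∈ S
    · right; intro h2; exact hcon ⟨h, h2⟩
    · left; exact h
  have hY0 : Y ≠ 0 := left_ne_zero_of_mul_eq_one hY
  have hDa : Dv a ∈ S := hc.DS a ha
  have hDDa : Dv (Dv a) ∈ S := hc.DS _ hDa
  have hDβ : Dv β ∈ S := hc.DS β hβ
  have hp : Dv a + a ^ 2 ≠ 0 := fun h => ha0 (ric_neg (by linear_combination h))
  have hm : Dv a - a ^ 2 ≠ 0 := fun h => ha0 (ric_pos (by linear_combination h))
  by_cases hXS : X ∈ S
  · obtain ⟨h1, h2⟩ := hc.ul hY hYG hYiG hYn
      (p1 := (Dv a - a * β) * X - (Dv a - a ^ 2)) (p0 := - (Dv a + a ^ 2) * X + (Dv a + a * β))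
      (by (repeat' first | assumption | exact Subalgebra.zero_mem _ | exact Subalgebra.one_mem _ | exact num_mem _ _ | exact cst_mem _ _ | apply Subalgebra.add_mem | apply Subalgebra.sub_mem | apply Subalgebra.mul_mem | apply Subalgebra.pow_mem | apply Subalgebra.neg_mem | apply hc.DS)) (by (repeat' first | assumption | exact Subalgebra.zero_mem _ | exact Subalgebra.one_mem _ | exact num_mem _ _ | exact cst_mem _ _ | apply Subalgebra.add_mem | apply Subalgebra.sub_mem | apply Subalgebra.mul_mem | apply Subalgebra.pow_mem | apply Subalgebra.neg_mem | apply hc.DS)) (by linear_combination hR)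
    have h3 : a ^ 2 * (a ^ 2 - β ^ 2) = 0 := by
      linear_combination (Dv a + a ^ 2) * h1 + (Dv a - a * β) * h2
    have h4 := (mul_eq_zero.mp h3).resolve_left (pow_ne_zero 2 ha0)
    have h5 := sq_eq_or (sub_eq_zero.mp h4) hab
    rw [h5] at h1
    have h6 : (Dv a - a ^ 2) * (X - 1) = 0 := by linear_combination h1
    rcases mul_eq_zero.mp h6 with h7 | h7
    · exact hm h7
    · exact hX1 (sub_eq_zero.mp h7)
  · -- both large
    have hXn : X ∉ S ∨ Xi ∉ S := Or.inl hXS
    set c11 : Ent := Dv a - a * β with hc11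
    set c10 : Ent := - (Dv a + a ^ 2) with hc10
    set c01 : Ent := - (Dv a - a ^ 2) with hc01
    set c00 : Ent := Dv a + a * β with hc00
    have m11 : c11 ∈ S := by rw [hc11]; (repeat' first | assumption | exact Subalgebra.zero_mem _ | exact Subalgebra.one_mem _ | exact num_mem _ _ | exact cst_mem _ _ | apply Subalgebra.add_mem | apply Subalgebra.sub_mem | apply Subalgebra.mul_mem | apply Subalgebra.pow_mem | apply Subalgebra.neg_mem | apply hc.DS)
    have m10 : c10 ∈ S := by rw [hc10]; (repeat' first | assumption | exact Subalgebra.zero_mem _ | exact Subalgebra.one_mem _ | exact num_mem _ _ | exact cst_mem _ _ | apply Subalgebra.add_mem | apply Subalgebra.sub_mem | apply Subalgebra.mul_mem | apply Subalgebra.pow_mem | apply Subalgebra.neg_mem | apply hc.DS)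
    have m01 : c01 ∈ S := by rw [hc01]; (repeat' first | assumption | exact Subalgebra.zero_mem _ | exact Subalgebra.one_mem _ | exact num_mem _ _ | exact cst_mem _ _ | apply Subalgebra.add_mem | apply Subalgebra.sub_mem | apply Subalgebra.mul_mem | apply Subalgebra.pow_mem | apply Subalgebra.neg_mem | apply hc.DS)
    have m00 : c00 ∈ S := by rw [hc00]; (repeat' first | assumption | exact Subalgebra.zero_mem _ | exact Subalgebra.one_mem _ | exact num_mem _ _ | exact cst_mem _ _ | apply Subalgebra.add_mem | apply Subalgebra.sub_mem | apply Subalgebra.mul_mem | apply Subalgebra.pow_mem | apply Subalgebra.neg_mem | apply hc.DS)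
    have hrel : (c11 * X + c01) * Y + (c10 * X + c00) = 0 := by
      rw [hc11, hc10, hc01, hc00]; linear_combination hR
    have hder : (Dv c11 * X + c11 * (β * X) + Dv c01) * Y + (c11 * X + c01) * (γ * Y)
        + (Dv c10 * X + c10 * (β * X) + Dv c00) = 0 := by
      have h1 := congrArg Dv hrel
      simp only [Dadd, Dmul, Dzero, hDX, hDY] at h1
      linear_combination h1
    obtain ⟨q2, _, q0⟩ := hc.uq hX hXG hXiG hXn
      (p2 := c11 * Dv c10 - c10 * (Dv c11 + γ * c11))
      (p1 := (c11 * Dv c00 + c01 * (Dv c10 + β * c10)) - (c00 * (Dv c11 + β * c11 + γ * c11)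
        + c10 * (Dv c01 + γ * c01)))
      (p0 := c01 * Dv c00 - c00 * (Dv c01 + γ * c01))
      (by (repeat' first | assumption | exact Subalgebra.zero_mem _ | exact Subalgebra.one_mem _ | exact num_mem _ _ | exact cst_mem _ _ | apply Subalgebra.add_mem | apply Subalgebra.sub_mem | apply Subalgebra.mul_mem | apply Subalgebra.pow_mem | apply Subalgebra.neg_mem | apply hc.DS)) (by (repeat' first | assumption | exact Subalgebra.zero_mem _ | exact Subalgebra.one_mem _ | exact num_mem _ _ | exact cst_mem _ _ | apply Subalgebra.add_mem | apply Subalgebra.sub_mem | apply Subalgebra.mul_mem | apply Subalgebra.pow_mem | apply Subalgebra.neg_mem | apply hc.DS)) (by (repeat' first | assumption | exact Subalgebra.zero_mem _ | exact Subalgebra.one_mem _ | exact num_mem _ _ | exact cst_mem _ _ | apply Subalgebra.add_mem | apply Subalgebra.sub_mem | apply Subalgebra.mul_mem | apply Subalgebra.pow_mem | apply Subalgebra.neg_mem | apply hc.DS)) (by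
        linear_combination (c11 * X + c01) * hder
          - ((Dv c11 * X + c11 * (β * X) + Dv c01) + (c11 * X + c01) * γ) * hrel)
    have e11 : c11 = 0 := by
      by_contra hne
      obtain ⟨x, hx⟩ := prop_of_D (a := c10) (b := c11 * Y) (mul_ne_zero hne hY0) (by
        rw [Dmul, hDY]; linear_combination (- Y) * q2)
      have := hc.ul hY hYG hYiG hYn (p1 := cst x * c11) (p0 := - c10) (by (repeat' first | assumption | exact Subalgebra.zero_mem _ | exact Subalgebra.one_mem _ | exact num_mem _ _ | exact cst_mem _ _ | apply Subalgebra.add_mem | apply Subalgebra.sub_mem | apply Subalgebra.mul_mem | apply Subalgebra.pow_mem | apply Subalgebra.neg_mem | apply hc.DS))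
        (by (repeat' first | assumption | exact Subalgebra.zero_mem _ | exact Subalgebra.one_mem _ | exact num_mem _ _ | exact cst_mem _ _ | apply Subalgebra.add_mem | apply Subalgebra.sub_mem | apply Subalgebra.mul_mem | apply Subalgebra.pow_mem | apply Subalgebra.neg_mem | apply hc.DS)) (by rw [hx]; ring)
      have h7 : c10 = 0 := neg_eq_zero.mp this.2
      rw [hc10] at h7
      exact hp (neg_eq_zero.mp h7)
    have hc01ne : c01 ≠ 0 := by rw [hc01]; exact neg_ne_zero.mpr hm
    have e00 : c00 = 0 := by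
      obtain ⟨x, hx⟩ := prop_of_D (a := c00) (b := c01 * Y) (mul_ne_zero hc01ne hY0) (by
        rw [Dmul, hDY]; linear_combination (- Y) * q0)
      have := hc.ul hY hYG hYiG hYn (p1 := cst x * c01) (p0 := - c00) (by (repeat' first | assumption | exact Subalgebra.zero_mem _ | exact Subalgebra.one_mem _ | exact num_mem _ _ | exact cst_mem _ _ | apply Subalgebra.add_mem | apply Subalgebra.sub_mem | apply Subalgebra.mul_mem | apply Subalgebra.pow_mem | apply Subalgebra.neg_mem | apply hc.DS))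
        (by (repeat' first | assumption | exact Subalgebra.zero_mem _ | exact Subalgebra.one_mem _ | exact num_mem _ _ | exact cst_mem _ _ | apply Subalgebra.add_mem | apply Subalgebra.sub_mem | apply Subalgebra.mul_mem | apply Subalgebra.pow_mem | apply Subalgebra.neg_mem | apply hc.DS)) (by rw [hx]; ring)
      exact neg_eq_zero.mp this.2
    rw [hc11] at e11
    rw [hc00] at e00
    have h8 : 2 * a * β = 0 := by linear_combination e00 - e11
    have h2ne : (2 : Ent) ≠ 0 := by
      rw [show (2 : Ent) = cst 2 from (map_ofNat cst 2).symm]; exact cst_ne two_ne_zero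
    have h9 : β = 0 := (mul_eq_zero.mp h8).resolve_left (mul_ne_zero h2ne ha0)
    have h10 : Dv X = 0 := by rw [hDX, h9, zero_mul]
    obtain ⟨x, hx⟩ := const_of_D h10
    exact hXS (hx ▸ cst_mem S x)

theorem caseB {G S : Subalgebra ℂ Ent} (hc : Cls G S) {N : ℕ} {a X Xi β : ℕ → Ent}
    (sy : Sy (N + 1) a X Xi β) (hXG : ∀ n, n ≤ N + 1 → X n ∈ G) (hXiG : ∀ n, n ≤ N + 1 → Xi n ∈ G)
    (ha : a 0 ∈ S) (hw : ∃ n, n ≤ N + 1 ∧ (X n ∉ S ∨ Xi n ∉ S)) :
    (X 1 ∈ S ∧ Xi 1 ∈ S) ∧ (X 0 ∉ S ∨ Xi 0 ∉ S) ∧ β 0 = a 0 := by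
  have hβ : ∀ n, n ≤ N + 1 → β n ∈ S := fun n hn =>
    hc.LD (X n) (hXG n hn) (left_ne_zero_of_mul_eq_one (sy.inv n hn)) (β n) (sy.der n hn).symm
  have haS : ∀ n, n ≤ N + 2 → a n ∈ S := by
    intro n
    induction n with
    | zero => intro _; exact ha
    | succ n ih =>
      intro hn
      have h1 := sy.bet n (by omega)
      have h2 : a (n + 1) = a n + β n := by rw [h1]; ring
      rw [h2]
      exact S.add_mem (ih (by omega)) (hβ n (by omega))
  have hst : ∀ n, n < N + 1 → X (n + 1) ∈ S ∧ Xi (n + 1) ∈ S := by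
    intro n hn
    exact caseB_step hc (haS n (by omega)) (hβ n hn.le) (hβ (n + 1) hn) (sy.inv n hn.le)
      (sy.inv (n + 1) hn) (hXG n hn.le) (hXiG n hn.le) (hXG (n + 1) hn) (hXiG (n + 1) hn)
      (sy.der n hn.le) (sy.der (n + 1) hn) (sy.rel n hn) (sy.ane n (by omega))
      (by
        have h1 := sy.bet n hn.le
        have h2 : a n + β n = a (n + 1) := by rw [h1]; ring
        rw [h2]
        exact sy.ane (n + 1) (by omega))
      (sy.xne n hn.le)
  have h1 := hst 0 (by omega)
  rw [zero_add] at h1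
  have h0 : X 0 ∉ S ∨ Xi 0 ∉ S := by
    obtain ⟨n, hn, hnS⟩ := hw
    cases n with
    | zero => exact hnS
    | succ n =>
      have := hst n (by omega)
      rcases hnS with h | h
      · exact absurd this.1 h
      · exact absurd this.2 h
  refine ⟨h1, h0, ?_⟩
  have ha0 : a 0 ≠ 0 := sy.ane 0 (by omega)
  have hab : a 0 + β 0 ≠ 0 := by
    have h1 := sy.bet 0 (by omega)
    have h2 : a 0 + β 0 = a 1 := by rw [h1]; ring
    rw [h2]
    exact sy.ane 1 (by omega)
  have hR := sy.rel 0 (by omega)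
  rw [zero_add] at hR
  have mβ := hβ 0 (by omega)
  have m1 := h1.1
  obtain ⟨h2, h3⟩ := hc.ul (sy.inv 0 (by omega)) (hXG 0 (by omega)) (hXiG 0 (by omega)) h0
    (p1 := (Dv (a 0) - a 0 * β 0) * X 1 - (Dv (a 0) + a 0 ^ 2))
    (p0 := - (Dv (a 0) - a 0 ^ 2) * X 1 + (Dv (a 0) + a 0 * β 0))
    (by (repeat' first | assumption | exact Subalgebra.zero_mem _ | exact Subalgebra.one_mem _ | exact num_mem _ _ | exact cst_mem _ _ | apply Subalgebra.add_mem | apply Subalgebra.sub_mem | apply Subalgebra.mul_mem | apply Subalgebra.pow_mem | apply Subalgebra.neg_mem | apply hc.DS)) (by (repeat' first | assumption | exact Subalgebra.zero_mem _ | exact Subalgebra.one_mem _ | exact num_mem _ _ | exact cst_mem _ _ | apply Subalgebra.add_mem | apply Subalgebra.sub_mem | apply Subalgebra.mul_mem | apply Subalgebra.pow_mem | apply Subalgebra.neg_mem | apply hc.DS)) (by linear_combination hR)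
  have h4 : a 0 ^ 2 * (a 0 ^ 2 - β 0 ^ 2) = 0 := by
    linear_combination (Dv (a 0) - a 0 ^ 2) * h2 + (Dv (a 0) - a 0 * β 0) * h3
  have h5 := (mul_eq_zero.mp h4).resolve_left (pow_ne_zero 2 ha0)
  exact sq_eq_or (sub_eq_zero.mp h5) hab

end Pool.Agent.W671.ZD
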