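import Pool.Agent.W671.ZD3

/-!
Two consecutive constant ratios are impossible at a place of large logarithmic derivative.
-/

set_option autoImplicit false

namespace Pool.Agent.W671.ZD

open Pool.Agent.H159R3.NV

theorem step5 {G S : Subalgebra ℂ Ent} (hc : Cls G S) (p : Place G S) {a β X Xi : Ent}
    {κ κ' : ℂ} (haG : a ∈ G) (hX : X * Xi = 1) (hXG : X ∈ G) (hD : Dv X = β * X) (hβ : β ∈ S)
    (ha : p.Ng (p.ev a)⁻¹) (ha0 : a ≠ 0) (hx : p.Bd (p.ev a * p.ev X))
    (R1 : Dv a * (X - 1) * (cst κ * X - 1) + a ^ 2 * (cst κ * X - X)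
      - a * β * (X * (cst κ * X) - 1) = 0)
    (R2 : Dv (a + β) * (cst κ * X - 1) * (cst κ' * (cst κ * X) - 1)
      + (a + β) ^ 2 * (cst κ' * (cst κ * X) - cst κ * X)
      - (a + β) * β * ((cst κ * X) * (cst κ' * (cst κ * X)) - 1) = 0) : False := by
  have mDβ : Dv β ∈ S := hc.DS _ hβ
  have mDDβ : Dv (Dv β) ∈ S := hc.DS _ mDβ
  have hX0 : X ≠ 0 := left_ne_zero_of_mul_eq_one hX
  -- the exponent is not constant
  have hβ0 : β ≠ 0 := by
    intro h0
    obtain ⟨c, hcc⟩ := const_of_D (a := X) (by rw [hD, h0, zero_mul])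
    have hcS : X ∈ S := by rw [hcc]; exact cst_mem S c
    have h1 := p.bd_mul hx (p.s_inv X hcS hX0)
    rw [mul_inv_cancel_right₀ (p.s_ne X hcS hX0)] at h1
    have h2 := p.ng_mul h1 ha
    rw [mul_inv_cancel₀ (p.g_ne a haG ha0)] at h2
    exact p.ng_one h2
  set al := p.ev a with hal
  have hal0 : al ≠ 0 := p.g_ne a haG ha0
  set i := al⁻¹ with hi
  have hali : al * i = 1 := mul_inv_cancel₀ hal0
  set x := al * p.ev X with hxdef
  have hXx : p.ev X = i * x := by rw [hxdef, hi]; field_simp
  set l := p.ev (Dv a) / al with hl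
  have hlB : p.Bd l := p.g_ld a haG ha0
  have hDa : p.ev (Dv a) = al * l := by rw [hl]; field_simp
  set b := p.ev β with hb
  set b1 := p.ev (Dv β) with hb1
  set b2 := p.ev (Dv (Dv β)) with hb2
  set k := p.ev (cst κ) with hk
  set k' := p.ev (cst κ') with hk'
  have Bb : p.Bd b := p.s_bd _ hβ
  have Bb1 : p.Bd b1 := p.s_bd _ mDβ
  have Bb2 : p.Bd b2 := p.s_bd _ mDDβ
  have Bk : p.Bd k := p.bd_cst κ
  have Bk' : p.Bd k' := p.bd_cst κ'
  have Bi : p.Bd i := p.ng_bd ha
  -- first relation
  have r1 : al * l * (i * x - 1) * (k * (i * x) - 1) + al ^ 2 * (k * (i * x) - i * x)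
      - al * b * (i * x * (k * (i * x)) - 1) = 0 := by
    have := congrArg p.ev R1
    simp only [map_add, map_sub, map_mul, map_pow, map_one, map_zero] at this
    rw [hDa, hXx] at this
    exact this
  have r2 : (al * l + b1) * (k * (i * x) - 1) * (k' * (k * (i * x)) - 1)
      + (al + b) ^ 2 * (k' * (k * (i * x)) - k * (i * x))
      - (al + b) * b * ((k * (i * x)) * (k' * (k * (i * x))) - 1) = 0 := by
    have := congrArg p.ev R2
    simp only [map_add, map_sub, map_mul, map_pow, map_one, map_zero] at this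
    rw [hDa, hXx] at this
    exact this
  have hi0 : i ≠ 0 := inv_ne_zero hal0
  have r1' : l * (i * x - 1) * (k * (i * x) - 1) + (k - 1) * x
      - b * (i * x * (k * (i * x)) - 1) = 0 := by
    have e : i * (al * l * (i * x - 1) * (k * (i * x) - 1) + al ^ 2 * (k * (i * x) - i * x)
      - al * b * (i * x * (k * (i * x)) - 1)) = (al * i) * l * (i * x - 1) * (k * (i * x) - 1)
      + (al * i) ^ 2 * (k - 1) * x - (al * i) * b * (i * x * (k * (i * x)) - 1) := by ring
    rw [r1, hali] at e
    linear_combination -e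
  have r2' : (l + i * b1) * (k * (i * x) - 1) * (k' * (k * (i * x)) - 1)
      + (1 + i * b) ^ 2 * (k' * k * x - k * x)
      - (1 + i * b) * b * ((k * (i * x)) * (k' * (k * (i * x))) - 1) = 0 := by
    have e : i * ((al * l + b1) * (k * (i * x) - 1) * (k' * (k * (i * x)) - 1)
      + (al + b) ^ 2 * (k' * (k * (i * x)) - k * (i * x))
      - (al + b) * b * ((k * (i * x)) * (k' * (k * (i * x))) - 1))
      = ((al * i) * l + i * b1) * (k * (i * x) - 1) * (k' * (k * (i * x)) - 1)
      + ((al * i) + i * b) ^ 2 * (k' * k * x - k * x)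
      - ((al * i) + i * b) * b * ((k * (i * x)) * (k' * (k * (i * x))) - 1) := by ring
    rw [r2, hali] at e
    linear_combination -e
  have r1B := r1'
  -- J
  have hJ : p.Ng (l + b + (k - 1) * x) := by
    have e : l + b + (k - 1) * x = - (i * (l * (k * i * x ^ 2 - (k + 1) * x) - b * k * i * x ^ 2)) := by
      linear_combination r1'
    rw [e]
    exact p.ng_neg (p.ng_mul' ha (by (repeat' first | assumption | exact Place.bd_zero p | exact Place.bd_one p | exact Place.bd_num p _ | exact Place.bd_cst p _ | apply Place.bd_add p | apply Place.bd_sub p | apply Place.bd_mul p | apply Place.bd_pow p | apply Place.bd_neg p)))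
  have E3 : b1 + b ^ 2 + (k * k' - 2 * k + 1) * (al * x) + 2 * k * (k' - 1) * b * x
      - (k * k' - 1) * l * x = - (i * (l * (k ^ 2 * k' - k) * x ^ 2 - b1 * k * (1 + k') * x
        + b ^ 2 * k * (k' - 1) * x + b * k * x ^ 2 - (1 + i * b) * b * k ^ 2 * k' * x ^ 2
        + i * b1 * k ^ 2 * k' * x ^ 2)) := by
    apply mul_left_cancel₀ hi0
    linear_combination r2' - r1' + ((k * k' - 2 * k + 1) * x) * hali
  have hE3 : p.Ng (b1 + b ^ 2 + (k * k' - 2 * k + 1) * (al * x) + 2 * k * (k' - 1) * b * x
      - (k * k' - 1) * l * x) := by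
    rw [E3]
    exact p.ng_neg (p.ng_mul' ha (by (repeat' first | assumption | exact Place.bd_zero p | exact Place.bd_one p | exact Place.bd_num p _ | exact Place.bd_cst p _ | apply Place.bd_add p | apply Place.bd_sub p | apply Place.bd_mul p | apply Place.bd_pow p | apply Place.bd_neg p)))
  by_cases hτ : κ * κ' - 2 * κ + 1 = 0
  · -- the quadratic case
    have hτk : k * k' - 2 * k + 1 = 0 := by
      have := congrArg (fun c => p.ev (cst c)) hτ
      simp only [map_add, map_sub, map_mul, map_one, map_zero, map_ofNat] at this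
      exact this
    set γ := b1 + b ^ 2 with hγ
    set u := (k - 1) * x with hu
    have Bu : p.Bd u := by rw [hu]; (repeat' first | assumption | exact Place.bd_zero p | exact Place.bd_one p | exact Place.bd_num p _ | exact Place.bd_cst p _ | apply Place.bd_add p | apply Place.bd_sub p | apply Place.bd_mul p | apply Place.bd_pow p | apply Place.bd_neg p)
    have hQ : p.Ng (2 * u ^ 2 + 4 * b * u + γ) := by
      have e : 2 * u ^ 2 + 4 * b * u + γ = (b1 + b ^ 2 + (k * k' - 2 * k + 1) * (al * x)
          + 2 * k * (k' - 1) * b * x - (k * k' - 1) * l * x) + 2 * u * (l + b + (k - 1) * x) := by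
        rw [hγ, hu]
        linear_combination (- al * x - 2 * b * x + l * x) * hτk
      rw [e]
      exact p.ng_add hE3 (p.ng_mul (by (repeat' first | assumption | exact Place.bd_zero p | exact Place.bd_one p | exact Place.bd_num p _ | exact Place.bd_cst p _ | apply Place.bd_add p | apply Place.bd_sub p | apply Place.bd_mul p | apply Place.bd_pow p | apply Place.bd_neg p)) hJ)
    -- entire representatives
    have hevU : p.ev (cst (κ - 1) * a * X) = u := by
      rw [map_mul, map_mul, map_sub, map_sub, map_one, map_one, hu, hxdef]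
      ring
    have hevDU : p.ev (Dv (cst (κ - 1) * a * X)) = u * (l + b) := by
      have e : Dv (cst (κ - 1) * a * X) = cst (κ - 1) * Dv a * X + cst (κ - 1) * a * (β * X) := by
        rw [Dmul, Dmul, Dcst, hD]; ring
      rw [e]
      simp only [map_add, map_mul, map_sub, map_one]
      rw [hDa, hu, hxdef, ← hk, ← hb, ← hal]
      ring
    obtain ⟨U, hU⟩ : ∃ U : Ent, U = cst (κ - 1) * a * X := ⟨_, rfl⟩
    rw [← hU] at hevU hevDU
    have hUG : U ∈ G := by
      rw [hU]
      exact G.mul_mem (G.mul_mem (cst_mem G _) haG) hXG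
    have hDUG : Dv U ∈ G := hc.DG U hUG
    have gβ : β ∈ G := hc.SG hβ
    have gβ1 : Dv β ∈ G := hc.SG mDβ
    have gβ2 : Dv (Dv β) ∈ G := hc.SG mDDβ
    have hQD : p.Ng (4 * u * (u * (l + b)) + 4 * b1 * u + 4 * b * (u * (l + b)) + b2
        + 2 * b * b1) := by
      have h1 := p.ng_D (F := 2 * U ^ 2 + 4 * β * U + (Dv β + β ^ 2)) (by (repeat' first | assumption | exact Subalgebra.zero_mem _ | exact Subalgebra.one_mem _ | exact num_mem _ _ | exact cst_mem _ _ | apply Subalgebra.add_mem | apply Subalgebra.sub_mem | apply Subalgebra.mul_mem | apply Subalgebra.pow_mem | apply Subalgebra.neg_mem | apply hc.DG)) (by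
        have e : p.ev (2 * U ^ 2 + 4 * β * U + (Dv β + β ^ 2)) = 2 * u ^ 2 + 4 * b * u + γ := by
          simp only [map_add, map_mul, map_pow, map_ofNat, hevU]
          rfl
        rw [e]; exact hQ)
      have e : p.ev (Dv (2 * U ^ 2 + 4 * β * U + (Dv β + β ^ 2)))
          = 4 * u * (u * (l + b)) + 4 * b1 * u + 4 * b * (u * (l + b)) + b2 + 2 * b * b1 := by
        have e0 : Dv (2 * U ^ 2 + 4 * β * U + (Dv β + β ^ 2)) = 4 * U * Dv U + 4 * Dv β * U
            + 4 * β * Dv U + Dv (Dv β) + 2 * β * Dv β := by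
          simp only [Dadd, Dmul, Dpow2, Dofnat]
          ring
        rw [e0]
        simp only [map_add, map_mul, map_ofNat, hevU, hevDU]
        rfl
      rw [e] at h1
      exact h1
    set J := l + b + (k - 1) * x with hJdef
    have hJu : l + b = J - u := by rw [hJdef, hu]; ring
    have hMN : p.Ng (6 * (b1 - b ^ 2) * u + (b2 - 2 * b ^ 3)) := by
      have e : 6 * (b1 - b ^ 2) * u + (b2 - 2 * b ^ 3)
          = (4 * u * (u * (l + b)) + 4 * b1 * u + 4 * b * (u * (l + b)) + b2 + 2 * b * b1)
            - (4 * u ^ 2 + 4 * b * u) * J + (2 * u - 2 * b) * (2 * u ^ 2 + 4 * b * u + γ) := by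
        rw [hJu, hγ]; ring
      rw [e]
      exact p.ng_add (p.ng_sub hQD (p.ng_mul (by (repeat' first | assumption | exact Place.bd_zero p | exact Place.bd_one p | exact Place.bd_num p _ | exact Place.bd_cst p _ | apply Place.bd_add p | apply Place.bd_sub p | apply Place.bd_mul p | apply Place.bd_pow p | apply Place.bd_neg p)) hJ)) (p.ng_mul (by (repeat' first | assumption | exact Place.bd_zero p | exact Place.bd_one p | exact Place.bd_num p _ | exact Place.bd_cst p _ | apply Place.bd_add p | apply Place.bd_sub p | apply Place.bd_mul p | apply Place.bd_pow p | apply Place.bd_neg p)) hQ)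
    obtain ⟨M, hM⟩ : ∃ M : Ent, M = 6 * (Dv β - β ^ 2) := ⟨_, rfl⟩
    obtain ⟨Nn, hN⟩ : ∃ M : Ent, M = Dv (Dv β) - 2 * β ^ 3 := ⟨_, rfl⟩
    have mM : M ∈ S := by rw [hM]; (repeat' first | assumption | exact Subalgebra.zero_mem _ | exact Subalgebra.one_mem _ | exact num_mem _ _ | exact cst_mem _ _ | apply Subalgebra.add_mem | apply Subalgebra.sub_mem | apply Subalgebra.mul_mem | apply Subalgebra.pow_mem | apply Subalgebra.neg_mem | apply hc.DS)
    have mN : Nn ∈ S := by rw [hN]; (repeat' first | assumption | exact Subalgebra.zero_mem _ | exact Subalgebra.one_mem _ | exact num_mem _ _ | exact cst_mem _ _ | apply Subalgebra.add_mem | apply Subalgebra.sub_mem | apply Subalgebra.mul_mem | apply Subalgebra.pow_mem | apply Subalgebra.neg_mem | apply hc.DS)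
    have mDM : Dv M ∈ S := hc.DS _ mM
    have mDN : Dv Nn ∈ S := hc.DS _ mN
    have gM : M ∈ G := hc.SG mM
    have gN : Nn ∈ G := hc.SG mN
    have gDβ := gβ1
    have evM : p.ev M = 6 * (b1 - b ^ 2) := by
      rw [hM]; simp only [map_mul, map_sub, map_pow, map_ofNat]; rfl
    have evN : p.ev Nn = b2 - 2 * b ^ 3 := by
      rw [hN]; simp only [map_mul, map_sub, map_pow, map_ofNat]; rfl
    have hM0 : M ≠ 0 := by
      intro h0
      rw [hM] at h0
      have h6 : (6 : Ent) ≠ 0 := by
        rw [show (6 : Ent) = cst 6 from (map_ofNat cst 6).symm]; exact cst_ne (by norm_num)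
      have h1 := (mul_eq_zero.mp h0).resolve_left h6
      exact hβ0 (ric_pos (sub_eq_zero.mp h1))
    set m := p.ev M with hm
    set n := p.ev Nn with hn
    set m1 := p.ev (Dv M) with hm1
    set n1 := p.ev (Dv Nn) with hn1
    have Bm : p.Bd m := p.s_bd _ mM
    have Bn : p.Bd n := p.s_bd _ mN
    have Bm1 : p.Bd m1 := p.s_bd _ mDM
    have Bn1 : p.Bd n1 := p.s_bd _ mDN
    rw [← evM, ← evN] at hMN
    have hMND : p.Ng (m1 * u + m * (u * (l + b)) + n1) := by
      have h1 := p.ng_D (F := M * U + Nn) (by (repeat' first | assumption | exact Subalgebra.zero_mem _ | exact Subalgebra.one_mem _ | exact num_mem _ _ | exact cst_mem _ _ | apply Subalgebra.add_mem | apply Subalgebra.sub_mem | apply Subalgebra.mul_mem | apply Subalgebra.pow_mem | apply Subalgebra.neg_mem | apply hc.DG)) (by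
        rw [map_add, map_mul, hevU]; exact hMN)
      have e : p.ev (Dv (M * U + Nn)) = m1 * u + m * (u * (l + b)) + n1 := by
        have e0 : Dv (M * U + Nn) = Dv M * U + M * Dv U + Dv Nn := by
          rw [Dadd, Dmul]; ring
        rw [e0]
        simp only [map_add, map_mul, hevU, hevDU]
        rfl
      rw [e] at h1
      exact h1
    set Y := m * u + n with hY
    have BY : p.Bd Y := p.ng_bd hMN
    have hx1 : Dv Nn * M - Dv M * Nn - Nn ^ 2 = 0 := by
      apply p.s_ng (by (repeat' first | assumption | exact Subalgebra.zero_mem _ | exact Subalgebra.one_mem _ | exact num_mem _ _ | exact cst_mem _ _ | apply Subalgebra.add_mem | apply Subalgebra.sub_mem | apply Subalgebra.mul_mem | apply Subalgebra.pow_mem | apply Subalgebra.neg_mem | apply hc.DS))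
      have e : p.ev (Dv Nn * M - Dv M * Nn - Nn ^ 2)
          = m * (m1 * u + m * (u * (l + b)) + n1) - (m1 * Y - Y * Y + 2 * n * Y) - m ^ 2 * u * J := by
        simp only [map_sub, map_mul, map_pow, ← hm, ← hn, ← hm1, ← hn1]
        rw [hJu, hY]
        ring
      rw [e]
      exact p.ng_sub (p.ng_sub (p.ng_mul Bm hMND) (p.ng_add (p.ng_sub (p.ng_mul Bm1 hMN)
        (p.ng_mul BY hMN)) (p.ng_mul (by (repeat' first | assumption | exact Place.bd_zero p | exact Place.bd_one p | exact Place.bd_num p _ | exact Place.bd_cst p _ | apply Place.bd_add p | apply Place.bd_sub p | apply Place.bd_mul p | apply Place.bd_pow p | apply Place.bd_neg p)) hMN))) (p.ng_mul (by (repeat' first | assumption | exact Place.bd_zero p | exact Place.bd_one p | exact Place.bd_num p _ | exact Place.bd_cst p _ | apply Place.bd_add p | apply Place.bd_sub p | apply Place.bd_mul p | apply Place.bd_pow p | apply Place.bd_neg p)) hJ)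
    have hx2 : 2 * Nn ^ 2 - 4 * β * M * Nn + (Dv β + β ^ 2) * M ^ 2 = 0 := by
      apply p.s_ng (by (repeat' first | assumption | exact Subalgebra.zero_mem _ | exact Subalgebra.one_mem _ | exact num_mem _ _ | exact cst_mem _ _ | apply Subalgebra.add_mem | apply Subalgebra.sub_mem | apply Subalgebra.mul_mem | apply Subalgebra.pow_mem | apply Subalgebra.neg_mem | apply hc.DS))
      have e : p.ev (2 * Nn ^ 2 - 4 * β * M * Nn + (Dv β + β ^ 2) * M ^ 2)
          = m ^ 2 * (2 * u ^ 2 + 4 * b * u + γ) - (2 * Y - 4 * n + 4 * b * m) * Y := by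
        simp only [map_add, map_sub, map_mul, map_pow, map_ofNat, ← hm, ← hn, ← hb, ← hb1]
        rw [hY, hγ]
        ring
      rw [e]
      exact p.ng_sub (p.ng_mul (by (repeat' first | assumption | exact Place.bd_zero p | exact Place.bd_one p | exact Place.bd_num p _ | exact Place.bd_cst p _ | apply Place.bd_add p | apply Place.bd_sub p | apply Place.bd_mul p | apply Place.bd_pow p | apply Place.bd_neg p)) hQ) (p.ng_mul (by (repeat' first | assumption | exact Place.bd_zero p | exact Place.bd_one p | exact Place.bd_num p _ | exact Place.bd_cst p _ | apply Place.bd_add p | apply Place.bd_sub p | apply Place.bd_mul p | apply Place.bd_pow p | apply Place.bd_neg p)) hMN)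
    by_cases hN0 : Nn = 0
    · rw [hN0] at hx2
      have h1 : (Dv β + β ^ 2) * M ^ 2 = 0 := by linear_combination hx2
      have h2 := (mul_eq_zero.mp h1).resolve_right (pow_ne_zero 2 hM0)
      exact hβ0 (ric_neg (by linear_combination h2))
    · obtain ⟨c, hcc⟩ := prop_of_D (a := M + Zf * Nn) (b := Nn) hN0 (by
        rw [Dadd, Dmul, DZf]
        linear_combination hx1)
      have hMc : M = (cst c - Zf) * Nn := by linear_combination hcc
      have h1 : Nn ^ 2 * (2 - 4 * β * (cst c - Zf) + (Dv β + β ^ 2) * (cst c - Zf) ^ 2) = 0 := by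
        rw [hMc] at hx2
        linear_combination hx2
      have h2 := (mul_eq_zero.mp h1).resolve_left (pow_ne_zero 2 hN0)
      have h3 := congrFun (congrArg Subtype.val h2) c
      have h4 : (2 : ℂ) - 4 * (β : ℂ → ℂ) c * (c - c) + ((Dv β : Ent) + (β : Ent) ^ 2 : Ent).1 c
        * (c - c) ^ 2 = 0 := h3
      rw [sub_self] at h4
      have h5 : (2 : ℂ) = 0 := by linear_combination h4
      exact two_ne_zero h5
  · -- the linear case
    set τ := k * k' - 2 * k + 1 with hτd
    have hτk : τ = p.ev (cst (κ * κ' - 2 * κ + 1)) := by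
      simp only [map_add, map_sub, map_mul, map_one, map_ofNat]
      rfl
    have Bax : p.Bd (al * x) := by
      have h1 : p.Bd (τ * (al * x)) := by
        have e : τ * (al * x) = (b1 + b ^ 2 + τ * (al * x) + 2 * k * (k' - 1) * b * x
            - (k * k' - 1) * l * x) - (b1 + b ^ 2 + 2 * k * (k' - 1) * b * x
            - (k * k' - 1) * l * x) := by ring
        rw [e]
        exact p.bd_sub (p.ng_bd hE3) (by (repeat' first | assumption | exact Place.bd_zero p | exact Place.bd_one p | exact Place.bd_num p _ | exact Place.bd_cst p _ | apply Place.bd_add p | apply Place.bd_sub p | apply Place.bd_mul p | apply Place.bd_pow p | apply Place.bd_neg p))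
      have hne := cst_ne hτ
      have h2 := p.bd_mul (p.s_inv _ (cst_mem S _) hne) h1
      rw [hτk, inv_mul_cancel_left₀ (p.s_ne _ (cst_mem S _) hne)] at h2
      exact h2
    have hxN : p.Ng x := by
      have h1 := p.ng_mul' ha Bax
      have e : i * (al * x) = x := by linear_combination x * hali
      rwa [e] at h1
    have hlb : p.Ng (l + b) := by
      have e : l + b = (l + b + (k - 1) * x) - (k - 1) * x := by ring
      rw [e]
      exact p.ng_sub hJ (p.ng_mul (by (repeat' first | assumption | exact Place.bd_zero p | exact Place.bd_one p | exact Place.bd_num p _ | exact Place.bd_cst p _ | apply Place.bd_add p | apply Place.bd_sub p | apply Place.bd_mul p | apply Place.bd_pow p | apply Place.bd_neg p)) hxN)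
    have hG1 : p.Ng (τ * (al * x) + b1 + b ^ 2) := by
      have e : τ * (al * x) + b1 + b ^ 2 = (b1 + b ^ 2 + τ * (al * x) + 2 * k * (k' - 1) * b * x
            - (k * k' - 1) * l * x) - (2 * k * (k' - 1) * b - (k * k' - 1) * l) * x := by ring
      rw [e]
      exact p.ng_sub hE3 (p.ng_mul (by (repeat' first | assumption | exact Place.bd_zero p | exact Place.bd_one p | exact Place.bd_num p _ | exact Place.bd_cst p _ | apply Place.bd_add p | apply Place.bd_sub p | apply Place.bd_mul p | apply Place.bd_pow p | apply Place.bd_neg p)) hxN)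
    obtain ⟨tc, htc⟩ : ∃ t : Ent, t = cst (κ * κ' - 2 * κ + 1) := ⟨_, rfl⟩
    rw [← htc] at hτk
    have hG2 : p.Ng (τ * (al * x) * (2 * l + b) + b2 + 2 * b * b1) := by
      have gβ : β ∈ G := hc.SG hβ
      have gβ1 : Dv β ∈ G := hc.SG mDβ
      have gtc : tc ∈ G := htc ▸ cst_mem G _
      have h1 := p.ng_D (F := tc * (a ^ 2 * X) + Dv β + β ^ 2) (by (repeat' first | assumption | exact Subalgebra.zero_mem _ | exact Subalgebra.one_mem _ | exact num_mem _ _ | exact cst_mem _ _ | apply Subalgebra.add_mem | apply Subalgebra.sub_mem | apply Subalgebra.mul_mem | apply Subalgebra.pow_mem | apply Subalgebra.neg_mem | apply hc.DG)) (by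
        have e : p.ev (tc * (a ^ 2 * X) + Dv β + β ^ 2) = τ * (al * x) + b1 + b ^ 2 := by
          simp only [map_add, map_mul, map_pow, ← hτk, ← hal, ← hb, ← hb1]
          rw [hxdef]
          ring
        rw [e]; exact hG1)
      have e : p.ev (Dv (tc * (a ^ 2 * X) + Dv β + β ^ 2))
          = τ * (al * x) * (2 * l + b) + b2 + 2 * b * b1 := by
        have e0 : Dv (tc * (a ^ 2 * X) + Dv β + β ^ 2) = tc * (2 * a * Dv a * X + a ^ 2 * (β * X))
            + Dv (Dv β) + 2 * β * Dv β := by
          simp only [Dadd, Dmul, Dpow2, hD]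
          rw [htc, Dcst]
          ring
        rw [e0]
        simp only [map_add, map_mul, map_pow, map_ofNat, hDa, ← hτk, ← hal, ← hb, ← hb1, ← hb2]
        rw [hxdef]
        ring
      rw [e] at h1
      exact h1
    have h3 : Dv (Dv β) + 3 * β * Dv β + β ^ 3 = 0 := by
      apply p.s_ng (by (repeat' first | assumption | exact Subalgebra.zero_mem _ | exact Subalgebra.one_mem _ | exact num_mem _ _ | exact cst_mem _ _ | apply Subalgebra.add_mem | apply Subalgebra.sub_mem | apply Subalgebra.mul_mem | apply Subalgebra.pow_mem | apply Subalgebra.neg_mem | apply hc.DS))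
      have e : p.ev (Dv (Dv β) + 3 * β * Dv β + β ^ 3)
          = (τ * (al * x) * (2 * l + b) + b2 + 2 * b * b1)
            - (2 * l + b) * (τ * (al * x) + b1 + b ^ 2) + 2 * (b1 + b ^ 2) * (l + b) := by
        simp only [map_add, map_mul, map_pow, map_ofNat, ← hb, ← hb1, ← hb2]
        ring
      rw [e]
      exact p.ng_add (p.ng_sub hG2 (p.ng_mul (by (repeat' first | assumption | exact Place.bd_zero p | exact Place.bd_one p | exact Place.bd_num p _ | exact Place.bd_cst p _ | apply Place.bd_add p | apply Place.bd_sub p | apply Place.bd_mul p | apply Place.bd_pow p | apply Place.bd_neg p)) hG1)) (p.ng_mul (by (repeat' first | assumption | exact Place.bd_zero p | exact Place.bd_one p | exact Place.bd_num p _ | exact Place.bd_cst p _ | apply Place.bd_add p | apply Place.bd_sub p | apply Place.bd_mul p | apply Place.bd_pow p | apply Place.bd_neg p)) hlb)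
    exact hβ0 (unit_cubic hX hD h3)

end Pool.Agent.W671.ZD
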