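import Pool.Agent.W671.ZD4

/-!
Steps at a place of large logarithmic derivative.
-/

set_option autoImplicit false

namespace Pool.Agent.W671.ZD

open Pool.Agent.H159R3.NV

namespace Place

variable {G S : Subalgebra ℂ Ent} (p : Place G S)

theorem one_add_ng {e : p.K} (h : p.Ng e) : 1 + e ≠ 0 ∧ p.Bd (1 + e)⁻¹ := by
  have h1 : ¬ p.Ng (1 + e) := by
    intro h2
    have := p.ng_sub h2 h
    rw [add_sub_cancel_right] at this
    exact p.ng_one this
  refine ⟨fun h0 => h1 (h0 ▸ p.ng_zero), ?_⟩
  rcases p.dich (1 + e)⁻¹ with h2 | h2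
  · exact h2
  · rw [inv_inv] at h2
    exact absurd h2 h1

/-- first step: the ratios stay bounded and nearly equal -/
theorem st1 {al i l b b1 be x y : p.K} (hi : p.Ng i) (hai : al * i = 1) (hl : p.Bd l)
    (hb : p.Bd b) (hb1 : p.Bd b1) (hbe : p.Bd be) (hx : p.Bd x)
    (h : (al * l + b1) * (x - 1) * (y - 1) + (al + b) ^ 2 * (y - x)
      - (al + b) * be * (x * y - 1) = 0) : p.Bd y ∧ p.Bd (al * (y - x)) := by
  have Bi := p.ng_bd hi
  -- multiply by i
  have h1 : (l + i * b1) * (x - 1) * (y - 1) + (1 + i * b) ^ 2 * (al * (y - x))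
      - (1 + i * b) * be * (x * y - 1) = 0 := by
    have e : i * ((al * l + b1) * (x - 1) * (y - 1) + (al + b) ^ 2 * (y - x)
      - (al + b) * be * (x * y - 1)) = ((al * i) * l + i * b1) * (x - 1) * (y - 1)
      + i * (al + b) ^ 2 * (y - x) - ((al * i) + i * b) * be * (x * y - 1) := by ring
    rw [h, hai] at e
    have e2 : i * (al + b) ^ 2 = al * (1 + i * b) ^ 2 := by
      have : i * (al + b) ^ 2 - al * (1 + i * b) ^ 2 = (al * i - 1) * (al - i * b ^ 2) := by ring
      rw [hai] at this
      linear_combination this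
    rw [e2] at e
    linear_combination -e
  have h2 : (1 + (2 * i * b + i ^ 2 * b ^ 2 + i * ((l + i * b1) * (x - 1)
      - (1 + i * b) * be * x))) * y
      = (1 + i * b) ^ 2 * x + i * ((l + i * b1) * (x - 1) - (1 + i * b) * be) := by
    have e : i * ((l + i * b1) * (x - 1) * (y - 1) + (1 + i * b) ^ 2 * (al * (y - x))
      - (1 + i * b) * be * (x * y - 1)) = i * ((l + i * b1) * (x - 1) * (y - 1))
      + (1 + i * b) ^ 2 * ((al * i) * (y - x)) - i * ((1 + i * b) * be * (x * y - 1)) := by ring
    rw [h1, hai] at e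
    linear_combination -e
  obtain ⟨h3, h4⟩ := p.one_add_ng (e := 2 * i * b + i ^ 2 * b ^ 2 + i * ((l + i * b1) * (x - 1)
      - (1 + i * b) * be * x)) (by
    have e : 2 * i * b + i ^ 2 * b ^ 2 + i * ((l + i * b1) * (x - 1) - (1 + i * b) * be * x)
      = i * (2 * b + i * b ^ 2 + ((l + i * b1) * (x - 1) - (1 + i * b) * be * x)) := by ring
    rw [e]
    exact p.ng_mul' hi (by (repeat' first | assumption | exact Place.bd_zero p | exact Place.bd_one p | exact Place.bd_num p _ | exact Place.bd_cst p _ | apply Place.bd_add p | apply Place.bd_sub p | apply Place.bd_mul p | apply Place.bd_pow p | apply Place.bd_neg p)))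
  have hy : p.Bd y := by
    have e := congrArg (fun t => (1 + (2 * i * b + i ^ 2 * b ^ 2 + i * ((l + i * b1) * (x - 1)
      - (1 + i * b) * be * x)))⁻¹ * t) h2
    simp only [inv_mul_cancel_left₀ h3] at e
    rw [e]
    exact p.bd_mul h4 (by (repeat' first | assumption | exact Place.bd_zero p | exact Place.bd_one p | exact Place.bd_num p _ | exact Place.bd_cst p _ | apply Place.bd_add p | apply Place.bd_sub p | apply Place.bd_mul p | apply Place.bd_pow p | apply Place.bd_neg p))
  refine ⟨hy, ?_⟩
  obtain ⟨h5, h6⟩ := p.one_add_ng (e := i * b) (p.ng_mul' hi hb)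
  have e : al * (y - x) = ((1 + i * b)⁻¹) ^ 2 * ((1 + i * b) * be * (x * y - 1)
      - (l + i * b1) * (x - 1) * (y - 1)) := by
    field_simp
    linear_combination h1
  rw [e]
  (repeat' first | assumption | exact Place.bd_zero p | exact Place.bd_one p | exact Place.bd_num p _ | exact Place.bd_cst p _ | apply Place.bd_add p | apply Place.bd_sub p | apply Place.bd_mul p | apply Place.bd_pow p | apply Place.bd_neg p)

/-- third step -/
theorem st3 {al i l b b1 be x y : p.K} (hi : p.Ng i) (hai : al * i = 1) (hl : p.Bd l)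
    (hb : p.Bd b) (hb1 : p.Bd b1) (hbe : p.Bd be) (hx : p.Bd (al * x)) (hy : p.Bd (al * y))
    (h : (al * l + b1) * (x - 1) * (y - 1) + (al + b) ^ 2 * (y - x)
      - (al + b) * be * (x * y - 1) = 0) : p.Ng (l + be + al * y - al * x) := by
  have Bi := p.ng_bd hi
  set X := al * x with hX
  set Y := al * y with hY
  have hx' : x = i * X := by rw [hX]; linear_combination (-x) * hai
  have hy' : y = i * Y := by rw [hY]; linear_combination (-y) * hai
  have h1 : (l + i * b1) * (i * X - 1) * (i * Y - 1) + (1 + i * b) ^ 2 * (Y - X)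
      - (1 + i * b) * be * (i * X * (i * Y) - 1) = 0 := by
    have e : i * ((al * l + b1) * (x - 1) * (y - 1) + (al + b) ^ 2 * (y - x)
      - (al + b) * be * (x * y - 1)) = ((al * i) * l + i * b1) * (x - 1) * (y - 1)
      + i * (al + b) ^ 2 * (y - x) - ((al * i) + i * b) * be * (x * y - 1) := by ring
    rw [h, hai] at e
    have e2 : i * (al + b) ^ 2 = al * (1 + i * b) ^ 2 := by
      have : i * (al + b) ^ 2 - al * (1 + i * b) ^ 2 = (al * i - 1) * (al - i * b ^ 2) := by ring
      rw [hai] at this
      linear_combination this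
    rw [e2] at e
    rw [← hx', ← hy', hX, hY]
    linear_combination -e
  have e : l + be + Y - X = - (i * (b1 * (i * X - 1) * (i * Y - 1) + l * (i * X * Y - X - Y)
      + (2 * b + i * b ^ 2) * (Y - X) + b * be - (1 + i * b) * be * i * X * Y)) := by
    linear_combination h1
  rw [e]
  exact p.ng_neg (p.ng_mul' hi (by (repeat' first | assumption | exact Place.bd_zero p | exact Place.bd_one p | exact Place.bd_num p _ | exact Place.bd_cst p _ | apply Place.bd_add p | apply Place.bd_sub p | apply Place.bd_mul p | apply Place.bd_pow p | apply Place.bd_neg p)))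

end Place

end Pool.Agent.W671.ZD
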