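import Pool.Agent.W671.ZD5

/-!
Classification of the linear relation at a place.
-/

set_option autoImplicit false

namespace Pool.Agent.W671.ZD

open Pool.Agent.H159R3.NV

theorem unit_ratio {X Xi Y Yi β γ : Ent} (hX : X * Xi = 1) (hY : Y * Yi = 1)
    (hDX : Dv X = β * X) (hDY : Dv Y = γ * Y) :
    (Y * Xi) * (X * Yi) = 1 ∧ Dv (Y * Xi) = (γ - β) * (Y * Xi) ∧ (Y * Xi) * X = Y := by
  have hX0 : X ≠ 0 := left_ne_zero_of_mul_eq_one hX
  have h3 : Dv (X * Xi) = 0 := by rw [hX, Done]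
  rw [Dmul, hDX] at h3
  have h4 : X * (Dv Xi + β * Xi) = 0 := by linear_combination h3
  have h5 := (mul_eq_zero.mp h4).resolve_left hX0
  refine ⟨by linear_combination (Y * Yi) * hX + hY, ?_, by linear_combination Y * hX⟩
  rw [Dmul, hDY]
  linear_combination Y * h5

/-- the coefficients -/
noncomputable def c2 (σ τ : Ent) : Ent := σ ^ 2 + σ * τ - Dv σ
noncomputable def c1 (σ : Ent) : Ent := 2 * Dv σ - σ ^ 2
noncomputable def c0 (σ : Ent) : Ent := - (Dv σ + σ ^ 2)

theorem c1_ne {σ : Ent} (h : σ ≠ 0) : c1 σ ≠ 0 := fun h0 => h (ric_half (by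
  unfold c1 at h0; linear_combination h0))

theorem c0_ne {σ : Ent} (h : σ ≠ 0) : c0 σ ≠ 0 := fun h0 => h (ric_neg (by
  unfold c0 at h0; linear_combination -h0))

theorem g1 (hex : ExCls) {X Xi Y Yi β γ : Ent} (hX : X * Xi = 1) (hY : Y * Yi = 1)
    (hDX : Dv X = β * X) (hDY : Dv Y = γ * Y) (hσ : γ - β ≠ 0) (κ : ℂ) :
    c1 (γ - β) * Y ≠ cst κ * (c0 (γ - β) * X) := by
  intro h
  obtain ⟨h1, h2, h3⟩ := unit_ratio hX hY hDX hDY
  set σ := γ - β with hs
  apply hσ
  apply growth1 hex h1 h2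
  intro S hS hσS
  refine ⟨c1 σ, by unfold c1; (repeat' first | assumption | exact Subalgebra.zero_mem _ | exact Subalgebra.one_mem _ | exact num_mem _ _ | exact cst_mem _ _ | apply Subalgebra.add_mem | apply Subalgebra.sub_mem | apply Subalgebra.mul_mem | apply Subalgebra.pow_mem | apply Subalgebra.neg_mem | apply hS), c1_ne hσ, ?_⟩
  have e : c1 σ * (Y * Xi) = cst κ * c0 σ := by
    linear_combination Xi * h + (cst κ * c0 σ) * hX
  rw [e]
  unfold c0
  (repeat' first | assumption | exact Subalgebra.zero_mem _ | exact Subalgebra.one_mem _ | exact num_mem _ _ | exact cst_mem _ _ | apply Subalgebra.add_mem | apply Subalgebra.sub_mem | apply Subalgebra.mul_mem | apply Subalgebra.pow_mem | apply Subalgebra.neg_mem | apply hS)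

theorem g2 (hex : ExCls) {X Xi Y Yi Z Zi β γ δ : Ent} (hX : X * Xi = 1) (hY : Y * Yi = 1)
    (hZ : Z * Zi = 1) (hDX : Dv X = β * X) (hDY : Dv Y = γ * Y) (hDZ : Dv Z = δ * Z)
    (hσ : γ - β ≠ 0) {μ : ℂ} (hμ : μ ≠ 0) (hc2 : c2 (γ - β) (δ - γ) ≠ 0)
    (h : cst μ * (c0 (γ - β) * X) + c1 (γ - β) * Y + c2 (γ - β) (δ - γ) * Z = 0) : False := by
  obtain ⟨h1, h2, h3⟩ := unit_ratio hX hY hDX hDY
  obtain ⟨k1, k2, k3⟩ := unit_ratio hY hZ hDY hDZ
  have hg1 := g1 hex hX hY hDX hDY hσ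
  have hX0 : X ≠ 0 := left_ne_zero_of_mul_eq_one hX
  have hμ0 := cst_ne hμ
  obtain ⟨σ, hs⟩ : ∃ s, s = γ - β := ⟨_, rfl⟩
  obtain ⟨τ, ht⟩ : ∃ s, s = δ - γ := ⟨_, rfl⟩
  obtain ⟨E, hE⟩ : ∃ s, s = Y * Xi := ⟨_, rfl⟩
  obtain ⟨F, hF⟩ : ∃ s, s = Z * Yi := ⟨_, rfl⟩
  rw [← hs] at hσ h h2 hg1 hc2
  rw [← ht] at h k2 hc2
  rw [← hE] at h1 h2 h3
  rw [← hF] at k1 k2 k3
  have hE0 : E ≠ 0 := left_ne_zero_of_mul_eq_one h1
  have hF0 : F ≠ 0 := left_ne_zero_of_mul_eq_one k1
  obtain ⟨p0, hp0⟩ : ∃ s, s = c0 σ := ⟨_, rfl⟩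
  obtain ⟨p1, hp1⟩ : ∃ s, s = c1 σ := ⟨_, rfl⟩
  obtain ⟨p2, hp2⟩ : ∃ s, s = c2 σ τ := ⟨_, rfl⟩
  have hp0n : p0 ≠ 0 := hp0 ▸ c0_ne hσ
  have hp1n : p1 ≠ 0 := hp1 ▸ c1_ne hσ
  rw [← hp0, ← hp1, ← hp2] at h
  rw [← hp2] at hc2
  rw [← hp0, ← hp1] at hg1
  -- relation in E, F
  have r : cst μ * p0 + p1 * E + p2 * (E * F) = 0 := by
    apply mul_left_cancel₀ hX0
    rw [mul_zero, ← h, ← k3, ← h3]
    ring
  have r' : cst μ * Dv p0 + (Dv p1 + p1 * σ) * E + (Dv p2 + p2 * (σ + τ)) * (E * F) = 0 := by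
    have := congrArg Dv r
    simp only [Dadd, Dmul, Dcst, Dzero, h2, k2] at this
    linear_combination this
  have rQ : cst μ * (p0 * (Dv p2 + p2 * (σ + τ)) - Dv p0 * p2)
      + (p1 * (Dv p2 + p2 * (σ + τ)) - (Dv p1 + p1 * σ) * p2) * E = 0 := by
    linear_combination (Dv p2 + p2 * (σ + τ)) * r - p2 * r'
  obtain ⟨Q, hQ⟩ : ∃ s, s = p1 * (Dv p2 + p2 * (σ + τ)) - (Dv p1 + p1 * σ) * p2 := ⟨_, rfl⟩
  obtain ⟨q, hq⟩ : ∃ s, s = p0 * (Dv p2 + p2 * (σ + τ)) - Dv p0 * p2 := ⟨_, rfl⟩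
  rw [← hQ, ← hq] at rQ
  by_cases hQ0 : Q = 0
  · rw [hQ0, zero_mul, add_zero] at rQ
    have hq0 := (mul_eq_zero.mp rQ).resolve_left hμ0
    rw [hq] at hq0
    rw [hQ] at hQ0
    have h5 : p2 * (p0 * (Dv p1 + p1 * σ) - p1 * Dv p0) = 0 := by
      linear_combination p1 * hq0 - p0 * hQ0
    have h6 := (mul_eq_zero.mp h5).resolve_left hc2
    obtain ⟨x, hx⟩ := prop_of_D (a := p1 * E) (b := p0) hp0n (by
      rw [Dmul, h2]
      linear_combination (-E) * h6)
    apply hg1 x
    rw [← h3]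
    linear_combination X * hx
  · have hq0 : q ≠ 0 := by
      intro h0
      rw [h0, mul_zero, zero_add] at rQ
      rcases mul_eq_zero.mp rQ with h7 | h7
      · exact hQ0 h7
      · exact hE0 h7
    have := growth2 hex h1 h2 k1 k2 (by
      intro S hS hσS hτS
      have m0 : p0 ∈ S := by rw [hp0]; unfold c0; (repeat' first | assumption | exact Subalgebra.zero_mem _ | exact Subalgebra.one_mem _ | exact num_mem _ _ | exact cst_mem _ _ | apply Subalgebra.add_mem | apply Subalgebra.sub_mem | apply Subalgebra.mul_mem | apply Subalgebra.pow_mem | apply Subalgebra.neg_mem | apply hS)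
      have m1 : p1 ∈ S := by rw [hp1]; unfold c1; (repeat' first | assumption | exact Subalgebra.zero_mem _ | exact Subalgebra.one_mem _ | exact num_mem _ _ | exact cst_mem _ _ | apply Subalgebra.add_mem | apply Subalgebra.sub_mem | apply Subalgebra.mul_mem | apply Subalgebra.pow_mem | apply Subalgebra.neg_mem | apply hS)
      have m2 : p2 ∈ S := by rw [hp2]; unfold c2; (repeat' first | assumption | exact Subalgebra.zero_mem _ | exact Subalgebra.one_mem _ | exact num_mem _ _ | exact cst_mem _ _ | apply Subalgebra.add_mem | apply Subalgebra.sub_mem | apply Subalgebra.mul_mem | apply Subalgebra.pow_mem | apply Subalgebra.neg_mem | apply hS)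
      have mQ : Q ∈ S := by rw [hQ]; (repeat' first | assumption | exact Subalgebra.zero_mem _ | exact Subalgebra.one_mem _ | exact num_mem _ _ | exact cst_mem _ _ | apply Subalgebra.add_mem | apply Subalgebra.sub_mem | apply Subalgebra.mul_mem | apply Subalgebra.pow_mem | apply Subalgebra.neg_mem | apply hS)
      have mq : q ∈ S := by rw [hq]; (repeat' first | assumption | exact Subalgebra.zero_mem _ | exact Subalgebra.one_mem _ | exact num_mem _ _ | exact cst_mem _ _ | apply Subalgebra.add_mem | apply Subalgebra.sub_mem | apply Subalgebra.mul_mem | apply Subalgebra.pow_mem | apply Subalgebra.neg_mem | apply hS)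
      refine ⟨⟨Q, mQ, hQ0, ?_⟩, ⟨p2 * (cst μ * q), by (repeat' first | assumption | exact Subalgebra.zero_mem _ | exact Subalgebra.one_mem _ | exact num_mem _ _ | exact cst_mem _ _ | apply Subalgebra.add_mem | apply Subalgebra.sub_mem | apply Subalgebra.mul_mem | apply Subalgebra.pow_mem | apply Subalgebra.neg_mem | apply hS),
        mul_ne_zero hc2 (mul_ne_zero hμ0 hq0), ?_⟩⟩
      · have e : Q * E = - (cst μ * q) := by linear_combination rQ
        rw [e]; (repeat' first | assumption | exact Subalgebra.zero_mem _ | exact Subalgebra.one_mem _ | exact num_mem _ _ | exact cst_mem _ _ | apply Subalgebra.add_mem | apply Subalgebra.sub_mem | apply Subalgebra.mul_mem | apply Subalgebra.pow_mem | apply Subalgebra.neg_mem | apply hS)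
      · have e : p2 * (cst μ * q) * F = cst μ * p0 * Q - p1 * (cst μ * q) := by
          linear_combination (p2 * F + p1) * rQ - Q * r
        rw [e]; (repeat' first | assumption | exact Subalgebra.zero_mem _ | exact Subalgebra.one_mem _ | exact num_mem _ _ | exact cst_mem _ _ | apply Subalgebra.add_mem | apply Subalgebra.sub_mem | apply Subalgebra.mul_mem | apply Subalgebra.pow_mem | apply Subalgebra.neg_mem | apply hS))
    exact hσ this.1

theorem g4 (hex : ExCls) {X Xi Z Zi β γ δ : Ent} (hX : X * Xi = 1)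
    (hZ : Z * Zi = 1) (hDX : Dv X = β * X) (hDZ : Dv Z = δ * Z)
    (hσ : γ - β ≠ 0) (hτ : Dv (δ - γ) = 0)
    (h : c2 (γ - β) (δ - γ) * Z + c0 (γ - β) * X = 0) : False := by
  obtain ⟨h1, h2, h3⟩ := unit_ratio hX hZ hDX hDZ
  have hX0 : X ≠ 0 := left_ne_zero_of_mul_eq_one hX
  obtain ⟨σ, hs⟩ : ∃ s, s = γ - β := ⟨_, rfl⟩
  obtain ⟨t, ht⟩ := const_of_D hτ
  rw [← hs] at hσ h
  rw [ht] at h
  have e : δ - β = σ + cst t := by rw [hs, ← ht]; ring
  rw [e] at h2
  have hc2 : c2 σ (cst t) ≠ 0 := by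
    intro h0
    rw [h0, zero_mul, zero_add] at h
    rcases mul_eq_zero.mp h with h7 | h7
    · exact c0_ne hσ h7
    · exact hX0 h7
  have h5 : σ + cst t = 0 := by
    apply growth1 hex h1 h2
    intro S hS hS1
    have mσ : σ ∈ S := by
      have : σ = (σ + cst t) - cst t := by ring
      rw [this]
      exact S.sub_mem hS1 (cst_mem S t)
    refine ⟨c2 σ (cst t), by unfold c2; (repeat' first | assumption | exact Subalgebra.zero_mem _ | exact Subalgebra.one_mem _ | exact num_mem _ _ | exact cst_mem _ _ | apply Subalgebra.add_mem | apply Subalgebra.sub_mem | apply Subalgebra.mul_mem | apply Subalgebra.pow_mem | apply Subalgebra.neg_mem | apply hS), hc2, ?_⟩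
    have e : c2 σ (cst t) * (Z * Xi) = - c0 σ := by
      linear_combination Xi * h - c0 σ * hX
    rw [e]; unfold c0; (repeat' first | assumption | exact Subalgebra.zero_mem _ | exact Subalgebra.one_mem _ | exact num_mem _ _ | exact cst_mem _ _ | apply Subalgebra.add_mem | apply Subalgebra.sub_mem | apply Subalgebra.mul_mem | apply Subalgebra.pow_mem | apply Subalgebra.neg_mem | apply hS)
  apply hc2
  have h6 : σ = - cst t := by linear_combination h5
  have h7 : Dv σ = 0 := by rw [h6, Dneg, Dcst, neg_zero]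
  unfold c2
  rw [h7]
  linear_combination σ * h5

/-- negligible after multiplication by the large function -/
def NN {G S : Subalgebra ℂ Ent} (p : Place G S) (al : p.K) (V : Ent) : Prop :=
  V ∈ G ∧ p.Ng (al * p.ev V)

section

variable {G S : Subalgebra ℂ Ent} (hc : Cls G S) (p : Place G S) {A : Ent}

theorem NN_add {al : p.K} {V W : Ent} (hV : NN p al V) (hW : NN p al W) : NN p al (V + W) :=
  ⟨G.add_mem hV.1 hW.1, by rw [map_add, mul_add]; exact p.ng_add hV.2 hW.2⟩

theorem NN_sub {al : p.K} {V W : Ent} (hV : NN p al V) (hW : NN p al W) : NN p al (V - W) :=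
  ⟨G.sub_mem hV.1 hW.1, by rw [map_sub, mul_sub]; exact p.ng_sub hV.2 hW.2⟩

include hc

theorem NN_smul {al : p.K} {V c : Ent} (hcS : c ∈ S) (hV : NN p al V) : NN p al (c * V) :=
  ⟨G.mul_mem (hc.SG hcS) hV.1, by
    have e : al * p.ev (c * V) = p.ev c * (al * p.ev V) := by rw [map_mul]; ring
    rw [e]
    exact p.ng_mul (p.s_bd c hcS) hV.2⟩

omit hc in
theorem NN_div {al : p.K} {V c : Ent} (hcS : c ∈ S) (hc0 : c ≠ 0) (hVG : V ∈ G)
    (hV : NN p al (c * V)) : NN p al V :=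
  ⟨hVG, by
    apply p.ng_of_s_mul hcS hc0
    have e : p.ev c * (al * p.ev V) = al * p.ev (c * V) := by rw [map_mul]; ring
    rw [e]
    exact hV.2⟩

theorem NN_D (hA : A ∈ G) (hA0 : A ≠ 0) {V : Ent} (hV : NN p (p.ev A) V) :
    NN p (p.ev A) (Dv V) := by
  refine ⟨hc.DG V hV.1, ?_⟩
  have h1 := p.ng_D (F := A * V) (G.mul_mem hA hV.1) (by rw [map_mul]; exact hV.2)
  have h2 := p.ng_mul (p.g_ld A hA hA0) hV.2
  have h0 := p.g_ne A hA hA0
  have e : p.ev A * p.ev (Dv V) = p.ev (Dv (A * V))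
      - p.ev (Dv A) / p.ev A * (p.ev A * p.ev V) := by
    rw [Dmul, map_add, map_mul, map_mul]
    field_simp
    ring
  rw [e]
  exact p.ng_sub h1 h2

theorem BL2 (hA : A ∈ G) (hA0 : A ≠ 0) {X Y β γ c d : Ent} (hXG : X ∈ G) (hYG : Y ∈ G)
    (hX0 : X ≠ 0) (hDX : Dv X = β * X) (hDY : Dv Y = γ * Y) (hβ : β ∈ S) (hγ : γ ∈ S)
    (hcS : c ∈ S) (hdS : d ∈ S) (hc0 : c ≠ 0) (hd0 : d ≠ 0)
    (h : NN p (p.ev A) (c * X + d * Y)) :
    (NN p (p.ev A) X ∧ NN p (p.ev A) Y) ∨ c * X + d * Y = 0 := by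
  have mDc : Dv c ∈ S := hc.DS _ hcS
  have mDd : Dv d ∈ S := hc.DS _ hdS
  by_cases hW : c * (Dv d + d * γ) - d * (Dv c + c * β) = 0
  · obtain ⟨x, hx⟩ := prop_of_D (a := d * Y) (b := c * X) (mul_ne_zero hc0 hX0) (by
      rw [Dmul, Dmul, hDX, hDY]
      linear_combination (-X * Y) * hW)
    by_cases hx1 : 1 + x = 0
    · right
      rw [hx]
      have : cst (1 + x) = 0 := by rw [hx1, map_zero]
      rw [map_add, map_one] at this
      linear_combination (c * X) * this
    · left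
      have e : c * X + d * Y = (cst (1 + x) * c) * X := by
        rw [hx, map_add, map_one]; ring
      rw [e] at h
      have hX := NN_div p (by (repeat' first | assumption | exact Subalgebra.zero_mem _ | exact Subalgebra.one_mem _ | exact num_mem _ _ | exact cst_mem _ _ | apply Subalgebra.add_mem | apply Subalgebra.sub_mem | apply Subalgebra.mul_mem | apply Subalgebra.pow_mem | apply Subalgebra.neg_mem | apply hc.DS)) (mul_ne_zero (cst_ne hx1) hc0) hXG h
      refine ⟨hX, ?_⟩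
      apply NN_div p hdS hd0 hYG
      rw [hx]
      exact NN_smul hc p (cst_mem S x) (NN_smul hc p hcS hX)
  · left
    have h1 : NN p (p.ev A) ((c * (Dv d + d * γ) - d * (Dv c + c * β)) * Y) := by
      have e : (c * (Dv d + d * γ) - d * (Dv c + c * β)) * Y
          = c * Dv (c * X + d * Y) - (Dv c + c * β) * (c * X + d * Y) := by
        rw [Dadd, Dmul, Dmul, hDX, hDY]; ring
      rw [e]
      exact NN_sub p (NN_smul hc p hcS (NN_D hc p hA hA0 h))
        (NN_smul hc p (by (repeat' first | assumption | exact Subalgebra.zero_mem _ | exact Subalgebra.one_mem _ | exact num_mem _ _ | exact cst_mem _ _ | apply Subalgebra.add_mem | apply Subalgebra.sub_mem | apply Subalgebra.mul_mem | apply Subalgebra.pow_mem | apply Subalgebra.neg_mem | apply hc.DS)) h)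
    have hY := NN_div p (by (repeat' first | assumption | exact Subalgebra.zero_mem _ | exact Subalgebra.one_mem _ | exact num_mem _ _ | exact cst_mem _ _ | apply Subalgebra.add_mem | apply Subalgebra.sub_mem | apply Subalgebra.mul_mem | apply Subalgebra.pow_mem | apply Subalgebra.neg_mem | apply hc.DS)) hW hYG h1
    refine ⟨?_, hY⟩
    apply NN_div p hcS hc0 hXG
    have e : c * X = (c * X + d * Y) - d * Y := by ring
    rw [e]
    exact NN_sub p h (NN_smul hc p hdS hY)

end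

end Pool.Agent.W671.ZD
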