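import Pool.Agent.W671.ZD6

/-!
The case of a large first logarithmic derivative.
-/

set_option autoImplicit false

namespace Pool.Agent.W671.ZD

open Pool.Agent.H159R3.NV

theorem types (hex : ExCls) {G S : Subalgebra ℂ Ent} (hc : Cls G S) (p : Place G S) {A : Ent}
    (hA : A ∈ G) (hA0 : A ≠ 0) {X Xi Y Yi Z Zi β γ δ : Ent} (hX : X * Xi = 1) (hY : Y * Yi = 1)
    (hZ : Z * Zi = 1) (hXG : X ∈ G) (hYG : Y ∈ G) (hZG : Z ∈ G) (hDX : Dv X = β * X)
    (hDY : Dv Y = γ * Y) (hDZ : Dv Z = δ * Z) (hβ : β ∈ S) (hγ : γ ∈ S) (hδ : δ ∈ S)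
    (hσ : γ - β ≠ 0)
    (hU : p.Ng (p.ev A * (p.ev Z - 2 * p.ev Y + p.ev X) + p.ev (γ - β)))
    (hH : NN p (p.ev A) (c2 (γ - β) (δ - γ) * Z + c1 (γ - β) * Y + c0 (γ - β) * X)) :
    (NN p (p.ev A) X ∧ c2 (γ - β) (δ - γ) * Z + c1 (γ - β) * Y = 0 ∧ ¬ NN p (p.ev A) Y ∧
      ¬ NN p (p.ev A) Z) ∨
    (NN p (p.ev A) Y ∧ c2 (γ - β) (δ - γ) * Z + c0 (γ - β) * X = 0 ∧ ¬ NN p (p.ev A) X ∧
      ¬ NN p (p.ev A) Z) := by
  have hX0 : X ≠ 0 := left_ne_zero_of_mul_eq_one hX
  have hY0 : Y ≠ 0 := left_ne_zero_of_mul_eq_one hY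
  have hg1 := g1 hex hX hY hDX hDY hσ
  have hg2 := fun (μ : ℂ) (hμ : μ ≠ 0) => g2 hex hX hY hZ hDX hDY hDZ hσ (μ := μ) hμ
  have mσ : γ - β ∈ S := S.sub_mem hγ hβ
  have all : NN p (p.ev A) X → NN p (p.ev A) Y → NN p (p.ev A) Z → False := by
    intro h1 h2 h3
    apply hσ
    apply p.s_ng mσ
    have e : p.ev (γ - β) = (p.ev A * (p.ev Z - 2 * p.ev Y + p.ev X) + p.ev (γ - β))
        - (p.ev A * p.ev Z - 2 * (p.ev A * p.ev Y) + p.ev A * p.ev X) := by ring
    rw [e]
    exact p.ng_sub hU (p.ng_add (p.ng_sub h3.2 (p.ng_mul (p.bd_num 2) h2.2)) h1.2)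
  have mD := hc.DS _ mσ
  have m0 : c0 (γ - β) ∈ S := by unfold c0; (repeat' first | assumption | exact Subalgebra.zero_mem _ | exact Subalgebra.one_mem _ | exact num_mem _ _ | exact cst_mem _ _ | apply Subalgebra.add_mem | apply Subalgebra.sub_mem | apply Subalgebra.mul_mem | apply Subalgebra.pow_mem | apply Subalgebra.neg_mem | apply hc.DS)
  have m1 : c1 (γ - β) ∈ S := by unfold c1; (repeat' first | assumption | exact Subalgebra.zero_mem _ | exact Subalgebra.one_mem _ | exact num_mem _ _ | exact cst_mem _ _ | apply Subalgebra.add_mem | apply Subalgebra.sub_mem | apply Subalgebra.mul_mem | apply Subalgebra.pow_mem | apply Subalgebra.neg_mem | apply hc.DS)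
  have m2 : c2 (γ - β) (δ - γ) ∈ S := by unfold c2; (repeat' first | assumption | exact Subalgebra.zero_mem _ | exact Subalgebra.one_mem _ | exact num_mem _ _ | exact cst_mem _ _ | apply Subalgebra.add_mem | apply Subalgebra.sub_mem | apply Subalgebra.mul_mem | apply Subalgebra.pow_mem | apply Subalgebra.neg_mem | apply hc.DS)
  have n0 := c0_ne hσ
  have n1 := c1_ne hσ
  have hc2def : c2 (γ - β) (δ - γ) = (γ - β) ^ 2 + (γ - β) * (δ - γ) - Dv (γ - β) := rfl
  obtain ⟨p0, hp0⟩ : ∃ s, s = c0 (γ - β) := ⟨_, rfl⟩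
  obtain ⟨p1, hp1⟩ : ∃ s, s = c1 (γ - β) := ⟨_, rfl⟩
  obtain ⟨p2, hp2⟩ : ∃ s, s = c2 (γ - β) (δ - γ) := ⟨_, rfl⟩
  rw [← hp0] at hH m0 n0 hg1 hg2 ⊢
  rw [← hp1] at hH m1 n1 hg1 hg2 ⊢
  rw [← hp2] at hH m2 hg2 hc2def ⊢
  have d0 := hc.DS _ m0
  have d1 := hc.DS _ m1
  have d2 := hc.DS _ m2
  by_cases hp20 : p2 = 0
  · exfalso
    rw [hp20, zero_mul, zero_add] at hH
    have hH' : NN p (p.ev A) (p0 * X + p1 * Y) := by
      have e : p0 * X + p1 * Y = p1 * Y + p0 * X := by ring
      rw [e]; exact hH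
    rcases BL2 hc p hA hA0 hXG hYG hX0 hDX hDY hβ hγ m0 m1 n0 n1 hH' with ⟨h1, h2⟩ | h1
    · rw [hp20] at hc2def
      obtain ⟨x, hx⟩ := prop_of_D (a := Z) (b := (γ - β) * X) (mul_ne_zero hσ hX0) (by
        rw [Dmul, hDX, hDZ]
        linear_combination (Z * X) * hc2def)
      apply all h1 h2
      rw [hx]
      exact NN_smul hc p (cst_mem S x) (NN_smul hc p mσ h1)
    · apply hg1 (-1)
      rw [map_neg, map_one]
      linear_combination h1
  · obtain ⟨e1, he1⟩ : ∃ s, s = p0 * (Dv p1 + p1 * γ) - p1 * (Dv p0 + p0 * β) := ⟨_, rfl⟩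
    obtain ⟨e2, he2⟩ : ∃ s, s = p0 * (Dv p2 + p2 * δ) - p2 * (Dv p0 + p0 * β) := ⟨_, rfl⟩
    have he10 : e1 ≠ 0 := by
      intro h0
      obtain ⟨x, hx⟩ := prop_of_D (a := p1 * Y) (b := p0 * X) (mul_ne_zero n0 hX0) (by
        rw [Dmul, Dmul, hDX, hDY]
        rw [h0] at he1
        linear_combination (X * Y) * he1)
      exact hg1 x hx
    have me1 : e1 ∈ S := by rw [he1]; (repeat' first | assumption | exact Subalgebra.zero_mem _ | exact Subalgebra.one_mem _ | exact num_mem _ _ | exact cst_mem _ _ | apply Subalgebra.add_mem | apply Subalgebra.sub_mem | apply Subalgebra.mul_mem | apply Subalgebra.pow_mem | apply Subalgebra.neg_mem | apply hc.DS)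
    have me2 : e2 ∈ S := by rw [he2]; (repeat' first | assumption | exact Subalgebra.zero_mem _ | exact Subalgebra.one_mem _ | exact num_mem _ _ | exact cst_mem _ _ | apply Subalgebra.add_mem | apply Subalgebra.sub_mem | apply Subalgebra.mul_mem | apply Subalgebra.pow_mem | apply Subalgebra.neg_mem | apply hc.DS)
    have hV : NN p (p.ev A) (e1 * Y + e2 * Z) := by
      have e : e1 * Y + e2 * Z = p0 * Dv (p2 * Z + p1 * Y + p0 * X)
          - (Dv p0 + p0 * β) * (p2 * Z + p1 * Y + p0 * X) := by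
        rw [Dadd, Dadd, Dmul, Dmul, Dmul, hDX, hDY, hDZ, he1, he2]; ring
      rw [e]
      exact NN_sub p (NN_smul hc p m0 (NN_D hc p hA hA0 hH)) (NN_smul hc p (by (repeat' first | assumption | exact Subalgebra.zero_mem _ | exact Subalgebra.one_mem _ | exact num_mem _ _ | exact cst_mem _ _ | apply Subalgebra.add_mem | apply Subalgebra.sub_mem | apply Subalgebra.mul_mem | apply Subalgebra.pow_mem | apply Subalgebra.neg_mem | apply hc.DS)) hH)
    by_cases he20 : e2 = 0
    · rw [he20, zero_mul, add_zero] at hV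
      have hYN := NN_div p me1 he10 hYG hV
      obtain ⟨x, hx⟩ := prop_of_D (a := p2 * Z) (b := p0 * X) (mul_ne_zero n0 hX0) (by
        rw [Dmul, Dmul, hDX, hDZ]
        rw [he20] at he2
        linear_combination (X * Z) * he2)
      have hXZ : NN p (p.ev A) X → NN p (p.ev A) Z := by
        intro h
        apply NN_div p m2 hp20 hZG
        rw [hx]
        exact NN_smul hc p (cst_mem S x) (NN_smul hc p m0 h)
      by_cases hx1 : 1 + x = 0
      · right
        have hrel : p2 * Z + p0 * X = 0 := by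
          have : cst (1 + x) = 0 := by rw [hx1, map_zero]
          rw [map_add, map_one] at this
          rw [hx]
          linear_combination (p0 * X) * this
        refine ⟨hYN, hrel, fun h => all h hYN (hXZ h), fun h => ?_⟩
        have hXN : NN p (p.ev A) X := by
          apply NN_div p m0 n0 hXG
          have e : p0 * X = (-p2) * Z := by linear_combination hrel
          rw [e]
          exact NN_smul hc p (S.neg_mem m2) h
        exact all hXN hYN h
      · exfalso
        have h1 : NN p (p.ev A) ((cst (1 + x) * p0) * X) := by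
          have e : (cst (1 + x) * p0) * X = (p2 * Z + p1 * Y + p0 * X) - p1 * Y := by
            rw [hx, map_add, map_one]; ring
          rw [e]
          exact NN_sub p hH (NN_smul hc p m1 hYN)
        have hXN := NN_div p (by (repeat' first | assumption | exact Subalgebra.zero_mem _ | exact Subalgebra.one_mem _ | exact num_mem _ _ | exact cst_mem _ _ | apply Subalgebra.add_mem | apply Subalgebra.sub_mem | apply Subalgebra.mul_mem | apply Subalgebra.pow_mem | apply Subalgebra.neg_mem | apply hc.DS)) (mul_ne_zero (cst_ne hx1) n0) hXG h1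
        exact all hXN hYN (hXZ hXN)
    · rcases BL2 hc p hA hA0 hYG hZG hY0 hDY hDZ hγ hδ me1 me2 he10 he20 hV with ⟨h1, h2⟩ | h1
      · exfalso
        have hXN : NN p (p.ev A) X := by
          apply NN_div p m0 n0 hXG
          have e : p0 * X = (p2 * Z + p1 * Y + p0 * X) - (p2 * Z + p1 * Y) := by ring
          rw [e]
          exact NN_sub p hH (NN_add p (NN_smul hc p m2 h2) (NN_smul hc p m1 h1))
        exact all hXN h1 h2
      · obtain ⟨ν, hν⟩ := prop_of_D (a := p2 * Z + p1 * Y + p0 * X) (b := p0 * X)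
          (mul_ne_zero n0 hX0) (by
            rw [Dadd, Dadd, Dmul, Dmul, Dmul, hDX, hDY, hDZ]
            rw [he1, he2] at h1
            linear_combination (-X) * h1)
        by_cases hν0 : ν = 0
        · exfalso
          rw [hν0, map_zero, zero_mul] at hν
          exact hg2 1 one_ne_zero hp20 (by rw [map_one]; linear_combination hν)
        by_cases hν1 : ν = 1
        · left
          have hXN : NN p (p.ev A) X := by
            apply NN_div p m0 n0 hXG
            rw [hν1, map_one, one_mul] at hν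
            rw [← hν]
            exact hH
          have hrel : p2 * Z + p1 * Y = 0 := by
            rw [hν1, map_one] at hν
            linear_combination hν
          have hYZ : NN p (p.ev A) Y → NN p (p.ev A) Z := by
            intro h
            apply NN_div p m2 hp20 hZG
            have e : p2 * Z = (-p1) * Y := by linear_combination hrel
            rw [e]
            exact NN_smul hc p (S.neg_mem m1) h
          have hZY : NN p (p.ev A) Z → NN p (p.ev A) Y := by
            intro h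
            apply NN_div p m1 n1 hYG
            have e : p1 * Y = (-p2) * Z := by linear_combination hrel
            rw [e]
            exact NN_smul hc p (S.neg_mem m2) h
          exact ⟨hXN, hrel, fun h => all hXN h (hYZ h), fun h => all hXN (hZY h) h⟩
        · exfalso
          apply hg2 (1 - ν) (sub_ne_zero.mpr (Ne.symm hν1)) hp20
          rw [map_sub, map_one]
          linear_combination hν

theorem relH {G S : Subalgebra ℂ Ent} (hc : Cls G S) (p : Place G S) {A : Ent}
    (hA : A ∈ G) (hA0 : A ≠ 0) {X Y Z β γ δ : Ent} (hXG : X ∈ G) (hYG : Y ∈ G) (hZG : Z ∈ G)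
    (hDX : Dv X = β * X) (hDY : Dv Y = γ * Y) (hDZ : Dv Z = δ * Z) (hβ : β ∈ S) (hγ : γ ∈ S)
    (hδ : δ ∈ S) (hx : p.Bd (p.ev A * p.ev X)) (hy : p.Bd (p.ev A * p.ev Y))
    (hz : p.Bd (p.ev A * p.ev Z))
    (hI0 : p.Ng (p.ev (Dv A) / p.ev A + p.ev β + p.ev A * p.ev Y - p.ev A * p.ev X))
    (hI1 : p.Ng (p.ev (Dv A) / p.ev A + p.ev γ + p.ev A * p.ev Z - p.ev A * p.ev Y)) :
    p.Ng (p.ev A * (p.ev Z - 2 * p.ev Y + p.ev X) + p.ev (γ - β)) ∧
    NN p (p.ev A) (c2 (γ - β) (δ - γ) * Z + c1 (γ - β) * Y + c0 (γ - β) * X) := by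
  have gβ := hc.SG hβ
  have gγ := hc.SG hγ
  have gδ := hc.SG hδ
  have mσ : γ - β ∈ S := S.sub_mem hγ hβ
  have mDσ : Dv (γ - β) ∈ S := hc.DS _ mσ
  have gσ := hc.SG mσ
  have gDσ := hc.SG mDσ
  have hA0' := p.g_ne A hA hA0
  have Bl := p.g_ld A hA hA0
  have hDA : p.ev (Dv A) = p.ev A * (p.ev (Dv A) / p.ev A) := by field_simp
  have hU : p.Ng (p.ev A * (p.ev Z - 2 * p.ev Y + p.ev X) + p.ev (γ - β)) := by
    have e : p.ev A * (p.ev Z - 2 * p.ev Y + p.ev X) + p.ev (γ - β)
      = (p.ev (Dv A) / p.ev A + p.ev γ + p.ev A * p.ev Z - p.ev A * p.ev Y)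
        - (p.ev (Dv A) / p.ev A + p.ev β + p.ev A * p.ev Y - p.ev A * p.ev X) := by
      rw [map_sub]; ring
    rw [e]
    exact p.ng_sub hI1 hI0
  refine ⟨hU, ?_, ?_⟩
  · unfold c2 c1 c0
    (repeat' first | assumption | exact Subalgebra.zero_mem _ | exact Subalgebra.one_mem _ | exact num_mem _ _ | exact cst_mem _ _ | apply Subalgebra.add_mem | apply Subalgebra.sub_mem | apply Subalgebra.mul_mem | apply Subalgebra.pow_mem | apply Subalgebra.neg_mem | apply hc.DG)
  · have hVD := p.ng_D (F := A * (Z - 2 * Y + X) + (γ - β)) (by (repeat' first | assumption | exact Subalgebra.zero_mem _ | exact Subalgebra.one_mem _ | exact num_mem _ _ | exact cst_mem _ _ | apply Subalgebra.add_mem | apply Subalgebra.sub_mem | apply Subalgebra.mul_mem | apply Subalgebra.pow_mem | apply Subalgebra.neg_mem | apply hc.DG)) (by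
      have e : p.ev (A * (Z - 2 * Y + X) + (γ - β))
        = p.ev A * (p.ev Z - 2 * p.ev Y + p.ev X) + p.ev (γ - β) := by
        simp only [map_add, map_sub, map_mul, map_ofNat]
      rw [e]
      exact hU)
    obtain ⟨σ, hs⟩ : ∃ s, s = γ - β := ⟨_, rfl⟩
    obtain ⟨τ, ht⟩ : ∃ s, s = δ - γ := ⟨_, rfl⟩
    have hγ' : γ = β + σ := by rw [hs]; ring
    have hδ' : δ = β + σ + τ := by rw [hs, ht]; ring
    rw [← hs] at hVD hU mσ mDσ ⊢
    rw [← ht]
    obtain ⟨l, hl⟩ : ∃ s, s = p.ev (Dv A) / p.ev A := ⟨_, rfl⟩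
    rw [← hl] at hI0 hI1 hDA Bl
    have Bσ := p.s_bd _ mσ
    have Bσ' := p.s_bd _ mDσ
    have eVD : p.ev (Dv (A * (Z - 2 * Y + X) + σ))
        = l * (p.ev A * p.ev Z - 2 * (p.ev A * p.ev Y) + p.ev A * p.ev X)
          + (p.ev β + p.ev σ + p.ev τ) * (p.ev A * p.ev Z)
          - 2 * (p.ev β + p.ev σ) * (p.ev A * p.ev Y) + p.ev β * (p.ev A * p.ev X)
          + p.ev (Dv σ) := by
      have e0 : Dv (A * (Z - 2 * Y + X) + σ) = Dv A * (Z - 2 * Y + X)
          + A * ((β + σ + τ) * Z - 2 * ((β + σ) * Y) + β * X) + Dv σ := by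
        rw [Dadd, Dmul, Dadd, Dsub, Dmul, Dofnat, hDX, hDY, hDZ, ← hδ', ← hγ']; ring
      rw [e0]
      simp only [map_add, map_sub, map_mul, map_ofNat]
      rw [hDA]
      ring
    rw [eVD] at hVD
    have e : p.ev A * p.ev (c2 σ τ * Z + c1 σ * Y + c0 σ * X)
        = p.ev σ * ((l * (p.ev A * p.ev Z - 2 * (p.ev A * p.ev Y) + p.ev A * p.ev X)
          + (p.ev β + p.ev σ + p.ev τ) * (p.ev A * p.ev Z)
          - 2 * (p.ev β + p.ev σ) * (p.ev A * p.ev Y) + p.ev β * (p.ev A * p.ev X)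
          + p.ev (Dv σ))
          - (p.ev A * p.ev Z - 2 * (p.ev A * p.ev Y) + p.ev A * p.ev X)
            * (l + p.ev β + p.ev A * p.ev Y - p.ev A * p.ev X)
          - (p.ev A * p.ev X - p.ev A * p.ev Y)
            * (p.ev A * (p.ev Z - 2 * p.ev Y + p.ev X) + p.ev σ))
          - p.ev (Dv σ) * (p.ev A * (p.ev Z - 2 * p.ev Y + p.ev X) + p.ev σ) := by
      unfold c2 c1 c0
      simp only [map_add, map_sub, map_mul, map_pow, map_neg, map_ofNat]
      ring
    rw [e]
    exact p.ng_sub (p.ng_mul Bσ (p.ng_sub (p.ng_sub hVD (p.ng_mul (by (repeat' first | assumption | exact Place.bd_zero p | exact Place.bd_one p | exact Place.bd_num p _ | exact Place.bd_cst p _ | apply Place.bd_add p | apply Place.bd_sub p | apply Place.bd_mul p | apply Place.bd_pow p | apply Place.bd_neg p)) hI0))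
      (p.ng_mul (by (repeat' first | assumption | exact Place.bd_zero p | exact Place.bd_one p | exact Place.bd_num p _ | exact Place.bd_cst p _ | apply Place.bd_add p | apply Place.bd_sub p | apply Place.bd_mul p | apply Place.bd_pow p | apply Place.bd_neg p)) hU))) (p.ng_mul Bσ' hU)

end Pool.Agent.W671.ZD
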