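import Pool.Agent.W671.ZD7

/-!
The case of a large first logarithmic derivative: conclusion.
-/

set_option autoImplicit false

namespace Pool.Agent.W671.ZD

open Pool.Agent.H159R3.NV

theorem two_ne' : (2 : Ent) ≠ 0 := by
  rw [show (2 : Ent) = cst 2 from (map_ofNat cst 2).symm]; exact cst_ne two_ne_zero

/-- three equal consecutive ratios -/
theorem eq3 (hex : ExCls) {X Xi a β : Ent} (hX : X * Xi = 1) (hD : Dv X = β * X) (hX1 : X ≠ 1)
    (h1 : Dv a * (X - 1) * (X - 1) + a ^ 2 * (X - X) - a * β * (X * X - 1) = 0)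
    (h2 : Dv (a + β) * (X - 1) * (X - 1) + (a + β) ^ 2 * (X - X)
      - (a + β) * β * (X * X - 1) = 0) : β = 0 ∧ Dv a = 0 := by
  have hX1' : X - 1 ≠ 0 := sub_ne_zero.mpr hX1
  have e1 : Dv a * (X - 1) = a * β * (X + 1) := by
    apply mul_left_cancel₀ hX1'
    linear_combination h1
  have e2 : Dv (a + β) * (X - 1) = (a + β) * β * (X + 1) := by
    apply mul_left_cancel₀ hX1'
    linear_combination h2
  have e3 : (Dv β - β ^ 2) * X = β ^ 2 + Dv β := by
    rw [Dadd] at e2
    linear_combination e2 - e1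
  have hβ : β = 0 := by
    by_cases h0 : Dv β - β ^ 2 = 0
    · exact ric_pos (sub_eq_zero.mp h0)
    · apply growth1 hex hX hD
      intro S hS hβS
      refine ⟨Dv β - β ^ 2, by (repeat' first | assumption | exact Subalgebra.zero_mem _ | exact Subalgebra.one_mem _ | exact num_mem _ _ | exact cst_mem _ _ | apply Subalgebra.add_mem | apply Subalgebra.sub_mem | apply Subalgebra.mul_mem | apply Subalgebra.pow_mem | apply Subalgebra.neg_mem | apply hS), h0, ?_⟩
      rw [e3]
      (repeat' first | assumption | exact Subalgebra.zero_mem _ | exact Subalgebra.one_mem _ | exact num_mem _ _ | exact cst_mem _ _ | apply Subalgebra.add_mem | apply Subalgebra.sub_mem | apply Subalgebra.mul_mem | apply Subalgebra.pow_mem | apply Subalgebra.neg_mem | apply hS)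
  refine ⟨hβ, ?_⟩
  rw [hβ, mul_zero, zero_mul] at e1
  exact (mul_eq_zero.mp e1).resolve_right hX1'

theorem caseA' (hex : ExCls) {G S : Subalgebra ℂ Ent} (hc : Cls G S) (p : Place G S)
    {a X Xi β : ℕ → Ent} (sy : Sy 9 a X Xi β) (ha : p.Ng (p.ev (a 0))⁻¹) (haG : a 0 ∈ G)
    (hXG : ∀ n, n ≤ 9 → X n ∈ G) (hXiG : ∀ n, n ≤ 9 → Xi n ∈ G) (hX0 : p.Bd (p.ev (X 0))) :
    False := by
  have ha0 : a 0 ≠ 0 := sy.ane 0 (by norm_num)
  have hβ : ∀ n, n ≤ 9 → β n ∈ S := fun n hn =>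
    hc.LD (X n) (hXG n hn) (left_ne_zero_of_mul_eq_one (sy.inv n hn)) (β n) (sy.der n hn).symm
  have hbS : ∀ n, n ≤ 10 → a n - a 0 ∈ S := by
    intro n
    induction n with
    | zero => intro _; rw [sub_self]; exact S.zero_mem
    | succ n ih =>
      intro hn
      have h1 := sy.bet n (by omega)
      have h2 : a (n + 1) - a 0 = (a n - a 0) + β n := by rw [h1]; ring
      rw [h2]
      exact S.add_mem (ih (by omega)) (hβ n (by omega))
  have hal0 := p.g_ne (a 0) haG ha0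
  have Bl := p.g_ld (a 0) haG ha0
  have haS : a 0 ∉ S := by
    intro h
    have h1 := p.ng_mul (p.s_bd _ h) ha
    rw [mul_inv_cancel₀ hal0] at h1
    exact p.ng_one h1
  -- relation in K
  have rK : ∀ n, n < 9 → (p.ev (a 0) * (p.ev (Dv (a 0)) / p.ev (a 0)) + p.ev (Dv (a n - a 0)))
      * (p.ev (X n) - 1) * (p.ev (X (n + 1)) - 1)
      + (p.ev (a 0) + p.ev (a n - a 0)) ^ 2 * (p.ev (X (n + 1)) - p.ev (X n))
      - (p.ev (a 0) + p.ev (a n - a 0)) * p.ev (β n) * (p.ev (X n) * p.ev (X (n + 1)) - 1) = 0 := by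
    intro n hn
    have h := congrArg p.ev (sy.rel n hn)
    simp only [map_add, map_sub, map_mul, map_pow, map_one, map_zero] at h
    rw [Dsub, map_sub, map_sub, mul_div_cancel₀ _ hal0]
    linear_combination h
  have hali : p.ev (a 0) * (p.ev (a 0))⁻¹ = 1 := mul_inv_cancel₀ hal0
  -- step 1
  have s1 : ∀ n, n ≤ 9 → p.Bd (p.ev (X n)) := by
    intro n
    induction n with
    | zero => intro _; exact hX0
    | succ n ih =>
      intro hn
      exact (p.st1 ha hali Bl (p.s_bd _ (hbS n (by omega))) (p.s_bd _ (hc.DS _ (hbS n (by omega))))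
        (p.s_bd _ (hβ n (by omega))) (ih (by omega)) (rK n (by omega))).1
  have s1' : ∀ n, n < 9 → p.Bd (p.ev (a 0) * (p.ev (X (n + 1)) - p.ev (X n))) := by
    intro n hn
    exact (p.st1 ha hali Bl (p.s_bd _ (hbS n (by omega))) (p.s_bd _ (hc.DS _ (hbS n (by omega))))
        (p.s_bd _ (hβ n (by omega))) (s1 n (by omega)) (rK n (by omega))).2
  -- step 2
  have eqn : ∀ n, n < 9 → p.Ng (p.ev (a 0) * p.ev (X n))⁻¹ → X (n + 1) = X n := by
    intro n hn hng
    have hX0 : X n ≠ 0 := left_ne_zero_of_mul_eq_one (sy.inv n hn.le)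
    have hXn0 := p.g_ne _ (hXG n hn.le) hX0
    obtain ⟨h1, h2, h3⟩ := unit_ratio (sy.inv n hn.le) (sy.inv (n + 1) hn) (sy.der n hn.le)
      (sy.der (n + 1) hn)
    obtain ⟨E, hE⟩ : ∃ s, s = X (n + 1) * Xi n := ⟨_, rfl⟩
    rw [← hE] at h1 h2 h3
    have hEG : E ∈ G := by rw [hE]; exact G.mul_mem (hXG _ hn) (hXiG _ hn.le)
    have mσ : β (n + 1) - β n ∈ S := S.sub_mem (hβ _ hn) (hβ _ hn.le)
    have hE1 : p.Ng (p.ev (E - 1)) := by
      have e : p.ev (E - 1) = (p.ev (a 0) * (p.ev (X (n + 1)) - p.ev (X n)))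
          * (p.ev (a 0) * p.ev (X n))⁻¹ := by
        rw [map_sub, map_one, ← h3, map_mul]
        field_simp
      rw [e]
      exact p.ng_mul (s1' n hn) hng
    have hD := p.ng_D (G.sub_mem hEG G.one_mem) hE1
    rw [Dsub, Done, sub_zero, h2, map_mul] at hD
    have hσ : β (n + 1) - β n = 0 := by
      apply p.s_ng mσ
      have e : p.ev (β (n + 1) - β n) = p.ev (β (n + 1) - β n) * p.ev E
          - p.ev (β (n + 1) - β n) * p.ev (E - 1) := by
        rw [map_sub p.ev E, map_one]; ring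
      rw [e]
      exact p.ng_sub hD (p.ng_mul (p.s_bd _ mσ) hE1)
    rw [hσ, zero_mul] at h2
    obtain ⟨c, hcc⟩ := const_of_D h2
    have hE1' : E - 1 = 0 := by
      apply p.s_ng _ hE1
      rw [hcc]
      exact S.sub_mem (cst_mem S c) S.one_mem
    rw [← h3, sub_eq_zero.mp hE1', one_mul]
  have s2 : ∀ n, n ≤ 7 → p.Bd (p.ev (a 0) * p.ev (X n)) := by
    intro n hn
    by_contra hcon
    have hng := (p.dich (p.ev (a 0) * p.ev (X n))).resolve_left hcon
    have e1 := eqn n (by omega) hng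
    have e2 := eqn (n + 1) (by omega) (by rw [e1]; exact hng)
    have hX0 : X n ≠ 0 := left_ne_zero_of_mul_eq_one (sy.inv n (by omega))
    have hb : β (n + 1) = β n := by
      apply mul_right_cancel₀ hX0
      have := sy.der (n + 1) (by omega)
      rw [e1] at this
      rw [← this, sy.der n (by omega)]
    have ha1 : a (n + 1) = a n + β n := by rw [sy.bet n (by omega)]; ring
    have r1 := sy.rel n (by omega)
    have r2 := sy.rel (n + 1) (by omega)
    rw [e2, hb, ha1, e1] at r2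
    rw [e1] at r1
    obtain ⟨_, h4⟩ := eq3 hex (sy.inv n (by omega)) (sy.der n (by omega)) (sy.xne n (by omega)) r1 r2
    obtain ⟨c, hcc⟩ := const_of_D h4
    apply haS
    have : a 0 = cst c - (a n - a 0) := by rw [← hcc]; ring
    rw [this]
    exact S.sub_mem (cst_mem S c) (hbS n (by omega))
  -- step 3
  have s3 : ∀ n, n ≤ 6 → p.Ng (p.ev (Dv (a 0)) / p.ev (a 0) + p.ev (β n)
      + p.ev (a 0) * p.ev (X (n + 1)) - p.ev (a 0) * p.ev (X n)) := by
    intro n hn
    exact p.st3 ha hali Bl (p.s_bd _ (hbS n (by omega))) (p.s_bd _ (hc.DS _ (hbS n (by omega))))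
      (p.s_bd _ (hβ n (by omega))) (s2 n (by omega)) (s2 (n + 1) (by omega)) (rK n (by omega))
  -- types
  have ty : ∀ m, m ≤ 5 → β (m + 1) - β m ≠ 0 →
      (NN p (p.ev (a 0)) (X m) ∧ c2 (β (m + 1) - β m) (β (m + 2) - β (m + 1)) * X (m + 2)
        + c1 (β (m + 1) - β m) * X (m + 1) = 0 ∧ ¬ NN p (p.ev (a 0)) (X (m + 1)) ∧
      ¬ NN p (p.ev (a 0)) (X (m + 2))) ∨
      (NN p (p.ev (a 0)) (X (m + 1)) ∧ c2 (β (m + 1) - β m) (β (m + 2) - β (m + 1)) * X (m + 2)
        + c0 (β (m + 1) - β m) * X m = 0 ∧ ¬ NN p (p.ev (a 0)) (X m) ∧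
      ¬ NN p (p.ev (a 0)) (X (m + 2))) := by
    intro m hm hσ
    obtain ⟨h1, h2⟩ := relH hc p haG ha0 (hXG m (by omega)) (hXG (m + 1) (by omega))
      (hXG (m + 2) (by omega)) (sy.der m (by omega)) (sy.der (m + 1) (by omega))
      (sy.der (m + 2) (by omega)) (hβ m (by omega)) (hβ (m + 1) (by omega))
      (hβ (m + 2) (by omega)) (s2 m (by omega)) (s2 (m + 1) (by omega)) (s2 (m + 2) (by omega))
      (s3 m (by omega)) (s3 (m + 1) (by omega))
    exact types hex hc p haG ha0 (sy.inv m (by omega)) (sy.inv (m + 1) (by omega))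
      (sy.inv (m + 2) (by omega)) (hXG m (by omega)) (hXG (m + 1) (by omega))
      (hXG (m + 2) (by omega)) (sy.der m (by omega)) (sy.der (m + 1) (by omega))
      (sy.der (m + 2) (by omega)) (hβ m (by omega)) (hβ (m + 1) (by omega))
      (hβ (m + 2) (by omega)) hσ h1 h2
  have cratio : ∀ m, m ≤ 8 → β (m + 1) - β m = 0 → ∃ κ : ℂ, X (m + 1) = cst κ * X m := by
    intro m hm h0
    apply prop_of_D (left_ne_zero_of_mul_eq_one (sy.inv m (by omega)))
    rw [sy.der m (by omega), sy.der (m + 1) (by omega)]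
    linear_combination (- X m * X (m + 1)) * h0
  -- first type
  have d1 : ∀ m, m ≤ 4 → β (m + 1) - β m ≠ 0 →
      c2 (β (m + 1) - β m) (β (m + 2) - β (m + 1)) * X (m + 2)
        + c1 (β (m + 1) - β m) * X (m + 1) = 0 → ¬ NN p (p.ev (a 0)) (X (m + 1)) →
      ¬ NN p (p.ev (a 0)) (X (m + 2)) →
      β (m + 2) - β (m + 1) = 0 ∧ Dv (β (m + 1) - β m) = 0 := by
    intro m hm hσ hrel h1 h2
    have h3 : β (m + 2) - β (m + 1) = 0 := by
      by_contra hne
      rcases ty (m + 1) (by omega) hne with ⟨h4, _⟩ | ⟨h4, _⟩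
      · exact h1 h4
      · exact h2 h4
    refine ⟨h3, ?_⟩
    obtain ⟨κ, hκ⟩ := cratio (m + 1) (by omega) h3
    rw [h3, hκ] at hrel
    have hX0 : X (m + 1) ≠ 0 := left_ne_zero_of_mul_eq_one (sy.inv (m + 1) (by omega))
    have h5 : c2 (β (m + 1) - β m) 0 * cst κ + c1 (β (m + 1) - β m) = 0 := by
      apply mul_right_cancel₀ hX0
      linear_combination hrel
    unfold c2 c1 at h5
    apply riccati2 (r := κ - 2) (s := κ - 1)
    · by_cases h : κ - 2 = 0
      · right
        rw [sub_eq_zero.mp h]; norm_num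
      · left; exact h
    · rw [show cst (κ - 2) = cst κ - 2 by rw [map_sub, map_ofNat],
        show cst (κ - 1) = cst κ - 1 by rw [map_sub, map_one]]
      linear_combination -h5
  -- no second type
  have d2 : ∀ m, m ≤ 3 → β (m + 1) - β m ≠ 0 → NN p (p.ev (a 0)) (X (m + 1)) →
      c2 (β (m + 1) - β m) (β (m + 2) - β (m + 1)) * X (m + 2)
        + c0 (β (m + 1) - β m) * X m = 0 → ¬ NN p (p.ev (a 0)) (X (m + 2)) → False := by
    intro m hm hσ h1 hrel h2
    by_cases h3 : β (m + 2) - β (m + 1) = 0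
    · obtain ⟨κ, hκ⟩ := cratio (m + 1) (by omega) h3
      apply h2
      rw [show m + 2 = m + 1 + 1 from rfl, hκ]
      exact NN_smul hc p (cst_mem S κ) h1
    · rcases ty (m + 1) (by omega) h3 with ⟨_, h4, h5, h6⟩ | ⟨h4, _⟩
      · obtain ⟨_, h8⟩ := d1 (m + 1) (by omega) h3 h4 h5 h6
        exact g4 hex (sy.inv m (by omega)) (sy.inv (m + 2) (by omega)) (sy.der m (by omega))
          (sy.der (m + 2) (by omega)) hσ h8 hrel
      · exact h2 h4
  -- combined
  have cl : ∀ m, m ≤ 3 → β (m + 1) - β m = 0 ∨ (NN p (p.ev (a 0)) (X m) ∧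
      ¬ NN p (p.ev (a 0)) (X (m + 2)) ∧ β (m + 2) - β (m + 1) = 0) := by
    intro m hm
    by_cases hσ : β (m + 1) - β m = 0
    · left; exact hσ
    · right
      rcases ty m (by omega) hσ with ⟨h1, h2, h3, h4⟩ | ⟨h1, h2, h3, h4⟩
      · exact ⟨h1, h4, (d1 m (by omega) hσ h2 h3 h4).1⟩
      · exact absurd (d2 m hm hσ h1 h2 h4) id
  have two : ∃ m, m ≤ 2 ∧ β (m + 1) - β m = 0 ∧ β (m + 2) - β (m + 1) = 0 := by
    rcases cl 0 (by norm_num) with h0 | ⟨_, h0, h0'⟩
    · rcases cl 1 (by norm_num) with h1 | ⟨_, h1, h1'⟩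
      · exact ⟨0, by norm_num, h0, h1⟩
      · rcases cl 3 (by norm_num) with h3 | ⟨h3, _⟩
        · exact ⟨2, by norm_num, h1', h3⟩
        · exact absurd h3 h1
    · rcases cl 2 (by norm_num) with h2 | ⟨h2, _⟩
      · exact ⟨1, by norm_num, h0', h2⟩
      · exact absurd h2 h0
  obtain ⟨m, hm, hs1, hs2⟩ := two
  obtain ⟨κ, hκ⟩ := cratio m (by omega) hs1
  obtain ⟨κ', hκ'⟩ := cratio (m + 1) (by omega) hs2
  have hκ2 : X (m + 1 + 1) = cst κ' * (cst κ * X m) := by rw [hκ', hκ]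
  have hβ1 : β (m + 1) = β m := sub_eq_zero.mp hs1
  have ha1 : a (m + 1) = a m + β m := by rw [sy.bet m (by omega)]; ring
  have r1 := sy.rel m (by omega)
  have r2 := sy.rel (m + 1) (by omega)
  rw [hκ] at r1
  rw [hκ2, hκ, hβ1, ha1] at r2
  have hamG : a m ∈ G := by
    have : a m = a 0 + (a m - a 0) := by ring
    rw [this]
    exact G.add_mem haG (hc.SG (hbS m (by omega)))
  have Bb := p.s_bd _ (hbS m (by omega))
  obtain ⟨h5, h6⟩ := p.one_add_ng (e := (p.ev (a 0))⁻¹ * p.ev (a m - a 0)) (p.ng_mul' ha Bb)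
  have hev : p.ev (a m) = p.ev (a 0) * (1 + (p.ev (a 0))⁻¹ * p.ev (a m - a 0)) := by
    rw [mul_add, mul_one, mul_inv_cancel_left₀ hal0, map_sub]; ring
  have ham : p.Ng (p.ev (a m))⁻¹ := by
    rw [hev, mul_inv]
    exact p.ng_mul' ha h6
  refine step5 hc p hamG (sy.inv m (by omega)) (hXG m (by omega)) (sy.der m (by omega))
    (hβ m (by omega)) ham (sy.ane m (by omega)) ?_ r1 r2
  have e : p.ev (a m) * p.ev (X m) = p.ev (a 0) * p.ev (X m) + p.ev (a m - a 0) * p.ev (X m) := by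
    rw [map_sub]; ring
  rw [e]
  exact p.bd_add (s2 m (by omega)) (p.bd_mul Bb (s1 m (by omega)))

theorem caseA (hex : ExCls) {G S : Subalgebra ℂ Ent} (hc : Cls G S)
    {a X Xi β : ℕ → Ent} (sy : Sy 9 a X Xi β) (haG : a 0 ∈ G) (haS : a 0 ∉ S)
    (hXG : ∀ n, n ≤ 9 → X n ∈ G) (hXiG : ∀ n, n ≤ 9 → Xi n ∈ G) : False := by
  obtain ⟨p, hp⟩ := hc.pl (a 0) haG haS
  rcases p.dich (p.ev (X 0)) with h | h
  · exact caseA' hex hc p sy hp haG hXG hXiG h
  · have e : (p.ev (X 0))⁻¹ = p.ev (Xi 0) := by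
      apply inv_eq_of_mul_eq_one_right
      rw [← map_mul, sy.inv 0 (by norm_num), map_one]
    rw [e] at h
    refine caseA' hex hc p sy.symm ?_ ?_ hXiG hXG (p.ng_bd h)
    · rw [map_neg, inv_neg]
      exact p.ng_neg hp
    · exact G.neg_mem haG

/-- the structure of the system -/
theorem core (hex : ExCls) {a X Xi β : ℕ → Ent} (sy : Sy 10 a X Xi β) :
    ((∀ n, n ≤ 10 → β n = 0) ∧ Dv (a 0) = 0) ∨
    (β 0 = a 0 ∧ Dv (a 0) = 0 ∧ ∀ n, 1 ≤ n → n ≤ 10 → β n = 0) := by
  classical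
  -- constant ratios
  have hconst : ∀ n, n < 10 → β n = 0 → β (n + 1) = 0 → Dv (a n) = 0 := by
    intro n hn h0 h1
    have hD0 := sy.der n (by omega)
    have hD1 := sy.der (n + 1) (by omega)
    rw [h0, zero_mul] at hD0
    rw [h1, zero_mul] at hD1
    obtain ⟨x, hx⟩ := const_of_D hD0
    obtain ⟨y, hy⟩ := const_of_D hD1
    have hx1 : x - 1 ≠ 0 := by
      intro h
      apply sy.xne n (by omega)
      rw [hx, sub_eq_zero.mp h, map_one]
    have hy1 : y - 1 ≠ 0 := by
      intro h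
      apply sy.xne (n + 1) (by omega)
      rw [hy, sub_eq_zero.mp h, map_one]
    have r := sy.rel n hn
    rw [h0, hx, hy] at r
    apply riccati2 (r := (x - 1) * (y - 1)) (s := x - y) (Or.inl (mul_ne_zero hx1 hy1))
    simp only [map_mul, map_sub, map_one]
    linear_combination r
  by_cases hall : ∀ n, n ≤ 10 → β n = 0
  · left
    exact ⟨hall, hconst 0 (by norm_num) (hall 0 (by norm_num)) (hall 1 (by norm_num))⟩
  · right
    push Not at hall
    obtain ⟨n0, hn0, hβn0⟩ := hall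
    obtain ⟨G, S, hc, hG, hw⟩ := hex (insert (a 0) ((Finset.range 11).image X ∪
      (Finset.range 11).image Xi)) (X n0) (Xi n0) (β n0)
      (Finset.mem_insert_of_mem (Finset.mem_union_left _ (Finset.mem_image_of_mem _
        (Finset.mem_range.mpr (by omega)))))
      (Finset.mem_insert_of_mem (Finset.mem_union_right _ (Finset.mem_image_of_mem _
        (Finset.mem_range.mpr (by omega)))))
      (sy.inv n0 hn0) (sy.der n0 hn0) hβn0
    have haG : a 0 ∈ G := hG _ (Finset.mem_insert_self _ _)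
    have hXG : ∀ n, n ≤ 10 → X n ∈ G := fun n hn => hG _
      (Finset.mem_insert_of_mem (Finset.mem_union_left _ (Finset.mem_image_of_mem _
        (Finset.mem_range.mpr (by omega)))))
    have hXiG : ∀ n, n ≤ 10 → Xi n ∈ G := fun n hn => hG _
      (Finset.mem_insert_of_mem (Finset.mem_union_right _ (Finset.mem_image_of_mem _
        (Finset.mem_range.mpr (by omega)))))
    have haS : a 0 ∈ S := by
      by_contra haS
      exact caseA hex hc (sy.restr (by norm_num)) haG haS (fun n hn => hXG n (by omega))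
        (fun n hn => hXiG n (by omega))
    have hw' : ∃ n, n ≤ 9 + 1 ∧ (X n ∉ S ∨ Xi n ∉ S) := by
      obtain ⟨w, hw1, hw2⟩ := hw
      rcases Finset.mem_insert.mp hw1 with rfl | hw1
      · exact absurd haS hw2
      rcases Finset.mem_union.mp hw1 with hw1 | hw1
      · obtain ⟨n, hn, rfl⟩ := Finset.mem_image.mp hw1
        exact ⟨n, by have := Finset.mem_range.mp hn; omega, Or.inl hw2⟩
      · obtain ⟨n, hn, rfl⟩ := Finset.mem_image.mp hw1
        exact ⟨n, by have := Finset.mem_range.mp hn; omega, Or.inr hw2⟩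
    obtain ⟨⟨hX1, hXi1⟩, hX0, hβ0⟩ := caseB hc (N := 9) sy hXG hXiG haS hw'
    have ha1 : a 1 = a 0 + β 0 := by rw [sy.bet 0 (by norm_num)]; ring
    by_cases hall1 : ∀ n, 1 ≤ n → n ≤ 10 → β n = 0
    · refine ⟨hβ0, ?_, hall1⟩
      have h1 := hconst 1 (by norm_num) (hall1 1 le_rfl (by norm_num))
        (hall1 2 (by norm_num) (by norm_num))
      rw [ha1, hβ0, Dadd] at h1
      have h2 : 2 * Dv (a 0) = 0 := by linear_combination h1
      exact (mul_eq_zero.mp h2).resolve_left two_ne'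
    · exfalso
      push Not at hall1
      obtain ⟨n1, hn1, hn1', hβn1⟩ := hall1
      obtain ⟨G', S', hc', hG', hw1⟩ := hex (insert (a 1) ((Finset.range 10).image
        (fun n => X (n + 1)) ∪ (Finset.range 10).image (fun n => Xi (n + 1)))) (X n1) (Xi n1) (β n1)
        (Finset.mem_insert_of_mem (Finset.mem_union_left _ (Finset.mem_image.mpr
          ⟨n1 - 1, Finset.mem_range.mpr (by omega), by rw [Nat.sub_add_cancel hn1]⟩)))
        (Finset.mem_insert_of_mem (Finset.mem_union_right _ (Finset.mem_image.mpr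
          ⟨n1 - 1, Finset.mem_range.mpr (by omega), by rw [Nat.sub_add_cancel hn1]⟩)))
        (sy.inv n1 hn1') (sy.der n1 hn1') hβn1
      have sy' : Sy 9 (fun n => a (n + 1)) (fun n => X (n + 1)) (fun n => Xi (n + 1))
        (fun n => β (n + 1)) := Sy.shift sy
      have haG' : a 1 ∈ G' := hG' _ (Finset.mem_insert_self _ _)
      have hXG' : ∀ n, n ≤ 9 → X (n + 1) ∈ G' := fun n hn => hG' _
        (Finset.mem_insert_of_mem (Finset.mem_union_left _ (Finset.mem_image.mpr
          ⟨n, Finset.mem_range.mpr (by omega), rfl⟩)))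
      have hXiG' : ∀ n, n ≤ 9 → Xi (n + 1) ∈ G' := fun n hn => hG' _
        (Finset.mem_insert_of_mem (Finset.mem_union_right _ (Finset.mem_image.mpr
          ⟨n, Finset.mem_range.mpr (by omega), rfl⟩)))
      have haS' : a 1 ∈ S' := by
        by_contra haS'
        exact caseA hex hc' sy' haG' haS' hXG' hXiG'
      have hw1' : ∃ n, n ≤ 8 + 1 ∧ (X (n + 1) ∉ S' ∨ Xi (n + 1) ∉ S') := by
        obtain ⟨w, hw1, hw2⟩ := hw1
        rcases Finset.mem_insert.mp hw1 with rfl | hw1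
        · exact absurd haS' hw2
        rcases Finset.mem_union.mp hw1 with hw1 | hw1
        · obtain ⟨n, hn, rfl⟩ := Finset.mem_image.mp hw1
          exact ⟨n, by have := Finset.mem_range.mp hn; omega, Or.inl hw2⟩
        · obtain ⟨n, hn, rfl⟩ := Finset.mem_image.mp hw1
          exact ⟨n, by have := Finset.mem_range.mp hn; omega, Or.inr hw2⟩
      obtain ⟨_, _, hβ1⟩ := caseB hc' (N := 8) sy' hXG' hXiG' haS' hw1'
      have hβ1' : β 1 = a 1 := hβ1
      have hX0ne : X 0 ≠ 0 := left_ne_zero_of_mul_eq_one (sy.inv 0 (by norm_num))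
      have hX1ne : X 1 ≠ 0 := left_ne_zero_of_mul_eq_one (sy.inv 1 (by norm_num))
      obtain ⟨x, hx⟩ := prop_of_D (a := X 0 ^ 2) (b := X 1) hX1ne (by
        rw [Dpow2, sy.der 0 (by norm_num), sy.der 1 (by norm_num), hβ1', ha1, hβ0]
        ring)
      have := hc.uq (sy.inv 0 (by norm_num)) (hXG 0 (by norm_num)) (hXiG 0 (by norm_num)) hX0
        S.one_mem S.zero_mem (p0 := - (cst x * X 1)) (S.neg_mem (S.mul_mem (cst_mem S x) hX1))
        (by linear_combination hx)
      exact one_ne_zero this.1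

end Pool.Agent.W671.ZD
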